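import Pool.Agent.H23.Rank

/-!
# Global and everywhere local solubility of the descent quartics
-/

namespace Pool.Agent.H23

open WeierstrassCurve WeierstrassCurve.Affine

/-- `N² = d M⁴ + a M² e² + (b/d) e⁴` has a solution with `(M, e) ≠ (0, 0)` in `K`. -/
def QSol (K : Type*) [Field K] (a b d : ℤ) : Prop :=
  ∃ N M e : K, (M ≠ 0 ∨ e ≠ 0) ∧
    N ^ 2 = (d : K) * M ^ 4 + (a : K) * M ^ 2 * e ^ 2 + ((b / d : ℤ) : K) * e ^ 4

/-- The squarefree `d ∣ b` whose quartic has a rational point. -/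
def Glob (a b : ℤ) : Set ℤ := {d : ℤ | Squarefree d ∧ d ∣ b ∧ QSol ℚ a b d}

/-- The squarefree `d ∣ b` whose quartic is everywhere locally soluble. -/
def Sel (a b : ℤ) : Set ℤ :=
  {b₁ : ℤ | Squarefree b₁ ∧ b₁ ∣ b ∧
    (∃ N M e : ℝ, (M ≠ 0 ∨ e ≠ 0) ∧
      N ^ 2 = (b₁ : ℝ) * M ^ 4 + (a : ℝ) * M ^ 2 * e ^ 2 + ((b / b₁ : ℤ) : ℝ) * e ^ 4) ∧
    ∀ (p : ℕ) [Fact p.Prime], ∃ N M e : Padic p, (M ≠ 0 ∨ e ≠ 0) ∧
      N ^ 2 = (b₁ : Padic p) * M ^ 4 + (a : Padic p) * M ^ 2 * e ^ 2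
        + ((b / b₁ : ℤ) : Padic p) * e ^ 4}

theorem QSol.cast {K L : Type*} [Field K] [Field L] (f : K →+* L) {a b d : ℤ}
    (h : QSol K a b d) : QSol L a b d := by
  obtain ⟨N, M, e, h0, h1⟩ := h
  refine ⟨f N, f M, f e, ?_, ?_⟩
  · rcases h0 with h | h
    · left; simpa using h
    · right; simpa using h
  · have := congrArg f h1
    simpa using this

theorem glob_subset_sel (a b : ℤ) : Glob a b ⊆ Sel a b := by
  rintro d ⟨h1, h2, h3⟩
  refine ⟨h1, h2, h3.cast (algebraMap ℚ ℝ), ?_⟩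
  intro p _
  exact h3.cast (algebraMap ℚ ℚ_[p])

theorem sel_finite (a b : ℤ) (hb : b ≠ 0) : (Sel a b).Finite := by
  refine Set.Finite.subset (Set.finite_Icc (-|b|) |b|) ?_
  rintro d ⟨_, h2, _⟩
  have : |d| ≤ |b| := by
    have := Int.natAbs_le_of_dvd_ne_zero h2 hb
    rw [Int.abs_eq_natAbs, Int.abs_eq_natAbs]
    exact_mod_cast this
  exact abs_le.mp this

theorem glob_finite (a b : ℤ) (hb : b ≠ 0) : (Glob a b).Finite :=
  (sel_finite a b hb).subset (glob_subset_sel a b)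

/-! ### Squarefree parts -/

theorem exists_squarefree_rat (x : ℚ) (hx : x ≠ 0) :
    ∃ d : ℤ, Squarefree d ∧ ∃ t : ℚ, t ≠ 0 ∧ x = d * t ^ 2 := by
  obtain ⟨s, m, hsm, hs⟩ := Nat.sq_mul_squarefree (x.num * x.den).natAbs
  have hden : (x.den : ℚ) ≠ 0 := by exact_mod_cast x.den_ne_zero
  have hnum : x.num ≠ 0 := Rat.num_ne_zero.mpr hx
  have hne : (x.num * x.den).natAbs ≠ 0 := by
    rw [Int.natAbs_ne_zero]; exact mul_ne_zero hnum (by exact_mod_cast x.den_ne_zero)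
  have hm : m ≠ 0 := by
    rintro rfl; apply hne; rw [← hsm]; ring
  have hmq : (m : ℚ) ≠ 0 := by exact_mod_cast hm
  have hx' : x * (x.den : ℚ) ^ 2 = ((x.num * x.den : ℤ) : ℚ) := by
    push_cast
    have := Rat.mul_den_eq_num x
    linear_combination (x.den : ℚ) * this
  have key : ∀ ε : ℤ, (ε = 1 ∨ ε = -1) → x.num * x.den = ε * (m ^ 2 * s : ℕ) →
      ∃ d : ℤ, Squarefree d ∧ ∃ t : ℚ, t ≠ 0 ∧ x = d * t ^ 2 := by
    intro ε hε h
    refine ⟨ε * s, ?_, m / x.den, div_ne_zero hmq hden, ?_⟩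
    · rw [← Int.squarefree_natAbs, Int.natAbs_mul]
      rcases hε with rfl | rfl <;> simpa using hs
    · rw [h] at hx'
      push_cast at hx'
      rw [div_pow, ← mul_div_assoc, eq_div_iff (pow_ne_zero _ hden), hx']
      push_cast
      ring
  rcases Int.natAbs_eq (x.num * x.den) with h | h
  · exact key 1 (Or.inl rfl) (by rw [hsm, one_mul]; exact h)
  · exact key (-1) (Or.inr rfl) (by rw [hsm, neg_one_mul]; exact h)

/-- Two squarefree integers whose product is a rational square are equal. -/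
theorem squarefree_eq_of_mul_sq {c d : ℤ} (hc : Squarefree c) (hd : Squarefree d)
    (h : ∃ t : ℚ, (c : ℚ) * d = t ^ 2) : c = d := by
  obtain ⟨t, ht⟩ := h
  have hc0 : c ≠ 0 := hc.ne_zero
  have hd0 : d ≠ 0 := hd.ne_zero
  have hint : ∃ n : ℤ, c * d = n ^ 2 := by
    have : IsSquare ((c * d : ℤ) : ℚ) := ⟨t, by push_cast; rw [ht]; ring⟩
    rw [Rat.isSquare_intCast_iff] at this
    obtain ⟨n, hn⟩ := this
    exact ⟨n, by rw [hn]; ring⟩
  obtain ⟨n, hn⟩ := hint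
  have hdvd : ∀ u v : ℤ, Squarefree u → u * v = n ^ 2 → u ≠ 0 → u ∣ v := by
    intro u v hu huv hu0
    have h1 : u ∣ n ^ 2 := ⟨v, huv.symm⟩
    have h2 : u ∣ n := (hu.dvd_pow_iff_dvd two_ne_zero).mp h1
    obtain ⟨k, hk⟩ := h2
    refine ⟨k ^ 2, ?_⟩
    have : u * v = u * (u * k ^ 2) := by rw [huv, hk]; ring
    exact mul_left_cancel₀ hu0 this
  have h1 : c ∣ d := hdvd c d hc hn hc0
  have h2 : d ∣ c := hdvd d c hd (by rw [mul_comm]; exact hn) hd0
  rcases Int.associated_iff.mp (associated_of_dvd_dvd h1 h2) with h | h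
  · exact h
  · exfalso
    rw [h] at hn
    have : n ^ 2 ≥ 0 := sq_nonneg n
    have : d ^ 2 > 0 := by positivity
    nlinarith

theorem squarefree_dvd_of_primes {d b : ℤ} (hd : Squarefree d)
    (h : ∀ p : ℤ, Prime p → p ∣ d → p ∣ b) : d ∣ b := by
  rcases eq_or_ne b 0 with rfl | hb
  · exact dvd_zero _
  rw [UniqueFactorizationMonoid.dvd_iff_normalizedFactors_le_normalizedFactors hd.ne_zero hb]
  rw [Multiset.le_iff_count]
  intro p
  by_cases hp : p ∈ UniqueFactorizationMonoid.normalizedFactors d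
  · have h1 := (UniqueFactorizationMonoid.squarefree_iff_nodup_normalizedFactors hd.ne_zero).mp hd
    rw [Multiset.count_eq_one_of_mem h1 hp, Multiset.one_le_count_iff_mem]
    have hpp := UniqueFactorizationMonoid.prime_of_normalized_factor p hp
    have hpd := UniqueFactorizationMonoid.dvd_of_mem_normalizedFactors hp
    rw [UniqueFactorizationMonoid.mem_normalizedFactors_iff' hb]
    refine ⟨hpp.irreducible, ?_, h p hpp hpd⟩
    exact UniqueFactorizationMonoid.normalize_normalized_factor p hp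
  · rw [Multiset.count_eq_zero_of_notMem hp]; exact Nat.zero_le _

/-- The squarefree part of the `x`-coordinate of a rational point divides `b`. -/
theorem dvd_of_point {a b : ℤ} {d : ℤ} (hd : Squarefree d) {t y : ℚ} (ht : t ≠ 0)
    (h : y ^ 2 = (d * t ^ 2) ^ 3 + a * (d * t ^ 2) ^ 2 + b * (d * t ^ 2)) : d ∣ b := by
  apply squarefree_dvd_of_primes hd
  intro p hp hpd
  by_contra hpb
  have hd0 : (d : ℚ) ≠ 0 := by exact_mod_cast hd.ne_zero
  set M := t.num with hM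
  set e : ℤ := (t.den : ℤ) with he
  have he0 : (e : ℚ) ≠ 0 := by rw [he]; exact_mod_cast t.den_ne_zero
  have ht' : t = M / e := by rw [hM, he]; exact_mod_cast (Rat.num_div_den t).symm
  have hM0 : (M : ℚ) ≠ 0 := by
    intro h0; apply ht; rw [ht', h0]; simp
  have hcop : IsCoprime M e := by
    rw [hM, he, Int.isCoprime_iff_nat_coprime]
    simpa using t.reduced
  -- integrality of w
  have hw : IsSquare (((d * (d ^ 2 * M ^ 4 + a * d * M ^ 2 * e ^ 2 + b * e ^ 4) : ℤ)) : ℚ) := by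
    refine ⟨y * e ^ 3 / M, ?_⟩
    have : (y * e ^ 3 / M) * (y * e ^ 3 / M) = y ^ 2 * e ^ 6 / M ^ 2 := by
      field_simp
    rw [this, h, ht']
    push_cast
    field_simp
  rw [Rat.isSquare_intCast_iff] at hw
  obtain ⟨w, hw⟩ := hw
  obtain ⟨d', hd'⟩ := hpd
  have hp0 : p ≠ 0 := hp.ne_zero
  have hpd' : ¬ p ∣ d' := by
    rintro ⟨k, hk⟩
    have : p * p ∣ d := ⟨k, by rw [hd', hk]; ring⟩
    exact hp.not_isUnit (hd p this)
  have h1 : p ∣ w := by
    have : p ∣ w * w := ⟨d' * (d ^ 2 * M ^ 4 + a * d * M ^ 2 * e ^ 2 + b * e ^ 4), by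
      rw [← hw, hd']; ring⟩
    exact (hp.dvd_or_dvd this).elim id id
  obtain ⟨w', hw'⟩ := h1
  have h2 : p * (w' ^ 2) = d' * (d ^ 2 * M ^ 4 + a * d * M ^ 2 * e ^ 2 + b * e ^ 4) := by
    have : p * (p * w' ^ 2) = p * (d' * (d ^ 2 * M ^ 4 + a * d * M ^ 2 * e ^ 2 + b * e ^ 4)) := by
      have : p * (p * w' ^ 2) = w * w := by rw [hw']; ring
      rw [this, ← hw, hd']; ring
    exact mul_left_cancel₀ hp0 this
  have h3 : p ∣ e := by
    have : p ∣ d' * (b * e ^ 4) := by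
      have h4 : d' * (b * e ^ 4) = p * (w' ^ 2) - d' * (d ^ 2 * M ^ 4 + a * d * M ^ 2 * e ^ 2) := by
        rw [h2]; ring
      rw [h4, hd']
      exact ⟨w' ^ 2 - d' * (p * d' ^ 2 * M ^ 4 + a * d' * M ^ 2 * e ^ 2), by ring⟩
    rcases hp.dvd_or_dvd this with h | h
    · exact absurd h hpd'
    · rcases hp.dvd_or_dvd h with h | h
      · exact absurd h hpb
      · exact hp.dvd_of_dvd_pow h
  obtain ⟨e', he'⟩ := h3
  have h5 : w' ^ 2 = p * (d' * (d' ^ 2 * M ^ 4 + a * p * d' * M ^ 2 * e' ^ 2 +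
      b * p ^ 2 * e' ^ 4)) := by
    have : p * w' ^ 2 = p * (p * (d' * (d' ^ 2 * M ^ 4 + a * p * d' * M ^ 2 * e' ^ 2 +
      b * p ^ 2 * e' ^ 4))) := by
      rw [h2, hd', he']; ring
    exact mul_left_cancel₀ hp0 this
  have h6 : p ∣ w' := hp.dvd_of_dvd_pow (n := 2) ⟨_, h5⟩
  obtain ⟨w'', hw''⟩ := h6
  have h7 : p * w'' ^ 2 = d' * (d' ^ 2 * M ^ 4 + a * p * d' * M ^ 2 * e' ^ 2 +
      b * p ^ 2 * e' ^ 4) := by
    have : p * (p * w'' ^ 2) = p * (d' * (d' ^ 2 * M ^ 4 + a * p * d' * M ^ 2 * e' ^ 2 +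
      b * p ^ 2 * e' ^ 4)) := by
      rw [← h5, hw'']; ring
    exact mul_left_cancel₀ hp0 this
  have h8 : p ∣ d' ^ 3 * M ^ 4 := by
    refine ⟨w'' ^ 2 - d' * (a * d' * M ^ 2 * e' ^ 2 + b * p * e' ^ 4), ?_⟩
    rw [mul_sub, h7]; ring
  have h9 : p ∣ M := by
    rcases hp.dvd_or_dvd h8 with h | h
    · exact absurd (hp.dvd_of_dvd_pow h) hpd'
    · exact hp.dvd_of_dvd_pow h
  exact hp.not_isUnit (hcop.isUnit_of_dvd' h9 ⟨e', he'⟩)

/-! ### The image of `α` and the set `Glob` -/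

theorem int_ne_unit {d : ℤ} (hd : Squarefree d) : (d : ℚ) ≠ 0 := by
  exact_mod_cast hd.ne_zero

/-- The class of a nonzero integer modulo rational squares. -/
def icl (d : ℤ) : SqCl ℚ := if h : (d : ℚ) ≠ 0 then sqc (Units.mk0 (d : ℚ) h) else 0

theorem icl_eq {d : ℤ} (h : (d : ℚ) ≠ 0) : icl d = sqc (Units.mk0 (d : ℚ) h) := by
  unfold icl; rw [dif_pos h]

theorem icl_injOn {c d : ℤ} (hc : Squarefree c) (hd : Squarefree d) (h : icl c = icl d) :
    c = d := by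
  rw [icl_eq (int_ne_unit hc), icl_eq (int_ne_unit hd), sqc_eq_iff] at h
  obtain ⟨t, ht⟩ := h
  exact squarefree_eq_of_mul_sq hc hd ⟨t, by simpa using ht⟩

theorem sqc_eq_of_sq {K : Type*} [Field K] {u v : Kˣ} {t : K} (h : (u : K) = v * t ^ 2) :
    sqc u = sqc v := by
  rw [sqc_eq_iff]
  exact ⟨v * t, by push_cast; rw [h]; ring⟩

theorem icl_mem_range {a b : ℤ} (G : Good (a : ℚ) (b : ℚ)) {d : ℤ} (hd : d ∈ Glob a b) :
    icl d ∈ (alpha G).range := by
  obtain ⟨hsq, hdb, N, M, e, h0, h1⟩ := hd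
  have hd0 : (d : ℚ) ≠ 0 := int_ne_unit hsq
  have hb0 : (b : ℚ) ≠ 0 := G.hb
  rw [icl_eq hd0, AddMonoidHom.mem_range]
  have hq : ((b / d : ℤ) : ℚ) = b / d := by
    obtain ⟨k, hk⟩ := hdb
    have hdz : d ≠ 0 := hsq.ne_zero
    rw [hk, Int.mul_ediv_cancel_left _ hdz]
    push_cast
    field_simp
  rw [hq] at h1
  by_cases he : e = 0
  · -- d is a square
    subst he
    have hM : M ≠ 0 := h0.resolve_right (by simp)
    refine ⟨0, ?_⟩
    rw [map_zero, eq_comm, sqc_eq_zero_iff]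
    refine ⟨N / M ^ 2, ?_⟩
    rw [Units.val_mk0, div_pow, h1]
    field_simp
    ring
  by_cases hM : M = 0
  · -- b / d is a square
    subst hM
    have hT : (0 : ℚ) ^ 2 = 0 ^ 3 + a * 0 ^ 2 + b * 0 := by ring
    refine ⟨mkP G 0 0 hT, ?_⟩
    rw [alpha_apply]
    apply sqc_eq_of_sq (t := N / e ^ 2)
    rw [xu_mk_zero G _ rfl, Units.val_mk0, div_pow, h1]
    field_simp
    ring
  · have hx : (d : ℚ) * (M / e) ^ 2 ≠ 0 :=
      mul_ne_zero hd0 (pow_ne_zero _ (div_ne_zero hM he))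
    have hE : (d * M * N / e ^ 3) ^ 2 = (d * (M / e) ^ 2) ^ 3 + a * (d * (M / e) ^ 2) ^ 2 +
        b * (d * (M / e) ^ 2) := by
      have : (d * M * N / e ^ 3) ^ 2 = d ^ 2 * M ^ 2 * N ^ 2 / e ^ 6 := by field_simp
      rw [this, h1]
      field_simp
    refine ⟨mkP G _ _ hE, ?_⟩
    rw [alpha_apply]
    apply sqc_eq_of_sq (t := M / e)
    rw [xu_mk G _ hx, Units.val_mk0]

theorem mem_glob_of_alpha {a b : ℤ} (G : Good (a : ℚ) (b : ℚ)) (P : (EC (a : ℚ) b).toAffine.Point) :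
    ∃ d ∈ Glob a b, icl d = alpha G P := by
  have hb0 : (b : ℚ) ≠ 0 := G.hb
  have hbz : b ≠ 0 := by exact_mod_cast hb0
  rcases point_cases G P with rfl | ⟨x, y, h, rfl⟩
  · refine ⟨1, ⟨squarefree_one, one_dvd _, 1, 1, 0, Or.inl one_ne_zero, by simp⟩, ?_⟩
    rw [map_zero, icl_eq (by norm_num), sqc_eq_zero_iff]
    exact ⟨1, by simp⟩
  by_cases hx : x = 0
  · obtain ⟨d, hd, t, ht, hbt⟩ := exists_squarefree_rat (b : ℚ) hb0
    have hd0 : (d : ℚ) ≠ 0 := int_ne_unit hd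
    -- d divides b
    have hdb : d ∣ b := by
      apply squarefree_dvd_of_primes hd
      intro p hp hpd
      by_contra hpb
      -- d * b is a square
      have hsq : IsSquare ((d * b : ℤ) : ℚ) := ⟨d * t, by push_cast; rw [hbt]; ring⟩
      rw [Rat.isSquare_intCast_iff] at hsq
      obtain ⟨w, hw⟩ := hsq
      obtain ⟨d', hd'⟩ := hpd
      have h1 : p ∣ w := by
        have : p ∣ w * w := ⟨d' * b, by rw [← hw, hd']; ring⟩
        exact (hp.dvd_or_dvd this).elim id id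
      obtain ⟨w', hw'⟩ := h1
      have h2 : d' * b = p * w' ^ 2 := by
        have : p * (d' * b) = p * (p * w' ^ 2) := by
          have : p * (d' * b) = d * b := by rw [hd']; ring
          rw [this, hw, hw']; ring
        exact mul_left_cancel₀ hp.ne_zero this
      rcases hp.dvd_or_dvd ⟨w' ^ 2, h2⟩ with h | h
      · obtain ⟨k, hk⟩ := h
        exact hp.not_isUnit (hd p ⟨k, by rw [hd', hk]; ring⟩)
      · exact hpb h
    refine ⟨d, ⟨hd, hdb, t, 0, 1, Or.inr one_ne_zero, ?_⟩, ?_⟩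
    · obtain ⟨k, hk⟩ := hdb
      rw [hk, Int.mul_ediv_cancel_left _ hd.ne_zero]
      have : (d : ℚ) * k = d * t ^ 2 := by rw [← hbt, hk]; push_cast; ring
      have := mul_left_cancel₀ hd0 this
      rw [← this]; ring
    · rw [icl_eq hd0, alpha_apply]
      symm
      apply sqc_eq_of_sq (t := t)
      rw [xu_mk_zero G _ hx, Units.val_mk0, hbt]
  · obtain ⟨d, hd, t, ht, hxt⟩ := exists_squarefree_rat x hx
    have hd0 : (d : ℚ) ≠ 0 := int_ne_unit hd
    have hdb : d ∣ b := dvd_of_point hd ht (y := y) (by rw [← hxt]; exact h)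
    refine ⟨d, ⟨hd, hdb, y / (d * t), t, 1, Or.inl ht, ?_⟩, ?_⟩
    · have hq : ((b / d : ℤ) : ℚ) = b / d := by
        obtain ⟨k, hk⟩ := hdb
        rw [hk, Int.mul_ediv_cancel_left _ hd.ne_zero]
        push_cast
        field_simp
      rw [hq, div_pow, h, hxt]
      field_simp
    · rw [icl_eq hd0, alpha_apply]
      symm
      apply sqc_eq_of_sq (t := t)
      rw [xu_mk G _ hx, Units.val_mk0, hxt]

theorem image_icl {a b : ℤ} (G : Good (a : ℚ) (b : ℚ)) :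
    icl '' Glob a b = ((alpha G).range : Set (SqCl ℚ)) := by
  ext z
  constructor
  · rintro ⟨d, hd, rfl⟩
    exact icl_mem_range G hd
  · rintro ⟨P, rfl⟩
    obtain ⟨d, hd, h⟩ := mem_glob_of_alpha G P
    exact ⟨d, hd, h⟩

theorem card_range_alpha {a b : ℤ} (G : Good (a : ℚ) (b : ℚ)) :
    Nat.card (alpha G).range = (Glob a b).ncard := by
  have h1 : Nat.card (alpha G).range = ((alpha G).range : Set (SqCl ℚ)).ncard := rfl
  rw [h1, ← image_icl G]
  apply Set.InjOn.ncard_image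
  intro c hc d hd h
  exact icl_injOn hc.1 hd.1 h

theorem finite_range_alpha {a b : ℤ} (G : Good (a : ℚ) (b : ℚ)) : Finite (alpha G).range := by
  have hb : b ≠ 0 := by exact_mod_cast G.hb
  have : ((alpha G).range : Set (SqCl ℚ)).Finite := by
    rw [← image_icl G]; exact (glob_finite a b hb).image _
  exact this.to_subtype

theorem good_int {a b : ℤ} (hb : b ≠ 0) (hd : a ^ 2 - 4 * b ≠ 0) : Good (a : ℚ) (b : ℚ) where
  h2 := two_ne_zero
  hb := by exact_mod_cast hb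
  hd := by exact_mod_cast hd

/-- The Mordell-Weil rank of `y² = x³ + a x² + b x` over `ℚ`. -/
noncomputable def mwRank (a b : ℤ) : ℕ :=
  Module.finrank ℤ
    (({ a₁ := 0, a₂ := (a : ℚ), a₃ := 0, a₄ := (b : ℚ), a₆ := 0 } :
      WeierstrassCurve ℚ).toAffine.Point)

/-- **Tate's formula**: `2 ^ (r + 2) = #Glob(a,b) * #Glob(-2a, a²-4b)`. -/
theorem two_pow_rank {a b : ℤ} (hb : b ≠ 0) (hd : a ^ 2 - 4 * b ≠ 0) :
    2 ^ (mwRank a b + 2) = (Glob a b).ncard * (Glob (-2 * a) (a ^ 2 - 4 * b)).ncard := by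
  have G := good_int hb hd
  have hd' : (-2 * a) ^ 2 - 4 * (a ^ 2 - 4 * b) ≠ 0 := by
    have : (-2 * a) ^ 2 - 4 * (a ^ 2 - 4 * b) = 16 * b := by ring
    rw [this]; exact mul_ne_zero (by norm_num) hb
  have G' := good_int (a := -2 * a) (b := a ^ 2 - 4 * b) hd hd'
  have e1 : ((-2 * a : ℤ) : ℚ) = -2 * (a : ℚ) := by push_cast; ring
  have e2 : ((a ^ 2 - 4 * b : ℤ) : ℚ) = (a : ℚ) ^ 2 - 4 * (b : ℚ) := by push_cast; ring
  have key : Nat.card (alpha G.dual).range = Nat.card (alpha G').range := by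
    have : ∀ (a' b' : ℚ) (H : Good a' b'), a' = -2 * (a : ℚ) → b' = (a : ℚ) ^ 2 - 4 * (b : ℚ) →
        Nat.card (alpha G.dual).range = Nat.card (alpha H).range := by
      intro a' b' H ha hb
      subst ha; subst hb; rfl
    exact this _ _ G' e1 e2
  have hfin : Finite (alpha G.dual).range := by
    apply Nat.finite_of_card_ne_zero
    rw [key]
    have := finite_range_alpha G'
    exact Nat.card_pos.ne'
  have h := rank_formula G (finite_range_alpha G) hfin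
  rw [key, card_range_alpha, card_range_alpha] at h
  exact h

end Pool.Agent.H23
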