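import Pool.Agent.H23.Count

/-!
# Bookkeeping with Legendre symbols as Booleans
-/

namespace Pool.Agent.H23

/-- The sign attached to a Boolean. -/
def sg (b : Bool) : ℤ := if b then -1 else 1

/-- A conditional factor. -/
def pw (e : Bool) (g : ℤ) : ℤ := if e then g else 1

@[simp] theorem sg_true : sg true = -1 := rfl
@[simp] theorem sg_false : sg false = 1 := rfl
@[simp] theorem pw_true (g : ℤ) : pw true g = g := rfl
@[simp] theorem pw_false (g : ℤ) : pw false g = 1 := rfl

theorem sg_mul (x y : Bool) : sg x * sg y = sg (x ^^ y) := by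
  cases x <;> cases y <;> rfl

theorem sg_inj {x y : Bool} (h : sg x = sg y) : x = y := by
  revert h; cases x <;> cases y <;> simp [sg]

theorem neg_sg (x : Bool) : - sg x = sg (!x) := by cases x <;> rfl

theorem sg_ne_zero (x : Bool) : sg x ≠ 0 := by cases x <;> simp [sg]

theorem sg_cancel {x y : Bool} {z : ℤ} (h : sg x * z = sg y) : z = sg (x ^^ y) := by
  rw [← sg_mul, ← h]; cases x <;> simp [sg]

theorem sg_one {x : Bool} (h : sg x = 1) : x = false := sg_inj h

section Legendre

variable {P : ℕ} [hP : Fact P.Prime]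

theorem chi_exists {n : ℤ} (h : ¬ (P : ℤ) ∣ n) : ∃ s : Bool, legendreSym P n = sg s := by
  have : (n : ZMod P) ≠ 0 := by rwa [Ne, ZMod.intCast_zmod_eq_zero_iff_dvd]
  rcases legendreSym.eq_one_or_neg_one P this with h | h
  · exact ⟨false, h⟩
  · exact ⟨true, h⟩

theorem chi_pw {g : ℤ} {c : Bool} (h : legendreSym P g = sg c) (e : Bool) :
    legendreSym P (pw e g) = sg (e && c) := by
  cases e
  · simp [legendreSym.at_one]
  · simpa using h

theorem chi_rel {c L k v m : ℤ} (h : c * L = k * v + m * P) :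
    legendreSym P c * legendreSym P L = legendreSym P k * legendreSym P v := by
  rw [← legendreSym.mul, ← legendreSym.mul, legendreSym.mod P (c * L), legendreSym.mod P (k * v), h,
    Int.add_mul_emod_self_right]

theorem chi_one : legendreSym P 1 = sg false := legendreSym.at_one P

theorem chi_val {c L k v m : ℤ} {x y z : Bool} (h : c * L = k * v + m * P)
    (hc : legendreSym P c = sg x) (hk : legendreSym P k = sg y) (hv : legendreSym P v = sg z) :
    legendreSym P L = sg (x ^^ (y ^^ z)) := by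
  have := chi_rel h
  rw [hc, hk, hv, sg_mul] at this
  exact sg_cancel this

theorem chi_two_pos (h : P % 8 = 1 ∨ P % 8 = 7) : legendreSym P 2 = sg false := by
  have hodd : Odd P := Nat.odd_iff.mpr (by omega)
  rw [jacobiSym.legendreSym.to_jacobiSym, jacobiSym.mod_right _ hodd]
  rcases h with h | h
  · rw [show 4 * (2 : ℤ).natAbs = 8 from rfl, h]; norm_num
  · rw [show 4 * (2 : ℤ).natAbs = 8 from rfl, h]; norm_num

theorem chi_two_neg (h : P % 8 = 3 ∨ P % 8 = 5) : legendreSym P 2 = sg true := by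
  have hodd : Odd P := Nat.odd_iff.mpr (by omega)
  rw [jacobiSym.legendreSym.to_jacobiSym, jacobiSym.mod_right _ hodd]
  rcases h with h | h
  · rw [show 4 * (2 : ℤ).natAbs = 8 from rfl, h]; norm_num
  · rw [show 4 * (2 : ℤ).natAbs = 8 from rfl, h]; norm_num

theorem chi_neg_one_pos (h : P % 4 = 1) : legendreSym P (-1) = sg false := by
  have hodd : Odd P := Nat.odd_iff.mpr (by omega)
  rw [jacobiSym.legendreSym.to_jacobiSym, jacobiSym.mod_right _ hodd]
  rw [show 4 * (-1 : ℤ).natAbs = 4 from rfl, h]; norm_num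

theorem chi_neg_one_neg (h : P % 4 = 3) : legendreSym P (-1) = sg true := by
  have hodd : Odd P := Nat.odd_iff.mpr (by omega)
  rw [jacobiSym.legendreSym.to_jacobiSym, jacobiSym.mod_right _ hodd]
  rw [show 4 * (-1 : ℤ).natAbs = 4 from rfl, h]; norm_num

theorem chi_three_pos (h : P % 12 = 1 ∨ P % 12 = 11) : legendreSym P 3 = sg false := by
  have hodd : Odd P := Nat.odd_iff.mpr (by omega)
  rw [jacobiSym.legendreSym.to_jacobiSym, jacobiSym.mod_right _ hodd]
  rcases h with h | h
  · rw [show 4 * (3 : ℤ).natAbs = 12 from rfl, h]; norm_num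
  · rw [show 4 * (3 : ℤ).natAbs = 12 from rfl, h]; norm_num

theorem chi_three_neg (h : P % 12 = 5 ∨ P % 12 = 7) : legendreSym P 3 = sg true := by
  have hodd : Odd P := Nat.odd_iff.mpr (by omega)
  rw [jacobiSym.legendreSym.to_jacobiSym, jacobiSym.mod_right _ hodd]
  rcases h with h | h
  · rw [show 4 * (3 : ℤ).natAbs = 12 from rfl, h]; norm_num
  · rw [show 4 * (3 : ℤ).natAbs = 12 from rfl, h]; norm_num

theorem chi_five_pos (h2 : P % 2 = 1) (h : P % 5 = 1 ∨ P % 5 = 4) :
    legendreSym P 5 = sg false := by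
  have hodd : Odd P := Nat.odd_iff.mpr (by omega)
  rw [jacobiSym.legendreSym.to_jacobiSym, jacobiSym.mod_right _ hodd]
  rw [show 4 * (5 : ℤ).natAbs = 20 from rfl]
  have : P % 20 = 1 ∨ P % 20 = 11 ∨ P % 20 = 9 ∨ P % 20 = 19 := by omega
  rcases this with h | h | h | h <;> rw [h] <;> norm_num

theorem chi_five_neg (h2 : P % 2 = 1) (h : P % 5 = 2 ∨ P % 5 = 3) :
    legendreSym P 5 = sg true := by
  have hodd : Odd P := Nat.odd_iff.mpr (by omega)
  rw [jacobiSym.legendreSym.to_jacobiSym, jacobiSym.mod_right _ hodd]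
  rw [show 4 * (5 : ℤ).natAbs = 20 from rfl]
  have : P % 20 = 7 ∨ P % 20 = 17 ∨ P % 20 = 3 ∨ P % 20 = 13 := by omega
  rcases this with h | h | h | h <;> rw [h] <;> norm_num

theorem chi_seven_pos (h : P % 28 = 1 ∨ P % 28 = 3 ∨ P % 28 = 9 ∨ P % 28 = 19 ∨ P % 28 = 25 ∨
    P % 28 = 27) : legendreSym P 7 = sg false := by
  have hodd : Odd P := Nat.odd_iff.mpr (by omega)
  rw [jacobiSym.legendreSym.to_jacobiSym, jacobiSym.mod_right _ hodd]
  rw [show 4 * (7 : ℤ).natAbs = 28 from rfl]
  rcases h with h | h | h | h | h | h <;> rw [h] <;> norm_num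

theorem chi_seven_neg (h : P % 28 = 5 ∨ P % 28 = 11 ∨ P % 28 = 13 ∨ P % 28 = 15 ∨ P % 28 = 17 ∨
    P % 28 = 23) : legendreSym P 7 = sg true := by
  have hodd : Odd P := Nat.odd_iff.mpr (by omega)
  rw [jacobiSym.legendreSym.to_jacobiSym, jacobiSym.mod_right _ hodd]
  rw [show 4 * (7 : ℤ).natAbs = 28 from rfl]
  rcases h with h | h | h | h | h | h <;> rw [h] <;> norm_num

variable {Q : ℕ} [hQ : Fact Q.Prime]

theorem recip_three (h1 : P % 4 = 3) (h2 : Q % 4 = 3) {s : Bool}
    (h : legendreSym Q P = sg s) : legendreSym P Q = sg (!s) := by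
  rw [legendreSym.quadratic_reciprocity_three_mod_four h2 h1, h, neg_sg]

theorem recip_one (h1 : P % 4 = 1) (h2 : Q % 2 = 1) {s : Bool}
    (h : legendreSym Q P = sg s) : legendreSym P Q = sg s := by
  rw [← legendreSym.quadratic_reciprocity_one_mod_four h1 (by omega : Q ≠ 2), h]

theorem recip_one' (h1 : P % 2 = 1) (h2 : Q % 4 = 1) {s : Bool}
    (h : legendreSym Q P = sg s) : legendreSym P Q = sg s := by
  rw [legendreSym.quadratic_reciprocity_one_mod_four h2 (by omega : P ≠ 2), h]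

end Legendre

/-- Split off a prime from a squarefree divisor. -/
theorem peel {d g B : ℤ} (hd : Squarefree d) (hg : Prime g) (h : d ∣ g * B) :
    ∃ (e : Bool) (d' : ℤ), d = pw e g * d' ∧ d' ∣ B ∧ Squarefree d' := by
  by_cases hgd : g ∣ d
  · obtain ⟨d', rfl⟩ := hgd
    refine ⟨true, d', rfl, ?_, hd.squarefree_of_dvd (dvd_mul_left _ _)⟩
    exact (mul_dvd_mul_iff_left hg.ne_zero).mp h
  · refine ⟨false, d, by simp, ?_, hd⟩
    have : IsCoprime d g := ((Prime.coprime_iff_not_dvd hg).mpr hgd).symm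
    exact this.dvd_of_dvd_mul_left h

/-- The condition at a prime of type III. -/
theorem row_typeIII {P : ℕ} [hP : Fact P.Prime] {a B d' : ℤ} {e c : Bool} (hpa : (P : ℤ) ∣ a)
    (hB : ¬ (P : ℤ) ∣ B) (hd' : d' ∣ B) (h : QSol ℚ_[P] a (P * B) (pw e P * d'))
    (hc : legendreSym P B = sg c) : legendreSym P d' = sg (e && c) := by
  have hPz : Prime (P : ℤ) := Nat.prime_iff_prime_int.mp hP.1
  have hpd : ¬ (P : ℤ) ∣ d' := fun h => hB (h.trans hd')
  have hsq : ¬ (P : ℤ) ^ 2 ∣ P * B := by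
    rw [pow_two]
    intro h
    exact hB ((mul_dvd_mul_iff_left hPz.ne_zero).mp h)
  have hb0 : (P : ℤ) * B ≠ 0 := fun h0 => hsq (by rw [h0]; exact dvd_zero _)
  cases e with
  | false =>
    simp only [pw_false, one_mul] at h
    rw [legendre_typeIII hpa (hd'.mul_left _) (dvd_mul_right _ _) hsq hpd h]
    rfl
  | true =>
    simp only [pw_true] at h
    have h1 := legendre_typeIII' hpa (mul_dvd_mul_left _ hd') hsq (dvd_mul_right _ _) h
    rw [Int.mul_ediv_mul_of_pos _ _ (by exact_mod_cast hP.1.pos)] at h1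
    obtain ⟨k, hk⟩ := hd'
    have hd0 : d' ≠ 0 := by
      rintro rfl
      exact hpd (dvd_zero _)
    rw [hk, Int.mul_ediv_cancel_left _ hd0] at h1
    rw [hk, legendreSym.mul, h1, mul_one] at hc
    rw [hc, Bool.true_and]

end Pool.Agent.H23
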