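import Pool.Agent.H23.Local

/-!
# Counting `Glob` and `Sel`
-/

namespace Pool.Agent.H23

theorem dvd_iff_of_mul_sq {c d e n : ℤ} (hc : Squarefree c) (hd : Squarefree d)
    (he : Squarefree e) (h : c * d * e = n ^ 2) {p : ℤ} (hp : Prime p) :
    p ∣ e ↔ ¬ (p ∣ c ↔ p ∣ d) := by
  have sqf : ∀ {x y : ℤ}, Squarefree x → x = p * y → ¬ p ∣ y := by
    rintro x y hx rfl ⟨z, rfl⟩
    exact hp.not_isUnit (hx p ⟨z, by ring⟩)
  have step : ∀ {x m : ℤ}, p * x = m ^ 2 → ∃ m', m = p * m' ∧ x = p * m' ^ 2 := by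
    intro x m hx
    have : p ∣ m := hp.dvd_of_dvd_pow (n := 2) ⟨x, hx.symm⟩
    obtain ⟨m', rfl⟩ := this
    refine ⟨m', rfl, mul_left_cancel₀ hp.ne_zero ?_⟩
    rw [hx]; ring
  by_cases h1 : p ∣ c
  · obtain ⟨c', hc'⟩ := h1
    have hc1 := sqf hc hc'
    have h1' : p ∣ c := ⟨c', hc'⟩
    by_cases h2 : p ∣ d
    · obtain ⟨d', hd'⟩ := h2
      have hd1 := sqf hd hd'
      have h2' : p ∣ d := ⟨d', hd'⟩
      simp only [h1', h2', not_true_eq_false, iff_false]
      rintro ⟨e', he'⟩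
      have he1 := sqf he he'
      obtain ⟨n', hn1, hn2⟩ := step (x := c' * (p * d') * e) (m := n) (by rw [← h, hc', hd']; ring)
      have h4 : c' * d' * e = n' ^ 2 := by
        apply mul_left_cancel₀ hp.ne_zero
        rw [← hn2]; ring
      obtain ⟨n'', hn3, hn4⟩ := step (x := c' * d' * e') (m := n') (by rw [← h4, he']; ring)
      have : p ∣ c' * d' * e' := ⟨_, hn4⟩
      rcases hp.dvd_or_dvd this with h5 | h5
      · rcases hp.dvd_or_dvd h5 with h6 | h6
        · exact hc1 h6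
        · exact hd1 h6
      · exact he1 h5
    · simp only [h1', h2, iff_false, not_true_eq_false, not_false_eq_true, iff_true]
      obtain ⟨n', hn1, hn2⟩ := step (x := c' * d * e) (m := n) (by rw [← h, hc']; ring)
      have : p ∣ c' * d * e := ⟨_, hn2⟩
      rcases hp.dvd_or_dvd this with h5 | h5
      · rcases hp.dvd_or_dvd h5 with h6 | h6
        · exact absurd h6 hc1
        · exact absurd h6 h2
      · exact h5
  · by_cases h2 : p ∣ d
    · obtain ⟨d', hd'⟩ := h2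
      have hd1 := sqf hd hd'
      have h2' : p ∣ d := ⟨d', hd'⟩
      simp only [h1, h2', iff_true, not_false_eq_true]
      obtain ⟨n', hn1, hn2⟩ := step (x := c * d' * e) (m := n) (by rw [← h, hd']; ring)
      have : p ∣ c * d' * e := ⟨_, hn2⟩
      rcases hp.dvd_or_dvd this with h5 | h5
      · rcases hp.dvd_or_dvd h5 with h6 | h6
        · exact absurd h6 h1
        · exact absurd h6 hd1
      · exact h5
    · simp only [h1, h2, not_true_eq_false, iff_false]
      rintro ⟨e', he'⟩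
      have he1 := sqf he he'
      obtain ⟨n', hn1, hn2⟩ := step (x := c * d * e') (m := n) (by rw [← h, he']; ring)
      have : p ∣ c * d * e' := ⟨_, hn2⟩
      rcases hp.dvd_or_dvd this with h5 | h5
      · rcases hp.dvd_or_dvd h5 with h6 | h6
        · exact h1 h6
        · exact h2 h6
      · exact he1 h5

theorem glob_xor {a b : ℤ} (G : Good (a : ℚ) (b : ℚ)) {c d : ℤ} (hc : c ∈ Glob a b)
    (hd : d ∈ Glob a b) :
    ∃ e ∈ Glob a b, ∀ p : ℤ, Prime p → (p ∣ e ↔ ¬ (p ∣ c ↔ p ∣ d)) := by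
  obtain ⟨P, hP⟩ := icl_mem_range G hc
  obtain ⟨Q, hQ⟩ := icl_mem_range G hd
  obtain ⟨e, he, h⟩ := mem_glob_of_alpha G (P + Q)
  refine ⟨e, he, ?_⟩
  rw [map_add, hP, hQ, icl_eq (int_ne_unit hc.1), icl_eq (int_ne_unit hd.1),
    icl_eq (int_ne_unit he.1), ← sqc_mul, sqc_eq_iff] at h
  obtain ⟨t, ht⟩ := h
  have hsq : IsSquare ((c * d * e : ℤ) : ℚ) := by
    refine ⟨t, ?_⟩
    rw [← pow_two, ← ht]
    push_cast
    simp only [Units.val_mul, Units.val_mk0]
    ring
  rw [Rat.isSquare_intCast_iff] at hsq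
  obtain ⟨n, hn⟩ := hsq
  intro p hp
  exact dvd_iff_of_mul_sq hc.1 hd.1 he.1 (by rw [hn]; ring : c * d * e = n ^ 2) hp

theorem one_mem_glob (a b : ℤ) : (1 : ℤ) ∈ Glob a b :=
  ⟨squarefree_one, one_dvd _, 1, 1, 0, Or.inl one_ne_zero, by simp⟩

/-- Independent classes give a lower bound for the size of the image of `α`. -/
theorem le_card_glob {a b : ℤ} (hb : b ≠ 0) (hd : a ^ 2 - 4 * b ≠ 0) {k : ℕ} (P : Fin k → ℤ)
    (hP : ∀ i, Prime (P i)) (D : Fin k → ℤ) (hD : ∀ i, D i ∈ Glob a b)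
    (hPD : ∀ i j, P j ∣ D i ↔ j = i) : 2 ^ k ≤ (Glob a b).ncard := by
  classical
  have G := good_int hb hd
  have key : ∀ T : Finset (Fin k), ∃ e ∈ Glob a b, ∀ j, P j ∣ e ↔ j ∈ T := by
    intro T
    induction T using Finset.induction_on with
    | empty =>
      refine ⟨1, one_mem_glob a b, ?_⟩
      intro j
      simp only [Finset.notMem_empty, iff_false]
      intro h
      exact (hP j).not_isUnit (isUnit_of_dvd_one h)
    | insert i T hi ih =>
      obtain ⟨e, he, h⟩ := ih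
      obtain ⟨e', he', h'⟩ := glob_xor G he (hD i)
      refine ⟨e', he', ?_⟩
      intro j
      rw [h' _ (hP j), h j, hPD i j, Finset.mem_insert]
      by_cases hj : j = i
      · subst hj; simp [hi]
      · simp [hj]
  choose f hf1 hf2 using key
  have hinj : Function.Injective f := by
    intro S T hST
    ext j
    rw [← hf2 S j, ← hf2 T j, hST]
  have h1 : (Set.range f).ncard = 2 ^ k := by
    rw [← Set.image_univ, Set.ncard_image_of_injective _ hinj, Set.ncard_univ,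
      Nat.card_eq_fintype_card, Fintype.card_finset, Fintype.card_fin]
  rw [← h1]
  apply Set.ncard_le_ncard _ (glob_finite a b hb)
  rintro _ ⟨T, rfl⟩
  exact hf1 T

theorem card_le_of_range {S : Set ℤ} {α : Type*} [Fintype α] (F : α → ℤ) {n : ℕ}
    (hn : Fintype.card α = n) (h : S ⊆ Set.range F) : S.ncard ≤ n := by
  rw [← hn]
  refine (Set.ncard_le_ncard h (Set.finite_range F)).trans ?_
  rw [← Set.image_univ]
  refine (Set.ncard_image_le Set.finite_univ).trans ?_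
  rw [Set.ncard_univ, Nat.card_eq_fintype_card]

theorem finish {a b : ℤ} (hb : b ≠ 0) (hd : a ^ 2 - 4 * b ≠ 0) {k l : ℕ}
    (h1 : 2 ^ k ≤ (Glob a b).ncard) (h2 : (Sel a b).ncard ≤ 2 ^ k)
    (h3 : 2 ^ l ≤ (Glob (-2 * a) (a ^ 2 - 4 * b)).ncard)
    (h4 : (Sel (-2 * a) (a ^ 2 - 4 * b)).ncard ≤ 2 ^ l) :
    mwRank a b + 2 = k + l ∧ (Sel a b).ncard = 2 ^ k ∧
      (Sel (-2 * a) (a ^ 2 - 4 * b)).ncard = 2 ^ l := by
  have h5 := Set.ncard_le_ncard (glob_subset_sel a b) (sel_finite a b hb)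
  have h6 := Set.ncard_le_ncard (glob_subset_sel (-2 * a) (a ^ 2 - 4 * b))
    (sel_finite (-2 * a) (a ^ 2 - 4 * b) hd)
  have e1 : (Glob a b).ncard = 2 ^ k := by omega
  have e2 : (Glob (-2 * a) (a ^ 2 - 4 * b)).ncard = 2 ^ l := by omega
  have h7 := two_pow_rank hb hd
  rw [e1, e2, ← pow_add] at h7
  refine ⟨Nat.pow_right_injective (le_refl 2) h7, by omega, by omega⟩

end Pool.Agent.H23
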