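import Pool.Agent.H23.Isog

/-!
# The descent homomorphism `α : E(K) → Kˣ / (Kˣ)²`
-/

namespace Pool.Agent.H23

open WeierstrassCurve WeierstrassCurve.Affine

variable {K : Type*} [Field K]

/-- The subgroup of squares in `Kˣ`. -/
abbrev Sq (K : Type*) [Field K] : Subgroup Kˣ := (powMonoidHom 2 : Kˣ →* Kˣ).range

theorem mem_Sq {u : Kˣ} : u ∈ Sq K ↔ ∃ t : Kˣ, t ^ 2 = u := by
  simp [Sq, MonoidHom.mem_range]

theorem mem_Sq_iff {u : Kˣ} : u ∈ Sq K ↔ ∃ t : K, (u : K) = t ^ 2 := by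
  rw [mem_Sq]
  constructor
  · rintro ⟨t, ht⟩; exact ⟨t, by rw [← ht]; simp⟩
  · rintro ⟨t, ht⟩
    have h0 : t ≠ 0 := by
      rintro rfl; exact u.ne_zero (by rw [ht]; ring)
    exact ⟨Units.mk0 t h0, by ext; simp [ht]⟩

/-- The group `Kˣ / (Kˣ)²`, written additively. -/
def SqCl (K : Type*) [Field K] : Type _ := Additive (Kˣ ⧸ Sq K)

instance instSqCl (K : Type*) [Field K] : AddCommGroup (SqCl K) :=
  inferInstanceAs (AddCommGroup (Additive (Kˣ ⧸ Sq K)))

/-- The class of a unit modulo squares. -/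
def sqc (u : Kˣ) : SqCl K := Additive.ofMul (QuotientGroup.mk u : Kˣ ⧸ Sq K)

theorem sqc_mul (u v : Kˣ) : sqc (u * v) = sqc u + sqc v := rfl

theorem sqc_one : sqc (1 : Kˣ) = 0 := rfl

theorem sqc_eq_zero_iff {u : Kˣ} : sqc u = 0 ↔ ∃ t : K, (u : K) = t ^ 2 := by
  rw [← mem_Sq_iff, ← QuotientGroup.eq_one_iff]
  rfl

theorem sqc_surjective (z : SqCl K) : ∃ u : Kˣ, sqc u = z := by
  obtain ⟨u, hu⟩ := QuotientGroup.mk_surjective (Additive.toMul (show Additive (Kˣ ⧸ Sq K) from z))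
  exact ⟨u, by unfold sqc; rw [hu]; rfl⟩

theorem sqCl_add_self (z : SqCl K) : z + z = 0 := by
  obtain ⟨u, rfl⟩ := sqc_surjective z
  rw [← sqc_mul, sqc_eq_zero_iff]
  exact ⟨u, by push_cast; ring⟩

theorem sqc_eq_iff {u v : Kˣ} : sqc u = sqc v ↔ ∃ t : K, ((u * v : Kˣ) : K) = t ^ 2 := by
  rw [← sqc_eq_zero_iff, sqc_mul]
  constructor
  · intro h; rw [h, sqCl_add_self]
  · intro h
    have := eq_neg_of_add_eq_zero_left h
    rw [this, neg_eq_iff_add_eq_zero, sqCl_add_self]

/-- The `x`-coordinate as a unit: `O ↦ 1`, `(0,0) ↦ b`, `(x, y) ↦ x`. -/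
noncomputable def xu {a b : K} (G : Good a b) : (EC a b).toAffine.Point → Kˣ :=
  open Classical in fun P => match P with
  | 0 => 1
  | Point.some x _ _ => if hx : x = 0 then Units.mk0 b G.hb else Units.mk0 x hx

theorem xu_zero {a b : K} (G : Good a b) : xu G 0 = 1 := rfl

theorem xu_mk_zero {a b : K} (G : Good a b) {x y : K}
    (h : y ^ 2 = x ^ 3 + a * x ^ 2 + b * x) (hx : x = 0) :
    ((xu G (mkP G x y h) : Kˣ) : K) = b := by
  simp only [mkP, xu]
  rw [dif_pos hx]; rfl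

theorem xu_mk {a b : K} (G : Good a b) {x y : K}
    (h : y ^ 2 = x ^ 3 + a * x ^ 2 + b * x) (hx : x ≠ 0) :
    ((xu G (mkP G x y h) : Kˣ) : K) = x := by
  simp only [mkP, xu]
  rw [dif_neg hx]; rfl

theorem xu_neg {a b : K} (G : Good a b) (P) : xu G (-P) = xu G P := by
  rcases point_cases G P with rfl | ⟨x, y, h, rfl⟩
  · simp
  · rw [neg_mkP]
    ext
    by_cases hx : x = 0
    · rw [xu_mk_zero G _ hx, xu_mk_zero G _ hx]
    · rw [xu_mk G _ hx, xu_mk G _ hx]

variable [DecidableEq K]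

/-- The underlying map of `α`. -/
noncomputable def alphaFun {a b : K} (G : Good a b) (P : (EC a b).toAffine.Point) :
    SqCl K := sqc (xu G P)

theorem alphaFun_add {a b : K} (G : Good a b) (P Q) :
    alphaFun G (P + Q) = alphaFun G P + alphaFun G Q := by
  refine additive_of G (alphaFun G) ?_ ?_ ?_ P Q
  · unfold alphaFun; rw [xu_zero]; rfl
  · intro P
    unfold alphaFun; rw [xu_neg, eq_neg_iff_add_eq_zero]
    exact sqCl_add_self _
  · intro x₁ x₂ x₃ y₁ y₂ y₃ h₁ h₂ h₃ h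
    obtain ⟨l, n, e1, e2, e3, hy1, hy2, hy3⟩ := mk_line_of_add G h₁ h₂ h₃ h
    rw [eq_neg_iff_add_eq_zero]
    unfold alphaFun
    rw [← sqc_mul, ← sqc_mul, sqc_eq_zero_iff]
    push_cast
    have hb := G.hb
    have hn0 : x₁ * x₂ * x₃ = 0 → n = 0 := by
      intro h0
      rw [e3] at h0
      exact pow_eq_zero_iff (two_ne_zero) |>.mp h0
    by_cases hx1 : x₁ = 0
    · have hn : n = 0 := hn0 (by rw [hx1]; ring)
      have h23 : x₂ * x₃ = b := by rw [hn, hx1] at e2; linear_combination e2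
      have hx2 : x₂ ≠ 0 := by rintro rfl; apply hb; rw [← h23, zero_mul]
      have hx3 : x₃ ≠ 0 := by rintro rfl; apply hb; rw [← h23, mul_zero]
      rw [xu_mk_zero G _ hx1, xu_mk G _ hx2, xu_mk G _ hx3]
      exact ⟨b, by rw [mul_assoc, h23]; ring⟩
    by_cases hx2 : x₂ = 0
    · have hn : n = 0 := hn0 (by rw [hx2]; ring)
      have h13 : x₁ * x₃ = b := by rw [hn, hx2] at e2; linear_combination e2
      have hx3 : x₃ ≠ 0 := by rintro rfl; apply hb; rw [← h13, mul_zero]
      rw [xu_mk_zero G _ hx2, xu_mk G _ hx1, xu_mk G _ hx3]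
      exact ⟨b, by linear_combination b * h13⟩
    by_cases hx3 : x₃ = 0
    · have hn : n = 0 := hn0 (by rw [hx3]; ring)
      have h12 : x₁ * x₂ = b := by rw [hn, hx3] at e2; linear_combination e2
      rw [xu_mk_zero G _ hx3, xu_mk G _ hx1, xu_mk G _ hx2]
      exact ⟨b, by rw [h12]; ring⟩
    rw [xu_mk G _ hx1, xu_mk G _ hx2, xu_mk G _ hx3]
    exact ⟨n, e3⟩

/-- The descent homomorphism `α : E(K) → Kˣ / (Kˣ)²`. -/
noncomputable def alpha {a b : K} (G : Good a b) :
    (EC a b).toAffine.Point →+ SqCl K where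
  toFun := alphaFun G
  map_zero' := by unfold alphaFun; rw [xu_zero]; rfl
  map_add' := alphaFun_add G

theorem alpha_eq_zero_iff {a b : K} (G : Good a b) (P) :
    alpha G P = 0 ↔ ∃ t : K, ((xu G P : Kˣ) : K) = t ^ 2 := by
  change alphaFun G P = 0 ↔ _
  unfold alphaFun
  rw [sqc_eq_zero_iff]

theorem alpha_apply {a b : K} (G : Good a b) (P) : alpha G P = sqc (xu G P) := rfl

/-- The kernel of `α'` is the image of `φ`. -/
theorem ker_alpha_dual {a b : K} (G : Good a b) (Q : (EC (-2 * a) (a ^ 2 - 4 * b)).toAffine.Point) :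
    alpha G.dual Q = 0 ↔ ∃ P, phi G P = Q := by
  have h2 := G.h2
  rw [alpha_eq_zero_iff]
  constructor
  · rintro ⟨w, hw⟩
    rcases point_cases G.dual Q with rfl | ⟨X, Y, h, rfl⟩
    · exact ⟨0, rfl⟩
    by_cases hX : X = 0
    · rw [xu_mk_zero G.dual _ hX] at hw
      have hY : Y = 0 := by
        have : Y ^ 2 = 0 := by rw [h, hX]; ring
        exact pow_eq_zero_iff two_ne_zero |>.mp this
      have hx : (-a + w) / 2 ≠ 0 := by
        intro h0
        have h1 : -a + w = 0 := by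
          rcases div_eq_zero_iff.mp h0 with h | h
          · exact h
          · exact absurd h h2
        apply G.hb
        have h3 : 4 * b = 0 := by linear_combination (-w - a) * h1 - hw
        exact (mul_eq_zero.mp h3).resolve_left G.four
      have he : (0 : K) ^ 2 = ((-a + w) / 2) ^ 3 + a * ((-a + w) / 2) ^ 2 + b * ((-a + w) / 2) := by
        have h4b : b = (a ^ 2 - w ^ 2) / 4 := by
          rw [eq_div_iff G.four]; linear_combination -hw
        have e4 : (4 : K) = 2 * 2 := by norm_num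
        rw [h4b, e4]; field_simp; ring
      refine ⟨mkP G ((-a + w) / 2) 0 he, ?_⟩
      rw [phi_mk G _ hx, mkP_inj]
      constructor
      · rw [hX]; ring
      · rw [hY]; ring
    · rw [xu_mk G.dual _ hX] at hw
      have hw0 : w ≠ 0 := by rintro rfl; apply hX; rw [hw]; ring
      subst hw
      -- x = (w² - a + Y/w)/2
      have hprod : (w ^ 2 - a + Y / w) / 2 * ((w ^ 2 - a - Y / w) / 2) = b := by
        have e4 : (4 : K) = 2 * 2 := by norm_num
        have : (w ^ 2 - a + Y / w) / 2 * ((w ^ 2 - a - Y / w) / 2) =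
            ((w ^ 2 - a) ^ 2 - Y ^ 2 / w ^ 2) / 4 := by
          rw [e4]; field_simp; ring
        rw [this, h]
        have : ((w ^ 2) ^ 3 + -2 * a * (w ^ 2) ^ 2 + (a ^ 2 - 4 * b) * w ^ 2) / w ^ 2 =
            w ^ 4 - 2 * a * w ^ 2 + (a ^ 2 - 4 * b) := by
          field_simp; ring
        rw [this, div_eq_iff G.four]; ring
      have hx : (w ^ 2 - a + Y / w) / 2 ≠ 0 := by
        intro h0; apply G.hb; rw [← hprod, h0, zero_mul]
      set x := (w ^ 2 - a + Y / w) / 2 with hxdef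
      set z := (w ^ 2 - a - Y / w) / 2 with hzdef
      have hsum : x + z = w ^ 2 - a := by
        rw [hxdef, hzdef]; field_simp; ring
      have hdiff : w * (x - z) = Y := by
        rw [hxdef, hzdef]; field_simp; ring
      have he : (w * x) ^ 2 = x ^ 3 + a * x ^ 2 + b * x := by
        rw [← hprod]; linear_combination (-x ^ 2) * hsum
      refine ⟨mkP G x (w * x) he, ?_⟩
      rw [phi_mk G _ hx, mkP_inj]
      constructor
      · field_simp
      · rw [← hdiff, ← hprod]; field_simp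
  · rintro ⟨P, rfl⟩
    rcases point_cases G P with rfl | ⟨x, y, h, rfl⟩
    · rw [phi_zero, xu_zero]; exact ⟨1, by simp⟩
    by_cases hx : x = 0
    · rw [phi_mk_zero G _ hx, xu_zero]; exact ⟨1, by simp⟩
    rw [phi_mk G _ hx]
    by_cases hy : y = 0
    · rw [xu_mk_zero G.dual _ (by rw [hy]; ring)]
      refine ⟨2 * x + a, ?_⟩
      have h0 : x ^ 2 + a * x + b = 0 := by
        have : x * (x ^ 2 + a * x + b) = 0 := by rw [hy] at h; linear_combination -h
        exact (mul_eq_zero.mp this).resolve_left hx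
      linear_combination (-4) * h0
    · rw [xu_mk G.dual _ (div_ne_zero (pow_ne_zero _ hy) (pow_ne_zero _ hx))]
      exact ⟨y / x, by rw [div_pow]⟩

/-- The kernel of `α` is the image of `ψ`. -/
theorem ker_alpha {a b : K} (G : Good a b) (P : (EC a b).toAffine.Point) :
    alpha G P = 0 ↔ ∃ Q, psi G Q = P := by
  have h4 := G.four
  have h8 := G.eight
  have h2 := G.h2
  have e64 : (64 : K) = 4 * 4 * 4 := by norm_num
  have e8 : (8 : K) ^ 2 = 4 * 4 * 4 := by norm_num
  constructor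
  · intro h0
    rw [alpha_eq_zero_iff] at h0
    obtain ⟨t, ht⟩ := h0
    rcases point_cases G P with rfl | ⟨x, y, h, rfl⟩
    · exact ⟨0, rfl⟩
    -- the point `(4x, 8y)` on the twice dual curve
    have hE : (8 * y) ^ 2 = (4 * x) ^ 3 + (-2 * (-2 * a)) * (4 * x) ^ 2 +
        ((-2 * a) ^ 2 - 4 * (a ^ 2 - 4 * b)) * (4 * x) := by
      rw [mul_pow, h]; ring
    have hs : alpha G.dual.dual (mkP G.dual.dual (4 * x) (8 * y) hE) = 0 := by
      rw [alpha_eq_zero_iff]
      by_cases hx : x = 0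
      · rw [xu_mk_zero G _ hx] at ht
        rw [xu_mk_zero _ _ (by rw [hx, mul_zero])]
        exact ⟨4 * t, by linear_combination 16 * ht⟩
      · rw [xu_mk G _ hx] at ht
        rw [xu_mk _ _ (mul_ne_zero h4 hx)]
        exact ⟨2 * t, by rw [mul_pow, ← ht]; ring⟩
    rw [ker_alpha_dual G.dual] at hs
    obtain ⟨Q, hQ⟩ := hs
    refine ⟨Q, ?_⟩
    unfold psi
    rw [hQ, scale_mk, mkP_inj]
    constructor
    · field_simp
    · field_simp
  · rintro ⟨Q, rfl⟩
    have h1 : alpha G.dual.dual (phi G.dual Q) = 0 := by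
      rw [ker_alpha_dual G.dual]; exact ⟨Q, rfl⟩
    rw [alpha_eq_zero_iff] at h1 ⊢
    obtain ⟨t, ht⟩ := h1
    unfold psi
    rcases point_cases G.dual.dual (phi G.dual Q) with h0 | ⟨x, y, h, h0⟩
    · rw [h0, scale_zero, xu_zero]; exact ⟨1, by simp⟩
    · rw [h0] at ht ⊢
      rw [scale_mk]
      by_cases hx : x = 0
      · rw [xu_mk_zero _ _ hx] at ht
        rw [xu_mk_zero _ _ (by rw [hx, zero_div])]
        refine ⟨t / 4, ?_⟩
        rw [div_pow, ← ht]
        have e : (4 : K) ^ 2 = 16 := by norm_num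
        rw [e, eq_div_iff G.sixteen]; ring
      · rw [xu_mk _ _ hx] at ht
        rw [xu_mk _ _ (div_ne_zero hx h4)]
        refine ⟨t / 2, ?_⟩
        rw [div_pow, ← ht]; norm_num

end Pool.Agent.H23
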