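import Mathlib

/-!
# Elliptic curves `y² = x³ + a x² + b x`: collinear points

Basic facts on the group law of `EC a b : y² = x³ + a x² + b x` over a field of characteristic
different from two.
-/

namespace Pool.Agent.H23

open WeierstrassCurve WeierstrassCurve.Affine

variable {K : Type*} [Field K]

/-- The Weierstrass curve `y² = x³ + a x² + b x`. -/
def EC (a b : K) : WeierstrassCurve K := { a₁ := 0, a₂ := a, a₃ := 0, a₄ := b, a₆ := 0 }

theorem ec_delta (a b : K) : (EC a b).Δ = 16 * b ^ 2 * (a ^ 2 - 4 * b) := by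
  simp only [EC, WeierstrassCurve.Δ, WeierstrassCurve.b₂, WeierstrassCurve.b₄,
    WeierstrassCurve.b₆, WeierstrassCurve.b₈]
  ring

theorem ec_isElliptic {a b : K} (h2 : (2 : K) ≠ 0) (hb : b ≠ 0) (hd : a ^ 2 - 4 * b ≠ 0) :
    (EC a b).IsElliptic := by
  refine ⟨?_⟩
  rw [ec_delta, isUnit_iff_ne_zero]
  have h16 : (16 : K) ≠ 0 := by
    have : (16 : K) = 2 ^ 4 := by norm_num
    rw [this]; exact pow_ne_zero _ h2
  exact mul_ne_zero (mul_ne_zero h16 (pow_ne_zero _ hb)) hd

theorem ec_equation {a b x y : K} :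
    (EC a b).toAffine.Equation x y ↔ y ^ 2 = x ^ 3 + a * x ^ 2 + b * x := by
  rw [WeierstrassCurve.Affine.equation_iff]
  simp [EC]

theorem ec_nonsingular {a b : K} (h2 : (2 : K) ≠ 0) (hb : b ≠ 0) (hd : a ^ 2 - 4 * b ≠ 0)
    {x y : K} : (EC a b).toAffine.Nonsingular x y ↔ y ^ 2 = x ^ 3 + a * x ^ 2 + b * x := by
  have : (EC a b).IsElliptic := ec_isElliptic h2 hb hd
  rw [← WeierstrassCurve.Affine.equation_iff_nonsingular, ec_equation]

theorem ec_negY {a b x y : K} : (EC a b).toAffine.negY x y = -y := by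
  simp [EC, WeierstrassCurve.Affine.negY]

/-- No double root of the cubic. -/
theorem ec_no_double {a b : K} (hb : b ≠ 0) (hd : a ^ 2 - 4 * b ≠ 0) {x : K}
    (d0 : x ^ 3 + a * x ^ 2 + b * x = 0) (d1 : 3 * x ^ 2 + 2 * a * x + b = 0) : False := by
  have h : x * (x ^ 2 + a * x + b) = 0 := by linear_combination d0
  rcases mul_eq_zero.mp h with hx | hx
  · subst hx; apply hb; linear_combination d1
  · have h3 : x * (2 * x + a) = 0 := by linear_combination d1 - hx
    rcases mul_eq_zero.mp h3 with hx0 | hx0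
    · subst hx0; apply hb; linear_combination d1
    · apply hd
      linear_combination (a - 2 * x + 4 * x) * hx0 - 4 * hx

variable [DecidableEq K]

/-- Three points on a line `y = l x + n` which are the full intersection of the line with the
curve add up to zero. -/
theorem add_of_line {a b : K} (h2 : (2 : K) ≠ 0) (hb : b ≠ 0) (hd : a ^ 2 - 4 * b ≠ 0)
    {l n x₁ x₂ x₃ y₁ y₂ y₃ : K}
    (e1 : x₁ + x₂ + x₃ = l ^ 2 - a) (e2 : x₁ * x₂ + x₁ * x₃ + x₂ * x₃ = b - 2 * l * n)
    (hy₁ : y₁ = l * x₁ + n) (hy₂ : y₂ = l * x₂ + n) (hy₃ : y₃ = l * x₃ + n)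
    (h₁ : (EC a b).toAffine.Nonsingular x₁ y₁)
    (h₂ : (EC a b).toAffine.Nonsingular x₂ y₂)
    (h₃ : (EC a b).toAffine.Nonsingular x₃ y₃) :
    Point.some x₁ y₁ h₁ + Point.some x₂ y₂ h₂ = -Point.some x₃ y₃ h₃ := by
  have q₁ := (ec_nonsingular h2 hb hd).mp h₁
  -- the slope
  have hslope : ¬ (x₁ = x₂ ∧ y₁ = (EC a b).toAffine.negY x₂ y₂) ∧
      (EC a b).toAffine.slope x₁ x₂ y₁ y₂ = l := by
    by_cases hx : x₁ = x₂
    · subst hx
      have hyy : y₁ = y₂ := by rw [hy₁, hy₂]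
      subst hyy
      have d1 : 3 * x₁ ^ 2 + 2 * a * x₁ + b = 2 * l * y₁ := by
        rw [hy₁]; linear_combination (2 * x₁) * e1 - e2
      have h0 : y₁ ≠ 0 := by
        intro h0
        refine ec_no_double hb hd (x := x₁) ?_ ?_
        · rw [← q₁, h0]; ring
        · rw [d1, h0]; ring
      have hne : y₁ ≠ (EC a b).toAffine.negY x₁ y₁ := by
        rw [ec_negY]
        intro h
        apply h0
        have h3 : 2 * y₁ = 0 := by linear_combination h
        exact (mul_eq_zero.mp h3).resolve_left h2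
      refine ⟨fun h => hne h.2, ?_⟩
      rw [WeierstrassCurve.Affine.slope_of_Y_ne rfl hne, ec_negY]
      have h2y : y₁ - -y₁ ≠ 0 := by
        have : y₁ - -y₁ = 2 * y₁ := by ring
        rw [this]; exact mul_ne_zero h2 h0
      rw [div_eq_iff h2y]
      simp only [EC]
      linear_combination d1
    · refine ⟨fun h => hx h.1, ?_⟩
      rw [WeierstrassCurve.Affine.slope_of_X_ne hx, div_eq_iff (sub_ne_zero.mpr hx), hy₁, hy₂]
      ring
  obtain ⟨hnot, hsl⟩ := hslope
  rw [Point.add_some hnot, Point.neg_some]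
  rw [Point.some.injEq]
  have hX : (EC a b).toAffine.addX x₁ x₂ ((EC a b).toAffine.slope x₁ x₂ y₁ y₂) = x₃ := by
    rw [hsl]; simp only [EC, WeierstrassCurve.Affine.addX]
    linear_combination -e1
  refine ⟨hX, ?_⟩
  rw [WeierstrassCurve.Affine.addY, WeierstrassCurve.Affine.negAddY, hX, hsl, ec_negY, ec_negY,
    hy₁, hy₃]
  ring

/-- Conversely, if three affine points add up to zero, they are the intersection with a line. -/
theorem line_of_add {a b : K} (h2 : (2 : K) ≠ 0) (hb : b ≠ 0) (hd : a ^ 2 - 4 * b ≠ 0)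
    {x₁ x₂ x₃ y₁ y₂ y₃ : K}
    (h₁ : (EC a b).toAffine.Nonsingular x₁ y₁)
    (h₂ : (EC a b).toAffine.Nonsingular x₂ y₂)
    (h₃ : (EC a b).toAffine.Nonsingular x₃ y₃)
    (h : Point.some x₁ y₁ h₁ + Point.some x₂ y₂ h₂ = -Point.some x₃ y₃ h₃) :
    ∃ l n : K, x₁ + x₂ + x₃ = l ^ 2 - a ∧ x₁ * x₂ + x₁ * x₃ + x₂ * x₃ = b - 2 * l * n ∧
      x₁ * x₂ * x₃ = n ^ 2 ∧ y₁ = l * x₁ + n ∧ y₂ = l * x₂ + n ∧ y₃ = l * x₃ + n := by
  have q₁ := (ec_nonsingular h2 hb hd).mp h₁
  have q₂ := (ec_nonsingular h2 hb hd).mp h₂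
  have q₃ := (ec_nonsingular h2 hb hd).mp h₃
  have hnot : ¬ (x₁ = x₂ ∧ y₁ = (EC a b).toAffine.negY x₂ y₂) := by
    intro hh
    rw [Point.add_of_Y_eq hh.1 hh.2, Point.neg_some] at h
    exact Point.some_ne_zero _ h.symm
  rw [Point.add_some hnot, Point.neg_some, Point.some.injEq] at h
  obtain ⟨hX, hY⟩ := h
  set l := (EC a b).toAffine.slope x₁ x₂ y₁ y₂ with hl
  rw [WeierstrassCurve.Affine.addY, WeierstrassCurve.Affine.negAddY, hX, ec_negY, ec_negY] at hY
  have hX' : x₁ + x₂ + x₃ = l ^ 2 - a := by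
    rw [← hX]; simp only [EC, WeierstrassCurve.Affine.addX]; ring
  have hy2 : y₂ = l * (x₂ - x₁) + y₁ := by
    by_cases hx : x₁ = x₂
    · subst hx
      have : y₁ = y₂ := by
        have hyy : (y₁ - y₂) * (y₁ + y₂) = 0 := by linear_combination q₁ - q₂
        rcases mul_eq_zero.mp hyy with h0 | h0
        · linear_combination h0
        · exfalso; apply hnot; refine ⟨rfl, ?_⟩
          rw [ec_negY]; linear_combination h0
      rw [← this]; ring
    · rw [hl, WeierstrassCurve.Affine.slope_of_X_ne hx]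
      have : x₁ - x₂ ≠ 0 := sub_ne_zero.mpr hx
      field_simp
      ring
  have hy3 : y₃ = l * (x₃ - x₁) + y₁ := by linear_combination hY
  refine ⟨l, y₁ - l * x₁, hX', ?_, ?_, by ring, by rw [hy2]; ring, by rw [hy3]; ring⟩
  · -- second symmetric function
    by_cases hx : x₁ = x₂
    · subst hx
      have hyy : y₁ = y₂ := by rw [hy2]; ring
      subst hyy
      have hne : y₁ ≠ (EC a b).toAffine.negY x₁ y₁ := fun h => hnot ⟨rfl, h⟩
      have h0 : y₁ ≠ 0 := by
        intro h0; apply hne; rw [ec_negY, h0]; ring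
      have hl' := hl
      rw [WeierstrassCurve.Affine.slope_of_Y_ne rfl hne, ec_negY] at hl'
      have h2y : y₁ - -y₁ ≠ 0 := by
        have : y₁ - -y₁ = 2 * y₁ := by ring
        rw [this]; exact mul_ne_zero h2 h0
      rw [eq_div_iff h2y] at hl'
      simp only [EC] at hl'
      linear_combination (2 * x₁) * hX' + hl'
    · have hx' : x₁ - x₂ ≠ 0 := sub_ne_zero.mpr hx
      have key : (x₁ - x₂) * (x₁ * x₂ + x₁ * x₃ + x₂ * x₃ - (b - 2 * l * (y₁ - l * x₁))) = 0 := by
        have e1 : y₁ ^ 2 - y₂ ^ 2 = (x₁ - x₂) * (x₁ ^ 2 + x₁ * x₂ + x₂ ^ 2 + a * (x₁ + x₂) + b) := by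
          linear_combination q₁ - q₂
        have hx3 : x₃ = l ^ 2 - a - x₁ - x₂ := by linear_combination hX'
        rw [hx3]
        rw [hy2] at e1
        linear_combination e1
      have := (mul_eq_zero.mp key).resolve_left hx'
      linear_combination this
  · have hx3 : x₃ = l ^ 2 - a - x₁ - x₂ := by linear_combination hX'
    by_cases hx : x₁ = x₂
    · subst hx
      have hyy : y₁ = y₂ := by rw [hy2]; ring
      subst hyy
      have hne : y₁ ≠ (EC a b).toAffine.negY x₁ y₁ := fun h => hnot ⟨rfl, h⟩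
      have h0 : y₁ ≠ 0 := by
        intro h0; apply hne; rw [ec_negY, h0]; ring
      have hl' := hl
      rw [WeierstrassCurve.Affine.slope_of_Y_ne rfl hne, ec_negY] at hl'
      have h2y : y₁ - -y₁ ≠ 0 := by
        have : y₁ - -y₁ = 2 * y₁ := by ring
        rw [this]; exact mul_ne_zero h2 h0
      rw [eq_div_iff h2y] at hl'
      simp only [EC] at hl'
      rw [hx3]
      linear_combination -q₁ + x₁ * hl'
    · have hx' : x₁ - x₂ ≠ 0 := sub_ne_zero.mpr hx
      have e1 : y₁ ^ 2 - y₂ ^ 2 = (x₁ - x₂) * (x₁ ^ 2 + x₁ * x₂ + x₂ ^ 2 + a * (x₁ + x₂) + b) := by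
        linear_combination q₁ - q₂
      rw [hy2] at e1
      have key : (x₁ - x₂) * (x₁ * x₂ * x₃ - (y₁ - l * x₁) ^ 2) = 0 := by
        rw [hx3]
        linear_combination x₁ * e1 - (x₁ - x₂) * q₁
      have := (mul_eq_zero.mp key).resolve_left hx'
      linear_combination this

end Pool.Agent.H23
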