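import Mathlib

/-!
# Index of `2A` in a finitely generated abelian group
-/

namespace Pool.Agent.H23

/-- multiplication by two -/
abbrev two (A : Type*) [AddCommGroup A] : A →+ A := nsmulAddMonoidHom 2

theorem index_two_int_pi (n : ℕ) : (two (Fin n → ℤ)).range.index = 2 ^ n := by
  have h : (two (Fin n → ℤ)).range =
      AddSubgroup.pi Set.univ (fun _ : Fin n => (two ℤ).range) := by
    ext x
    simp only [AddMonoidHom.mem_range, AddSubgroup.mem_pi, Set.mem_univ, forall_true_left]
    constructor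
    · rintro ⟨y, rfl⟩ i
      exact ⟨y i, rfl⟩
    · intro hx
      choose y hy using hx
      exact ⟨y, funext hy⟩
  rw [h, AddSubgroup.index_pi]
  have h2 : (two ℤ).range.index = 2 := by
    have : (two ℤ).range = AddSubgroup.zmultiples (2 : ℤ) := by
      ext x
      simp only [AddMonoidHom.mem_range, AddSubgroup.mem_zmultiples_iff, nsmulAddMonoidHom_apply]
      constructor
      · rintro ⟨y, rfl⟩; exact ⟨y, by simp [mul_comm]⟩
      · rintro ⟨y, rfl⟩; exact ⟨y, by simp [mul_comm]⟩
    rw [this, Int.index_zmultiples]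
    rfl
  simp [h2]

theorem index_two_prod (A B : Type*) [AddCommGroup A] [AddCommGroup B] :
    (two (A × B)).range.index = (two A).range.index * (two B).range.index := by
  have : (two (A × B)).range = (two A).range.prod (two B).range := by
    ext ⟨x, y⟩
    simp only [AddMonoidHom.mem_range, AddSubgroup.mem_prod]
    constructor
    · rintro ⟨⟨u, v⟩, h⟩
      rw [Prod.ext_iff] at h
      exact ⟨⟨u, h.1⟩, ⟨v, h.2⟩⟩
    · rintro ⟨⟨u, hu⟩, ⟨v, hv⟩⟩
      exact ⟨⟨u, v⟩, Prod.ext hu hv⟩
  rw [this, AddSubgroup.index_prod]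

theorem card_ker_two_prod (A B : Type*) [AddCommGroup A] [AddCommGroup B] :
    Nat.card (two (A × B)).ker = Nat.card (two A).ker * Nat.card (two B).ker := by
  have : (two (A × B)).ker = (two A).ker.prod (two B).ker := by
    ext ⟨x, y⟩
    simp only [AddMonoidHom.mem_ker, AddSubgroup.mem_prod]
    exact Prod.ext_iff
  rw [this, Nat.card_congr (AddSubgroup.prodEquiv _ _).toEquiv, Nat.card_prod]

theorem index_two_congr {A B : Type*} [AddCommGroup A] [AddCommGroup B] (e : A ≃+ B) :
    (two A).range.index = (two B).range.index := by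
  have : (two B).range = (two A).range.map (e : A →+ B) := by
    ext x
    simp only [AddMonoidHom.mem_range, AddSubgroup.mem_map]
    constructor
    · rintro ⟨y, rfl⟩
      exact ⟨e.symm (two B y), ⟨e.symm y, by simp⟩, by simp⟩
    · rintro ⟨_, ⟨y, rfl⟩, rfl⟩
      exact ⟨e y, by simp⟩
  rw [this]
  exact (AddSubgroup.index_map_equiv _ e).symm

theorem card_ker_two_congr {A B : Type*} [AddCommGroup A] [AddCommGroup B] (e : A ≃+ B) :
    Nat.card (two A).ker = Nat.card (two B).ker := by
  apply Nat.card_congr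
  refine ⟨fun x => ⟨e x, ?_⟩, fun x => ⟨e.symm x, ?_⟩, ?_, ?_⟩
  · have := x.2
    rw [AddMonoidHom.mem_ker] at this ⊢
    simp only [nsmulAddMonoidHom_apply] at this ⊢
    rw [← map_nsmul, this, map_zero]
  · have := x.2
    rw [AddMonoidHom.mem_ker] at this ⊢
    simp only [nsmulAddMonoidHom_apply] at this ⊢
    rw [← map_nsmul, this, map_zero]
  · intro x; ext; simp
  · intro x; ext; simp

theorem finrank_prod_finite (n : ℕ) (T : Type) [AddCommGroup T] [Finite T] :
    Module.finrank ℤ ((Fin n → ℤ) × T) = n := by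
  have h0 : Module.rank ℤ T = 0 := by
    rw [rank_eq_zero_iff]
    intro x
    refine ⟨Nat.card T, by exact_mod_cast Nat.card_pos.ne', ?_⟩
    simp
  have h := LinearMap.rank_range_add_rank_ker (LinearMap.fst ℤ (Fin n → ℤ) T)
  have hr : LinearMap.range (LinearMap.fst ℤ (Fin n → ℤ) T) = ⊤ := by
    rw [LinearMap.range_eq_top]; exact Prod.fst_surjective
  have hk : Module.rank ℤ (LinearMap.ker (LinearMap.fst ℤ (Fin n → ℤ) T)) = 0 := by
    rw [rank_eq_zero_iff]
    rintro ⟨⟨x, y⟩, hx⟩
    rw [rank_eq_zero_iff] at h0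
    obtain ⟨a, ha, hay⟩ := h0 y
    refine ⟨a, ha, ?_⟩
    have hx' : x = 0 := by simpa using hx
    ext
    · simp [hx']
    · simpa using hay
  rw [hr, hk, add_zero, rank_top] at h
  rw [Module.finrank, ← h]
  simp

/-- For a finitely generated abelian group, `[A : 2A] = 2 ^ rank * #A[2]`. -/
theorem index_two_eq (A : Type*) [AddCommGroup A] [AddGroup.FG A] :
    (two A).range.index = 2 ^ Module.finrank ℤ A * Nat.card (two A).ker := by
  obtain ⟨n, ι, fι, p, hp, e, ⟨f⟩⟩ := AddCommGroup.equiv_free_prod_directSum_zmod A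
  have hfin : ∀ i : ι, NeZero (p i ^ e i) := fun i => ⟨pow_ne_zero (e i) (hp i).ne_zero⟩
  have hfin2 : Finite (DirectSum ι fun i => ZMod (p i ^ e i)) :=
    Finite.of_equiv _ DFinsupp.equivFunOnFintype.symm
  set T := DirectSum ι fun i => ZMod (p i ^ e i)
  let g : A ≃+ (Fin n → ℤ) × T :=
    f.trans (((Finsupp.linearEquivFunOnFinite ℤ ℤ (Fin n)).toAddEquiv).prodCongr (AddEquiv.refl T))
  rw [index_two_congr g, card_ker_two_congr g, index_two_prod, card_ker_two_prod,
    index_two_int_pi, LinearEquiv.finrank_eq g.toIntLinearEquiv, finrank_prod_finite]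
  have h1 : Nat.card (two (Fin n → ℤ)).ker = 1 := by
    rw [Nat.card_eq_one_iff_unique]
    refine ⟨⟨?_⟩, ⟨0⟩⟩
    have hz : ∀ x : (two (Fin n → ℤ)).ker, x = 0 := by
      rintro ⟨x, hx⟩
      ext i
      have := congrFun (AddMonoidHom.mem_ker.mp hx) i
      simpa using this
    intro x y; rw [hz x, hz y]
  have h2 : (two T).range.index = Nat.card (two T).ker := by
    have : (two T).ker.FiniteIndex := inferInstance
    exact AddSubgroup.index_range
  rw [h1, h2, one_mul]

end Pool.Agent.H23
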