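import Pool.Agent.H23.Basic

/-!
# The 2-isogeny on `y² = x³ + a x² + b x`
-/

namespace Pool.Agent.H23

open WeierstrassCurve WeierstrassCurve.Affine

variable {K : Type*} [Field K]

/-- Standing assumptions: characteristic different from two and nonzero discriminant. -/
structure Good (a b : K) : Prop where
  h2 : (2 : K) ≠ 0
  hb : b ≠ 0
  hd : a ^ 2 - 4 * b ≠ 0

theorem Good.four {a b : K} (G : Good a b) : (4 : K) ≠ 0 := by
  have : (4 : K) = 2 ^ 2 := by norm_num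
  rw [this]; exact pow_ne_zero _ G.h2

theorem Good.eight {a b : K} (G : Good a b) : (8 : K) ≠ 0 := by
  have : (8 : K) = 2 ^ 3 := by norm_num
  rw [this]; exact pow_ne_zero _ G.h2

theorem Good.sixteen {a b : K} (G : Good a b) : (16 : K) ≠ 0 := by
  have : (16 : K) = 2 ^ 4 := by norm_num
  rw [this]; exact pow_ne_zero _ G.h2

theorem Good.dual {a b : K} (G : Good a b) : Good (-2 * a) (a ^ 2 - 4 * b) where
  h2 := G.h2
  hb := G.hd
  hd := by
    have : (-2 * a) ^ 2 - 4 * (a ^ 2 - 4 * b) = 16 * b := by ring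
    rw [this]
    exact mul_ne_zero G.sixteen G.hb

/-- The affine point `(x, y)` on `EC a b`. -/
def mkP {a b : K} (G : Good a b) (x y : K) (h : y ^ 2 = x ^ 3 + a * x ^ 2 + b * x) :
    (EC a b).toAffine.Point :=
  Point.some x y ((ec_nonsingular G.h2 G.hb G.hd).mpr h)

theorem mkP_ne_zero {a b : K} (G : Good a b) (x y : K) (h : y ^ 2 = x ^ 3 + a * x ^ 2 + b * x) :
    mkP G x y h ≠ 0 := Point.some_ne_zero _

theorem mkP_inj {a b : K} (G : Good a b) {x y x' y' : K}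
    {h : y ^ 2 = x ^ 3 + a * x ^ 2 + b * x} {h' : y' ^ 2 = x' ^ 3 + a * x' ^ 2 + b * x'} :
    mkP G x y h = mkP G x' y' h' ↔ x = x' ∧ y = y' := by
  unfold mkP
  rw [Point.some.injEq]

theorem mkP_congr {a b : K} (G : Good a b) {x y x' y' : K}
    {h : y ^ 2 = x ^ 3 + a * x ^ 2 + b * x} (hx : x = x') (hy : y = y') :
    mkP G x y h = mkP G x' y' (by rw [← hx, ← hy]; exact h) := by
  subst hx; subst hy; rfl

theorem neg_mkP {a b : K} (G : Good a b) {x y : K}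
    (h : y ^ 2 = x ^ 3 + a * x ^ 2 + b * x) :
    -mkP G x y h = mkP G x (-y) (by rw [← h]; ring) := by
  unfold mkP
  rw [Point.neg_some, Point.some.injEq]
  exact ⟨rfl, ec_negY⟩

/-- Case distinction for points. -/
theorem point_cases {a b : K} (G : Good a b) (P : (EC a b).toAffine.Point) :
    P = 0 ∨ ∃ x y h, P = mkP G x y h := by
  rcases P with _ | ⟨x, y, h⟩
  · left; rfl
  · right
    exact ⟨x, y, (ec_nonsingular G.h2 G.hb G.hd).mp h, rfl⟩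

theorem phi_eqn {a b x y : K} (hx : x ≠ 0) (h : y ^ 2 = x ^ 3 + a * x ^ 2 + b * x) :
    (y * (x ^ 2 - b) / x ^ 2) ^ 2 =
      (y ^ 2 / x ^ 2) ^ 3 + (-2 * a) * (y ^ 2 / x ^ 2) ^ 2 + (a ^ 2 - 4 * b) * (y ^ 2 / x ^ 2) := by
  have h' : y ^ 2 / x ^ 2 = x + a + b / x := by
    rw [h]; field_simp
  have h'' : (y * (x ^ 2 - b) / x ^ 2) ^ 2 = (y ^ 2 / x ^ 2) * (x - b / x) ^ 2 := by
    field_simp
  rw [h'', h']
  field_simp
  ring

variable [DecidableEq K]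

theorem mk_add_of_line {a b : K} (G : Good a b)
    {l n x₁ x₂ x₃ y₁ y₂ y₃ : K}
    (e1 : x₁ + x₂ + x₃ = l ^ 2 - a) (e2 : x₁ * x₂ + x₁ * x₃ + x₂ * x₃ = b - 2 * l * n)
    (hy₁ : y₁ = l * x₁ + n) (hy₂ : y₂ = l * x₂ + n) (hy₃ : y₃ = l * x₃ + n)
    (h₁ : y₁ ^ 2 = x₁ ^ 3 + a * x₁ ^ 2 + b * x₁)
    (h₂ : y₂ ^ 2 = x₂ ^ 3 + a * x₂ ^ 2 + b * x₂)
    (h₃ : y₃ ^ 2 = x₃ ^ 3 + a * x₃ ^ 2 + b * x₃) :
    mkP G x₁ y₁ h₁ + mkP G x₂ y₂ h₂ = -mkP G x₃ y₃ h₃ :=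
  add_of_line G.h2 G.hb G.hd e1 e2 hy₁ hy₂ hy₃ _ _ _

theorem mk_line_of_add {a b : K} (G : Good a b)
    {x₁ x₂ x₃ y₁ y₂ y₃ : K}
    (h₁ : y₁ ^ 2 = x₁ ^ 3 + a * x₁ ^ 2 + b * x₁)
    (h₂ : y₂ ^ 2 = x₂ ^ 3 + a * x₂ ^ 2 + b * x₂)
    (h₃ : y₃ ^ 2 = x₃ ^ 3 + a * x₃ ^ 2 + b * x₃)
    (h : mkP G x₁ y₁ h₁ + mkP G x₂ y₂ h₂ = -mkP G x₃ y₃ h₃) :
    ∃ l n : K, x₁ + x₂ + x₃ = l ^ 2 - a ∧ x₁ * x₂ + x₁ * x₃ + x₂ * x₃ = b - 2 * l * n ∧
      x₁ * x₂ * x₃ = n ^ 2 ∧ y₁ = l * x₁ + n ∧ y₂ = l * x₂ + n ∧ y₃ = l * x₃ + n :=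
  line_of_add G.h2 G.hb G.hd _ _ _ h

/-- A map of point sets compatible with collinearity is additive. -/
theorem additive_of {a b : K} (G : Good a b) {A : Type*} [AddCommGroup A]
    (f : (EC a b).toAffine.Point → A) (h0 : f 0 = 0) (hneg : ∀ P, f (-P) = -f P)
    (h : ∀ x₁ x₂ x₃ y₁ y₂ y₃ h₁ h₂ h₃,
      mkP G x₁ y₁ h₁ + mkP G x₂ y₂ h₂ = -mkP G x₃ y₃ h₃ →
      f (mkP G x₁ y₁ h₁) + f (mkP G x₂ y₂ h₂) = -f (mkP G x₃ y₃ h₃)) (P Q) :
    f (P + Q) = f P + f Q := by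
  rcases point_cases G P with rfl | ⟨x₁, y₁, h₁, rfl⟩
  · rw [zero_add, h0, zero_add]
  rcases point_cases G Q with rfl | ⟨x₂, y₂, h₂, rfl⟩
  · rw [add_zero, h0, add_zero]
  rcases point_cases G (-(mkP G x₁ y₁ h₁ + mkP G x₂ y₂ h₂)) with hR | ⟨x₃, y₃, h₃, hR⟩
  · have h3 : mkP G x₁ y₁ h₁ + mkP G x₂ y₂ h₂ = 0 := neg_eq_zero.mp hR
    have h4 : mkP G x₂ y₂ h₂ = -mkP G x₁ y₁ h₁ := by
      rw [eq_neg_iff_add_eq_zero, add_comm]; exact h3
    rw [h3, h0, h4, hneg, add_neg_cancel]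
  · have h3 : mkP G x₁ y₁ h₁ + mkP G x₂ y₂ h₂ = -mkP G x₃ y₃ h₃ := by
      rw [← hR, neg_neg]
    rw [h3, hneg, h _ _ _ _ _ _ _ _ _ h3]

/-! ### The isogeny `φ` -/

/-- The isogeny `φ : E → E'`, `(x, y) ↦ (y²/x², y(x²-b)/x²)`, with kernel `{O, (0,0)}`. -/
def phi {a b : K} (G : Good a b) :
    (EC a b).toAffine.Point → (EC (-2 * a) (a ^ 2 - 4 * b)).toAffine.Point
  | 0 => 0
  | Point.some x y h =>
    if hx : x = 0 then 0 else
      mkP G.dual (y ^ 2 / x ^ 2) (y * (x ^ 2 - b) / x ^ 2)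
        (phi_eqn hx ((ec_nonsingular G.h2 G.hb G.hd).mp h))

theorem phi_zero {a b : K} (G : Good a b) : phi G 0 = 0 := rfl

theorem phi_mk_zero {a b : K} (G : Good a b) {x y : K}
    (h : y ^ 2 = x ^ 3 + a * x ^ 2 + b * x) (hx : x = 0) : phi G (mkP G x y h) = 0 := by
  simp only [mkP, phi]
  rw [dif_pos hx]

theorem phi_mk {a b : K} (G : Good a b) {x y : K}
    (h : y ^ 2 = x ^ 3 + a * x ^ 2 + b * x) (hx : x ≠ 0) :
    phi G (mkP G x y h) = mkP G.dual (y ^ 2 / x ^ 2) (y * (x ^ 2 - b) / x ^ 2)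
      (phi_eqn hx h) := by
  simp only [mkP, phi]
  rw [dif_neg hx]

theorem phi_neg {a b : K} (G : Good a b) (P) : phi G (-P) = -phi G P := by
  rcases point_cases G P with rfl | ⟨x, y, h, rfl⟩
  · simp [phi_zero]
  · rw [neg_mkP]
    by_cases hx : x = 0
    · rw [phi_mk_zero G _ hx, phi_mk_zero G _ hx, neg_zero]
    · rw [phi_mk G _ hx, phi_mk G _ hx, neg_mkP, mkP_inj]
      constructor <;> ring

theorem phi_add {a b : K} (G : Good a b) (P Q) : phi G (P + Q) = phi G P + phi G Q := by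
  refine additive_of G (phi G) (phi_zero G) (phi_neg G) ?_ P Q
  intro x₁ x₂ x₃ y₁ y₂ y₃ h₁ h₂ h₃ h
  obtain ⟨l, n, e1, e2, e3, hy1, hy2, hy3⟩ := mk_line_of_add G h₁ h₂ h₃ h
  -- generic helper for lines through `T`
  have helper : ∀ u v yu yv : K, u * v = b → yu = l * u → yv = l * v →
      ∀ (hu : yu ^ 2 = u ^ 3 + a * u ^ 2 + b * u) (hv : yv ^ 2 = v ^ 3 + a * v ^ 2 + b * v),
      phi G (mkP G u yu hu) = -phi G (mkP G v yv hv) := by
    intro u v yu yv huv hyu hyv hu hv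
    have hu0 : u ≠ 0 := by
      rintro rfl; apply G.hb; rw [← huv, zero_mul]
    have hv0 : v ≠ 0 := by
      rintro rfl; apply G.hb; rw [← huv, mul_zero]
    rw [phi_mk G hu hu0, phi_mk G hv hv0, neg_mkP, mkP_inj]
    subst hyu; subst hyv
    rw [← huv]
    constructor
    · field_simp
    · field_simp; ring
  by_cases hx1 : x₁ = 0
  · have hn : n = 0 := by
      have : n ^ 2 = 0 := by rw [← e3, hx1]; ring
      exact pow_eq_zero_iff (two_ne_zero) |>.mp this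
    rw [phi_mk_zero G _ hx1, zero_add]
    apply helper
    · rw [hn, hx1] at e2; linear_combination e2
    · rw [hy2, hn, add_zero]
    · rw [hy3, hn, add_zero]
  by_cases hx2 : x₂ = 0
  · have hn : n = 0 := by
      have : n ^ 2 = 0 := by rw [← e3, hx2]; ring
      exact pow_eq_zero_iff (two_ne_zero) |>.mp this
    rw [phi_mk_zero G _ hx2, add_zero]
    apply helper
    · rw [hn, hx2] at e2; linear_combination e2
    · rw [hy1, hn, add_zero]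
    · rw [hy3, hn, add_zero]
  by_cases hx3 : x₃ = 0
  · have hn : n = 0 := by
      have : n ^ 2 = 0 := by rw [← e3, hx3]; ring
      exact pow_eq_zero_iff (two_ne_zero) |>.mp this
    rw [phi_mk_zero G _ hx3, neg_zero, add_eq_zero_iff_eq_neg]
    apply helper
    · rw [hn, hx3] at e2; linear_combination e2
    · rw [hy1, hn, add_zero]
    · rw [hy2, hn, add_zero]
  have hn : n ≠ 0 := by
    rintro rfl
    have : x₁ * x₂ * x₃ ≠ 0 := mul_ne_zero (mul_ne_zero hx1 hx2) hx3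
    apply this; rw [e3]; ring
  rw [phi_mk G _ hx1, phi_mk G _ hx2, phi_mk G _ hx3]
  -- symmetric functions of inverses
  have hS : x₁⁻¹ + x₂⁻¹ + x₃⁻¹ = (b - 2 * l * n) / n ^ 2 := by
    rw [← e2, ← e3]; field_simp; ring
  have hT : x₁⁻¹ * x₂⁻¹ + x₁⁻¹ * x₃⁻¹ + x₂⁻¹ * x₃⁻¹ = (l ^ 2 - a) / n ^ 2 := by
    rw [← e1, ← e3]; field_simp; ring
  have hU : x₁⁻¹ * x₂⁻¹ * x₃⁻¹ = 1 / n ^ 2 := by
    rw [← e3]; field_simp
  have hX : ∀ x y : K, x ≠ 0 → y = l * x + n → y ^ 2 / x ^ 2 = (l + n * x⁻¹) ^ 2 := by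
    intro x y hx hy; rw [hy]; field_simp
  have key1 : ∀ p q r S T : K, p + q + r = S → p * q + p * r + q * r = T →
      S = (b - 2 * l * n) / n ^ 2 → T = (l ^ 2 - a) / n ^ 2 →
      (l + n * p) ^ 2 + (l + n * q) ^ 2 + (l + n * r) ^ 2 = ((n * l - b) / n) ^ 2 - (-2 * a) := by
    intro p q r S T hS hT hS' hT'
    have : (l + n * p) ^ 2 + (l + n * q) ^ 2 + (l + n * r) ^ 2 =
        3 * l ^ 2 + 2 * l * n * S + n ^ 2 * (S ^ 2 - 2 * T) := by
      rw [← hS, ← hT]; ring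
    rw [this, hS', hT']
    field_simp
    ring
  have key2 : ∀ p q r S T U : K, p + q + r = S → p * q + p * r + q * r = T → p * q * r = U →
      S = (b - 2 * l * n) / n ^ 2 → T = (l ^ 2 - a) / n ^ 2 → U = 1 / n ^ 2 →
      (l + n * p) ^ 2 * (l + n * q) ^ 2 + (l + n * p) ^ 2 * (l + n * r) ^ 2 +
        (l + n * q) ^ 2 * (l + n * r) ^ 2 = (a ^ 2 - 4 * b) -
          2 * ((n * l - b) / n) * ((n ^ 2 - a * n * l + b * l ^ 2) / n) := by
    intro p q r S T U hS hT hU hS' hT' hU'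
    have : (l + n * p) ^ 2 * (l + n * q) ^ 2 + (l + n * p) ^ 2 * (l + n * r) ^ 2 +
        (l + n * q) ^ 2 * (l + n * r) ^ 2 =
        (3 * l ^ 2 + 2 * l * n * S + n ^ 2 * T) ^ 2 -
          2 * (3 * l + n * S) * (l ^ 3 + l ^ 2 * n * S + l * n ^ 2 * T + n ^ 3 * U) := by
      rw [← hS, ← hT, ← hU]; ring
    rw [this, hS', hT', hU']
    field_simp
    ring
  have hY : ∀ x y : K, x ≠ 0 → y = l * x + n → y ^ 2 = x ^ 3 + a * x ^ 2 + b * x →
      y * (x ^ 2 - b) / x ^ 2 = (n * l - b) / n * (y ^ 2 / x ^ 2) +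
        (n ^ 2 - a * n * l + b * l ^ 2) / n := by
    intro x y hx hy hE
    field_simp
    have : y * (x ^ 2 - b) * n = y ^ 2 * (n * l - b) + x ^ 2 * (n * (n - a * l) + b * l ^ 2) := by
      subst hy
      linear_combination (-(n * l) + 0 * b) * hE
    first | exact this | linear_combination this
  apply mk_add_of_line G.dual (l := (n * l - b) / n) (n := (n ^ 2 - a * n * l + b * l ^ 2) / n)
  · rw [hX _ _ hx1 hy1, hX _ _ hx2 hy2, hX _ _ hx3 hy3]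
    exact key1 _ _ _ _ _ rfl rfl hS hT
  · rw [hX _ _ hx1 hy1, hX _ _ hx2 hy2, hX _ _ hx3 hy3]
    exact key2 _ _ _ _ _ _ rfl rfl rfl hS hT hU
  · exact hY _ _ hx1 hy1 h₁
  · exact hY _ _ hx2 hy2 h₂
  · exact hY _ _ hx3 hy3 h₃

/-! ### Scaling and the dual isogeny -/

omit [DecidableEq K] in
theorem scale_eqn {a b a4 b4 x y : K} (h4 : (4 : K) ≠ 0) (h8 : (8 : K) ≠ 0)
    (ha : a4 = 4 * a) (hb : b4 = 16 * b)
    (h : y ^ 2 = x ^ 3 + a4 * x ^ 2 + b4 * x) :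
    (y / 8) ^ 2 = (x / 4) ^ 3 + a * (x / 4) ^ 2 + b * (x / 4) := by
  have e64 : (64 : K) ≠ 0 := by
    have : (64 : K) = 8 * 8 := by norm_num
    rw [this]; exact mul_ne_zero h8 h8
  have e1 : (y / 8) ^ 2 = y ^ 2 / 64 := by
    rw [div_pow]; norm_num
  have e2 : (x / 4) ^ 3 + a * (x / 4) ^ 2 + b * (x / 4) =
      (x ^ 3 + (4 * a) * x ^ 2 + (16 * b) * x) / 64 := by
    have h64 : (64 : K) = 4 * 4 * 4 := by norm_num
    rw [h64] at e64 ⊢
    field_simp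
    ring
  rw [e1, e2, h, ha, hb]

/-- The scaling map `(x, y) ↦ (x/4, y/8)` from `EC (4a) (16b)` to `EC a b`. -/
def scale {a b a4 b4 : K} (G : Good a b) (G4 : Good a4 b4) (ha : a4 = 4 * a) (hb : b4 = 16 * b) :
    (EC a4 b4).toAffine.Point → (EC a b).toAffine.Point
  | 0 => 0
  | Point.some x y h => mkP G (x / 4) (y / 8)
      (scale_eqn G.four G.eight ha hb ((ec_nonsingular G4.h2 G4.hb G4.hd).mp h))

omit [DecidableEq K] in
theorem scale_zero {a b a4 b4 : K} (G : Good a b) (G4 : Good a4 b4) (ha : a4 = 4 * a)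
    (hb : b4 = 16 * b) : scale G G4 ha hb 0 = 0 := rfl

omit [DecidableEq K] in
theorem scale_mk {a b a4 b4 : K} (G : Good a b) (G4 : Good a4 b4) (ha : a4 = 4 * a)
    (hb : b4 = 16 * b) {x y : K} (h : y ^ 2 = x ^ 3 + a4 * x ^ 2 + b4 * x) :
    scale G G4 ha hb (mkP G4 x y h) =
      mkP G (x / 4) (y / 8) (scale_eqn G.four G.eight ha hb h) := rfl

theorem scale_neg {a b a4 b4 : K} (G : Good a b) (G4 : Good a4 b4) (ha : a4 = 4 * a)
    (hb : b4 = 16 * b) (P) : scale G G4 ha hb (-P) = -scale G G4 ha hb P := by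
  rcases point_cases G4 P with rfl | ⟨x, y, h, rfl⟩
  · simp [scale_zero]
  · rw [neg_mkP, scale_mk, scale_mk, neg_mkP, mkP_inj]
    exact ⟨rfl, by ring⟩

theorem scale_add {a b a4 b4 : K} (G : Good a b) (G4 : Good a4 b4) (ha : a4 = 4 * a)
    (hb : b4 = 16 * b) (P Q) :
    scale G G4 ha hb (P + Q) = scale G G4 ha hb P + scale G G4 ha hb Q := by
  refine additive_of G4 _ (scale_zero G G4 ha hb) (scale_neg G G4 ha hb) ?_ P Q
  intro x₁ x₂ x₃ y₁ y₂ y₃ h₁ h₂ h₃ h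
  obtain ⟨l, n, e1, e2, e3, hy1, hy2, hy3⟩ := mk_line_of_add G4 h₁ h₂ h₃ h
  have h4 := G.four
  have h2 := G.h2
  have h8 := G.eight
  have e8 : (8 : K) = 2 * 4 := by norm_num
  have e4 : (4 : K) = 2 * 2 := by norm_num
  rw [scale_mk, scale_mk, scale_mk]
  apply mk_add_of_line G (l := l / 2) (n := n / 8)
  · have : x₁ / 4 + x₂ / 4 + x₃ / 4 = (x₁ + x₂ + x₃) / 4 := by ring
    rw [this, e1, ha, div_pow]
    field_simp
    ring
  · have : x₁ / 4 * (x₂ / 4) + x₁ / 4 * (x₃ / 4) + x₂ / 4 * (x₃ / 4) =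
        (x₁ * x₂ + x₁ * x₃ + x₂ * x₃) / 4 / 4 := by ring
    rw [this, e2, hb, e8, e4]
    field_simp
    ring
  · rw [hy1, e8, e4]; field_simp
  · rw [hy2, e8, e4]; field_simp
  · rw [hy3, e8, e4]; field_simp

/-- The dual isogeny `ψ : E' → E`. -/
def psi {a b : K} (G : Good a b) :
    (EC (-2 * a) (a ^ 2 - 4 * b)).toAffine.Point → (EC a b).toAffine.Point :=
  fun Q => scale G G.dual.dual (by ring) (by ring) (phi G.dual Q)

theorem psi_zero {a b : K} (G : Good a b) : psi G 0 = 0 := rfl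

theorem psi_add {a b : K} (G : Good a b) (P Q) : psi G (P + Q) = psi G P + psi G Q := by
  unfold psi
  rw [phi_add, scale_add]

/-- `φ` as a group homomorphism. -/
def phiHom {a b : K} (G : Good a b) :
    (EC a b).toAffine.Point →+ (EC (-2 * a) (a ^ 2 - 4 * b)).toAffine.Point where
  toFun := phi G
  map_zero' := phi_zero G
  map_add' := phi_add G

/-- `ψ` as a group homomorphism. -/
def psiHom {a b : K} (G : Good a b) :
    (EC (-2 * a) (a ^ 2 - 4 * b)).toAffine.Point →+ (EC a b).toAffine.Point where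
  toFun := psi G
  map_zero' := psi_zero G
  map_add' := psi_add G

theorem phiHom_apply {a b : K} (G : Good a b) (P) : phiHom G P = phi G P := rfl
theorem psiHom_apply {a b : K} (G : Good a b) (P) : psiHom G P = psi G P := rfl

theorem psi_mk_zero {a b : K} (G : Good a b) {x y : K}
    (h : y ^ 2 = x ^ 3 + (-2 * a) * x ^ 2 + (a ^ 2 - 4 * b) * x) (hx : x = 0) :
    psi G (mkP G.dual x y h) = 0 := by
  unfold psi
  rw [phi_mk_zero G.dual _ hx, scale_zero]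

/-- `φ(P) = 0` iff `P = 0` or `x(P) = 0`. -/
theorem phi_eq_zero {a b : K} (G : Good a b) {x y : K}
    (h : y ^ 2 = x ^ 3 + a * x ^ 2 + b * x) : phi G (mkP G x y h) = 0 ↔ x = 0 := by
  constructor
  · intro h0
    by_contra hx
    rw [phi_mk G _ hx] at h0
    exact mkP_ne_zero _ _ _ _ h0
  · exact phi_mk_zero G h

/-- `ψ ∘ φ = 2`. -/
theorem psi_phi {a b : K} (G : Good a b) (P) : psi G (phi G P) = P + P := by
  rcases point_cases G P with rfl | ⟨x, y, h, rfl⟩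
  · rw [phi_zero, psi_zero, add_zero]
  by_cases hx : x = 0
  · have hy : y = 0 := by
      have : y ^ 2 = 0 := by rw [h, hx]; ring
      exact pow_eq_zero_iff two_ne_zero |>.mp this
    rw [phi_mk_zero G _ hx, psi_zero]
    symm
    rw [add_eq_zero_iff_eq_neg, neg_mkP, mkP_inj]
    exact ⟨rfl, by rw [hy]; ring⟩
  by_cases hy : y = 0
  · rw [phi_mk G _ hx, psi_mk_zero]
    · symm
      rw [add_eq_zero_iff_eq_neg, neg_mkP, mkP_inj]
      exact ⟨rfl, by rw [hy]; ring⟩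
    · rw [hy]; simp
  -- the general case
  have h2 := G.h2
  have h4 := G.four
  have h8 := G.eight
  have e4 : (4 : K) = 2 * 2 := by norm_num
  have e8 : (8 : K) = 2 * 2 * 2 := by norm_num
  have hXne : y ^ 2 / x ^ 2 ≠ 0 := div_ne_zero (pow_ne_zero _ hy) (pow_ne_zero _ hx)
  rw [phi_mk G _ hx]
  unfold psi
  rw [phi_mk G.dual _ hXne, scale_mk]
  set x3 := (y * (x ^ 2 - b) / x ^ 2) ^ 2 / (y ^ 2 / x ^ 2) ^ 2 / 4 with hx3
  set y3 := (y * (x ^ 2 - b) / x ^ 2) * ((y ^ 2 / x ^ 2) ^ 2 - (a ^ 2 - 4 * b)) /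
    (y ^ 2 / x ^ 2) ^ 2 / 8 with hy3
  have hx3' : x3 = (x ^ 2 - b) ^ 2 / (4 * y ^ 2) := by
    rw [hx3]; field_simp
  have hfac : x ^ 2 + a * x + b ≠ 0 := by
    intro h0; apply hy
    have : y ^ 2 = 0 := by rw [h]; linear_combination x * h0
    exact pow_eq_zero_iff two_ne_zero |>.mp this
  have hy3' : y3 = (x ^ 2 - b) * (x ^ 4 + 2 * a * x ^ 3 + 6 * b * x ^ 2 + 2 * a * b * x + b ^ 2) /
      (8 * (y * y ^ 2)) := by
    have hy4 : y ^ 4 = x ^ 2 * (x ^ 2 + a * x + b) ^ 2 := by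
      have : y ^ 4 = (y ^ 2) ^ 2 := by ring
      rw [this, h]; ring
    have : y3 = (x ^ 2 - b) * (y ^ 4 - (a ^ 2 - 4 * b) * x ^ 4) / (8 * x ^ 2 * (y * y ^ 2)) := by
      rw [hy3]; field_simp
    rw [this, hy4]
    field_simp
    ring
  have hneg : ∀ (u v : K) (hh : v ^ 2 = u ^ 3 + a * u ^ 2 + b * u),
      mkP G u v hh = - mkP G u (-v) (by rw [neg_sq]; exact hh) := by
    intro u v hh
    rw [neg_mkP, mkP_inj]; exact ⟨rfl, by ring⟩
  symm
  rw [hneg x3 y3]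
  have hl : (3 * x ^ 2 + 2 * a * x + b) / (2 * y) * (2 * y) = 3 * x ^ 2 + 2 * a * x + b := by
    field_simp
  have hE1 : x + x + x3 = ((3 * x ^ 2 + 2 * a * x + b) / (2 * y)) ^ 2 - a := by
    rw [hx3', div_pow]
    have : (2 * y) ^ 2 = 4 * y ^ 2 := by ring
    rw [this]
    have h4y : 4 * y ^ 2 ≠ 0 := mul_ne_zero h4 (pow_ne_zero _ hy)
    rw [← sub_eq_zero]
    have : x + x + (x ^ 2 - b) ^ 2 / (4 * y ^ 2) -
        ((3 * x ^ 2 + 2 * a * x + b) ^ 2 / (4 * y ^ 2) - a) =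
        ((2 * x + a) * (4 * y ^ 2) + (x ^ 2 - b) ^ 2 - (3 * x ^ 2 + 2 * a * x + b) ^ 2) /
          (4 * y ^ 2) := by
      field_simp; ring
    rw [this, div_eq_zero_iff]
    left
    rw [h]; ring
  apply mk_add_of_line G (l := (3 * x ^ 2 + 2 * a * x + b) / (2 * y))
    (n := y - (3 * x ^ 2 + 2 * a * x + b) / (2 * y) * x)
  · exact hE1
  · set l := (3 * x ^ 2 + 2 * a * x + b) / (2 * y) with hldef
    linear_combination (2 * x) * hE1 + hl
  · ring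
  · ring
  · -- y-coordinate
    rw [hx3', hy3']
    have h8y : 8 * (y * y ^ 2) ≠ 0 := mul_ne_zero h8 (mul_ne_zero hy (pow_ne_zero _ hy))
    have e1 : (3 * x ^ 2 + 2 * a * x + b) / (2 * y) * ((x ^ 2 - b) ^ 2 / (4 * y ^ 2)) +
        (y - (3 * x ^ 2 + 2 * a * x + b) / (2 * y) * x) =
        ((3 * x ^ 2 + 2 * a * x + b) * ((x ^ 2 - b) ^ 2 - 4 * x * y ^ 2) + 8 * (y ^ 2) ^ 2) /
          (8 * (y * y ^ 2)) := by
      rw [e8, e4]; field_simp
      ring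
    rw [e1, ← neg_div]
    congr 1
    rw [h]
    ring

end Pool.Agent.H23
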