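import Pool.Agent.H23.Selmer

/-!
# Local obstructions at odd primes of bad reduction
-/

namespace Pool.Agent.H23

variable {p : ℕ} [hp : Fact p.Prime]

theorem QSol.swap {K : Type*} [Field K] {a b d : ℤ} (hd : d ∣ b) (hb : b ≠ 0)
    (h : QSol K a b d) : QSol K a b (b / d) := by
  obtain ⟨N, M, e, h0, h1⟩ := h
  refine ⟨N, e, M, h0.symm, ?_⟩
  have : b / (b / d) = d := by
    obtain ⟨c, rfl⟩ := hd
    have hd0 : d ≠ 0 := left_ne_zero_of_mul hb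
    have hc0 : c ≠ 0 := right_ne_zero_of_mul hb
    rw [Int.mul_ediv_cancel_left _ hd0, Int.mul_ediv_cancel _ hc0]
  rw [this, h1]
  ring

theorem norm_le_one_of_sq {x : ℚ_[p]} (h : ‖x ^ 2‖ ≤ 1) : ‖x‖ ≤ 1 := by
  rw [norm_pow] at h
  by_contra hlt
  push Not at hlt
  have : (1 : ℝ) < ‖x‖ ^ 2 := one_lt_pow₀ hlt two_ne_zero
  linarith

/-- A `p`-adic solution can be normalised to an integral one with `M = 1` or `e = 1`. -/
theorem qsol_norm {a b d : ℤ} (h : QSol ℚ_[p] a b d) :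
    (∃ N e : ℤ_[p], N ^ 2 = (d : ℤ_[p]) + (a : ℤ_[p]) * e ^ 2 + ((b / d : ℤ) : ℤ_[p]) * e ^ 4) ∨
    (∃ N M : ℤ_[p], N ^ 2 = (d : ℤ_[p]) * M ^ 4 + (a : ℤ_[p]) * M ^ 2
      + ((b / d : ℤ) : ℤ_[p])) := by
  obtain ⟨N, M, e, h0, h1⟩ := h
  rcases le_total ‖e‖ ‖M‖ with hle | hle
  · left
    have hM : M ≠ 0 := by
      rintro rfl
      rcases h0 with h | h
      · exact h rfl
      · apply h; rw [norm_zero] at hle; exact norm_le_zero_iff.mp hle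
    have hMn : 0 < ‖M‖ := norm_pos_iff.mpr hM
    have he1 : ‖e / M‖ ≤ 1 := by
      rw [norm_div, div_le_one hMn]; exact hle
    obtain ⟨e', he'⟩ : ∃ e' : ℤ_[p], (e' : ℚ_[p]) = e / M := ⟨⟨e / M, he1⟩, rfl⟩
    have hN : (N / M ^ 2) ^ 2 = ((d : ℤ_[p]) + (a : ℤ_[p]) * e' ^ 2
        + ((b / d : ℤ) : ℤ_[p]) * e' ^ 4 : ℤ_[p]) := by
      push_cast
      rw [he']
      field_simp
      rw [h1]
      ring
    have hN1 : ‖N / M ^ 2‖ ≤ 1 := by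
      apply norm_le_one_of_sq
      rw [hN]
      exact PadicInt.norm_le_one _
    obtain ⟨N', hN'⟩ : ∃ N' : ℤ_[p], (N' : ℚ_[p]) = N / M ^ 2 := ⟨⟨N / M ^ 2, hN1⟩, rfl⟩
    refine ⟨N', e', ?_⟩
    rw [← hN', ← PadicInt.coe_pow] at hN
    exact PadicInt.ext hN
  · right
    have he : e ≠ 0 := by
      rintro rfl
      rcases h0 with h | h
      · apply h; rw [norm_zero] at hle; exact norm_le_zero_iff.mp hle
      · exact h rfl
    have hen : 0 < ‖e‖ := norm_pos_iff.mpr he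
    have hM1 : ‖M / e‖ ≤ 1 := by
      rw [norm_div, div_le_one hen]; exact hle
    obtain ⟨M', hM'⟩ : ∃ M' : ℤ_[p], (M' : ℚ_[p]) = M / e := ⟨⟨M / e, hM1⟩, rfl⟩
    have hN : (N / e ^ 2) ^ 2 = ((d : ℤ_[p]) * M' ^ 4 + (a : ℤ_[p]) * M' ^ 2
        + ((b / d : ℤ) : ℤ_[p]) : ℤ_[p]) := by
      push_cast
      rw [hM']
      field_simp
      rw [h1]
      ring
    have hN1 : ‖N / e ^ 2‖ ≤ 1 := by
      apply norm_le_one_of_sq
      rw [hN]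
      exact PadicInt.norm_le_one _
    obtain ⟨N', hN'⟩ : ∃ N' : ℤ_[p], (N' : ℚ_[p]) = N / e ^ 2 := ⟨⟨N / e ^ 2, hN1⟩, rfl⟩
    refine ⟨N', M', ?_⟩
    rw [← hN', ← PadicInt.coe_pow] at hN
    exact PadicInt.ext hN

theorem toZMod_eq_zero_iff {x : ℤ_[p]} : PadicInt.toZMod x = 0 ↔ (p : ℤ_[p]) ∣ x := by
  rw [← RingHom.mem_ker, PadicInt.ker_toZMod, PadicInt.maximalIdeal_eq_span_p,
    Ideal.mem_span_singleton]

theorem toZMod_intCast (n : ℤ) : PadicInt.toZMod (n : ℤ_[p]) = (n : ZMod p) :=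
  map_intCast _ _

theorem p_dvd_int_iff (n : ℤ) : (p : ℤ_[p]) ∣ (n : ℤ_[p]) ↔ (p : ℤ) ∣ n := by
  have := PadicInt.pow_p_dvd_int_iff (p := p) 1 n
  simpa using this

theorem p_sq_dvd_int_iff (n : ℤ) : (p : ℤ_[p]) ^ 2 ∣ (n : ℤ_[p]) ↔ (p : ℤ) ^ 2 ∣ n := by
  have := PadicInt.pow_p_dvd_int_iff (p := p) 2 n
  simpa using this

/-- If `N² = d M⁴ + p (stuff)` with `M` prime to `p` then `d` is a square modulo `p`. -/
theorem legendre_of_sq {d : ℤ} (hd : ¬ (p : ℤ) ∣ d) {N M : ℤ_[p]}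
    (hM : ¬ (p : ℤ_[p]) ∣ M) (h : (p : ℤ_[p]) ∣ N ^ 2 - d * M ^ 4) : legendreSym p d = 1 := by
  have hd0 : (d : ZMod p) ≠ 0 := by
    rwa [Ne, ZMod.intCast_zmod_eq_zero_iff_dvd]
  rw [legendreSym.eq_one_iff p hd0]
  rw [← toZMod_eq_zero_iff] at h hM
  rw [map_sub, map_mul, map_pow, map_pow, toZMod_intCast, sub_eq_zero] at h
  refine ⟨PadicInt.toZMod N / PadicInt.toZMod M ^ 2, ?_⟩
  field_simp
  rw [h]

theorem legendre_typeIII {a b d : ℤ} (hpa : (p : ℤ) ∣ a) (hdb : d ∣ b)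
    (hpb : (p : ℤ) ∣ b) (hpb2 : ¬ (p : ℤ) ^ 2 ∣ b) (hd : ¬ (p : ℤ) ∣ d)
    (h : QSol ℚ_[p] a b d) : legendreSym p d = 1 := by
  have hp0 : (p : ℤ_[p]) ≠ 0 := by exact_mod_cast hp.1.ne_zero
  have hpri : Prime (p : ℤ_[p]) := PadicInt.prime_p
  have hpz : Prime (p : ℤ) := Nat.prime_iff_prime_int.mp hp.1
  have hb0 : b ≠ 0 := by rintro rfl; exact hpb2 (dvd_zero _)
  have hd0 : d ≠ 0 := by rintro rfl; exact hd (dvd_zero _)
  set d' := b / d with hd'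
  have hbd : b = d * d' := by rw [hd']; exact (Int.mul_ediv_cancel' hdb).symm
  have hpd' : (p : ℤ) ∣ d' := by
    rw [hbd] at hpb
    exact (hpz.dvd_or_dvd hpb).resolve_left hd
  have hpd'2 : ¬ (p : ℤ) ^ 2 ∣ d' := fun h => hpb2 (by rw [hbd]; exact h.mul_left d)
  have ha' : (p : ℤ_[p]) ∣ (a : ℤ_[p]) := (p_dvd_int_iff a).mpr hpa
  have hd'' : (p : ℤ_[p]) ∣ (d' : ℤ_[p]) := (p_dvd_int_iff d').mpr hpd'
  rcases qsol_norm h with ⟨N, e, h1⟩ | ⟨N, M, h1⟩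
  · apply legendre_of_sq hd (N := N) (M := 1) (fun h => hpri.not_isUnit (isUnit_of_dvd_one h))
    rw [h1]
    have : (d : ℤ_[p]) + a * e ^ 2 + (d' : ℤ) * e ^ 4 - d * 1 ^ 4
        = a * e ^ 2 + (d' : ℤ) * e ^ 4 := by ring
    rw [this]
    exact dvd_add (ha'.mul_right _) (hd''.mul_right _)
  · by_cases hM : (p : ℤ_[p]) ∣ M
    · exfalso
      apply hpd'2
      rw [← p_sq_dvd_int_iff]
      have hN : (p : ℤ_[p]) ∣ N := by
        apply hpri.dvd_of_dvd_pow (n := 2)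
        rw [h1]
        exact dvd_add (dvd_add ((dvd_pow hM four_ne_zero).mul_left _)
          ((dvd_pow hM two_ne_zero).mul_left _)) hd''
      have : (d' : ℤ_[p]) = N ^ 2 - d * M ^ 4 - a * M ^ 2 := by rw [h1]; ring
      rw [this]
      refine dvd_sub (dvd_sub (pow_dvd_pow_of_dvd hN 2) ?_) ?_
      · have h4 : (p : ℤ_[p]) ^ 2 ∣ M ^ 2 := pow_dvd_pow_of_dvd hM 2
        have : M ^ 4 = M ^ 2 * M ^ 2 := by ring
        rw [this]
        exact (h4.mul_right _).mul_left _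
      · exact (pow_dvd_pow_of_dvd hM 2).mul_left _
    · apply legendre_of_sq hd hM (N := N)
      rw [h1]
      have : (d : ℤ_[p]) * M ^ 4 + a * M ^ 2 + (d' : ℤ) - d * M ^ 4
          = a * M ^ 2 + (d' : ℤ) := by ring
      rw [this]
      exact dvd_add (ha'.mul_right _) hd''

theorem legendre_typeIII' {a b d : ℤ} (hpa : (p : ℤ) ∣ a) (hdb : d ∣ b)
    (hpb2 : ¬ (p : ℤ) ^ 2 ∣ b) (hd : (p : ℤ) ∣ d)
    (h : QSol ℚ_[p] a b d) : legendreSym p (b / d) = 1 := by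
  have hb0 : b ≠ 0 := by rintro rfl; exact hpb2 (dvd_zero _)
  have hbd : d * (b / d) = b := Int.mul_ediv_cancel' hdb
  apply legendre_typeIII hpa (Dvd.intro_left d hbd) (hd.trans hdb) hpb2 ?_ (h.swap hdb hb0)
  intro h2
  apply hpb2
  rw [← hbd, pow_two]
  exact mul_dvd_mul hd h2

/-- At an odd prime exactly dividing `a² - 4b` and not dividing `b`, the class `d` is a square. -/
theorem legendre_mult {a b d : ℤ} (hp2 : p ≠ 2) (hdb : d ∣ b)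
    (hpb' : (p : ℤ) ∣ a ^ 2 - 4 * b) (hpb'2 : ¬ (p : ℤ) ^ 2 ∣ a ^ 2 - 4 * b)
    (hpb : ¬ (p : ℤ) ∣ b) (h : QSol ℚ_[p] a b d) : legendreSym p d = 1 := by
  have hpri : Prime (p : ℤ_[p]) := PadicInt.prime_p
  have hd : ¬ (p : ℤ) ∣ d := fun h => hpb (h.trans hdb)
  have hd0 : (d : ZMod p) ≠ 0 := by
    rwa [Ne, ZMod.intCast_zmod_eq_zero_iff_dvd]
  rcases legendreSym.eq_one_or_neg_one p hd0 with h1 | h1
  · exact h1
  exfalso
  set d' := b / d with hd'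
  have hbd : b = d * d' := by rw [hd']; exact (Int.mul_ediv_cancel' hdb).symm
  have h2 : (2 : ZMod p) ≠ 0 := by
    intro h
    have : ((2 : ℕ) : ZMod p) = 0 := by exact_mod_cast h
    rw [ZMod.natCast_eq_zero_iff] at this
    exact hp2 ((Nat.prime_dvd_prime_iff_eq hp.1 Nat.prime_two).mp this)
  -- general step
  have key : ∀ N X E : ℤ_[p], 4 * d * N ^ 2 = X ^ 2 - ((a ^ 2 - 4 * b : ℤ) : ℤ_[p]) * E ^ 4 →
      (p : ℤ_[p]) ∣ X ∧ (p : ℤ_[p]) ∣ N ∧ (p : ℤ_[p]) ^ 2 ∣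
        ((a ^ 2 - 4 * b : ℤ) : ℤ_[p]) * E ^ 4 := by
    intro N X E hX
    have hb'' : ((a ^ 2 - 4 * b : ℤ) : ZMod p) = 0 := by
      rwa [ZMod.intCast_zmod_eq_zero_iff_dvd]
    have e1 := congrArg (PadicInt.toZMod : ℤ_[p] →+* ZMod p) hX
    simp only [map_mul, map_pow, map_sub, toZMod_intCast, hb'', zero_mul, sub_zero] at e1
    have e2 : (PadicInt.toZMod X) ^ 2 - (d : ZMod p) * (2 * PadicInt.toZMod N) ^ 2 = 0 := by
      rw [← e1, map_ofNat]; ring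
    obtain ⟨e3, e4⟩ := legendreSym.eq_zero_mod_of_eq_neg_one h1 e2
    have e5 : PadicInt.toZMod N = 0 := (mul_eq_zero.mp e4).resolve_left h2
    rw [toZMod_eq_zero_iff] at e3 e5
    refine ⟨e3, e5, ?_⟩
    have : ((a ^ 2 - 4 * b : ℤ) : ℤ_[p]) * E ^ 4 = X ^ 2 - 4 * d * N ^ 2 := by rw [hX]; ring
    rw [this]
    exact dvd_sub (pow_dvd_pow_of_dvd e3 2) ((pow_dvd_pow_of_dvd e5 2).mul_left _)
  have hd2 : ((2 * d : ℤ) : ZMod p) ≠ 0 := by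
    push_cast
    exact mul_ne_zero h2 hd0
  have hdvd : ∀ E : ℤ_[p], (p : ℤ_[p]) ^ 2 ∣ ((a ^ 2 - 4 * b : ℤ) : ℤ_[p]) * E ^ 4 →
      (p : ℤ_[p]) ∣ E := by
    intro E hE
    obtain ⟨c, hc⟩ := hpb'
    rw [hc] at hE hpb'2
    have hc' : ¬ (p : ℤ_[p]) ∣ (c : ℤ_[p]) := by
      rw [p_dvd_int_iff]
      intro h
      apply hpb'2
      rw [pow_two]
      exact mul_dvd_mul_left _ h
    have hp0 : (p : ℤ_[p]) ≠ 0 := by exact_mod_cast hp.1.ne_zero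
    have : (p : ℤ_[p]) ∣ (c : ℤ_[p]) * E ^ 4 := by
      apply (mul_dvd_mul_iff_left hp0).mp
      convert hE using 1
      · ring
      · push_cast; ring
    exact hpri.dvd_of_dvd_pow ((hpri.dvd_or_dvd this).resolve_left hc')
  rcases qsol_norm h with ⟨N, e, h3⟩ | ⟨N, M, h3⟩
  · obtain ⟨k1, k2, k3⟩ := key N (2 * d + a * e ^ 2) e (by
      rw [h3, hbd, hd']
      rw [← hbd]
      push_cast
      have : ((b : ℤ) : ℤ_[p]) = d * (d' : ℤ) := by rw [hbd]; push_cast; rfl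
      rw [this]; ring)
    have ke := hdvd e k3
    apply hd2
    rw [← toZMod_intCast, toZMod_eq_zero_iff]
    have : ((2 * d : ℤ) : ℤ_[p]) = (2 * d + a * e ^ 2) - a * e ^ 2 := by push_cast; ring
    rw [this]
    exact dvd_sub k1 ((dvd_pow ke two_ne_zero).mul_left _)
  · obtain ⟨k1, k2, k3⟩ := key N (2 * d * M ^ 2 + a) 1 (by
      rw [h3]
      push_cast
      have : ((b : ℤ) : ℤ_[p]) = d * (d' : ℤ) := by rw [hbd]; push_cast; rfl
      rw [this]; ring)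
    have k4 := hdvd 1 k3
    exact hpri.not_isUnit (isUnit_of_dvd_one k4)

end Pool.Agent.H23
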