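import Pool.Agent.H23.Alpha
import Pool.Agent.H23.FG

/-!
# The approximate parallelogram law and finite generation, given finiteness of `E/2E`
-/

namespace Pool.Agent.H23

open WeierstrassCurve WeierstrassCurve.Affine Height

variable {K : Type*} [Field K] [DecidableEq K]

open MvPolynomial in
theorem addSubMap_eval (a b s t u : K) :
    (fun i => (addSubMap (EC a b) i).eval ![s, t, u]) =
      ![s ^ 2 - 2 * b * s * u + b ^ 2 * u ^ 2, 2 * t * s + 4 * a * s * u + 2 * b * t * u,
        t ^ 2 - 4 * s * u] := by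
  funext i
  simp only [addSubMap, EC, WeierstrassCurve.b₂, WeierstrassCurve.b₄, WeierstrassCurve.b₆,
    WeierstrassCurve.b₈]
  fin_cases i
  · simp
  · simp
  · simp

/-- The addition-subtraction map computes `(x(P+Q), x(P-Q))`. -/
theorem addSub_spec {a b : K} (G : Good a b) (P Q : (EC a b).toAffine.Point) :
    ∃ c : K, c ≠ 0 ∧ (fun i => (addSubMap (EC a b) i).eval (Point.sym2x P Q)) =
      c • Point.sym2x (P + Q) (P - Q) := by
  have h2 := G.h2
  have h4 := G.four
  have hself : ∀ (x y : K) (h : y ^ 2 = x ^ 3 + a * x ^ 2 + b * x),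
      ∃ c : K, c ≠ 0 ∧ ![(x * x) ^ 2 - 2 * b * (x * x) * 1 + b ^ 2 * 1 ^ 2,
        2 * (x + x) * (x * x) + 4 * a * (x * x) * 1 + 2 * b * (x + x) * 1,
        (x + x) ^ 2 - 4 * (x * x) * 1] =
        c • Point.sym2x (mkP G x y h + mkP G x y h) 0 := by
    intro x y h
    by_cases hy : y = 0
    · have h0 : mkP G x y h + mkP G x y h = 0 := by
        rw [add_eq_zero_iff_eq_neg, neg_mkP, mkP_inj]
        exact ⟨rfl, by rw [hy]; ring⟩
      rw [h0]
      have hx : x ^ 2 - b ≠ 0 := by
        intro hx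
        have hf : x ^ 3 + a * x ^ 2 + b * x = 0 := by rw [← h, hy]; ring
        have hb : b = x ^ 2 := by linear_combination -hx
        by_cases hx0 : x = 0
        · apply G.hb; rw [hb, hx0]; ring
        · refine ec_no_double G.hb G.hd hf ?_
          have : x * (x ^ 2 + a * x + b) = 0 := by linear_combination hf
          have h3 := (mul_eq_zero.mp this).resolve_left hx0
          rw [hb] at h3 ⊢
          linear_combination 2 * h3
      refine ⟨(x ^ 2 - b) ^ 2, pow_ne_zero _ hx, ?_⟩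
      rw [Point.sym2x_zero_zero]
      ext i
      fin_cases i
      · simp; ring
      · simp
        have : 2 * (x + x) * (x * x) + 4 * a * (x * x) + 2 * b * (x + x) = 4 * y ^ 2 := by
          rw [h]; ring
        rw [this, hy]; ring
      · simp; ring
    · refine ⟨4 * y ^ 2, mul_ne_zero h4 (pow_ne_zero _ hy), ?_⟩
      rcases point_cases G (-(mkP G x y h + mkP G x y h)) with h0 | ⟨x3, y3, h3, h0⟩
      · exfalso; apply hy
        have h1 : mkP G x y h + mkP G x y h = 0 := neg_eq_zero.mp h0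
        rw [add_eq_zero_iff_eq_neg, neg_mkP, mkP_inj] at h1
        have : 2 * y = 0 := by linear_combination h1.2
        exact (mul_eq_zero.mp this).resolve_left h2
      · have h1 : mkP G x y h + mkP G x y h = -mkP G x3 y3 h3 := by rw [← h0, neg_neg]
        obtain ⟨l, n, e1, e2, e3, hy1, hy2, hy3⟩ := mk_line_of_add G h h h3 h1
        rw [h1, Point.sym2x_neg_left]
        unfold mkP
        rw [Point.sym2x_some_zero]
        have hl : 3 * x ^ 2 + 2 * a * x + b = 2 * l * y := by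
          rw [hy1]; linear_combination (2 * x) * e1 - e2
        have hx3 : 4 * y ^ 2 * x3 = (x ^ 2 - b) ^ 2 := by
          have e : x3 = l ^ 2 - a - 2 * x := by linear_combination e1
          rw [e]
          have : 4 * y ^ 2 * (l ^ 2 - a - 2 * x) = (2 * l * y) ^ 2 - 4 * (a + 2 * x) * y ^ 2 := by
            ring
          rw [this, ← hl, h]; ring
        ext i
        fin_cases i
        · simp
          rw [hx3]; ring
        · simp
          rw [h]; ring
        · simp; ring
  rcases point_cases G P with rfl | ⟨x₁, y₁, h₁, rfl⟩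
  · rcases point_cases G Q with rfl | ⟨x₂, y₂, h₂, rfl⟩
    · refine ⟨1, one_ne_zero, ?_⟩
      rw [add_zero, sub_zero, Point.sym2x_zero_zero, addSubMap_eval]
      ext i; fin_cases i <;> simp
    · refine ⟨1, one_ne_zero, ?_⟩
      rw [zero_add, zero_sub, Point.sym2x_neg_right]
      unfold mkP
      rw [Point.sym2x_zero_some, Point.sym2x_some_some, addSubMap_eval]
      ext i; fin_cases i <;> simp <;> ring
  · rcases point_cases G Q with rfl | ⟨x₂, y₂, h₂, rfl⟩
    · refine ⟨1, one_ne_zero, ?_⟩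
      rw [add_zero, sub_zero]
      unfold mkP
      rw [Point.sym2x_some_zero, Point.sym2x_some_some, addSubMap_eval]
      ext i; fin_cases i <;> simp <;> ring
    · have hs : Point.sym2x (mkP G x₁ y₁ h₁) (mkP G x₂ y₂ h₂) = ![x₁ * x₂, x₁ + x₂, 1] := by
        unfold mkP; rw [Point.sym2x_some_some]
      rw [hs, addSubMap_eval]
      by_cases hx : x₁ = x₂
      · subst hx
        have hyy : (y₁ - y₂) * (y₁ + y₂) = 0 := by linear_combination h₁ - h₂
        rcases mul_eq_zero.mp hyy with h0 | h0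
        · have : y₁ = y₂ := by linear_combination h0
          subst this
          rw [sub_self]
          exact hself x₁ y₁ h₁
        · have : y₂ = -y₁ := by linear_combination h0
          subst this
          have hn : mkP G x₁ (-y₁) h₂ = -mkP G x₁ y₁ h₁ := by rw [neg_mkP]
          rw [hn, add_neg_cancel, sub_neg_eq_add, Point.sym2x_comm]
          exact hself x₁ y₁ h₁
      · have hx' : x₁ - x₂ ≠ 0 := sub_ne_zero.mpr hx
        refine ⟨(x₁ - x₂) ^ 2, pow_ne_zero _ hx', ?_⟩
        have hgen : ∀ (y : K) (h : y ^ 2 = x₂ ^ 3 + a * x₂ ^ 2 + b * x₂), ∃ (x₃ : K) (y₃ : K)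
            (h3 : _), mkP G x₁ y₁ h₁ + mkP G x₂ y h = mkP G x₃ y₃ h3 ∧
            (x₁ - x₂) ^ 2 * x₃ = (y₁ - y) ^ 2 - (a + x₁ + x₂) * (x₁ - x₂) ^ 2 := by
          intro y h
          rcases point_cases G (-(mkP G x₁ y₁ h₁ + mkP G x₂ y h)) with h0 | ⟨x3, y3, h3, h0⟩
          · exfalso; apply hx
            have h1 : mkP G x₁ y₁ h₁ + mkP G x₂ y h = 0 := neg_eq_zero.mp h0
            rw [add_eq_zero_iff_eq_neg, neg_mkP, mkP_inj] at h1
            exact h1.1
          · have h1 : mkP G x₁ y₁ h₁ + mkP G x₂ y h = -mkP G x3 y3 h3 := by rw [← h0, neg_neg]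
            obtain ⟨l, n, e1, e2, e3, hy1, hy2, hy3⟩ := mk_line_of_add G h₁ h h3 h1
            refine ⟨x3, -y3, by rw [neg_sq]; exact h3, by rw [h1, neg_mkP], ?_⟩
            have : y₁ - y = l * (x₁ - x₂) := by rw [hy1, hy2]; ring
            rw [this]
            linear_combination (x₁ - x₂) ^ 2 * e1
        obtain ⟨x₃, y₃, h3, hadd, hx3⟩ := hgen y₂ h₂
        have h₂' : (-y₂) ^ 2 = x₂ ^ 3 + a * x₂ ^ 2 + b * x₂ := by rw [neg_sq]; exact h₂
        obtain ⟨x₄, y₄, h4, hsub, hx4⟩ := hgen (-y₂) h₂'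
        have hsub' : mkP G x₁ y₁ h₁ - mkP G x₂ y₂ h₂ = mkP G x₄ y₄ h4 := by
          rw [sub_eq_add_neg, neg_mkP]; exact hsub
        rw [hadd, hsub']
        unfold mkP
        rw [Point.sym2x_some_some]
        have hX : x₃ = ((y₁ - y₂) ^ 2 - (a + x₁ + x₂) * (x₁ - x₂) ^ 2) / (x₁ - x₂) ^ 2 := by
          rw [eq_div_iff (pow_ne_zero _ hx')]; linear_combination hx3
        ext i
        fin_cases i
        · simp
          -- product
          have hp : (x₁ - x₂) ^ 2 * ((x₁ - x₂) ^ 2 * (x₃ * x₄)) =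
              (x₁ - x₂) ^ 2 * (x₁ * x₂ - b) ^ 2 := by
            have : (x₁ - x₂) ^ 2 * ((x₁ - x₂) ^ 2 * (x₃ * x₄)) =
              ((x₁ - x₂) ^ 2 * x₃) * ((x₁ - x₂) ^ 2 * x₄) := by ring
            rw [this, hx3, hx4]
            have : ((y₁ - y₂) ^ 2 - (a + x₁ + x₂) * (x₁ - x₂) ^ 2) *
                ((y₁ - -y₂) ^ 2 - (a + x₁ + x₂) * (x₁ - x₂) ^ 2) =
                (y₁ ^ 2 - y₂ ^ 2) ^ 2 - 2 * (y₁ ^ 2 + y₂ ^ 2) * ((a + x₁ + x₂) * (x₁ - x₂) ^ 2) +
                ((a + x₁ + x₂) * (x₁ - x₂) ^ 2) ^ 2 := by ring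
            rw [this, h₁, h₂]
            ring
          have := mul_left_cancel₀ (pow_ne_zero 2 hx') hp
          rw [this]; ring
        · simp
          have : (x₁ - x₂) ^ 2 * (x₃ + x₄) = (x₁ - x₂) ^ 2 * x₃ + (x₁ - x₂) ^ 2 * x₄ := by ring
          rw [this, hx3, hx4]
          have : (y₁ - y₂) ^ 2 - (a + x₁ + x₂) * (x₁ - x₂) ^ 2 +
            ((y₁ - -y₂) ^ 2 - (a + x₁ + x₂) * (x₁ - x₂) ^ 2) =
            2 * y₁ ^ 2 + 2 * y₂ ^ 2 - 2 * (a + x₁ + x₂) * (x₁ - x₂) ^ 2 := by ring
          rw [this, h₁, h₂]; ring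
        · simp; ring

/-- The naive height. -/
noncomputable def nht {a b : ℚ} (P : (EC a b).toAffine.Point) : ℝ := logHeight P.xRep

theorem nht_nonneg {a b : ℚ} (P : (EC a b).toAffine.Point) : 0 ≤ nht P := logHeight_nonneg _

theorem nht_parallelogram {a b : ℚ} (G : Good a b) :
    ∃ C : ℝ, ∀ P Q : (EC a b).toAffine.Point,
      |nht (P + Q) + nht (P - Q) - 2 * (nht P + nht Q)| ≤ C := by
  have hE : (EC a b).IsElliptic := ec_isElliptic G.h2 G.hb G.hd
  obtain ⟨C₁, hC₁⟩ := abs_logHeight_sym2_sub_le ℚ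
  obtain ⟨C₂, hC₂⟩ := abs_logHeight_addSubMap_sub_two_mul_logHeight_le (EC a b)
  have hs : ∀ P Q : (EC a b).toAffine.Point,
      |logHeight (Point.sym2x P Q) - (nht P + nht Q)| ≤ C₁ := by
    intro P Q
    have hP : P.xRep = ![P.xRep 0, P.xRep 1] := by ext i; fin_cases i <;> rfl
    have hQ : Q.xRep = ![Q.xRep 0, Q.xRep 1] := by ext i; fin_cases i <;> rfl
    have hP0 : ![P.xRep 0, P.xRep 1] ≠ 0 := by rw [← hP]; exact Point.xRep_ne_zero P
    have hQ0 : ![Q.xRep 0, Q.xRep 1] ≠ 0 := by rw [← hQ]; exact Point.xRep_ne_zero Q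
    have := hC₁ hP0 hQ0
    rw [← hP, ← hQ] at this
    exact this
  refine ⟨3 * C₁ + C₂, fun P Q => ?_⟩
  obtain ⟨c, hc, hspec⟩ := addSub_spec G P Q
  have h1 := hs P Q
  have h2 := hs (P + Q) (P - Q)
  have h3 := hC₂ (Point.sym2x P Q)
  rw [hspec, logHeight_smul_eq_logHeight _ hc] at h3
  rw [abs_le] at *
  constructor <;> linarith [h1.1, h1.2, h2.1, h2.2, h3.1, h3.2]

theorem nht_northcott {a b : ℚ} (G : Good a b) :
    Northcott (nht : (EC a b).toAffine.Point → ℝ) := by
  refine ⟨fun B => ?_⟩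
  have hfin : {x : ℚ | logHeight₁ x ≤ B}.Finite := Northcott.finite_le B
  have hfin2 : (insert ![1, 0] ((fun x : ℚ => (![x, 1] : Fin 2 → ℚ)) '' {x : ℚ | logHeight₁ x ≤ B})).Finite :=
    (hfin.image _).insert _
  have hsub : {P : (EC a b).toAffine.Point | nht P ≤ B} ⊆
      Point.xRep ⁻¹' (insert ![1, 0] ((fun x : ℚ => (![x, 1] : Fin 2 → ℚ)) '' {x : ℚ | logHeight₁ x ≤ B})) := by
    intro P hP
    rcases point_cases G P with rfl | ⟨x, y, h, rfl⟩
    · left; rfl
    · right
      refine ⟨x, ?_, rfl⟩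
      have : nht (mkP G x y h) = logHeight₁ x := by
        rw [logHeight₁_eq_logHeight]; rfl
      rw [Set.mem_ofPred_eq] at hP ⊢
      rw [← this]; exact hP
  refine Set.Finite.subset ?_ hsub
  refine Set.Finite.preimage' hfin2 ?_
  intro v _
  by_cases hv : ∃ P : (EC a b).toAffine.Point, P.xRep = v
  · obtain ⟨P, rfl⟩ := hv
    refine Set.Finite.subset (Set.toFinite {P, -P}) ?_
    intro Q hQ
    have : Q.xRep = P.xRep := hQ
    rcases Point.xRep_eq_xRep_iff.mp this with h | h
    · left; exact h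
    · right; exact h
  · have : Point.xRep ⁻¹' {v} = (∅ : Set (EC a b).toAffine.Point) := by
      ext P
      simp only [Set.mem_preimage, Set.mem_singleton_iff, Set.mem_empty_iff_false, iff_false]
      intro h; exact hv ⟨P, h⟩
    rw [this]; exact Set.finite_empty

/-- Mordell's theorem, given the weak version. -/
theorem fg_of_finiteIndex {a b : ℚ} (G : Good a b)
    (h : (two (EC a b).toAffine.Point).range.FiniteIndex) :
    AddGroup.FG (EC a b).toAffine.Point := by
  obtain ⟨C, hC⟩ := nht_parallelogram G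
  have := nht_northcott G
  exact AddCommGroup.fg_of_descent' (h := nht) h nht_nonneg hC

end Pool.Agent.H23
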