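import Mathlib

/-!
# Trial division by kernel evaluation
-/

namespace Pool.Agent.H23

/-- None of the `2 ^ k` odd numbers starting with `lo` divides `n`. -/
def chk (n : ℕ) : ℕ → ℕ → Bool
  | 0, lo => n % lo != 0
  | k + 1, lo => chk n k lo && chk n k (lo + 2 * 2 ^ k)

theorem chk_spec {n : ℕ} : ∀ {k lo : ℕ}, chk n k lo = true → ∀ i < 2 ^ k, ¬ (lo + 2 * i) ∣ n
  | 0, lo, h, i, hi => by
    have : i = 0 := by simpa using hi
    subst this
    rw [chk, bne_iff_ne] at h
    simpa [Nat.dvd_iff_mod_eq_zero] using h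
  | k + 1, lo, h, i, hi => by
    rw [chk, Bool.and_eq_true] at h
    rcases lt_or_ge i (2 ^ k) with h' | h'
    · exact chk_spec h.1 i h'
    · have := chk_spec h.2 (i - 2 ^ k) (by rw [pow_succ] at hi; omega)
      rwa [show lo + 2 * 2 ^ k + 2 * (i - 2 ^ k) = lo + 2 * i by omega] at this

theorem prime_of_chk {n : ℕ} (k : ℕ) (h2 : n % 2 = 1) (h1 : 1 < n)
    (hk : n < (3 + 2 * 2 ^ k) ^ 2) (h : chk n k 3 = true) : n.Prime := by
  by_contra hn
  have hm := Nat.minFac_prime (n := n) (by omega)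
  have hmn := Nat.minFac_dvd n
  have hsq := Nat.minFac_sq_le_self (by omega) hn
  have hlt : n.minFac < 3 + 2 * 2 ^ k := by
    by_contra hge
    have := Nat.pow_le_pow_left (not_lt.mp hge) 2
    omega
  have hodd : n.minFac % 2 = 1 := by
    rcases Nat.mod_two_eq_zero_or_one n.minFac with h0 | h0
    · have : 2 ∣ n := (Nat.dvd_of_mod_eq_zero h0).trans hmn
      omega
    · exact h0
  have h3 : 3 ≤ n.minFac := by have := hm.two_le; omega
  have := chk_spec h ((n.minFac - 3) / 2) (by omega)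
  rw [show 3 + 2 * ((n.minFac - 3) / 2) = n.minFac by omega] at this
  exact this hmn

end Pool.Agent.H23
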