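import Pool.Agent.H23.MW

/-!
# The rank formula `2 ^ (r + 2) = #α(E) * #α'(E')`
-/

namespace Pool.Agent.H23

open WeierstrassCurve WeierstrassCurve.Affine

/-! ### An abstract index computation -/

section abstract

variable {A B : Type*} [AddCommGroup A] [AddCommGroup B]

theorem range_two_eq (f : A →+ B) (g : B →+ A) (hgf : ∀ x, g (f x) = x + x) :
    (two A).range = f.range.map g := by
  ext x
  simp only [AddMonoidHom.mem_range, AddSubgroup.mem_map, nsmulAddMonoidHom_apply]
  constructor
  · rintro ⟨y, rfl⟩
    exact ⟨f y, ⟨y, rfl⟩, by rw [hgf, two_nsmul]⟩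
  · rintro ⟨_, ⟨y, rfl⟩, rfl⟩
    exact ⟨y, by rw [hgf, two_nsmul]⟩

theorem index_two_formula (f : A →+ B) (g : B →+ A) (hgf : ∀ x, g (f x) = x + x)
    (hf : Nat.card f.ker = 2) (hg : Nat.card g.ker = 2) :
    4 * (two A).range.index = g.range.index * f.range.index * Nat.card (two A).ker := by
  have h1 : (two A).range.index = (f.range ⊔ g.ker).index * g.range.index := by
    rw [range_two_eq f g hgf, AddSubgroup.index_map]
  have h2 : f.range.relIndex (f.range ⊔ g.ker) * (f.range ⊔ g.ker).index = f.range.index :=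
    AddSubgroup.relIndex_mul_index le_sup_left
  have h3 : f.range.relIndex (f.range ⊔ g.ker) = f.range.relIndex g.ker := by
    rw [sup_comm, AddSubgroup.relIndex_sup_right]
  have h4 : f.range.relIndex g.ker * Nat.card ↥(f.range ⊓ g.ker) = 2 := by
    rw [← hg, ← AddSubgroup.inf_relIndex_right, ← AddSubgroup.relIndex_bot_left,
      ← AddSubgroup.relIndex_bot_left, mul_comm]
    exact AddSubgroup.relIndex_mul_relIndex _ _ _ bot_le inf_le_right
  have hker : f.ker ≤ (two A).ker := by
    intro x hx
    rw [AddMonoidHom.mem_ker] at hx ⊢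
    rw [nsmulAddMonoidHom_apply, two_nsmul, ← hgf, hx, map_zero]
  have h5 : Nat.card (two A).ker = 2 * Nat.card ↥(f.range ⊓ g.ker) := by
    have hmap : (two A).ker.map f = f.range ⊓ g.ker := by
      ext y
      simp only [AddSubgroup.mem_map, AddMonoidHom.mem_ker, AddSubgroup.mem_inf,
        AddMonoidHom.mem_range]
      constructor
      · rintro ⟨x, hx, rfl⟩
        refine ⟨⟨x, rfl⟩, ?_⟩
        rw [hgf, ← two_nsmul]; exact hx
      · rintro ⟨⟨x, rfl⟩, hx⟩
        refine ⟨x, ?_, rfl⟩
        rw [nsmulAddMonoidHom_apply, two_nsmul, ← hgf]; exact hx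
    rw [← hmap, ← AddSubgroup.relIndex_ker, ← hf, ← AddSubgroup.relIndex_bot_left,
      ← AddSubgroup.relIndex_bot_left]
    exact (AddSubgroup.relIndex_mul_relIndex _ _ _ bot_le hker).symm
  rw [h5, ← h2, h3, h1]
  calc 4 * ((f.range ⊔ g.ker).index * g.range.index)
      = 2 * 2 * ((f.range ⊔ g.ker).index * g.range.index) := by ring
    _ = (f.range.relIndex g.ker * Nat.card ↥(f.range ⊓ g.ker)) * 2 *
          ((f.range ⊔ g.ker).index * g.range.index) := by rw [h4]
    _ = _ := by ring

end abstract

variable {K : Type*} [Field K] [DecidableEq K]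

theorem card_ker_phi {a b : K} (G : Good a b) : Nat.card (phiHom G).ker = 2 := by
  have hT : (0 : K) ^ 2 = 0 ^ 3 + a * 0 ^ 2 + b * 0 := by ring
  have hset : ((phiHom G).ker : Set (EC a b).toAffine.Point) = {0, mkP G 0 0 hT} := by
    ext P
    simp only [SetLike.mem_coe, AddMonoidHom.mem_ker, phiHom_apply, Set.mem_insert_iff,
      Set.mem_singleton_iff]
    constructor
    · intro h
      rcases point_cases G P with rfl | ⟨x, y, hE, rfl⟩
      · left; rfl
      · right
        have hx := (phi_eq_zero G hE).mp h
        have hy : y = 0 := by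
          have : y ^ 2 = 0 := by rw [hE, hx]; ring
          exact pow_eq_zero_iff two_ne_zero |>.mp this
        rw [mkP_inj]; exact ⟨hx, hy⟩
    · rintro (rfl | rfl)
      · exact phi_zero G
      · exact phi_mk_zero G hT rfl
  have : Nat.card (phiHom G).ker = Nat.card (({0, mkP G 0 0 hT} : Set (EC a b).toAffine.Point)) := by
    rw [← hset]; rfl
  rw [this, Nat.card_coe_set_eq, Set.ncard_pair (mkP_ne_zero G 0 0 hT).symm]

theorem psi_eq_zero_iff {a b : K} (G : Good a b) (Q) : psi G Q = 0 ↔ phi G.dual Q = 0 := by
  unfold psi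
  constructor
  · intro h
    rcases point_cases G.dual.dual (phi G.dual Q) with h0 | ⟨x, y, hE, h0⟩
    · exact h0
    · rw [h0, scale_mk] at h
      exact absurd h (mkP_ne_zero _ _ _ _)
  · intro h; rw [h, scale_zero]

theorem card_ker_psi {a b : K} (G : Good a b) : Nat.card (psiHom G).ker = 2 := by
  have : (psiHom G).ker = (phiHom G.dual).ker := by
    ext Q
    rw [AddMonoidHom.mem_ker, AddMonoidHom.mem_ker, psiHom_apply, phiHom_apply, psi_eq_zero_iff]
  rw [this, card_ker_phi]

theorem index_range_phi {a b : K} (G : Good a b) :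
    (phiHom G).range.index = Nat.card (alpha G.dual).range := by
  rw [← AddSubgroup.index_ker]
  congr 1
  ext Q
  rw [AddMonoidHom.mem_ker, ker_alpha_dual G, AddMonoidHom.mem_range]
  rfl

theorem index_range_psi {a b : K} (G : Good a b) :
    (psiHom G).range.index = Nat.card (alpha G).range := by
  rw [← AddSubgroup.index_ker]
  congr 1
  ext Q
  rw [AddMonoidHom.mem_ker, ker_alpha G, AddMonoidHom.mem_range]
  rfl

theorem card_ker_two_ne_zero {a b : K} (G : Good a b) :
    Nat.card (two (EC a b).toAffine.Point).ker ≠ 0 := by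
  -- the kernel of `two` is an extension of finite groups
  have hker : (phiHom G).ker ≤ (two (EC a b).toAffine.Point).ker := by
    intro x hx
    rw [AddMonoidHom.mem_ker] at hx ⊢
    rw [nsmulAddMonoidHom_apply, two_nsmul, ← psi_phi G, ← phiHom_apply, hx]; rfl
  have h1 : Nat.card ((two (EC a b).toAffine.Point).ker.map (phiHom G)) ≠ 0 := by
    have hle : (two (EC a b).toAffine.Point).ker.map (phiHom G) ≤ (psiHom G).ker := by
      rintro _ ⟨x, hx, rfl⟩
      rw [AddMonoidHom.mem_ker, phiHom_apply, psiHom_apply, psi_phi, ← two_nsmul]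
      exact hx
    have hfin : Finite (psiHom G).ker := by
      apply Nat.finite_of_card_ne_zero; rw [card_ker_psi]; norm_num
    have : Finite ((two (EC a b).toAffine.Point).ker.map (phiHom G)) :=
      Finite.of_injective _ (AddSubgroup.inclusion_injective hle)
    exact Nat.card_pos.ne'
  have h2 : Nat.card (two (EC a b).toAffine.Point).ker =
      Nat.card (phiHom G).ker * Nat.card ((two (EC a b).toAffine.Point).ker.map (phiHom G)) := by
    rw [← AddSubgroup.relIndex_ker, ← AddSubgroup.relIndex_bot_left,
      ← AddSubgroup.relIndex_bot_left]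
    exact (AddSubgroup.relIndex_mul_relIndex _ _ _ bot_le hker).symm
  rw [h2, card_ker_phi]
  exact mul_ne_zero two_ne_zero h1

/-- `4 * [E : 2E] = #α(E) * #α'(E') * #E[2]`. -/
theorem four_mul_index {a b : K} (G : Good a b) :
    4 * (two (EC a b).toAffine.Point).range.index =
      Nat.card (alpha G).range * Nat.card (alpha G.dual).range *
        Nat.card (two (EC a b).toAffine.Point).ker := by
  rw [← index_range_phi, ← index_range_psi]
  exact index_two_formula (phiHom G) (psiHom G) (psi_phi G) (card_ker_phi G) (card_ker_psi G)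

/-- **Tate's rank formula**. -/
theorem rank_formula {a b : ℚ} (G : Good a b) (h1 : Finite (alpha G).range)
    (h2 : Finite (alpha G.dual).range) :
    2 ^ (Module.finrank ℤ (EC a b).toAffine.Point + 2) =
      Nat.card (alpha G).range * Nat.card (alpha G.dual).range := by
  have h4 := four_mul_index G
  have hc := card_ker_two_ne_zero G
  have hfi : (two (EC a b).toAffine.Point).range.FiniteIndex := by
    rw [AddSubgroup.finiteIndex_iff]
    intro h0
    rw [h0, mul_zero] at h4
    have : Nat.card (alpha G).range * Nat.card (alpha G.dual).range *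
        Nat.card (two (EC a b).toAffine.Point).ker ≠ 0 :=
      mul_ne_zero (mul_ne_zero Nat.card_pos.ne' Nat.card_pos.ne') hc
    exact this h4.symm
  have := fg_of_finiteIndex G hfi
  rw [index_two_eq] at h4
  apply Nat.eq_of_mul_eq_mul_right (Nat.pos_of_ne_zero hc)
  rw [← h4, pow_add]
  ring

end Pool.Agent.H23
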