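import Pool.Agent.H23.SevData

/-!
# The rank seven family: symbols of small primes
-/

namespace Pool.Agent.H23

/-- The Boolean form of the Jacobi symbol. -/
def bt (P : ℕ) (n : ℤ) : Bool := decide (jacobiSym n P = -1)

section
variable {P : ℕ} [hP : Fact P.Prime]

theorem chi_bt {n : ℤ} (h : ¬ (P : ℤ) ∣ n) : legendreSym P n = sg (bt P n) := by
  obtain ⟨s, hs⟩ := chi_exists h
  rw [hs]
  congr 1
  rw [bt, ← jacobiSym.legendreSym.to_jacobiSym, hs]
  cases s <;> simp

theorem bt_of_chi {n : ℤ} {s : Bool} (h : legendreSym P n = sg s) : bt P n = s := by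
  rw [bt, ← jacobiSym.legendreSym.to_jacobiSym, h]
  cases s <;> simp

theorem chi_of_prime {l : ℕ} (hl : l.Prime) (h : P ≠ l) : legendreSym P l = sg (bt P l) :=
  chi_bt (nd_prime hP.1 hl h)

theorem rec_one {l : ℕ} [Fact l.Prime] (h1 : l % 4 = 1) (h2 : P % 2 = 1) :
    legendreSym P l = sg false * legendreSym l P := by
  rw [legendreSym.quadratic_reciprocity_one_mod_four h1 (by omega : P ≠ 2)]
  simp

theorem rec_one' {l : ℕ} [Fact l.Prime] (h1 : l % 2 = 1) (h2 : P % 4 = 1) :
    legendreSym P l = sg false * legendreSym l P := by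
  rw [← legendreSym.quadratic_reciprocity_one_mod_four h2 (by omega : l ≠ 2)]
  simp

theorem rec_three {l : ℕ} [Fact l.Prime] (h1 : l % 4 = 3) (h2 : P % 4 = 3) :
    legendreSym P l = sg true * legendreSym l P := by
  rw [legendreSym.quadratic_reciprocity_three_mod_four h1 h2]
  simp

theorem link {l Q : ℕ} [Fact l.Prime] [Fact Q.Prime] {k m : ℤ} {y z r r' : Bool}
    (h : (P : ℤ) = k * Q + m * l) (hk : legendreSym l k = sg y)
    (hP' : legendreSym P l = sg r * legendreSym l P)
    (hQ : legendreSym Q l = sg r' * legendreSym l Q) (hz : legendreSym Q l = sg z) :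
    legendreSym P l = sg (r ^^ (y ^^ (r' ^^ z))) := by
  have h1 : legendreSym l P = legendreSym l k * legendreSym l Q := by
    rw [← legendreSym.mul, legendreSym.mod l (P : ℤ), h, Int.add_mul_emod_self_right,
      ← legendreSym.mod]
  have h2 : legendreSym l Q = sg r' * sg z := by
    rw [← hz, hQ, ← mul_assoc, sg_mul]
    simp
  rw [hP', h1, hk, h2, sg_mul, sg_mul, sg_mul]

theorem rec_v {Q : ℕ} [Fact Q.Prime] {s r : Bool} (h : legendreSym Q P = sg s)
    (hr : legendreSym P Q = sg r * legendreSym Q P) : legendreSym P Q = sg (r ^^ s) := by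
  rw [hr, h, sg_mul]

end

end Pool.Agent.H23

namespace Pool.Agent.H23.Seven.Dat

variable (D : Dat)

theorem p8 : D.p % 8 = 3 := D.c8
theorem q8 : D.q % 8 = 3 := by
  have h1 := D.c8; have h2 := D.cw; have h3 := D.eq
  omega
theorem p4 : D.p % 4 = 3 := by have := D.p8; omega
theorem q4 : D.q % 4 = 3 := by have := D.q8; omega

theorem A38 : D.A3 % 8 = 3 := by
  have h1 := D.c8; have h2 := D.cw; have h3 := D.eA3
  omega
theorem A34 : D.A3 % 4 = 3 := by have := D.A38; omega
theorem A48 : D.A4 % 8 = 5 := by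
  have h1 := D.c8; have h2 := D.cw; have h3 := D.eA4
  omega
theorem A44 : D.A4 % 4 = 1 := by have := D.A48; omega
theorem R48 : D.R4 % 8 = 7 := by
  have h1 := D.c8; have h2 := D.cw; have h3 := D.eR4
  omega
theorem R44 : D.R4 % 4 = 3 := by have := D.R48; omega
theorem S28 : D.S2 % 8 = 3 := by
  have h1 := D.c8; have h2 := D.cw; have h3 := D.eS2
  omega
theorem S24 : D.S2 % 4 = 3 := by have := D.S28; omega
theorem s38 : ((D.s3 : ℤ) = 277 * D.p - 121 * D.w ∧ D.s3 % 8 = 3) ∨
    ((D.s3 : ℤ) = -(277 * D.p - 121 * D.w) ∧ D.s3 % 8 = 5) := by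
  have h1 := D.c8; have h2 := D.cw
  rcases D.es3 with h3 | h3
  · exact Or.inl ⟨h3, by omega⟩
  · exact Or.inr ⟨h3, by omega⟩
theorem s3odd : D.s3 % 2 = 1 := by rcases D.s38 with ⟨_, h⟩ | ⟨_, h⟩ <;> omega
theorem s3three : D.s3 % 8 = 3 ∨ D.s3 % 8 = 5 := by rcases D.s38 with ⟨_, h⟩ | ⟨_, h⟩ <;> omega

theorem R4_lt : 836 < D.R4 := by
  have h1 := D.dR4; have h2 := D.p0; have h3 := D.pq.two_le
  omega
theorem R1_lt : 50 < D.R1 := by
  have h1 := D.dR1; have h2 := D.p0; have h3 := D.pq.two_le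
  omega
theorem R2_lt : 50 < D.R2 := by
  have h1 := D.dR2; have h2 := D.p0; have h3 := D.pq.two_le
  omega
theorem R3_lt : 50 < D.R3 := by
  have h1 := D.dR3; have h2 := D.p0; have h3 := D.pq.two_le
  omega
theorem S1_lt : 50 < D.S1 := by
  have h1 := D.dS1; have h2 := D.p0; have h3 := D.pq.two_le
  omega
theorem S2_lt : 50 < D.S2 := by
  have h1 := D.dS2; have h2 := D.p0; have h3 := D.pq.two_le
  omega
theorem A4_lt : 50 < D.A4 := by
  have h1 := D.dA4; have h2 := D.p0; have h3 := D.pq.two_le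
  omega
theorem A3_lt : 14 < D.A3 := by
  have h1 := D.dA3; have h2 := D.p8; have h3 := D.q8; have h4 := D.A38
  omega

theorem big {P l : ℕ} (hP : P.Prime) (hlt : l < P) (hl : l.Prime) (h : (l : ℤ) ∣ P) : False := by
  have h1 : l ∣ P := by exact_mod_cast h
  have h2 := (Nat.prime_dvd_prime_iff_eq hl hP).mp h1
  omega

theorem p_ne_5 : D.p ≠ 5 := by have := D.p8; omega
theorem q_ne_5 : D.q ≠ 5 := by have := D.q8; omega
theorem p_ne_11 : D.p ≠ 11 := by
  intro h
  apply big D.pR4 (by have := D.R4_lt; omega : 11 < D.R4) (by norm_num)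
  have h1 := D.eR4
  rw [h] at h1
  exact ⟨989 + 152 * D.w, by rw [h1]; push_cast; ring⟩
theorem p_ne_19 : D.p ≠ 19 := by
  intro h
  apply big D.pR4 (by have := D.R4_lt; omega : 19 < D.R4) (by norm_num)
  have h1 := D.eR4
  rw [h] at h1
  exact ⟨989 + 88 * D.w, by rw [h1]; push_cast; ring⟩

theorem q_ne_3 : D.q ≠ 3 := by
  intro h
  apply big D.pS2 (by have := D.S2_lt; omega : 3 < D.S2) (by norm_num)
  have h1 := D.dS2
  rw [h] at h1
  exact ⟨576 * D.p + 361, by push_cast at h1 ⊢; linarith⟩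
theorem q_ne_17 : D.q ≠ 17 := by have := D.q8; omega
theorem q_ne_23 : D.q ≠ 23 := by have := D.q8; omega
theorem A3_ne_3 : D.A3 ≠ 3 := by have := D.A3_lt; omega
theorem A3_ne_5 : D.A3 ≠ 5 := by have := D.A3_lt; omega
theorem A3_ne_7 : D.A3 ≠ 7 := by have := D.A3_lt; omega
theorem A3_ne_13 : D.A3 ≠ 13 := by have := D.A3_lt; omega

theorem s3_ne_3 : D.s3 ≠ 3 := by
  intro h
  apply big D.pR3 (by have := D.R3_lt; omega : 3 < D.R3) (by norm_num)
  have h1 := D.eR3
  rcases D.es3 with h2 | h2 <;> rw [h] at h2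
  · exact ⟨2 * 1 + (7337) * D.p + (220) * D.w, by rw [h1]; push_cast at h2 ⊢; linear_combination (-2) * h2⟩
  · exact ⟨-2 * 1 + (7337) * D.p + (220) * D.w, by rw [h1]; push_cast at h2 ⊢; linear_combination (2) * h2⟩
theorem s3_ne_5 : D.s3 ≠ 5 := by
  intro h
  apply big D.pR1 (by have := D.R1_lt; omega : 5 < D.R1) (by norm_num)
  have h1 := D.eR1
  rcases D.es3 with h2 | h2 <;> rw [h] at h2
  · exact ⟨1 * 1 + (8) * D.p + (66) * D.w, by rw [h1]; push_cast at h2 ⊢; linear_combination (-1) * h2⟩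
  · exact ⟨-1 * 1 + (8) * D.p + (66) * D.w, by rw [h1]; push_cast at h2 ⊢; linear_combination (1) * h2⟩
theorem s3_ne_7 : D.s3 ≠ 7 := by
  intro h
  apply big D.pR4 (by have := D.R4_lt; omega : 7 < D.R4) (by norm_num)
  have h1 := D.eR4
  rcases D.es3 with h2 | h2 <;> rw [h] at h2
  · exact ⟨4 * 1 + (-17) * D.p + (308) * D.w, by rw [h1]; push_cast at h2 ⊢; linear_combination (-4) * h2⟩
  · exact ⟨-4 * 1 + (-17) * D.p + (308) * D.w, by rw [h1]; push_cast at h2 ⊢; linear_combination (4) * h2⟩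
theorem s3_ne_11 : D.s3 ≠ 11 := by
  intro h
  apply big D.pR4 (by have := D.R4_lt; omega : 11 < D.R4) (by norm_num)
  have h1 := D.eR4
  rcases D.es3 with h2 | h2 <;> rw [h] at h2
  · exact ⟨5 * 1 + (-36) * D.p + (207) * D.w, by rw [h1]; push_cast at h2 ⊢; linear_combination (-5) * h2⟩
  · exact ⟨-5 * 1 + (-36) * D.p + (207) * D.w, by rw [h1]; push_cast at h2 ⊢; linear_combination (5) * h2⟩
theorem s3_ne_17 : D.s3 ≠ 17 := by
  intro h
  apply big D.pR2 (by have := D.R2_lt; omega : 17 < D.R2) (by norm_num)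
  have h1 := D.eR2
  rcases D.es3 with h2 | h2 <;> rw [h] at h2
  · exact ⟨14 * 1 + (1405) * D.p + (407) * D.w, by rw [h1]; push_cast at h2 ⊢; linear_combination (-14) * h2⟩
  · exact ⟨-14 * 1 + (1405) * D.p + (407) * D.w, by rw [h1]; push_cast at h2 ⊢; linear_combination (14) * h2⟩
theorem s3_ne_29 : D.s3 ≠ 29 := by
  intro h
  apply big D.pR4 (by have := D.R4_lt; omega : 29 < D.R4) (by norm_num)
  have h1 := D.eR4
  rcases D.es3 with h2 | h2 <;> rw [h] at h2
  · exact ⟨2 * 1 + (15) * D.p + (66) * D.w, by rw [h1]; push_cast at h2 ⊢; linear_combination (-2) * h2⟩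
  · exact ⟨-2 * 1 + (15) * D.p + (66) * D.w, by rw [h1]; push_cast at h2 ⊢; linear_combination (2) * h2⟩
theorem s3_ne_37 : D.s3 ≠ 37 := by
  intro h
  apply big D.pR3 (by have := D.R3_lt; omega : 37 < D.R3) (by norm_num)
  have h1 := D.eR3
  rcases D.es3 with h2 | h2 <;> rw [h] at h2
  · exact ⟨10 * 1 + (535) * D.p + (44) * D.w, by rw [h1]; push_cast at h2 ⊢; linear_combination (-10) * h2⟩
  · exact ⟨-10 * 1 + (535) * D.p + (44) * D.w, by rw [h1]; push_cast at h2 ⊢; linear_combination (10) * h2⟩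

instance i_p : Fact D.p.Prime := ⟨D.pp⟩
instance i_q : Fact D.q.Prime := ⟨D.pq⟩
instance i_A3 : Fact D.A3.Prime := ⟨D.pA3⟩
instance i_A4 : Fact D.A4.Prime := ⟨D.pA4⟩
instance i_R4 : Fact D.R4.Prime := ⟨D.pR4⟩
instance i_S2 : Fact D.S2.Prime := ⟨D.pS2⟩
instance i_s3 : Fact D.s3.Prime := ⟨D.ps3⟩

theorem t_p_2 : legendreSym D.p 2 = sg true := by
  exact chi_two_neg (by have := D.p8; omega)

theorem t_p_n : legendreSym D.p (-1) = sg true := by
  exact chi_neg_one_neg D.p4

theorem t_q_2 : legendreSym D.q 2 = sg true := by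
  exact chi_two_neg (by have := D.q8; omega)

theorem t_q_n : legendreSym D.q (-1) = sg true := by
  exact chi_neg_one_neg D.q4

theorem t_A3_2 : legendreSym D.A3 2 = sg true := by
  exact chi_two_neg (by have := D.A38; omega)

theorem t_A3_n : legendreSym D.A3 (-1) = sg true := by
  exact chi_neg_one_neg D.A34

theorem t_A4_2 : legendreSym D.A4 2 = sg true := by
  exact chi_two_neg (by have := D.A48; omega)

theorem t_A4_n : legendreSym D.A4 (-1) = sg false := by
  exact chi_neg_one_pos D.A44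

theorem t_R4_2 : legendreSym D.R4 2 = sg false := by
  exact chi_two_pos (by have := D.R48; omega)

theorem t_R4_n : legendreSym D.R4 (-1) = sg true := by
  exact chi_neg_one_neg D.R44

theorem t_S2_2 : legendreSym D.S2 2 = sg true := by
  exact chi_two_neg (by have := D.S28; omega)

theorem t_S2_n : legendreSym D.S2 (-1) = sg true := by
  exact chi_neg_one_neg D.S24

theorem t_s3_2 : legendreSym D.s3 2 = sg true := by
  exact chi_two_neg D.s3three

theorem t_p_5 : legendreSym D.p 5 = sg (bt D.p 5) := by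
  have h := chi_of_prime (P := D.p) (by norm_num : Nat.Prime 5) (D.p_ne_5)
  exact_mod_cast h

theorem t_p_11 : legendreSym D.p 11 = sg (bt D.p 11) := by
  have h := chi_of_prime (P := D.p) (by norm_num : Nat.Prime 11) (D.p_ne_11)
  exact_mod_cast h

theorem t_p_19 : legendreSym D.p 19 = sg (bt D.p 19) := by
  have h := chi_of_prime (P := D.p) (by norm_num : Nat.Prime 19) (D.p_ne_19)
  exact_mod_cast h

theorem t_q_3 : legendreSym D.q 3 = sg (bt D.q 3) := by
  have h := chi_of_prime (P := D.q) (by norm_num : Nat.Prime 3) (D.q_ne_3)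
  exact_mod_cast h

theorem t_q_5 : legendreSym D.q 5 = sg (bt D.q 5) := by
  have h := chi_of_prime (P := D.q) (by norm_num : Nat.Prime 5) (D.q_ne_5)
  exact_mod_cast h

theorem t_q_17 : legendreSym D.q 17 = sg (bt D.q 17) := by
  have h := chi_of_prime (P := D.q) (by norm_num : Nat.Prime 17) (D.q_ne_17)
  exact_mod_cast h

theorem t_q_23 : legendreSym D.q 23 = sg (bt D.q 23) := by
  have h := chi_of_prime (P := D.q) (by norm_num : Nat.Prime 23) (D.q_ne_23)
  exact_mod_cast h

theorem t_A3_3 : legendreSym D.A3 3 = sg (bt D.A3 3) := by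
  have h := chi_of_prime (P := D.A3) (by norm_num : Nat.Prime 3) (D.A3_ne_3)
  exact_mod_cast h

theorem t_A3_5 : legendreSym D.A3 5 = sg (bt D.A3 5) := by
  have h := chi_of_prime (P := D.A3) (by norm_num : Nat.Prime 5) (D.A3_ne_5)
  exact_mod_cast h

theorem t_A3_7 : legendreSym D.A3 7 = sg (bt D.A3 7) := by
  have h := chi_of_prime (P := D.A3) (by norm_num : Nat.Prime 7) (D.A3_ne_7)
  exact_mod_cast h

theorem t_A3_13 : legendreSym D.A3 13 = sg (bt D.A3 13) := by
  have h := chi_of_prime (P := D.A3) (by norm_num : Nat.Prime 13) (D.A3_ne_13)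
  exact_mod_cast h

theorem t_A4_5 : legendreSym D.A4 5 = sg (bt D.A4 5) := by
  have h := chi_of_prime (P := D.A4) (by norm_num : Nat.Prime 5) (by have := D.A4_lt; omega)
  exact_mod_cast h

theorem t_A4_7 : legendreSym D.A4 7 = sg (bt D.A4 7) := by
  have h := chi_of_prime (P := D.A4) (by norm_num : Nat.Prime 7) (by have := D.A4_lt; omega)
  exact_mod_cast h

theorem t_A4_11 : legendreSym D.A4 11 = sg (bt D.A4 11) := by
  have h := chi_of_prime (P := D.A4) (by norm_num : Nat.Prime 11) (by have := D.A4_lt; omega)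
  exact_mod_cast h

theorem t_A4_13 : legendreSym D.A4 13 = sg (bt D.A4 13) := by
  have h := chi_of_prime (P := D.A4) (by norm_num : Nat.Prime 13) (by have := D.A4_lt; omega)
  exact_mod_cast h

theorem t_A4_19 : legendreSym D.A4 19 = sg (bt D.A4 19) := by
  have h := chi_of_prime (P := D.A4) (by norm_num : Nat.Prime 19) (by have := D.A4_lt; omega)
  exact_mod_cast h

theorem t_R4_3 : legendreSym D.R4 3 = sg (bt D.R4 3) := by
  have h := chi_of_prime (P := D.R4) (by norm_num : Nat.Prime 3) (by have := D.R4_lt; omega)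
  exact_mod_cast h

theorem t_R4_5 : legendreSym D.R4 5 = sg (bt D.R4 5) := by
  have h := chi_of_prime (P := D.R4) (by norm_num : Nat.Prime 5) (by have := D.R4_lt; omega)
  exact_mod_cast h

theorem t_R4_29 : legendreSym D.R4 29 = sg (bt D.R4 29) := by
  have h := chi_of_prime (P := D.R4) (by norm_num : Nat.Prime 29) (by have := D.R4_lt; omega)
  exact_mod_cast h

theorem t_R4_37 : legendreSym D.R4 37 = sg (bt D.R4 37) := by
  have h := chi_of_prime (P := D.R4) (by norm_num : Nat.Prime 37) (by have := D.R4_lt; omega)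
  exact_mod_cast h

theorem t_S2_5 : legendreSym D.S2 5 = sg (bt D.S2 5) := by
  have h := chi_of_prime (P := D.S2) (by norm_num : Nat.Prime 5) (by have := D.S2_lt; omega)
  exact_mod_cast h

theorem t_S2_17 : legendreSym D.S2 17 = sg (bt D.S2 17) := by
  have h := chi_of_prime (P := D.S2) (by norm_num : Nat.Prime 17) (by have := D.S2_lt; omega)
  exact_mod_cast h

theorem t_S2_29 : legendreSym D.S2 29 = sg (bt D.S2 29) := by
  have h := chi_of_prime (P := D.S2) (by norm_num : Nat.Prime 29) (by have := D.S2_lt; omega)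
  exact_mod_cast h

theorem t_S2_37 : legendreSym D.S2 37 = sg (bt D.S2 37) := by
  have h := chi_of_prime (P := D.S2) (by norm_num : Nat.Prime 37) (by have := D.S2_lt; omega)
  exact_mod_cast h

theorem t_s3_5 : legendreSym D.s3 5 = sg (bt D.s3 5) := by
  have h := chi_of_prime (P := D.s3) (by norm_num : Nat.Prime 5) (D.s3_ne_5)
  exact_mod_cast h

theorem t_s3_17 : legendreSym D.s3 17 = sg (bt D.s3 17) := by
  have h := chi_of_prime (P := D.s3) (by norm_num : Nat.Prime 17) (D.s3_ne_17)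
  exact_mod_cast h

theorem t_s3_29 : legendreSym D.s3 29 = sg (bt D.s3 29) := by
  have h := chi_of_prime (P := D.s3) (by norm_num : Nat.Prime 29) (D.s3_ne_29)
  exact_mod_cast h

theorem t_s3_37 : legendreSym D.s3 37 = sg (bt D.s3 37) := by
  have h := chi_of_prime (P := D.s3) (by norm_num : Nat.Prime 37) (D.s3_ne_37)
  exact_mod_cast h

theorem t_A4_3 : legendreSym D.A4 3 = sg (bt D.q 3) := by
  have : Fact (Nat.Prime 3) := ⟨by norm_num⟩
  have h := link (P := D.A4) (l := 3) (Q := D.q) (k := 2) (m := (23115) * D.p + (14559) * D.w) (y := true)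
    (by rw [D.eA4, D.eq]; push_cast; ring) (by norm_num [sg]) (rec_one' (by norm_num) D.A44)
    (rec_three (by norm_num) D.q4) (by exact_mod_cast D.t_q_3)
  rw [Nat.cast_ofNat] at h
  rw [h]
  congr 1
  cases bt D.q 3 <;> rfl

theorem t_A4_17 : legendreSym D.A4 17 = sg (bt D.q 17) := by
  have : Fact (Nat.Prime 17) := ⟨by norm_num⟩
  have h := link (P := D.A4) (l := 17) (Q := D.q) (k := 4) (m := (4079) * D.p + (2569) * D.w) (y := false)
    (by rw [D.eA4, D.eq]; push_cast; ring) (by norm_num [sg]) (rec_one (by norm_num) (by have := D.A44; omega))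
    (rec_one (by norm_num) (by have := D.q4; omega)) (by exact_mod_cast D.t_q_17)
  rw [Nat.cast_ofNat] at h
  rw [h]
  congr 1
  cases bt D.q 17 <;> rfl

theorem t_A4_23 : legendreSym D.A4 23 = sg (!bt D.q 23) := by
  have : Fact (Nat.Prime 23) := ⟨by norm_num⟩
  have h := link (P := D.A4) (l := 23) (Q := D.q) (k := 2) (m := (3015) * D.p + (1899) * D.w) (y := false)
    (by rw [D.eA4, D.eq]; push_cast; ring) (by norm_num [sg]) (rec_one' (by norm_num) D.A44)
    (rec_three (by norm_num) D.q4) (by exact_mod_cast D.t_q_23)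
  rw [Nat.cast_ofNat] at h
  rw [h]
  congr 1
  cases bt D.q 23 <;> rfl

theorem t_R4_7 : legendreSym D.R4 7 = sg (!bt D.A3 7) := by
  have : Fact (Nat.Prime 7) := ⟨by norm_num⟩
  have h := link (P := D.R4) (l := 7) (Q := D.A3) (k := 6) (m := (137) * D.p + (238) * D.w) (y := true)
    (by rw [D.eR4, D.eA3]; push_cast; ring) (by norm_num [sg]) (rec_three (by norm_num) D.R44)
    (rec_three (by norm_num) D.A34) (by exact_mod_cast D.t_A3_7)
  rw [Nat.cast_ofNat] at h
  rw [h]
  congr 1
  cases bt D.A3 7 <;> rfl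

theorem t_R4_11 : legendreSym D.R4 11 = sg (!bt D.p 11) := by
  have : Fact (Nat.Prime 11) := ⟨by norm_num⟩
  have h := link (P := D.R4) (l := 11) (Q := D.p) (k := 10) (m := (89) * D.p + (152) * D.w) (y := true)
    (by rw [D.eR4]; push_cast; ring) (by norm_num [sg]) (rec_three (by norm_num) D.R44)
    (rec_three (by norm_num) D.p4) (by exact_mod_cast D.t_p_11)
  rw [Nat.cast_ofNat] at h
  rw [h]
  congr 1
  cases bt D.p 11 <;> rfl

theorem t_R4_13 : legendreSym D.R4 13 = sg (!bt D.A3 13) := by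
  have : Fact (Nat.Prime 13) := ⟨by norm_num⟩
  have h := link (P := D.R4) (l := 13) (Q := D.A3) (k := 8) (m := (73) * D.p + (128) * D.w) (y := true)
    (by rw [D.eR4, D.eA3]; push_cast; ring) (by norm_num [sg]) (rec_one (by norm_num) (by have := D.R44; omega))
    (rec_one (by norm_num) (by have := D.A34; omega)) (by exact_mod_cast D.t_A3_13)
  rw [Nat.cast_ofNat] at h
  rw [h]
  congr 1
  cases bt D.A3 13 <;> rfl

theorem t_R4_17 : legendreSym D.R4 17 = sg (!bt D.q 17) := by
  have : Fact (Nat.Prime 17) := ⟨by norm_num⟩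
  have h := link (P := D.R4) (l := 17) (Q := D.q) (k := 3) (m := (58) * D.p + (98) * D.w) (y := true)
    (by rw [D.eR4, D.eq]; push_cast; ring) (by norm_num [sg]) (rec_one (by norm_num) (by have := D.R44; omega))
    (rec_one (by norm_num) (by have := D.q4; omega)) (by exact_mod_cast D.t_q_17)
  rw [Nat.cast_ofNat] at h
  rw [h]
  congr 1
  cases bt D.q 17 <;> rfl

theorem t_R4_19 : legendreSym D.R4 19 = sg (bt D.p 19) := by
  have : Fact (Nat.Prime 19) := ⟨by norm_num⟩
  have h := link (P := D.R4) (l := 19) (Q := D.p) (k := 1) (m := (52) * D.p + (88) * D.w) (y := false)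
    (by rw [D.eR4]; push_cast; ring) (by norm_num [sg]) (rec_three (by norm_num) D.R44)
    (rec_three (by norm_num) D.p4) (by exact_mod_cast D.t_p_19)
  rw [Nat.cast_ofNat] at h
  rw [h]
  congr 1
  cases bt D.p 19 <;> rfl

theorem t_S2_3 : legendreSym D.S2 3 = sg (bt D.q 3) := by
  have : Fact (Nat.Prime 3) := ⟨by norm_num⟩
  have h := link (P := D.S2) (l := 3) (Q := D.q) (k := 1) (m := (696) * D.p + (240) * D.w) (y := false)
    (by rw [D.eS2, D.eq]; push_cast; ring) (by norm_num [sg]) (rec_three (by norm_num) D.S24)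
    (rec_three (by norm_num) D.q4) (by exact_mod_cast D.t_q_3)
  rw [Nat.cast_ofNat] at h
  rw [h]
  congr 1
  cases bt D.q 3 <;> rfl

theorem t_S2_13 : legendreSym D.S2 13 = sg (!bt D.A3 13) := by
  have : Fact (Nat.Prime 13) := ⟨by norm_num⟩
  have h := link (P := D.S2) (l := 13) (Q := D.A3) (k := 7) (m := (158) * D.p + (55) * D.w) (y := true)
    (by rw [D.eS2, D.eA3]; push_cast; ring) (by norm_num [sg]) (rec_one (by norm_num) (by have := D.S24; omega))
    (rec_one (by norm_num) (by have := D.A34; omega)) (by exact_mod_cast D.t_A3_13)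
  rw [Nat.cast_ofNat] at h
  rw [h]
  congr 1
  cases bt D.A3 13 <;> rfl

theorem t_S2_19 : legendreSym D.S2 19 = sg (!bt D.p 19) := by
  have : Fact (Nat.Prime 19) := ⟨by norm_num⟩
  have h := link (P := D.S2) (l := 19) (Q := D.p) (k := 18) (m := (109) * D.p + (38) * D.w) (y := true)
    (by rw [D.eS2]; push_cast; ring) (by norm_num [sg]) (rec_three (by norm_num) D.S24)
    (rec_three (by norm_num) D.p4) (by exact_mod_cast D.t_p_19)
  rw [Nat.cast_ofNat] at h
  rw [h]
  congr 1
  cases bt D.p 19 <;> rfl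

theorem t_s3_3 : legendreSym D.s3 3 = sg (bt D.q 3) := by
  have : Fact (Nat.Prime 3) := ⟨by norm_num⟩
  rcases D.s38 with ⟨h3, h4⟩ | ⟨h3, h4⟩
  · have h := link (P := D.s3) (l := 3) (Q := D.q) (k := 1) (m := (92) * D.p + (-41) * D.w) (y := false)
      (by rw [h3, D.eq]; push_cast; ring) (by norm_num [sg]) (rec_three (by norm_num) (by omega))
      (rec_three (by norm_num) D.q4) (by exact_mod_cast D.t_q_3)
    rw [Nat.cast_ofNat] at h
    rw [h]
    congr 1
    cases bt D.q 3 <;> rfl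
  · have h := link (P := D.s3) (l := 3) (Q := D.q) (k := 2) (m := (-93) * D.p + (39) * D.w) (y := true)
      (by rw [h3, D.eq]; push_cast; ring) (by norm_num [sg]) (rec_one' (by norm_num) (by omega))
      (rec_three (by norm_num) D.q4) (by exact_mod_cast D.t_q_3)
    rw [Nat.cast_ofNat] at h
    rw [h]
    congr 1
    cases bt D.q 3 <;> rfl

theorem t_s3_7 : legendreSym D.s3 7 = sg (!bt D.A3 7) := by
  have : Fact (Nat.Prime 7) := ⟨by norm_num⟩
  rcases D.s38 with ⟨h3, h4⟩ | ⟨h3, h4⟩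
  · have h := link (P := D.s3) (l := 7) (Q := D.A3) (k := 5) (m := (36) * D.p + (-18) * D.w) (y := true)
      (by rw [h3, D.eA3]; push_cast; ring) (by norm_num [sg]) (rec_three (by norm_num) (by omega))
      (rec_three (by norm_num) D.A34) (by exact_mod_cast D.t_A3_7)
    rw [Nat.cast_ofNat] at h
    rw [h]
    congr 1
    cases bt D.A3 7 <;> rfl
  · have h := link (P := D.s3) (l := 7) (Q := D.A3) (k := 2) (m := (-41) * D.p + (17) * D.w) (y := false)
      (by rw [h3, D.eA3]; push_cast; ring) (by norm_num [sg]) (rec_one' (by norm_num) (by omega))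
      (rec_three (by norm_num) D.A34) (by exact_mod_cast D.t_A3_7)
    rw [Nat.cast_ofNat] at h
    rw [h]
    congr 1
    cases bt D.A3 7 <;> rfl

theorem t_s3_11 : legendreSym D.s3 11 = sg (!bt D.p 11) := by
  have : Fact (Nat.Prime 11) := ⟨by norm_num⟩
  rcases D.s38 with ⟨h3, h4⟩ | ⟨h3, h4⟩
  · have h := link (P := D.s3) (l := 11) (Q := D.p) (k := 2) (m := (25) * D.p + (-11) * D.w) (y := true)
      (by rw [h3]; push_cast; ring) (by norm_num [sg]) (rec_three (by norm_num) (by omega))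
      (rec_three (by norm_num) D.p4) (by exact_mod_cast D.t_p_11)
    rw [Nat.cast_ofNat] at h
    rw [h]
    congr 1
    cases bt D.p 11 <;> rfl
  · have h := link (P := D.s3) (l := 11) (Q := D.p) (k := 9) (m := (-26) * D.p + (11) * D.w) (y := false)
      (by rw [h3]; push_cast; ring) (by norm_num [sg]) (rec_one' (by norm_num) (by omega))
      (rec_three (by norm_num) D.p4) (by exact_mod_cast D.t_p_11)
    rw [Nat.cast_ofNat] at h
    rw [h]
    congr 1
    cases bt D.p 11 <;> rfl

end Pool.Agent.H23.Seven.Dat
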