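import Pool.Agent.H23.SevE

/-!
# The rank seven family: the local conditions on the Selmer group of the isogenous curve
-/

namespace Pool.Agent.H23.Seven

namespace Dat

variable (D : Dat)

theorem rowD_p {e1 e2 e3 e4 f1 f2 f3 f4 e0 : Bool}
    (h : QSol ℚ_[D.p] (-2 * D.a) (D.a ^ 2 - 4 * D.b) (pw e1 D.p * (pw e2 D.q * (pw e3 D.A3 * (pw e4 D.A4 * (pw f1 D.S1 * (pw f2 D.S2 * (pw f3 D.S3 * (pw f4 D.S4 * (pw e0 (-1))))))))))) :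
    ((e0 ^^ (e4 ^^ (f2 ^^ f3))) ^^ ((bt D.q D.p && (e1 ^^ (e4 ^^ (f2 ^^ f4)))) ^^ ((!bt D.q D.p && (e2 ^^ (e4 ^^ (f2 ^^ f3)))) ^^ ((bt D.q D.p && (e3 ^^ (e4 ^^ (f3 ^^ f4)))) ^^ (!bt D.q D.p && (f1 ^^ (f2 ^^ (f3 ^^ f4)))))))) = false := by
  obtain ⟨k_A3, k_A4, k_R1, k_R2, k_R3, k_R4, k_S1, k_S2, k_S3, k_S4⟩ := sym_p (P := D.p) (τ := 1) (p := D.p) (q := D.q) (w := D.w)
      (by ring) D.eq D.eA3 D.eA4 D.eR1 D.eR2 D.eR3 D.eR4 D.eS1 D.eS2 (show D.S3 = _ from rfl) (show D.S4 = _ from rfl) D.t_p_n D.t_p_2 D.t_p_5 D.t_p_11 D.t_p_19 D.v_p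
  have hb : D.a ^ 2 - 4 * D.b = D.p * (D.q * (D.A3 * (D.A4 * (D.S1 * (D.S2 * (D.S3 * (D.S4 * (-1)))))))) := by
    rw [disc]; ring
  have r := sg_inj ((chi8 (e1 := e2) (e2 := e3) (e3 := e4) (e4 := f1) (e5 := f2) (e6 := f3) (e7 := f4) (e8 := e0)
      D.v_p k_A3 k_A4 k_S1 k_S2 k_S3 k_S4 D.t_p_n).symm.trans
      (row_typeIII (a := (-2 * D.a)) (e := e1) ⟨182410 * (D.q * D.A3 * D.A4), by rw [a]; ring⟩ ?_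
        (dvd8 e2 e3 e4 f1 f2 f3 f4 e0 (pw_neg_dvd e0))
        (qsol_cast h (hb.trans (by ring)) (by ring))
        (chim8 D.v_p k_A3 k_A4 k_S1 k_S2 k_S3 k_S4 D.t_p_n)))
  · clear h hb
    revert r
    generalize bt D.p 11 = u0
    generalize bt D.p 19 = u1
    generalize bt D.q D.p = u2
    revert u0 u1 u2 e1 e2 e3 e4 f1 f2 f3 f4 e0
    decide +kernel
  · exact nd8 D.pp (nd_prime D.pp D.pq D.ne_pq) (nd_prime D.pp D.pA3 D.ne_p_A3) (nd_prime D.pp D.pA4 D.ne_p_A4) (nd_prime D.pp D.pS1 D.ne_p_S1) (nd_prime D.pp D.pS2 D.ne_p_S2) (D.nS3 D.pp D.ne_p_s3) (D.nS4 D.pp D.ne_p_s4) (nd_neg_one D.pp)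

theorem rowD_q {e1 e2 e3 e4 f1 f2 f3 f4 e0 : Bool}
    (h : QSol ℚ_[D.q] (-2 * D.a) (D.a ^ 2 - 4 * D.b) (pw e1 D.p * (pw e2 D.q * (pw e3 D.A3 * (pw e4 D.A4 * (pw f1 D.S1 * (pw f2 D.S2 * (pw f3 D.S3 * (pw f4 D.S4 * (pw e0 (-1))))))))))) :
    ((e0 ^^ (e4 ^^ (f2 ^^ f3))) ^^ ((bt D.q D.p && (e1 ^^ (e4 ^^ (f2 ^^ f4)))) ^^ (((true ^^ (bt D.q 3 ^^ (bt D.q 17 ^^ (bt D.q 23 ^^ bt D.q D.p)))) && (e2 ^^ (e4 ^^ (f2 ^^ f3)))) ^^ ((!bt D.q D.p && (e3 ^^ (e4 ^^ (f3 ^^ f4)))) ^^ ((bt D.q 17 ^^ (bt D.q 23 ^^ bt D.q D.p)) && (f1 ^^ (f2 ^^ (f3 ^^ f4)))))))) = false := by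
  obtain ⟨k_A3, k_A4, k_R1, k_R2, k_R3, k_R4, k_S1, k_S2, k_S3, k_S4⟩ := sym_q (P := D.q) (τ := 1) (p := D.p) (q := D.q) (w := D.w)
      (by rw [D.eq]; ring) D.eA3 D.eA4 D.eR1 D.eR2 D.eR3 D.eR4 D.eS1 D.eS2 (show D.S3 = _ from rfl) (show D.S4 = _ from rfl) D.t_q_2 D.t_q_3 D.t_q_5 D.t_q_17 D.t_q_23 D.v_q
  have hb : D.a ^ 2 - 4 * D.b = D.p * (D.q * (D.A3 * (D.A4 * (D.S1 * (D.S2 * (D.S3 * (D.S4 * (-1)))))))) := by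
    rw [disc]; ring
  have r := sg_inj ((chi8 (e1 := e1) (e2 := e3) (e3 := e4) (e4 := f1) (e5 := f2) (e6 := f3) (e7 := f4) (e8 := e0)
      D.v_q k_A3 k_A4 k_S1 k_S2 k_S3 k_S4 D.t_q_n).symm.trans
      (row_typeIII (a := (-2 * D.a)) (e := e2) ⟨182410 * (D.p * D.A3 * D.A4), by rw [a]; ring⟩ ?_
        (dvd8 e1 e3 e4 f1 f2 f3 f4 e0 (pw_neg_dvd e0))
        (qsol_cast h (hb.trans (by ring)) (by ring))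
        (chim8 D.v_q k_A3 k_A4 k_S1 k_S2 k_S3 k_S4 D.t_q_n)))
  · clear h hb
    revert r
    generalize bt D.q D.p = u0
    generalize bt D.q 3 = u1
    generalize bt D.q 17 = u2
    generalize bt D.q 23 = u3
    revert u0 u1 u2 u3 e1 e2 e3 e4 f1 f2 f3 f4 e0
    decide +kernel
  · exact nd8 D.pq (nd_prime D.pq D.pp D.ne_pq.symm) (nd_prime D.pq D.pA3 D.ne_q_A3) (nd_prime D.pq D.pA4 D.ne_q_A4) (nd_prime D.pq D.pS1 D.ne_q_S1) (nd_prime D.pq D.pS2 D.ne_q_S2) (D.nS3 D.pq D.ne_q_s3) (D.nS4 D.pq D.ne_q_s4) (nd_neg_one D.pq)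

theorem rowD_A3 {e1 e2 e3 e4 f1 f2 f3 f4 e0 : Bool}
    (h : QSol ℚ_[D.A3] (-2 * D.a) (D.a ^ 2 - 4 * D.b) (pw e1 D.p * (pw e2 D.q * (pw e3 D.A3 * (pw e4 D.A4 * (pw f1 D.S1 * (pw f2 D.S2 * (pw f3 D.S3 * (pw f4 D.S4 * (pw e0 (-1))))))))))) :
    ((e0 ^^ (e4 ^^ (f2 ^^ f3))) ^^ ((!bt D.q D.p && (e1 ^^ (e4 ^^ (f2 ^^ f4)))) ^^ ((bt D.q D.p && (e2 ^^ (e4 ^^ (f2 ^^ f3)))) ^^ ((!bt D.q D.p && (e3 ^^ (e4 ^^ (f3 ^^ f4)))) ^^ (bt D.q D.p && (f1 ^^ (f2 ^^ (f3 ^^ f4)))))))) = false := by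
  obtain ⟨k_p, k_A4, k_R1, k_R2, k_R3, k_R4, k_S1, k_S2, k_S3, k_S4⟩ := sym_A3 (P := D.A3) (τ := 1) (p := D.p) (q := D.q) (w := D.w)
      (by rw [D.eA3]; ring) D.eq D.eA4 D.eR1 D.eR2 D.eR3 D.eR4 D.eS1 D.eS2 (show D.S3 = _ from rfl) (show D.S4 = _ from rfl) D.t_A3_n D.t_A3_2 D.t_A3_3 D.t_A3_5 D.t_A3_7 D.t_A3_13 D.v_A3
  have hb : D.a ^ 2 - 4 * D.b = D.p * (D.q * (D.A3 * (D.A4 * (D.S1 * (D.S2 * (D.S3 * (D.S4 * (-1)))))))) := by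
    rw [disc]; ring
  have r := sg_inj ((chi8 (e1 := e1) (e2 := e2) (e3 := e4) (e4 := f1) (e5 := f2) (e6 := f3) (e7 := f4) (e8 := e0)
      k_p D.v_A3 k_A4 k_S1 k_S2 k_S3 k_S4 D.t_A3_n).symm.trans
      (row_typeIII (a := (-2 * D.a)) (e := e3) ⟨182410 * (D.p * D.q * D.A4), by rw [a]; ring⟩ ?_
        (dvd8 e1 e2 e4 f1 f2 f3 f4 e0 (pw_neg_dvd e0))
        (qsol_cast h (hb.trans (by ring)) (by ring))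
        (chim8 k_p D.v_A3 k_A4 k_S1 k_S2 k_S3 k_S4 D.t_A3_n)))
  · clear h hb
    revert r
    generalize bt D.A3 7 = u0
    generalize bt D.A3 13 = u1
    generalize bt D.q D.p = u2
    revert u0 u1 u2 e1 e2 e3 e4 f1 f2 f3 f4 e0
    decide +kernel
  · exact nd8 D.pA3 (nd_prime D.pA3 D.pp D.ne_p_A3.symm) (nd_prime D.pA3 D.pq D.ne_q_A3.symm) (nd_prime D.pA3 D.pA4 D.ne_A3_A4) (nd_prime D.pA3 D.pS1 D.ne_A3_S1) (nd_prime D.pA3 D.pS2 D.ne_A3_S2) (D.nS3 D.pA3 D.ne_A3_s3) (D.nS4 D.pA3 D.ne_A3_s4) (nd_neg_one D.pA3)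

theorem rowD_A4 {e1 e2 e3 e4 f1 f2 f3 f4 e0 : Bool}
    (h : QSol ℚ_[D.A4] (-2 * D.a) (D.a ^ 2 - 4 * D.b) (pw e1 D.p * (pw e2 D.q * (pw e3 D.A3 * (pw e4 D.A4 * (pw f1 D.S1 * (pw f2 D.S2 * (pw f3 D.S3 * (pw f4 D.S4 * (pw e0 (-1))))))))))) :
    (((bt D.q 3 ^^ (bt D.q 17 ^^ (!bt D.q 23 ^^ (!bt D.q D.p ^^ (bt D.q 3 ^^ (bt D.q 17 ^^ bt D.q 23)))))) && (e1 ^^ (e4 ^^ (f2 ^^ f4)))) ^^ (((!bt D.q D.p ^^ (bt D.q 3 ^^ (bt D.q 17 ^^ bt D.q 23))) && (e2 ^^ (e4 ^^ (f2 ^^ f3)))) ^^ (((true ^^ (bt D.q 3 ^^ (bt D.q 17 ^^ (!bt D.q 23 ^^ (!bt D.q D.p ^^ (bt D.q 3 ^^ (bt D.q 17 ^^ bt D.q 23))))))) && (e3 ^^ (e4 ^^ (f3 ^^ f4)))) ^^ ((bt D.q 3 ^^ (!bt D.q D.p ^^ (bt D.q 3 ^^ (bt D.q 17 ^^ bt D.q 23)))) && (f1 ^^ (f2 ^^ (f3 ^^ f4))))))) = false := by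
  obtain ⟨k_p, k_A3, k_S1, k_S2, k_S3, k_S4⟩ := sym_A4 (P := D.A4) (τ := 1) (p := D.p) (q := D.q) (w := D.w)
      (by rw [D.eA4]; ring) D.eq D.eA3 D.eS1 D.eS2 (show D.S3 = _ from rfl) (show D.S4 = _ from rfl) D.t_A4_n D.t_A4_2 D.t_A4_3 D.t_A4_5 D.t_A4_7 D.t_A4_11 D.t_A4_13 D.t_A4_17 D.t_A4_19 D.t_A4_23 D.v_A4
  have hb : D.a ^ 2 - 4 * D.b = D.p * (D.q * (D.A3 * (D.A4 * (D.S1 * (D.S2 * (D.S3 * (D.S4 * (-1)))))))) := by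
    rw [disc]; ring
  have r := sg_inj ((chi8 (e1 := e1) (e2 := e2) (e3 := e3) (e4 := f1) (e5 := f2) (e6 := f3) (e7 := f4) (e8 := e0)
      k_p D.v_A4 k_A3 k_S1 k_S2 k_S3 k_S4 D.t_A4_n).symm.trans
      (row_typeIII (a := (-2 * D.a)) (e := e4) ⟨182410 * (D.p * D.q * D.A3), by rw [a]; ring⟩ ?_
        (dvd8 e1 e2 e3 f1 f2 f3 f4 e0 (pw_neg_dvd e0))
        (qsol_cast h (hb.trans (by ring)) (by ring))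
        (chim8 k_p D.v_A4 k_A3 k_S1 k_S2 k_S3 k_S4 D.t_A4_n)))
  · clear h hb
    revert r
    generalize bt D.q D.p = u0
    generalize bt D.q 3 = u1
    generalize bt D.q 17 = u2
    generalize bt D.q 23 = u3
    revert u0 u1 u2 u3 e1 e2 e3 e4 f1 f2 f3 f4 e0
    decide +kernel
  · exact nd8 D.pA4 (nd_prime D.pA4 D.pp D.ne_p_A4.symm) (nd_prime D.pA4 D.pq D.ne_q_A4.symm) (nd_prime D.pA4 D.pA3 D.ne_A3_A4.symm) (nd_prime D.pA4 D.pS1 D.ne_A4_S1) (nd_prime D.pA4 D.pS2 D.ne_A4_S2) (D.nS3 D.pA4 D.ne_A4_s3) (D.nS4 D.pA4 D.ne_A4_s4) (nd_neg_one D.pA4)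

theorem rowD_R4 {e1 e2 e3 e4 f1 f2 f3 f4 e0 : Bool}
    (hdb : pw e1 D.p * (pw e2 D.q * (pw e3 D.A3 * (pw e4 D.A4 * (pw f1 D.S1 * (pw f2 D.S2 * (pw f3 D.S3 * (pw f4 D.S4 * (pw e0 (-1))))))))) ∣ (D.a ^ 2 - 4 * D.b))
    (h : QSol ℚ_[D.R4] (-2 * D.a) (D.a ^ 2 - 4 * D.b) (pw e1 D.p * (pw e2 D.q * (pw e3 D.A3 * (pw e4 D.A4 * (pw f1 D.S1 * (pw f2 D.S2 * (pw f3 D.S3 * (pw f4 D.S4 * (pw e0 (-1))))))))))) :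
    ((e0 ^^ (e4 ^^ (f2 ^^ f3))) ^^ (((true ^^ (!bt D.p 11 ^^ (!bt D.q 17 ^^ (bt D.p 19 ^^ (bt D.q D.p ^^ !bt D.q 17))))) && (e1 ^^ (e4 ^^ (f2 ^^ f4)))) ^^ (((bt D.q D.p ^^ !bt D.q 17) && (e2 ^^ (e4 ^^ (f2 ^^ f3)))) ^^ (((true ^^ (!bt D.A3 7 ^^ (!bt D.A3 13 ^^ (!bt D.q 17 ^^ (bt D.q D.p ^^ !bt D.q 17))))) && (e3 ^^ (e4 ^^ (f3 ^^ f4)))) ^^ ((true ^^ (!bt D.p 11 ^^ (!bt D.A3 13 ^^ (bt D.q D.p ^^ !bt D.q 17)))) && (f1 ^^ (f2 ^^ (f3 ^^ f4)))))))) = false := by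
  obtain ⟨k_p, k_A3, k_A4, k_S1, k_S2, k_S3, k_S4⟩ := sym_R4 (P := D.R4) (τ := 1) (p := D.p) (q := D.q) (w := D.w)
      (by rw [D.eR4]; ring) D.eq D.eA3 D.eA4 D.eS1 D.eS2 (show D.S3 = _ from rfl) (show D.S4 = _ from rfl) D.t_R4_n D.t_R4_2 D.t_R4_3 D.t_R4_5 D.t_R4_7 D.t_R4_11 D.t_R4_13 D.t_R4_17 D.t_R4_19 D.t_R4_29 D.t_R4_37 D.v_R4
  have hb : D.a ^ 2 - 4 * D.b = D.p * (D.q * (D.A3 * (D.A4 * (D.S1 * (D.S2 * (D.S3 * (D.S4 * (-1)))))))) := by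
    rw [disc]; ring
  have r := sg_one ((chi9 (e1 := e1) (e2 := e2) (e3 := e3) (e4 := e4) (e5 := f1) (e6 := f2) (e7 := f3) (e8 := f4) (e9 := e0)
      k_p D.v_R4 k_A3 k_A4 k_S1 k_S2 k_S3 k_S4 D.t_R4_n).symm.trans
      (mult_row (X := 64 * (D.p * (D.q * (D.A3 * (D.A4 * (D.R1 * (D.R2 * (D.R3))))))))
        (by rw [b]; ring) D.ne2.2.2.2.2.1 hdb ?_ ?_ h))
  · clear h hb hdb
    revert r
    generalize bt D.q D.p = u0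
    generalize bt D.q 17 = u1
    generalize bt D.p 11 = u2
    generalize bt D.p 19 = u3
    generalize bt D.A3 7 = u4
    generalize bt D.A3 13 = u5
    revert u0 u1 u2 u3 u4 u5 e1 e2 e3 e4 f1 f2 f3 f4 e0
    decide +kernel
  · exact nd8 D.pR4 (nd_64 D.pR4 D.ne2.2.2.2.2.1) (nd_prime D.pR4 D.pp D.ne_p_R4.symm) (nd_prime D.pR4 D.pq D.ne_q_R4.symm) (nd_prime D.pR4 D.pA3 D.ne_A3_R4.symm) (nd_prime D.pR4 D.pA4 D.ne_A4_R4.symm) (nd_prime D.pR4 D.pR1 D.ne_R1_R4.symm) (nd_prime D.pR4 D.pR2 D.ne_R2_R4.symm) (nd_prime D.pR4 D.pR3 D.ne_R3_R4.symm)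
  · rw [hb]
    exact nd9 D.pR4 (nd_prime D.pR4 D.pp D.ne_p_R4.symm) (nd_prime D.pR4 D.pq D.ne_q_R4.symm) (nd_prime D.pR4 D.pA3 D.ne_A3_R4.symm) (nd_prime D.pR4 D.pA4 D.ne_A4_R4.symm) (nd_prime D.pR4 D.pS1 D.ne_R4_S1) (nd_prime D.pR4 D.pS2 D.ne_R4_S2) (D.nS3 D.pR4 D.ne_R4_s3) (D.nS4 D.pR4 D.ne_R4_s4) (nd_neg_one D.pR4)

end Dat

end Pool.Agent.H23.Seven
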