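import Pool.Agent.H23.SixBase

/-!
# The rank six family: the symbols of `q`
-/

namespace Pool.Agent.H23

theorem nd_mul {P : ℕ} (hP : P.Prime) {a b : ℤ} (ha : ¬ (P : ℤ) ∣ a) (hb : ¬ (P : ℤ) ∣ b) :
    ¬ (P : ℤ) ∣ a * b := by
  intro h
  rcases (Nat.prime_iff_prime_int.mp hP).dvd_or_dvd h with h | h
  · exact ha h
  · exact hb h

theorem nd_prime {P Q : ℕ} (hP : P.Prime) (hQ : Q.Prime) (h : P ≠ Q) : ¬ (P : ℤ) ∣ (Q : ℤ) := by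
  rw [Int.natCast_dvd_natCast, Nat.prime_dvd_prime_iff_eq hP hQ]
  exact h

theorem nd_prime' {P Q : ℕ} {S : ℤ} (hP : P.Prime) (hQ : Q.Prime) (h : P ≠ Q)
    (hS : (Q : ℤ) = S ∨ (Q : ℤ) = -S) : ¬ (P : ℤ) ∣ S := by
  have h1 := nd_prime hP hQ h
  rcases hS with hS | hS
  · rwa [hS] at h1
  · rw [hS, dvd_neg] at h1; exact h1

theorem nd_neg {P : ℕ} {a : ℤ} (ha : ¬ (P : ℤ) ∣ a) : ¬ (P : ℤ) ∣ -a := by rwa [dvd_neg]

theorem nd7 {P : ℕ} (hP : P.Prime) {g1 g2 g3 g4 g5 g6 g7 : ℤ} (h1 : ¬ (P : ℤ) ∣ g1)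
    (h2 : ¬ (P : ℤ) ∣ g2) (h3 : ¬ (P : ℤ) ∣ g3) (h4 : ¬ (P : ℤ) ∣ g4) (h5 : ¬ (P : ℤ) ∣ g5)
    (h6 : ¬ (P : ℤ) ∣ g6) (h7 : ¬ (P : ℤ) ∣ g7) :
    ¬ (P : ℤ) ∣ g1 * (g2 * (g3 * (g4 * (g5 * (g6 * g7))))) :=
  nd_mul hP h1 (nd_mul hP h2 (nd_mul hP h3 (nd_mul hP h4 (nd_mul hP h5 (nd_mul hP h6 h7)))))

theorem nd8 {P : ℕ} (hP : P.Prime) {g1 g2 g3 g4 g5 g6 g7 g8 : ℤ} (h1 : ¬ (P : ℤ) ∣ g1)
    (h2 : ¬ (P : ℤ) ∣ g2) (h3 : ¬ (P : ℤ) ∣ g3) (h4 : ¬ (P : ℤ) ∣ g4) (h5 : ¬ (P : ℤ) ∣ g5)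
    (h6 : ¬ (P : ℤ) ∣ g6) (h7 : ¬ (P : ℤ) ∣ g7) (h8 : ¬ (P : ℤ) ∣ g8) :
    ¬ (P : ℤ) ∣ g1 * (g2 * (g3 * (g4 * (g5 * (g6 * (g7 * g8)))))) :=
  nd_mul hP h1 (nd7 hP h2 h3 h4 h5 h6 h7 h8)

theorem nd9 {P : ℕ} (hP : P.Prime) {g1 g2 g3 g4 g5 g6 g7 g8 g9 : ℤ} (h1 : ¬ (P : ℤ) ∣ g1)
    (h2 : ¬ (P : ℤ) ∣ g2) (h3 : ¬ (P : ℤ) ∣ g3) (h4 : ¬ (P : ℤ) ∣ g4) (h5 : ¬ (P : ℤ) ∣ g5)
    (h6 : ¬ (P : ℤ) ∣ g6) (h7 : ¬ (P : ℤ) ∣ g7) (h8 : ¬ (P : ℤ) ∣ g8) (h9 : ¬ (P : ℤ) ∣ g9) :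
    ¬ (P : ℤ) ∣ g1 * (g2 * (g3 * (g4 * (g5 * (g6 * (g7 * (g8 * g9))))))) :=
  nd_mul hP h1 (nd8 hP h2 h3 h4 h5 h6 h7 h8 h9)

theorem pw_dvd (e : Bool) (g : ℤ) : pw e g ∣ g := by cases e <;> simp

theorem dvd8 (e1 e2 e3 e4 e5 e6 e7 e8 : Bool) {g1 g2 g3 g4 g5 g6 g7 g8 h8' : ℤ}
    (h8 : pw e8 g8 ∣ h8') :
    pw e1 g1 * (pw e2 g2 * (pw e3 g3 * (pw e4 g4 * (pw e5 g5 * (pw e6 g6 *
      (pw e7 g7 * pw e8 g8)))))) ∣ g1 * (g2 * (g3 * (g4 * (g5 * (g6 * (g7 * h8')))))) :=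
  mul_dvd_mul (pw_dvd _ _) (mul_dvd_mul (pw_dvd _ _) (mul_dvd_mul (pw_dvd _ _)
    (mul_dvd_mul (pw_dvd _ _) (mul_dvd_mul (pw_dvd _ _) (mul_dvd_mul (pw_dvd _ _)
    (mul_dvd_mul (pw_dvd _ _) h8))))))

theorem pw_two_dvd (e : Bool) : pw e 2 ∣ 8 := by cases e <;> decide

theorem qsol_cast {K : Type*} [Field K] {a b b' d d' : ℤ} (h : QSol K a b d) (hb : b = b')
    (hd : d = d') : QSol K a b' d' := by subst hb; subst hd; exact h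

theorem nd_small {P : ℕ} {n : ℤ} (hn : 0 < n) (h : n < P) : ¬ (P : ℤ) ∣ n := by
  intro hd
  have := Int.le_of_dvd hn hd
  omega

theorem pos_of_pw_mul {e : Bool} {g y : ℤ} (hg : 0 < g) (h : 0 < pw e g * y) : 0 < y := by
  cases e
  · simpa using h
  · exact (mul_pos_iff_of_pos_left hg).mp (by simpa using h)

section
variable {P : ℕ} [hP : Fact P.Prime]

theorem chi8 {g1 g2 g3 g4 g5 g6 g7 g8 : ℤ} {c1 c2 c3 c4 c5 c6 c7 c8 e1 e2 e3 e4 e5 e6 e7 e8 : Bool}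
    (h1 : legendreSym P g1 = sg c1) (h2 : legendreSym P g2 = sg c2)
    (h3 : legendreSym P g3 = sg c3) (h4 : legendreSym P g4 = sg c4)
    (h5 : legendreSym P g5 = sg c5) (h6 : legendreSym P g6 = sg c6)
    (h7 : legendreSym P g7 = sg c7) (h8 : legendreSym P g8 = sg c8) :
    legendreSym P (pw e1 g1 * (pw e2 g2 * (pw e3 g3 * (pw e4 g4 * (pw e5 g5 * (pw e6 g6 *
      (pw e7 g7 * pw e8 g8))))))) = sg ((e1 && c1) ^^ ((e2 && c2) ^^ ((e3 && c3) ^^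
        ((e4 && c4) ^^ ((e5 && c5) ^^ ((e6 && c6) ^^ ((e7 && c7) ^^ (e8 && c8)))))))) := by
  rw [legendreSym.mul, legendreSym.mul, legendreSym.mul, legendreSym.mul, legendreSym.mul,
    legendreSym.mul, legendreSym.mul, chi_pw h1, chi_pw h2, chi_pw h3, chi_pw h4, chi_pw h5,
    chi_pw h6, chi_pw h7, chi_pw h8, sg_mul, sg_mul, sg_mul, sg_mul, sg_mul, sg_mul, sg_mul]

theorem chi9 {g1 g2 g3 g4 g5 g6 g7 g8 g9 : ℤ}
    {c1 c2 c3 c4 c5 c6 c7 c8 c9 e1 e2 e3 e4 e5 e6 e7 e8 e9 : Bool}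
    (h1 : legendreSym P g1 = sg c1) (h2 : legendreSym P g2 = sg c2)
    (h3 : legendreSym P g3 = sg c3) (h4 : legendreSym P g4 = sg c4)
    (h5 : legendreSym P g5 = sg c5) (h6 : legendreSym P g6 = sg c6)
    (h7 : legendreSym P g7 = sg c7) (h8 : legendreSym P g8 = sg c8)
    (h9 : legendreSym P g9 = sg c9) :
    legendreSym P (pw e1 g1 * (pw e2 g2 * (pw e3 g3 * (pw e4 g4 * (pw e5 g5 * (pw e6 g6 *
      (pw e7 g7 * (pw e8 g8 * pw e9 g9)))))))) = sg ((e1 && c1) ^^ ((e2 && c2) ^^ ((e3 && c3) ^^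
        ((e4 && c4) ^^ ((e5 && c5) ^^ ((e6 && c6) ^^ ((e7 && c7) ^^ ((e8 && c8) ^^
          (e9 && c9))))))))) := by
  rw [legendreSym.mul, chi_pw h1, chi8 h2 h3 h4 h5 h6 h7 h8 h9, sg_mul]

theorem chim8 {g1 g2 g3 g4 g5 g6 g7 g8 : ℤ} {c1 c2 c3 c4 c5 c6 c7 c8 : Bool}
    (h1 : legendreSym P g1 = sg c1) (h2 : legendreSym P g2 = sg c2)
    (h3 : legendreSym P g3 = sg c3) (h4 : legendreSym P g4 = sg c4)
    (h5 : legendreSym P g5 = sg c5) (h6 : legendreSym P g6 = sg c6)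
    (h7 : legendreSym P g7 = sg c7) (h8 : legendreSym P g8 = sg c8) :
    legendreSym P (g1 * (g2 * (g3 * (g4 * (g5 * (g6 * (g7 * g8))))))) =
      sg (c1 ^^ (c2 ^^ (c3 ^^ (c4 ^^ (c5 ^^ (c6 ^^ (c7 ^^ c8))))))) := by
  rw [legendreSym.mul, legendreSym.mul, legendreSym.mul, legendreSym.mul, legendreSym.mul,
    legendreSym.mul, legendreSym.mul, h1, h2, h3, h4, h5, h6, h7, h8, sg_mul, sg_mul, sg_mul,
    sg_mul, sg_mul, sg_mul, sg_mul]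

theorem chi_eight {c : Bool} (h : legendreSym P 2 = sg c) : legendreSym P 8 = sg c := by
  rw [show (8 : ℤ) = 2 * 2 * 2 by norm_num, legendreSym.mul, legendreSym.mul, h, sg_mul, sg_mul]
  exact congrArg sg (by cases c <;> rfl)

end

/-- If `a ≤ 0 < b` every element of `Sel a b` is positive. -/
theorem sel_pos {a b d : ℤ} (ha : a ≤ 0) (hb : 0 < b) (hd : d ∈ Sel a b) : 0 < d := by
  obtain ⟨hsq, hdb, ⟨N, M, e, h0, h1⟩, _⟩ := hd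
  by_contra hneg
  have hd0 : d < 0 := lt_of_le_of_ne (not_lt.mp hneg) hsq.ne_zero
  obtain ⟨k, hk⟩ := hdb
  have hk0 : k < 0 := by
    by_contra hk0
    have := mul_nonpos_of_nonpos_of_nonneg hd0.le (not_lt.mp hk0)
    omega
  have hbd : b / d = k := by rw [hk]; exact Int.mul_ediv_cancel_left _ hd0.ne
  rw [hbd] at h1
  have e1 : (d : ℝ) < 0 := by exact_mod_cast hd0
  have e2 : (k : ℝ) < 0 := by exact_mod_cast hk0
  have e3 : (a : ℝ) ≤ 0 := by exact_mod_cast ha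
  have t2 : (a : ℝ) * M ^ 2 * e ^ 2 ≤ 0 := by
    have := mul_nonneg (sq_nonneg M) (sq_nonneg e)
    nlinarith
  rcases h0 with h | h
  · have t1 : (d : ℝ) * M ^ 4 < 0 := mul_neg_of_neg_of_pos e1 (by positivity)
    have t3 : (k : ℝ) * e ^ 4 ≤ 0 := mul_nonpos_of_nonpos_of_nonneg e2.le (by positivity)
    nlinarith [sq_nonneg N]
  · have t1 : (d : ℝ) * M ^ 4 ≤ 0 := mul_nonpos_of_nonpos_of_nonneg e1.le (by positivity)
    have t3 : (k : ℝ) * e ^ 4 < 0 := mul_neg_of_neg_of_pos e2 (by positivity)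
    nlinarith [sq_nonneg N]

theorem unit_two {d : ℤ} (hd : Squarefree d) (h : d ∣ 8) (hpos : 0 < d) :
    ∃ e : Bool, d = pw e 2 := by
  have hle := Int.le_of_dvd (by norm_num) h
  have : d = 1 ∨ d = 2 ∨ d = 4 ∨ d = 8 := by
    interval_cases d <;> omega
  rcases this with rfl | rfl | rfl | rfl
  · exact ⟨false, rfl⟩
  · exact ⟨true, rfl⟩
  · exfalso
    have := hd 2 ⟨1, by norm_num⟩
    rw [Int.isUnit_iff] at this
    omega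
  · exfalso
    have := hd 2 ⟨2, by norm_num⟩
    rw [Int.isUnit_iff] at this
    omega

theorem unit_neg {d : ℤ} (h : d ∣ 1) : ∃ e : Bool, d = pw e (-1) := by
  rcases Int.isUnit_iff.mp (isUnit_of_dvd_one h) with rfl | rfl
  · exact ⟨false, rfl⟩
  · exact ⟨true, rfl⟩

end Pool.Agent.H23

namespace Pool.Agent.H23.Six.Dat

variable (D : Dat)

theorem m4_q : D.q % 4 = 3 := by rcases D.m8_q with ⟨_, h⟩ | ⟨_, h⟩ <;> omega
theorem m4_A3 : D.A3 % 4 = 3 := by rcases D.m8_A3 with ⟨_, h⟩ | ⟨_, h⟩ <;> omega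
theorem m4_A4 : D.A4 % 4 = 3 := by rcases D.m8_A4 with ⟨_, h⟩ | ⟨_, h⟩ <;> omega
theorem m4_P2 : D.P2 % 4 = 3 := by rcases D.m8_P2 with ⟨_, h⟩ | ⟨_, h⟩ <;> omega
theorem m4_R4 : D.R4 % 4 = 3 := by rcases D.m8_R4 with ⟨_, h⟩ | ⟨_, h⟩ <;> omega
theorem m4_S1 : D.S1 % 4 = 3 := by rcases D.m8_S1 with ⟨_, h⟩ | ⟨_, h⟩ <;> omega
theorem m4_S2 : D.S2 % 4 = 1 := by rcases D.m8_S2 with ⟨_, h⟩ | ⟨_, h⟩ <;> omega

theorem zA3 : (D.A3 : ℤ) = 18 * D.p + 7 * D.q := by rw [D.eA3]; push_cast; ring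
theorem zA4 : (D.A4 : ℤ) = 108 * D.p + 77 * D.q := by rw [D.eA4]; push_cast; ring
theorem zR1 : (D.R1 : ℤ) = 72 * D.p + 77 * D.q := by rw [D.eR1]; push_cast; ring
theorem zP2 : 27 * (D.p : ℤ) + 7 * D.q = 2 * D.P2 := by exact_mod_cast D.eP2
theorem zR3 : (D.R3 : ℤ) = 54 * D.p + 11 * D.q := by rw [D.eR3]; push_cast; ring
theorem zR4 : (D.R4 : ℤ) = 36 * D.p + 49 * D.q := by rw [D.eR4]; push_cast; ring
theorem zS1 : (D.S1 : ℤ) = 128 * D.p + 77 * D.q := by rw [D.eS1]; push_cast; ring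
theorem zS2 : (D.S2 : ℤ) = 243 * D.p + 112 * D.q := by rw [D.eS2]; push_cast; ring

/-- The signed third form. -/
def S3 : ℤ := 54 * D.p - 11 * D.q
/-- The signed fourth form. -/
def S4 : ℤ := 36 * D.p - 49 * D.q

theorem symq [Fact D.q.Prime] {x : Bool} (hx : legendreSym D.q D.p = sg x) :
    legendreSym D.q D.A3 = sg (false ^^ ((!D.k) ^^ x)) ∧
    legendreSym D.q D.A4 = sg (false ^^ (D.k ^^ x)) ∧
    legendreSym D.q D.R1 = sg (false ^^ ((!D.k) ^^ x)) ∧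
    legendreSym D.q D.P2 = sg ((!D.k) ^^ (D.k ^^ x)) ∧
    legendreSym D.q D.R3 = sg (false ^^ (((!D.k) ^^ D.k) ^^ x)) ∧
    legendreSym D.q D.R4 = sg (false ^^ (false ^^ x)) ∧
    legendreSym D.q D.S1 = sg (false ^^ ((!D.k) ^^ x)) ∧
    legendreSym D.q D.S2 = sg (false ^^ (D.k ^^ x)) ∧
    legendreSym D.q D.S3 = sg (false ^^ (((!D.k) ^^ D.k) ^^ x)) ∧
    legendreSym D.q D.S4 = sg (false ^^ (false ^^ x)) :=
  sym_q (P := D.q) (τ := 1) (p := D.p) (q := D.q) (by ring) D.zA3 D.zA4 D.zR1 D.zP2 D.zR3 D.zR4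
    D.zS1 D.zS2 (show D.S3 = _ from rfl) (show D.S4 = _ from rfl) D.base_q_t2 D.base_q_t3 hx

variable [Fact D.q.Prime] {x : Bool}

theorem v_A3 [Fact D.A3.Prime] (hx : legendreSym D.q D.p = sg x) :
    legendreSym D.A3 D.q = sg (x ^^ D.k) := by
  obtain ⟨h, -⟩ := D.symq hx
  rw [recip_three D.m4_A3 D.m4_q h]
  exact congrArg sg (by cases x <;> cases D.k <;> rfl)

theorem v_A4 [Fact D.A4.Prime] (hx : legendreSym D.q D.p = sg x) :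
    legendreSym D.A4 D.q = sg (x ^^ !D.k) := by
  obtain ⟨-, h, -⟩ := D.symq hx
  rw [recip_three D.m4_A4 D.m4_q h]
  exact congrArg sg (by cases x <;> cases D.k <;> rfl)

theorem v_P2 [Fact D.P2.Prime] (hx : legendreSym D.q D.p = sg x) :
    legendreSym D.P2 D.q = sg x := by
  obtain ⟨-, -, -, h, -⟩ := D.symq hx
  rw [recip_three D.m4_P2 D.m4_q h]
  exact congrArg sg (by cases x <;> cases D.k <;> rfl)

theorem v_R4 [Fact D.R4.Prime] (hx : legendreSym D.q D.p = sg x) :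
    legendreSym D.R4 D.q = sg (!x) := by
  obtain ⟨-, -, -, -, -, h, -⟩ := D.symq hx
  rw [recip_three D.m4_R4 D.m4_q h]
  exact congrArg sg (by cases x <;> cases D.k <;> rfl)

theorem v_S1 [Fact D.S1.Prime] (hx : legendreSym D.q D.p = sg x) :
    legendreSym D.S1 D.q = sg (x ^^ D.k) := by
  obtain ⟨-, -, -, -, -, -, h, -⟩ := D.symq hx
  rw [recip_three D.m4_S1 D.m4_q h]
  exact congrArg sg (by cases x <;> cases D.k <;> rfl)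

theorem v_S2 [Fact D.S2.Prime] (hx : legendreSym D.q D.p = sg x) :
    legendreSym D.S2 D.q = sg (x ^^ D.k) := by
  obtain ⟨-, -, -, -, -, -, -, h, -⟩ := D.symq hx
  rw [recip_one D.m4_S2 (by have := D.m4_q; omega) h]
  exact congrArg sg (by cases x <;> cases D.k <;> rfl)

theorem v_s4 [Fact D.s4.Prime] (hx : legendreSym D.q D.p = sg x) :
    legendreSym D.s4 D.q = sg x := by
  obtain ⟨-, -, -, -, -, -, -, -, -, h⟩ := D.symq hx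
  have hq := D.m4_q
  rcases D.es4 with h4 | h4
  · have h1 : D.s4 % 4 = 1 := by omega
    have h5 : legendreSym D.q (D.s4 : ℤ) = sg (false ^^ (false ^^ x)) := by rw [h4]; exact h
    rw [recip_one h1 (by omega) h5]
    exact congrArg sg (by cases x <;> rfl)
  · have h1 : D.s4 % 4 = 3 := by omega
    have h5 : legendreSym D.q (D.s4 : ℤ) = sg (true ^^ (false ^^ (false ^^ x))) := by
      rw [h4, neg_eq_neg_one_mul, legendreSym.mul, D.base_q_n]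
      rw [← sg_mul true]
      exact congrArg _ h
    rw [recip_three h1 hq h5]
    exact congrArg sg (by cases x <;> rfl)

end Pool.Agent.H23.Six.Dat
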