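import Pool.Agent.H23.SevSym
import Pool.Agent.H23.SixV

/-!
# The rank seven family: data and distinctness of the primes
-/

namespace Pool.Agent.H23.Seven

/-- Numbers attached to a member of the rank seven family (`q = p + 2 w`). -/
structure Dat where
  p : ℕ
  q : ℕ
  A3 : ℕ
  A4 : ℕ
  R1 : ℕ
  R2 : ℕ
  R3 : ℕ
  R4 : ℕ
  S1 : ℕ
  S2 : ℕ
  s3 : ℕ
  s4 : ℕ
  w : ℤ
  pp : p.Prime
  pq : q.Prime
  pA3 : A3.Prime
  pA4 : A4.Prime
  pR1 : R1.Prime
  pR2 : R2.Prime
  pR3 : R3.Prime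
  pR4 : R4.Prime
  pS1 : S1.Prime
  pS2 : S2.Prime
  ps3 : s3.Prime
  ps4 : s4.Prime
  eq : (q : ℤ) = p + 2 * w
  eA3 : (A3 : ℤ) = 5 * p + w
  eA4 : (A4 : ℤ) = 69347 * p + 43681 * w
  eR1 : (R1 : ℤ) = 317 * p + 209 * w
  eR2 : (R2 : ℤ) = 27763 * p + 5225 * w
  eR3 : (R3 : ℤ) = 22565 * p + 418 * w
  eR4 : (R4 : ℤ) = 989 * p + 1672 * w
  eS1 : (S1 : ℤ) = 39415 * p + 15488 * w
  eS2 : (S2 : ℤ) = 2089 * p + 722 * w
  es3 : (s3 : ℤ) = 277 * p - 121 * w ∨ (s3 : ℤ) = -(277 * p - 121 * w)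
  es4 : (s4 : ℤ) = 11323 * p - 9025 * w ∨ (s4 : ℤ) = -(11323 * p - 9025 * w)
  c8 : p % 8 = 3
  cw : w % 8 = 4
  ct : (jacobiSym 391 q = -1 ∧ jacobiSym 13 A3 * jacobiSym 19 p * jacobiSym 23 q = -1) ∨
    (jacobiSym 391 q = 1 ∧ jacobiSym 7 A3 * jacobiSym 11 p * jacobiSym 23 q = -1)

theorem no_rel {p q α β : ℕ} {g : ℤ} (hg : g ≠ 0) (hp : p.Prime) (hq : q.Prime) (hne : p ≠ q)
    (hc : Nat.Coprime α β) (hn : ¬ (α.Prime ∧ β.Prime))
    (hz : g * ((α : ℤ) * p) = g * ((β : ℤ) * q)) : False := by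
  have h : α * p = β * q := by exact_mod_cast mul_left_cancel₀ hg hz
  have h1 : p ∣ β := by
    have h0 : p ∣ β * q := ⟨α, by rw [← h]; ring⟩
    exact (hp.dvd_mul.mp h0).resolve_right
      (fun h' => hne ((Nat.prime_dvd_prime_iff_eq hp hq).mp h'))
  have h2 : q ∣ α := by
    have h0 : q ∣ α * p := ⟨β, by rw [h]; ring⟩
    exact (hq.dvd_mul.mp h0).resolve_right
      (fun h' => hne ((Nat.prime_dvd_prime_iff_eq hq hp).mp h').symm)
  have h3 : β ∣ p := hc.symm.dvd_of_dvd_mul_left ⟨q, h⟩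
  have h4 : α ∣ q := hc.dvd_of_dvd_mul_left ⟨p, h.symm⟩
  have e1 := Nat.dvd_antisymm h4 h2
  have e2 := Nat.dvd_antisymm h3 h1
  exact hn ⟨by rw [e1]; exact hq, by rw [e2]; exact hp⟩

namespace Dat

variable (D : Dat)

theorem ne_pq : D.p ≠ D.q := by
  intro h
  have h1 := D.eq
  have h2 := D.cw
  rw [h] at h1
  omega

theorem p0 : (0 : ℤ) < D.p := by exact_mod_cast D.pp.pos
theorem q0 : (0 : ℤ) < D.q := by exact_mod_cast D.pq.pos

theorem dA3 : 2 * (D.A3 : ℤ) = 9 * D.p + 1 * D.q := by rw [D.eA3, D.eq]; ring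
theorem dA4 : 2 * (D.A4 : ℤ) = 95013 * D.p + 43681 * D.q := by rw [D.eA4, D.eq]; ring
theorem dR1 : 2 * (D.R1 : ℤ) = 425 * D.p + 209 * D.q := by rw [D.eR1, D.eq]; ring
theorem dR2 : 2 * (D.R2 : ℤ) = 50301 * D.p + 5225 * D.q := by rw [D.eR2, D.eq]; ring
theorem dR3 : 2 * (D.R3 : ℤ) = 44712 * D.p + 418 * D.q := by rw [D.eR3, D.eq]; ring
theorem dR4 : 2 * (D.R4 : ℤ) = 306 * D.p + 1672 * D.q := by rw [D.eR4, D.eq]; ring
theorem dS1 : 2 * (D.S1 : ℤ) = 63342 * D.p + 15488 * D.q := by rw [D.eS1, D.eq]; ring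
theorem dS2 : 2 * (D.S2 : ℤ) = 3456 * D.p + 722 * D.q := by rw [D.eS2, D.eq]; ring
theorem ds3 : 2 * (D.s3 : ℤ) = 675 * D.p - 121 * D.q ∨ 2 * (D.s3 : ℤ) = -(675 * D.p - 121 * D.q) := by
  rw [D.eq]; rcases D.es3 with h | h <;> rw [h]
  · left; ring
  · right; ring
theorem ds4 : 2 * (D.s4 : ℤ) = 31671 * D.p - 9025 * D.q ∨ 2 * (D.s4 : ℤ) = -(31671 * D.p - 9025 * D.q) := by
  rw [D.eq]; rcases D.es4 with h | h <;> rw [h]
  · left; ring
  · right; ring

theorem ne_p_A3 : D.p ≠ D.A3 := by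
  intro h0
  have h : (D.p : ℤ) = D.A3 := by exact_mod_cast h0
  have hp := D.p0; have hq := D.q0
  have hA3 := D.dA3
  linarith

theorem ne_p_A4 : D.p ≠ D.A4 := by
  intro h0
  have h : (D.p : ℤ) = D.A4 := by exact_mod_cast h0
  have hp := D.p0; have hq := D.q0
  have hA4 := D.dA4
  linarith

theorem ne_p_R1 : D.p ≠ D.R1 := by
  intro h0
  have h : (D.p : ℤ) = D.R1 := by exact_mod_cast h0
  have hp := D.p0; have hq := D.q0
  have hR1 := D.dR1
  linarith

theorem ne_p_R2 : D.p ≠ D.R2 := by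
  intro h0
  have h : (D.p : ℤ) = D.R2 := by exact_mod_cast h0
  have hp := D.p0; have hq := D.q0
  have hR2 := D.dR2
  linarith

theorem ne_p_R3 : D.p ≠ D.R3 := by
  intro h0
  have h : (D.p : ℤ) = D.R3 := by exact_mod_cast h0
  have hp := D.p0; have hq := D.q0
  have hR3 := D.dR3
  linarith

theorem ne_p_R4 : D.p ≠ D.R4 := by
  intro h0
  have h : (D.p : ℤ) = D.R4 := by exact_mod_cast h0
  have hp := D.p0; have hq := D.q0
  have hR4 := D.dR4
  linarith

theorem ne_p_S1 : D.p ≠ D.S1 := by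
  intro h0
  have h : (D.p : ℤ) = D.S1 := by exact_mod_cast h0
  have hp := D.p0; have hq := D.q0
  have hS1 := D.dS1
  linarith

theorem ne_p_S2 : D.p ≠ D.S2 := by
  intro h0
  have h : (D.p : ℤ) = D.S2 := by exact_mod_cast h0
  have hp := D.p0; have hq := D.q0
  have hS2 := D.dS2
  linarith

theorem ne_p_s3 : D.p ≠ D.s3 := by
  intro h0
  have h : (D.p : ℤ) = D.s3 := by exact_mod_cast h0
  have hp := D.p0; have hq := D.q0
  rcases D.ds3 with hs3 | hs3
  · exact no_rel (α := 673) (β := 121) (g := 1) (by norm_num) D.pp D.pq D.ne_pq (by norm_num) (by norm_num)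
      (by push_cast; linarith)
  · exact no_rel (α := 677) (β := 121) (g := 1) (by norm_num) D.pp D.pq D.ne_pq (by norm_num) (by norm_num)
      (by push_cast; linarith)

theorem ne_p_s4 : D.p ≠ D.s4 := by
  intro h0
  have h : (D.p : ℤ) = D.s4 := by exact_mod_cast h0
  have hp := D.p0; have hq := D.q0
  rcases D.ds4 with hs4 | hs4
  · exact no_rel (α := 31669) (β := 9025) (g := 1) (by norm_num) D.pp D.pq D.ne_pq (by norm_num) (by norm_num)
      (by push_cast; linarith)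
  · exact no_rel (α := 1667) (β := 475) (g := 19) (by norm_num) D.pp D.pq D.ne_pq (by norm_num) (by norm_num)
      (by push_cast; linarith)

theorem ne_q_A3 : D.q ≠ D.A3 := by
  intro h0
  have h : (D.q : ℤ) = D.A3 := by exact_mod_cast h0
  have hp := D.p0; have hq := D.q0
  have hA3 := D.dA3
  exact no_rel (α := 9) (β := 1) (g := 1) (by norm_num) D.pp D.pq D.ne_pq (by norm_num) (by norm_num)
    (by push_cast; linarith)

theorem ne_q_A4 : D.q ≠ D.A4 := by
  intro h0
  have h : (D.q : ℤ) = D.A4 := by exact_mod_cast h0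
  have hp := D.p0; have hq := D.q0
  have hA4 := D.dA4
  linarith

theorem ne_q_R1 : D.q ≠ D.R1 := by
  intro h0
  have h : (D.q : ℤ) = D.R1 := by exact_mod_cast h0
  have hp := D.p0; have hq := D.q0
  have hR1 := D.dR1
  linarith

theorem ne_q_R2 : D.q ≠ D.R2 := by
  intro h0
  have h : (D.q : ℤ) = D.R2 := by exact_mod_cast h0
  have hp := D.p0; have hq := D.q0
  have hR2 := D.dR2
  linarith

theorem ne_q_R3 : D.q ≠ D.R3 := by
  intro h0
  have h : (D.q : ℤ) = D.R3 := by exact_mod_cast h0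
  have hp := D.p0; have hq := D.q0
  have hR3 := D.dR3
  linarith

theorem ne_q_R4 : D.q ≠ D.R4 := by
  intro h0
  have h : (D.q : ℤ) = D.R4 := by exact_mod_cast h0
  have hp := D.p0; have hq := D.q0
  have hR4 := D.dR4
  linarith

theorem ne_q_S1 : D.q ≠ D.S1 := by
  intro h0
  have h : (D.q : ℤ) = D.S1 := by exact_mod_cast h0
  have hp := D.p0; have hq := D.q0
  have hS1 := D.dS1
  linarith

theorem ne_q_S2 : D.q ≠ D.S2 := by
  intro h0
  have h : (D.q : ℤ) = D.S2 := by exact_mod_cast h0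
  have hp := D.p0; have hq := D.q0
  have hS2 := D.dS2
  linarith

theorem ne_q_s3 : D.q ≠ D.s3 := by
  intro h0
  have h : (D.q : ℤ) = D.s3 := by exact_mod_cast h0
  have hp := D.p0; have hq := D.q0
  rcases D.ds3 with hs3 | hs3
  · exact no_rel (α := 225) (β := 41) (g := 3) (by norm_num) D.pp D.pq D.ne_pq (by norm_num) (by norm_num)
      (by push_cast; linarith)
  · exact no_rel (α := 675) (β := 119) (g := 1) (by norm_num) D.pp D.pq D.ne_pq (by norm_num) (by norm_num)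
      (by push_cast; linarith)

theorem ne_q_s4 : D.q ≠ D.s4 := by
  intro h0
  have h : (D.q : ℤ) = D.s4 := by exact_mod_cast h0
  have hp := D.p0; have hq := D.q0
  rcases D.ds4 with hs4 | hs4
  · exact no_rel (α := 207) (β := 59) (g := 153) (by norm_num) D.pp D.pq D.ne_pq (by norm_num) (by norm_num)
      (by push_cast; linarith)
  · exact no_rel (α := 31671) (β := 9023) (g := 1) (by norm_num) D.pp D.pq D.ne_pq (by norm_num) (by norm_num)
      (by push_cast; linarith)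

theorem ne_A3_A4 : D.A3 ≠ D.A4 := by
  intro h0
  have h : (D.A3 : ℤ) = D.A4 := by exact_mod_cast h0
  have hp := D.p0; have hq := D.q0
  have hA3 := D.dA3
  have hA4 := D.dA4
  linarith

theorem ne_A3_R1 : D.A3 ≠ D.R1 := by
  intro h0
  have h : (D.A3 : ℤ) = D.R1 := by exact_mod_cast h0
  have hp := D.p0; have hq := D.q0
  have hA3 := D.dA3
  have hR1 := D.dR1
  linarith

theorem ne_A3_R2 : D.A3 ≠ D.R2 := by
  intro h0
  have h : (D.A3 : ℤ) = D.R2 := by exact_mod_cast h0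
  have hp := D.p0; have hq := D.q0
  have hA3 := D.dA3
  have hR2 := D.dR2
  linarith

theorem ne_A3_R3 : D.A3 ≠ D.R3 := by
  intro h0
  have h : (D.A3 : ℤ) = D.R3 := by exact_mod_cast h0
  have hp := D.p0; have hq := D.q0
  have hA3 := D.dA3
  have hR3 := D.dR3
  linarith

theorem ne_A3_R4 : D.A3 ≠ D.R4 := by
  intro h0
  have h : (D.A3 : ℤ) = D.R4 := by exact_mod_cast h0
  have hp := D.p0; have hq := D.q0
  have hA3 := D.dA3
  have hR4 := D.dR4
  linarith

theorem ne_A3_S1 : D.A3 ≠ D.S1 := by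
  intro h0
  have h : (D.A3 : ℤ) = D.S1 := by exact_mod_cast h0
  have hp := D.p0; have hq := D.q0
  have hA3 := D.dA3
  have hS1 := D.dS1
  linarith

theorem ne_A3_S2 : D.A3 ≠ D.S2 := by
  intro h0
  have h : (D.A3 : ℤ) = D.S2 := by exact_mod_cast h0
  have hp := D.p0; have hq := D.q0
  have hA3 := D.dA3
  have hS2 := D.dS2
  linarith

theorem ne_A3_s3 : D.A3 ≠ D.s3 := by
  intro h0
  have h : (D.A3 : ℤ) = D.s3 := by exact_mod_cast h0
  have hp := D.p0; have hq := D.q0
  have hA3 := D.dA3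
  rcases D.ds3 with hs3 | hs3
  · exact no_rel (α := 333) (β := 61) (g := 2) (by norm_num) D.pp D.pq D.ne_pq (by norm_num) (by norm_num)
      (by push_cast; linarith)
  · exact no_rel (α := 57) (β := 10) (g := 12) (by norm_num) D.pp D.pq D.ne_pq (by norm_num) (by norm_num)
      (by push_cast; linarith)

theorem ne_A3_s4 : D.A3 ≠ D.s4 := by
  intro h0
  have h : (D.A3 : ℤ) = D.s4 := by exact_mod_cast h0
  have hp := D.p0; have hq := D.q0
  have hA3 := D.dA3
  rcases D.ds4 with hs4 | hs4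
  · exact no_rel (α := 15831) (β := 4513) (g := 2) (by norm_num) D.pp D.pq D.ne_pq (by norm_num) (by norm_num)
      (by push_cast; linarith)
  · exact no_rel (α := 165) (β := 47) (g := 192) (by norm_num) D.pp D.pq D.ne_pq (by norm_num) (by norm_num)
      (by push_cast; linarith)

theorem ne_A4_R1 : D.A4 ≠ D.R1 := by
  intro h0
  have h : (D.A4 : ℤ) = D.R1 := by exact_mod_cast h0
  have hp := D.p0; have hq := D.q0
  have hA4 := D.dA4
  have hR1 := D.dR1
  linarith

theorem ne_A4_R2 : D.A4 ≠ D.R2 := by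
  intro h0
  have h : (D.A4 : ℤ) = D.R2 := by exact_mod_cast h0
  have hp := D.p0; have hq := D.q0
  have hA4 := D.dA4
  have hR2 := D.dR2
  linarith

theorem ne_A4_R3 : D.A4 ≠ D.R3 := by
  intro h0
  have h : (D.A4 : ℤ) = D.R3 := by exact_mod_cast h0
  have hp := D.p0; have hq := D.q0
  have hA4 := D.dA4
  have hR3 := D.dR3
  linarith

theorem ne_A4_R4 : D.A4 ≠ D.R4 := by
  intro h0
  have h : (D.A4 : ℤ) = D.R4 := by exact_mod_cast h0
  have hp := D.p0; have hq := D.q0
  have hA4 := D.dA4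
  have hR4 := D.dR4
  linarith

theorem ne_A4_S1 : D.A4 ≠ D.S1 := by
  intro h0
  have h : (D.A4 : ℤ) = D.S1 := by exact_mod_cast h0
  have hp := D.p0; have hq := D.q0
  have hA4 := D.dA4
  have hS1 := D.dS1
  linarith

theorem ne_A4_S2 : D.A4 ≠ D.S2 := by
  intro h0
  have h : (D.A4 : ℤ) = D.S2 := by exact_mod_cast h0
  have hp := D.p0; have hq := D.q0
  have hA4 := D.dA4
  have hS2 := D.dS2
  linarith

theorem ne_A4_s3 : D.A4 ≠ D.s3 := by
  intro h0
  have h : (D.A4 : ℤ) = D.s3 := by exact_mod_cast h0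
  have hp := D.p0; have hq := D.q0
  have hA4 := D.dA4
  rcases D.ds3 with hs3 | hs3
  · linarith
  · linarith

theorem ne_A4_s4 : D.A4 ≠ D.s4 := by
  intro h0
  have h : (D.A4 : ℤ) = D.s4 := by exact_mod_cast h0
  have hp := D.p0; have hq := D.q0
  have hA4 := D.dA4
  rcases D.ds4 with hs4 | hs4
  · linarith
  · linarith

theorem ne_R1_R2 : D.R1 ≠ D.R2 := by
  intro h0
  have h : (D.R1 : ℤ) = D.R2 := by exact_mod_cast h0
  have hp := D.p0; have hq := D.q0
  have hR1 := D.dR1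
  have hR2 := D.dR2
  linarith

theorem ne_R1_R3 : D.R1 ≠ D.R3 := by
  intro h0
  have h : (D.R1 : ℤ) = D.R3 := by exact_mod_cast h0
  have hp := D.p0; have hq := D.q0
  have hR1 := D.dR1
  have hR3 := D.dR3
  linarith

theorem ne_R1_R4 : D.R1 ≠ D.R4 := by
  intro h0
  have h : (D.R1 : ℤ) = D.R4 := by exact_mod_cast h0
  have hp := D.p0; have hq := D.q0
  have hR1 := D.dR1
  have hR4 := D.dR4
  exact no_rel (α := 17) (β := 209) (g := 7) (by norm_num) D.pp D.pq D.ne_pq (by norm_num) (by norm_num)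
    (by push_cast; linarith)

theorem ne_R1_S1 : D.R1 ≠ D.S1 := by
  intro h0
  have h : (D.R1 : ℤ) = D.S1 := by exact_mod_cast h0
  have hp := D.p0; have hq := D.q0
  have hR1 := D.dR1
  have hS1 := D.dS1
  linarith

theorem ne_R1_S2 : D.R1 ≠ D.S2 := by
  intro h0
  have h : (D.R1 : ℤ) = D.S2 := by exact_mod_cast h0
  have hp := D.p0; have hq := D.q0
  have hR1 := D.dR1
  have hS2 := D.dS2
  linarith

theorem ne_R1_s3 : D.R1 ≠ D.s3 := by
  intro h0
  have h : (D.R1 : ℤ) = D.s3 := by exact_mod_cast h0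
  have hp := D.p0; have hq := D.q0
  have hR1 := D.dR1
  rcases D.ds3 with hs3 | hs3
  · exact no_rel (α := 25) (β := 33) (g := 10) (by norm_num) D.pp D.pq D.ne_pq (by norm_num) (by norm_num)
      (by push_cast; linarith)
  · linarith

theorem ne_R1_s4 : D.R1 ≠ D.s4 := by
  intro h0
  have h : (D.R1 : ℤ) = D.s4 := by exact_mod_cast h0
  have hp := D.p0; have hq := D.q0
  have hR1 := D.dR1
  rcases D.ds4 with hs4 | hs4
  · exact no_rel (α := 15623) (β := 4617) (g := 2) (by norm_num) D.pp D.pq D.ne_pq (by norm_num) (by norm_num)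
      (by push_cast; linarith)
  · exact no_rel (α := 2006) (β := 551) (g := 16) (by norm_num) D.pp D.pq D.ne_pq (by norm_num) (by norm_num)
      (by push_cast; linarith)

theorem ne_R2_R3 : D.R2 ≠ D.R3 := by
  intro h0
  have h : (D.R2 : ℤ) = D.R3 := by exact_mod_cast h0
  have hp := D.p0; have hq := D.q0
  have hR2 := D.dR2
  have hR3 := D.dR3
  linarith

theorem ne_R2_R4 : D.R2 ≠ D.R4 := by
  intro h0
  have h : (D.R2 : ℤ) = D.R4 := by exact_mod_cast h0
  have hp := D.p0; have hq := D.q0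
  have hR2 := D.dR2
  have hR4 := D.dR4
  linarith

theorem ne_R2_S1 : D.R2 ≠ D.S1 := by
  intro h0
  have h : (D.R2 : ℤ) = D.S1 := by exact_mod_cast h0
  have hp := D.p0; have hq := D.q0
  have hR2 := D.dR2
  have hS1 := D.dS1
  linarith

theorem ne_R2_S2 : D.R2 ≠ D.S2 := by
  intro h0
  have h : (D.R2 : ℤ) = D.S2 := by exact_mod_cast h0
  have hp := D.p0; have hq := D.q0
  have hR2 := D.dR2
  have hS2 := D.dS2
  linarith

theorem ne_R2_s3 : D.R2 ≠ D.s3 := by
  intro h0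
  have h : (D.R2 : ℤ) = D.s3 := by exact_mod_cast h0
  have hp := D.p0; have hq := D.q0
  have hR2 := D.dR2
  rcases D.ds3 with hs3 | hs3
  · linarith
  · linarith

theorem ne_R2_s4 : D.R2 ≠ D.s4 := by
  intro h0
  have h : (D.R2 : ℤ) = D.s4 := by exact_mod_cast h0
  have hp := D.p0; have hq := D.q0
  have hR2 := D.dR2
  rcases D.ds4 with hs4 | hs4
  · linarith
  · exact no_rel (α := 20493) (β := 950) (g := 4) (by norm_num) D.pp D.pq D.ne_pq (by norm_num) (by norm_num)
      (by push_cast; linarith)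

theorem ne_R3_R4 : D.R3 ≠ D.R4 := by
  intro h0
  have h : (D.R3 : ℤ) = D.R4 := by exact_mod_cast h0
  have hp := D.p0; have hq := D.q0
  have hR3 := D.dR3
  have hR4 := D.dR4
  exact no_rel (α := 7401) (β := 209) (g := 6) (by norm_num) D.pp D.pq D.ne_pq (by norm_num) (by norm_num)
    (by push_cast; linarith)

theorem ne_R3_S1 : D.R3 ≠ D.S1 := by
  intro h0
  have h : (D.R3 : ℤ) = D.S1 := by exact_mod_cast h0
  have hp := D.p0; have hq := D.q0
  have hR3 := D.dR3
  have hS1 := D.dS1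
  linarith

theorem ne_R3_S2 : D.R3 ≠ D.S2 := by
  intro h0
  have h : (D.R3 : ℤ) = D.S2 := by exact_mod_cast h0
  have hp := D.p0; have hq := D.q0
  have hR3 := D.dR3
  have hS2 := D.dS2
  exact no_rel (α := 5157) (β := 38) (g := 8) (by norm_num) D.pp D.pq D.ne_pq (by norm_num) (by norm_num)
    (by push_cast; linarith)

theorem ne_R3_s3 : D.R3 ≠ D.s3 := by
  intro h0
  have h : (D.R3 : ℤ) = D.s3 := by exact_mod_cast h0
  have hp := D.p0; have hq := D.q0
  have hR3 := D.dR3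
  rcases D.ds3 with hs3 | hs3
  · linarith
  · linarith

theorem ne_R3_s4 : D.R3 ≠ D.s4 := by
  intro h0
  have h : (D.R3 : ℤ) = D.s4 := by exact_mod_cast h0
  have hp := D.p0; have hq := D.q0
  have hR3 := D.dR3
  rcases D.ds4 with hs4 | hs4
  · linarith
  · exact no_rel (α := 25461) (β := 2869) (g := 3) (by norm_num) D.pp D.pq D.ne_pq (by norm_num) (by norm_num)
      (by push_cast; linarith)

theorem ne_R4_S1 : D.R4 ≠ D.S1 := by
  intro h0
  have h : (D.R4 : ℤ) = D.S1 := by exact_mod_cast h0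
  have hp := D.p0; have hq := D.q0
  have hR4 := D.dR4
  have hS1 := D.dS1
  linarith

theorem ne_R4_S2 : D.R4 ≠ D.S2 := by
  intro h0
  have h : (D.R4 : ℤ) = D.S2 := by exact_mod_cast h0
  have hp := D.p0; have hq := D.q0
  have hR4 := D.dR4
  have hS2 := D.dS2
  exact no_rel (α := 63) (β := 19) (g := 50) (by norm_num) D.pp D.pq D.ne_pq (by norm_num) (by norm_num)
    (by push_cast; linarith)

theorem ne_R4_s3 : D.R4 ≠ D.s3 := by
  intro h0
  have h : (D.R4 : ℤ) = D.s3 := by exact_mod_cast h0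
  have hp := D.p0; have hq := D.q0
  have hR4 := D.dR4
  rcases D.ds3 with hs3 | hs3
  · exact no_rel (α := 369) (β := 1793) (g := 1) (by norm_num) D.pp D.pq D.ne_pq (by norm_num) (by norm_num)
      (by push_cast; linarith)
  · linarith

theorem ne_R4_s4 : D.R4 ≠ D.s4 := by
  intro h0
  have h : (D.R4 : ℤ) = D.s4 := by exact_mod_cast h0
  have hp := D.p0; have hq := D.q0
  have hR4 := D.dR4
  rcases D.ds4 with hs4 | hs4
  · exact no_rel (α := 31365) (β := 10697) (g := 1) (by norm_num) D.pp D.pq D.ne_pq (by norm_num) (by norm_num)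
      (by push_cast; linarith)
  · exact no_rel (α := 187) (β := 43) (g := 171) (by norm_num) D.pp D.pq D.ne_pq (by norm_num) (by norm_num)
      (by push_cast; linarith)

theorem ne_S1_S2 : D.S1 ≠ D.S2 := by
  intro h0
  have h : (D.S1 : ℤ) = D.S2 := by exact_mod_cast h0
  have hp := D.p0; have hq := D.q0
  have hS1 := D.dS1
  have hS2 := D.dS2
  linarith

theorem ne_S1_s3 : D.S1 ≠ D.s3 := by
  intro h0
  have h : (D.S1 : ℤ) = D.s3 := by exact_mod_cast h0
  have hp := D.p0; have hq := D.q0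
  have hS1 := D.dS1
  rcases D.ds3 with hs3 | hs3
  · linarith
  · linarith

theorem ne_S1_s4 : D.S1 ≠ D.s4 := by
  intro h0
  have h : (D.S1 : ℤ) = D.s4 := by exact_mod_cast h0
  have hp := D.p0; have hq := D.q0
  have hS1 := D.dS1
  rcases D.ds4 with hs4 | hs4
  · linarith
  · linarith

theorem ne_S2_s3 : D.S2 ≠ D.s3 := by
  intro h0
  have h : (D.S2 : ℤ) = D.s3 := by exact_mod_cast h0
  have hp := D.p0; have hq := D.q0
  have hS2 := D.dS2
  rcases D.ds3 with hs3 | hs3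
  · linarith
  · linarith

theorem ne_S2_s4 : D.S2 ≠ D.s4 := by
  intro h0
  have h : (D.S2 : ℤ) = D.s4 := by exact_mod_cast h0
  have hp := D.p0; have hq := D.q0
  have hS2 := D.dS2
  rcases D.ds4 with hs4 | hs4
  · exact no_rel (α := 55) (β := 19) (g := 513) (by norm_num) D.pp D.pq D.ne_pq (by norm_num) (by norm_num)
      (by push_cast; linarith)
  · exact no_rel (α := 35127) (β := 8303) (g := 1) (by norm_num) D.pp D.pq D.ne_pq (by norm_num) (by norm_num)
      (by push_cast; linarith)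

theorem ne_s3_s4 : D.s3 ≠ D.s4 := by
  intro h0
  have h : (D.s3 : ℤ) = D.s4 := by exact_mod_cast h0
  have hp := D.p0; have hq := D.q0
  rcases D.ds3 with hs3 | hs3 <;> rcases D.ds4 with hs4 | hs4
  · exact no_rel (α := 369) (β := 106) (g := 84) (by norm_num) D.pp D.pq D.ne_pq (by norm_num) (by norm_num)
      (by push_cast; linarith)
  · exact no_rel (α := 16173) (β := 4573) (g := 2) (by norm_num) D.pp D.pq D.ne_pq (by norm_num) (by norm_num)
      (by push_cast; linarith)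
  · exact no_rel (α := 16173) (β := 4573) (g := 2) (by norm_num) D.pp D.pq D.ne_pq (by norm_num) (by norm_num)
      (by push_cast; linarith)
  · exact no_rel (α := 369) (β := 106) (g := 84) (by norm_num) D.pp D.pq D.ne_pq (by norm_num) (by norm_num)
      (by push_cast; linarith)

end Dat

end Pool.Agent.H23.Seven
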