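import Pool.Agent.H23.SevV

/-!
# The rank seven family: the local conditions on the Selmer group of `E`
-/

namespace Pool.Agent.H23.Seven

theorem nd_prime_one {P : ℕ} (hP : P.Prime) : ¬ (P : ℤ) ∣ 1 := fun h =>
  (Nat.prime_iff_prime_int.mp hP).not_isUnit (isUnit_of_dvd_one h)

namespace Dat

variable (D : Dat)

theorem rowE_p {e1 e2 e3 e4 f1 f2 f3 f4 e0 : Bool}
    (h : QSol ℚ_[D.p] D.a D.b (pw e1 D.p * (pw e2 D.q * (pw e3 D.A3 * (pw e4 D.A4 * (pw f1 D.R1 * (pw f2 D.R2 * (pw f3 D.R3 * (pw f4 D.R4 * (pw e0 2)))))))))) :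
    ((e0 ^^ (e3 ^^ (e4 ^^ (f1 ^^ f2)))) ^^ (((bt D.p 11 ^^ (bt D.p 19 ^^ !bt D.q D.p)) && (f1 ^^ (f2 ^^ (f3 ^^ f4)))) ^^ (!bt D.q D.p && (e1 ^^ (e2 ^^ (e3 ^^ e4)))))) = false := by
  obtain ⟨k_A3, k_A4, k_R1, k_R2, k_R3, k_R4, k_S1, k_S2, k_S3, k_S4⟩ := sym_p (P := D.p) (τ := 1) (p := D.p) (q := D.q) (w := D.w)
      (by ring) D.eq D.eA3 D.eA4 D.eR1 D.eR2 D.eR3 D.eR4 D.eS1 D.eS2 (show D.S3 = _ from rfl) (show D.S4 = _ from rfl) D.t_p_n D.t_p_2 D.t_p_5 D.t_p_11 D.t_p_19 D.v_p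
  have hb : D.b = D.p * (D.q * (D.A3 * (D.A4 * (D.R1 * (D.R2 * (D.R3 * (D.R4 * 4))))))) := by
    rw [b]; ring
  have r := sg_inj ((chi8 (e1 := e2) (e2 := e3) (e3 := e4) (e4 := f1) (e5 := f2) (e6 := f3) (e7 := f4) (e8 := e0)
      D.v_p k_A3 k_A4 k_R1 k_R2 k_R3 k_R4 D.t_p_2).symm.trans
      (row_typeIII (a := D.a) (e := e1) ⟨-91205 * (D.q * D.A3 * D.A4), by rw [a]; ring⟩ ?_
        (dvd8 e2 e3 e4 f1 f2 f3 f4 e0 (pw_two_dvd e0))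
        (qsol_cast h (hb.trans (by ring)) (by ring))
        (chim8 D.v_p k_A3 k_A4 k_R1 k_R2 k_R3 k_R4 (chi_four D.t_p_2))))
  · clear h hb
    revert r
    generalize bt D.p 11 = u0
    generalize bt D.p 19 = u1
    generalize bt D.q D.p = u2
    revert u0 u1 u2 e1 e2 e3 e4 f1 f2 f3 f4 e0
    decide +kernel
  · exact nd8 D.pp (nd_prime D.pp D.pq D.ne_pq) (nd_prime D.pp D.pA3 D.ne_p_A3) (nd_prime D.pp D.pA4 D.ne_p_A4) (nd_prime D.pp D.pR1 D.ne_p_R1) (nd_prime D.pp D.pR2 D.ne_p_R2) (nd_prime D.pp D.pR3 D.ne_p_R3) (nd_prime D.pp D.pR4 D.ne_p_R4) (nd_four D.pp D.ne2.1)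

theorem rowE_q {e1 e2 e3 e4 f1 f2 f3 f4 e0 : Bool}
    (h : QSol ℚ_[D.q] D.a D.b (pw e1 D.p * (pw e2 D.q * (pw e3 D.A3 * (pw e4 D.A4 * (pw f1 D.R1 * (pw f2 D.R2 * (pw f3 D.R3 * (pw f4 D.R4 * (pw e0 2)))))))))) :
    ((e0 ^^ (e3 ^^ (e4 ^^ (f1 ^^ f2)))) ^^ (((bt D.q 17 ^^ bt D.q D.p) && (f1 ^^ (f2 ^^ (f3 ^^ f4)))) ^^ (((bt D.q 3 ^^ (bt D.q 17 ^^ (bt D.q 23 ^^ bt D.q D.p))) && (e1 ^^ (e2 ^^ (e3 ^^ e4)))) ^^ ((bt D.q 3 ^^ (bt D.q 17 ^^ bt D.q 23)) && (e1 ^^ (e3 ^^ (f2 ^^ f3))))))) = false := by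
  obtain ⟨k_A3, k_A4, k_R1, k_R2, k_R3, k_R4, k_S1, k_S2, k_S3, k_S4⟩ := sym_q (P := D.q) (τ := 1) (p := D.p) (q := D.q) (w := D.w)
      (by rw [D.eq]; ring) D.eA3 D.eA4 D.eR1 D.eR2 D.eR3 D.eR4 D.eS1 D.eS2 (show D.S3 = _ from rfl) (show D.S4 = _ from rfl) D.t_q_2 D.t_q_3 D.t_q_5 D.t_q_17 D.t_q_23 D.v_q
  have hb : D.b = D.p * (D.q * (D.A3 * (D.A4 * (D.R1 * (D.R2 * (D.R3 * (D.R4 * 4))))))) := by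
    rw [b]; ring
  have r := sg_inj ((chi8 (e1 := e1) (e2 := e3) (e3 := e4) (e4 := f1) (e5 := f2) (e6 := f3) (e7 := f4) (e8 := e0)
      D.v_q k_A3 k_A4 k_R1 k_R2 k_R3 k_R4 D.t_q_2).symm.trans
      (row_typeIII (a := D.a) (e := e2) ⟨-91205 * (D.p * D.A3 * D.A4), by rw [a]; ring⟩ ?_
        (dvd8 e1 e3 e4 f1 f2 f3 f4 e0 (pw_two_dvd e0))
        (qsol_cast h (hb.trans (by ring)) (by ring))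
        (chim8 D.v_q k_A3 k_A4 k_R1 k_R2 k_R3 k_R4 (chi_four D.t_q_2))))
  · clear h hb
    revert r
    generalize bt D.q D.p = u0
    generalize bt D.q 3 = u1
    generalize bt D.q 17 = u2
    generalize bt D.q 23 = u3
    revert u0 u1 u2 u3 e1 e2 e3 e4 f1 f2 f3 f4 e0
    decide +kernel
  · exact nd8 D.pq (nd_prime D.pq D.pp D.ne_pq.symm) (nd_prime D.pq D.pA3 D.ne_q_A3) (nd_prime D.pq D.pA4 D.ne_q_A4) (nd_prime D.pq D.pR1 D.ne_q_R1) (nd_prime D.pq D.pR2 D.ne_q_R2) (nd_prime D.pq D.pR3 D.ne_q_R3) (nd_prime D.pq D.pR4 D.ne_q_R4) (nd_four D.pq D.ne2.2.1)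

theorem rowE_A3 {e1 e2 e3 e4 f1 f2 f3 f4 e0 : Bool}
    (h : QSol ℚ_[D.A3] D.a D.b (pw e1 D.p * (pw e2 D.q * (pw e3 D.A3 * (pw e4 D.A4 * (pw f1 D.R1 * (pw f2 D.R2 * (pw f3 D.R3 * (pw f4 D.R4 * (pw e0 2)))))))))) :
    ((e0 ^^ (e3 ^^ (e4 ^^ (f1 ^^ f2)))) ^^ (((bt D.A3 7 ^^ (bt D.A3 13 ^^ bt D.q D.p)) && (f1 ^^ (f2 ^^ (f3 ^^ f4)))) ^^ ((bt D.q D.p && (e1 ^^ (e2 ^^ (e3 ^^ e4)))) ^^ (e1 ^^ (e3 ^^ (f2 ^^ f3)))))) = false := by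
  obtain ⟨k_p, k_A4, k_R1, k_R2, k_R3, k_R4, k_S1, k_S2, k_S3, k_S4⟩ := sym_A3 (P := D.A3) (τ := 1) (p := D.p) (q := D.q) (w := D.w)
      (by rw [D.eA3]; ring) D.eq D.eA4 D.eR1 D.eR2 D.eR3 D.eR4 D.eS1 D.eS2 (show D.S3 = _ from rfl) (show D.S4 = _ from rfl) D.t_A3_n D.t_A3_2 D.t_A3_3 D.t_A3_5 D.t_A3_7 D.t_A3_13 D.v_A3
  have hb : D.b = D.p * (D.q * (D.A3 * (D.A4 * (D.R1 * (D.R2 * (D.R3 * (D.R4 * 4))))))) := by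
    rw [b]; ring
  have r := sg_inj ((chi8 (e1 := e1) (e2 := e2) (e3 := e4) (e4 := f1) (e5 := f2) (e6 := f3) (e7 := f4) (e8 := e0)
      k_p D.v_A3 k_A4 k_R1 k_R2 k_R3 k_R4 D.t_A3_2).symm.trans
      (row_typeIII (a := D.a) (e := e3) ⟨-91205 * (D.p * D.q * D.A4), by rw [a]; ring⟩ ?_
        (dvd8 e1 e2 e4 f1 f2 f3 f4 e0 (pw_two_dvd e0))
        (qsol_cast h (hb.trans (by ring)) (by ring))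
        (chim8 k_p D.v_A3 k_A4 k_R1 k_R2 k_R3 k_R4 (chi_four D.t_A3_2))))
  · clear h hb
    revert r
    generalize bt D.A3 7 = u0
    generalize bt D.A3 13 = u1
    generalize bt D.q D.p = u2
    revert u0 u1 u2 e1 e2 e3 e4 f1 f2 f3 f4 e0
    decide +kernel
  · exact nd8 D.pA3 (nd_prime D.pA3 D.pp D.ne_p_A3.symm) (nd_prime D.pA3 D.pq D.ne_q_A3.symm) (nd_prime D.pA3 D.pA4 D.ne_A3_A4) (nd_prime D.pA3 D.pR1 D.ne_A3_R1) (nd_prime D.pA3 D.pR2 D.ne_A3_R2) (nd_prime D.pA3 D.pR3 D.ne_A3_R3) (nd_prime D.pA3 D.pR4 D.ne_A3_R4) (nd_four D.pA3 D.ne2.2.2.1)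

theorem rowE_S2 {e1 e2 e3 e4 f1 f2 f3 f4 e0 : Bool}
    (hdb : pw e1 D.p * (pw e2 D.q * (pw e3 D.A3 * (pw e4 D.A4 * (pw f1 D.R1 * (pw f2 D.R2 * (pw f3 D.R3 * (pw f4 D.R4 * (pw e0 2)))))))) ∣ D.b)
    (h : QSol ℚ_[D.S2] D.a D.b (pw e1 D.p * (pw e2 D.q * (pw e3 D.A3 * (pw e4 D.A4 * (pw f1 D.R1 * (pw f2 D.R2 * (pw f3 D.R3 * (pw f4 D.R4 * (pw e0 2)))))))))) :
    ((e0 ^^ (e3 ^^ (e4 ^^ (f1 ^^ f2)))) ^^ (((!bt D.A3 13 ^^ (!bt D.p 19 ^^ (bt D.q D.p ^^ true))) && (f1 ^^ (f2 ^^ (f3 ^^ f4)))) ^^ (((bt D.q D.p ^^ !bt D.q 3) && (e1 ^^ (e2 ^^ (e3 ^^ e4)))) ^^ (!bt D.q 3 && (e1 ^^ (e3 ^^ (f2 ^^ f3))))))) = false := by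
  obtain ⟨k_p, k_A3, k_A4, k_R1, k_R2, k_R3, k_R4⟩ := sym_S2 (P := D.S2) (τ := 1) (p := D.p) (q := D.q) (w := D.w)
      (by rw [D.eS2]; ring) D.eq D.eA3 D.eA4 D.eR1 D.eR2 D.eR3 D.eR4 D.t_S2_n D.t_S2_2 D.t_S2_3 D.t_S2_5 D.t_S2_13 D.t_S2_17 D.t_S2_19 D.t_S2_29 D.t_S2_37 D.v_S2
  have hb : D.b = D.p * (D.q * (D.A3 * (D.A4 * (D.R1 * (D.R2 * (D.R3 * (D.R4 * 4))))))) := by
    rw [b]; ring
  have r := sg_one ((chi9 (e1 := e1) (e2 := e2) (e3 := e3) (e4 := e4) (e5 := f1) (e6 := f2) (e7 := f3) (e8 := f4) (e9 := e0)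
      k_p D.v_S2 k_A3 k_A4 k_R1 k_R2 k_R3 k_R4 D.t_S2_2).symm.trans
      (mult_row (X := -(D.p * (D.q * (D.A3 * (D.A4 * (D.S1 * (D.S3 * (D.S4))))))))
        (by rw [D.disc]; ring) D.ne2.2.2.2.2.2.1 hdb ?_ ?_ h))
  · clear h hb hdb
    revert r
    generalize bt D.q D.p = u0
    generalize bt D.q 3 = u1
    generalize bt D.A3 13 = u2
    generalize bt D.p 19 = u3
    revert u0 u1 u2 u3 e1 e2 e3 e4 f1 f2 f3 f4 e0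
    decide +kernel
  · exact nd_neg (nd7 D.pS2 (nd_prime D.pS2 D.pp D.ne_p_S2.symm) (nd_prime D.pS2 D.pq D.ne_q_S2.symm) (nd_prime D.pS2 D.pA3 D.ne_A3_S2.symm) (nd_prime D.pS2 D.pA4 D.ne_A4_S2.symm) (nd_prime D.pS2 D.pS1 D.ne_S1_S2.symm) (D.nS3 D.pS2 D.ne_S2_s3) (D.nS4 D.pS2 D.ne_S2_s4))
  · rw [hb]
    exact nd9 D.pS2 (nd_prime D.pS2 D.pp D.ne_p_S2.symm) (nd_prime D.pS2 D.pq D.ne_q_S2.symm) (nd_prime D.pS2 D.pA3 D.ne_A3_S2.symm) (nd_prime D.pS2 D.pA4 D.ne_A4_S2.symm) (nd_prime D.pS2 D.pR1 D.ne_R1_S2.symm) (nd_prime D.pS2 D.pR2 D.ne_R2_S2.symm) (nd_prime D.pS2 D.pR3 D.ne_R3_S2.symm) (nd_prime D.pS2 D.pR4 D.ne_R4_S2.symm) (nd_four D.pS2 D.ne2.2.2.2.2.2.1)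

theorem rowE_S3 {e1 e2 e3 e4 f1 f2 f3 f4 e0 : Bool}
    (hdb : pw e1 D.p * (pw e2 D.q * (pw e3 D.A3 * (pw e4 D.A4 * (pw f1 D.R1 * (pw f2 D.R2 * (pw f3 D.R3 * (pw f4 D.R4 * (pw e0 2)))))))) ∣ D.b)
    (h : QSol ℚ_[D.s3] D.a D.b (pw e1 D.p * (pw e2 D.q * (pw e3 D.A3 * (pw e4 D.A4 * (pw f1 D.R1 * (pw f2 D.R2 * (pw f3 D.R3 * (pw f4 D.R4 * (pw e0 2)))))))))) :
    ((e0 ^^ (e3 ^^ (e4 ^^ (f1 ^^ f2)))) ^^ (((!bt D.A3 7 ^^ (!bt D.p 11 ^^ bt D.q D.p)) && (f1 ^^ (f2 ^^ (f3 ^^ f4)))) ^^ (((bt D.q D.p ^^ bt D.q 3) && (e1 ^^ (e2 ^^ (e3 ^^ e4)))) ^^ (bt D.q 3 && (e1 ^^ (e3 ^^ (f2 ^^ f3))))))) = false := by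
  obtain ⟨τ, hτ, hτ1⟩ : ∃ τ : ℤ, 277 * (D.p : ℤ) - 121 * D.w = τ * D.s3 ∧ (τ = 1 ∨ τ = -1) := by
    rcases D.es3 with h | h
    · exact ⟨1, by rw [h]; ring, Or.inl rfl⟩
    · exact ⟨-1, by rw [h]; ring, Or.inr rfl⟩
  obtain ⟨k_p, k_A3, k_A4, k_R1, k_R2, k_R3, k_R4⟩ := sym_S3 (P := D.s3) (τ := τ) (p := D.p) (q := D.q) (w := D.w)
      hτ D.eq D.eA3 D.eA4 D.eR1 D.eR2 D.eR3 D.eR4 D.t_s3_2 D.t_s3_3 D.t_s3_5 D.t_s3_7 D.t_s3_11 D.t_s3_17 D.t_s3_29 D.t_s3_37 D.v_s3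
  have hb : D.b = D.p * (D.q * (D.A3 * (D.A4 * (D.R1 * (D.R2 * (D.R3 * (D.R4 * 4))))))) := by
    rw [b]; ring
  have r := sg_one ((chi9 (e1 := e1) (e2 := e2) (e3 := e3) (e4 := e4) (e5 := f1) (e6 := f2) (e7 := f3) (e8 := f4) (e9 := e0)
      k_p D.v_s3 k_A3 k_A4 k_R1 k_R2 k_R3 k_R4 D.t_s3_2).symm.trans
      (mult_row (X := -(τ * (D.p * (D.q * (D.A3 * (D.A4 * (D.S1 * (D.S2 * (D.S4)))))))))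
        (by rw [D.disc, show D.S3 = τ * D.s3 from hτ]; ring) D.ne2.2.2.2.2.2.2 hdb ?_ ?_ h))
  · clear h hb hdb
    revert r
    generalize bt D.q D.p = u0
    generalize bt D.q 3 = u1
    generalize bt D.A3 7 = u2
    generalize bt D.p 11 = u3
    revert u0 u1 u2 u3 e1 e2 e3 e4 f1 f2 f3 f4 e0
    decide +kernel
  · refine nd_neg (nd8 D.ps3 ?_ (nd_prime D.ps3 D.pp D.ne_p_s3.symm) (nd_prime D.ps3 D.pq D.ne_q_s3.symm) (nd_prime D.ps3 D.pA3 D.ne_A3_s3.symm) (nd_prime D.ps3 D.pA4 D.ne_A4_s3.symm) (nd_prime D.ps3 D.pS1 D.ne_S1_s3.symm) (nd_prime D.ps3 D.pS2 D.ne_S2_s3.symm) (D.nS4 D.ps3 D.ne_s3_s4))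
    rcases hτ1 with rfl | rfl
    · exact (nd_prime_one D.ps3)
    · exact nd_neg_one D.ps3
  · rw [hb]
    exact nd9 D.ps3 (nd_prime D.ps3 D.pp D.ne_p_s3.symm) (nd_prime D.ps3 D.pq D.ne_q_s3.symm) (nd_prime D.ps3 D.pA3 D.ne_A3_s3.symm) (nd_prime D.ps3 D.pA4 D.ne_A4_s3.symm) (nd_prime D.ps3 D.pR1 D.ne_R1_s3.symm) (nd_prime D.ps3 D.pR2 D.ne_R2_s3.symm) (nd_prime D.ps3 D.pR3 D.ne_R3_s3.symm) (nd_prime D.ps3 D.pR4 D.ne_R4_s3.symm) (nd_four D.ps3 D.ne2.2.2.2.2.2.2)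

end Dat

end Pool.Agent.H23.Seven
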