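import Pool.Agent.H23.SevD

/-!
# The rank seven family: conclusion
-/

namespace Pool.Agent.H23.Seven

theorem le_card_glob5 {a b : ℤ} (hb : b ≠ 0) (hd : a ^ 2 - 4 * b ≠ 0) {P1 P2 P3 P4 P5 : ℤ}
    (hP1 : Prime P1) (hP2 : Prime P2) (hP3 : Prime P3) (hP4 : Prime P4) (hP5 : Prime P5)
    {D1 D2 D3 D4 D5 : ℤ}
    (hD1 : D1 ∈ Glob a b) (hD2 : D2 ∈ Glob a b) (hD3 : D3 ∈ Glob a b) (hD4 : D4 ∈ Glob a b)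
    (hD5 : D5 ∈ Glob a b)
    (h11 : P1 ∣ D1) (h21 : ¬ P2 ∣ D1) (h31 : ¬ P3 ∣ D1) (h41 : ¬ P4 ∣ D1) (h51 : ¬ P5 ∣ D1)
    (h12 : ¬ P1 ∣ D2) (h22 : P2 ∣ D2) (h32 : ¬ P3 ∣ D2) (h42 : ¬ P4 ∣ D2) (h52 : ¬ P5 ∣ D2)
    (h13 : ¬ P1 ∣ D3) (h23 : ¬ P2 ∣ D3) (h33 : P3 ∣ D3) (h43 : ¬ P4 ∣ D3) (h53 : ¬ P5 ∣ D3)
    (h14 : ¬ P1 ∣ D4) (h24 : ¬ P2 ∣ D4) (h34 : ¬ P3 ∣ D4) (h44 : P4 ∣ D4) (h54 : ¬ P5 ∣ D4)
    (h15 : ¬ P1 ∣ D5) (h25 : ¬ P2 ∣ D5) (h35 : ¬ P3 ∣ D5) (h45 : ¬ P4 ∣ D5) (h55 : P5 ∣ D5) :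
    2 ^ 5 ≤ (Glob a b).ncard := by
  apply le_card_glob hb hd ![P1, P2, P3, P4, P5] _ ![D1, D2, D3, D4, D5]
  · intro i; fin_cases i <;> assumption
  · intro i j
    fin_cases i <;> fin_cases j <;> simp <;> assumption
  · intro i; fin_cases i <;> assumption

theorem sq4 {g1 g2 g3 g4 : ℤ} (h1 : Prime g1) (h2 : Prime g2) (h3 : Prime g3) (h4 : Prime g4)
    (n12 : ¬ g1 ∣ g2) (n13 : ¬ g1 ∣ g3) (n14 : ¬ g1 ∣ g4) (n23 : ¬ g2 ∣ g3) (n24 : ¬ g2 ∣ g4)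
    (n34 : ¬ g3 ∣ g4) : Squarefree (g1 * (g2 * (g3 * g4))) := by
  have m : ∀ {g a b : ℤ}, Prime g → ¬ g ∣ a → ¬ g ∣ b → ¬ g ∣ a * b := by
    intro g a b hg ha hb h
    rcases hg.dvd_or_dvd h with h | h
    · exact ha h
    · exact hb h
  exact sqf_cons h1 (sqf_cons h2 (sqf_cons h3 h4.irreducible.squarefree n34) (m h2 n23 n24))
    (m h1 n12 (m h1 n13 n14))

theorem nm4 {P : ℕ} {g1 g2 g3 g4 : ℤ} (hP : P.Prime) (h1 : ¬ (P : ℤ) ∣ g1) (h2 : ¬ (P : ℤ) ∣ g2)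
    (h3 : ¬ (P : ℤ) ∣ g3) (h4 : ¬ (P : ℤ) ∣ g4) : ¬ (P : ℤ) ∣ g1 * (g2 * (g3 * g4)) :=
  nd_mul hP h1 (nd_mul hP h2 (nd_mul hP h3 h4))

namespace Dat

variable (D : Dat)

theorem b_ne : D.b ≠ 0 := D.b_pos.ne'

theorem disc_ne : D.a ^ 2 - 4 * D.b ≠ 0 := by
  rw [disc]
  have h1 := D.A_pos
  have h2 := D.pS1.pos
  have h3 := D.pS2.pos
  have h4 := D.S3_ne
  have h5 := D.S4_ne
  exact neg_ne_zero.mpr (mul_ne_zero h1.ne' (mul_ne_zero (mul_ne_zero (mul_ne_zero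
    (by positivity) (by positivity)) h4) h5))

theorem cond : ((bt D.q 17 ^^ bt D.q 23) = true ∧ (bt D.A3 13 ^^ (bt D.p 19 ^^ bt D.q 23)) = true) ∨
    ((bt D.q 17 ^^ bt D.q 23) = false ∧ (bt D.A3 7 ^^ (bt D.p 11 ^^ bt D.q 23)) = true) := by
  have e1 : jacobiSym 391 D.q = sg (bt D.q 17 ^^ bt D.q 23) := by
    rw [show (391 : ℤ) = 17 * 23 by norm_num, jacobiSym.mul_left,
      ← jacobiSym.legendreSym.to_jacobiSym, ← jacobiSym.legendreSym.to_jacobiSym, D.t_q_17,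
      D.t_q_23, sg_mul]
  have e2 : jacobiSym 13 D.A3 * jacobiSym 19 D.p * jacobiSym 23 D.q
      = sg (bt D.A3 13 ^^ (bt D.p 19 ^^ bt D.q 23)) := by
    rw [← jacobiSym.legendreSym.to_jacobiSym, ← jacobiSym.legendreSym.to_jacobiSym,
      ← jacobiSym.legendreSym.to_jacobiSym, D.t_A3_13, D.t_p_19, D.t_q_23, mul_assoc, sg_mul,
      sg_mul]
  have e3 : jacobiSym 7 D.A3 * jacobiSym 11 D.p * jacobiSym 23 D.q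
      = sg (bt D.A3 7 ^^ (bt D.p 11 ^^ bt D.q 23)) := by
    rw [← jacobiSym.legendreSym.to_jacobiSym, ← jacobiSym.legendreSym.to_jacobiSym,
      ← jacobiSym.legendreSym.to_jacobiSym, D.t_A3_7, D.t_p_11, D.t_q_23, mul_assoc, sg_mul,
      sg_mul]
  rcases D.ct with ⟨h1, h2⟩ | ⟨h1, h2⟩
  · rw [e1] at h1
    rw [e2] at h2
    exact Or.inl ⟨sg_inj (h1.trans sg_true.symm), sg_inj (h2.trans sg_true.symm)⟩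
  · rw [e1] at h1
    rw [e3] at h2
    exact Or.inr ⟨sg_inj (h1.trans sg_false.symm), sg_inj (h2.trans sg_true.symm)⟩

theorem form_E {d : ℤ} (hd : d ∈ Sel D.a D.b) :
    ∃ e1 e2 e3 e4 f1 f2 f3 f4 e0 : Bool,
      d = pw e1 D.p * (pw e2 D.q * (pw e3 D.A3 * (pw e4 D.A4 * (pw f1 D.R1 * (pw f2 D.R2 * (pw f3 D.R3 * (pw f4 D.R4 * (pw e0 2)))))))) := by
  have hpos := sel_pos D.a_neg D.b_pos hd
  obtain ⟨hsq, hdb, -⟩ := hd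
  have hb : D.b = D.p * (D.q * (D.A3 * (D.A4 * (D.R1 * (D.R2 * (D.R3 * (D.R4 * 4))))))) := by
    rw [b]; ring
  rw [hb] at hdb
  have z : ∀ {n : ℕ}, n.Prime → Prime (n : ℤ) := fun h => Nat.prime_iff_prime_int.mp h
  have z' : ∀ {n : ℕ}, n.Prime → (0 : ℤ) < n := fun h => by exact_mod_cast h.pos
  obtain ⟨e1, d1, rfl, h1, q1⟩ := peel hsq (z D.pp) hdb
  obtain ⟨e2, d2, rfl, h2, q2⟩ := peel q1 (z D.pq) h1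
  obtain ⟨e3, d3, rfl, h3, q3⟩ := peel q2 (z D.pA3) h2
  obtain ⟨e4, d4, rfl, h4, q4⟩ := peel q3 (z D.pA4) h3
  obtain ⟨f1, d5, rfl, h5, q5⟩ := peel q4 (z D.pR1) h4
  obtain ⟨f2, d6, rfl, h6, q6⟩ := peel q5 (z D.pR2) h5
  obtain ⟨f3, d7, rfl, h7, q7⟩ := peel q6 (z D.pR3) h6
  obtain ⟨f4, d8, rfl, h8, q8⟩ := peel q7 (z D.pR4) h7
  have g1 := pos_of_pw_mul (z' D.pp) hpos
  have g2 := pos_of_pw_mul (z' D.pq) g1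
  have g3 := pos_of_pw_mul (z' D.pA3) g2
  have g4 := pos_of_pw_mul (z' D.pA4) g3
  have g5 := pos_of_pw_mul (z' D.pR1) g4
  have g6 := pos_of_pw_mul (z' D.pR2) g5
  have g7 := pos_of_pw_mul (z' D.pR3) g6
  have g8 := pos_of_pw_mul (z' D.pR4) g7
  obtain ⟨e0, rfl⟩ := unit_two q8 (h8.trans (by decide : (4 : ℤ) ∣ 8)) g8
  exact ⟨e1, e2, e3, e4, f1, f2, f3, f4, e0, rfl⟩

theorem form_D {d : ℤ} (hd : d ∈ Sel (-2 * D.a) (D.a ^ 2 - 4 * D.b)) :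
    ∃ e1 e2 e3 e4 f1 f2 f3 f4 e0 : Bool,
      d = pw e1 D.p * (pw e2 D.q * (pw e3 D.A3 * (pw e4 D.A4 * (pw f1 D.S1 * (pw f2 D.S2 * (pw f3 D.S3 * (pw f4 D.S4 * (pw e0 (-1))))))))) := by
  obtain ⟨hsq, hdb, -⟩ := hd
  have hb : D.a ^ 2 - 4 * D.b = D.p * (D.q * (D.A3 * (D.A4 * (D.S1 * (D.S2 * (D.S3 * (D.S4 * (-1)))))))) := by
    rw [disc]; ring
  rw [hb] at hdb
  have z : ∀ {n : ℕ}, n.Prime → Prime (n : ℤ) := fun h => Nat.prime_iff_prime_int.mp h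
  obtain ⟨e1, d1, rfl, h1, q1⟩ := peel hsq (z D.pp) hdb
  obtain ⟨e2, d2, rfl, h2, q2⟩ := peel q1 (z D.pq) h1
  obtain ⟨e3, d3, rfl, h3, q3⟩ := peel q2 (z D.pA3) h2
  obtain ⟨e4, d4, rfl, h4, q4⟩ := peel q3 (z D.pA4) h3
  obtain ⟨f1, d5, rfl, h5, q5⟩ := peel q4 (z D.pS1) h4
  obtain ⟨f2, d6, rfl, h6, q6⟩ := peel q5 (z D.pS2) h5
  obtain ⟨f3, d7, rfl, h7, q7⟩ := peel q6 D.prime_S3 h6
  obtain ⟨f4, d8, rfl, h8, q8⟩ := peel q7 D.prime_S4 h7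
  obtain ⟨e0, rfl⟩ := unit_neg (h8.trans (by decide : (-1 : ℤ) ∣ 1))
  exact ⟨e1, e2, e3, e4, f1, f2, f3, f4, e0, rfl⟩

set_option synthInstance.maxSize 4096 in
theorem rel_E {e1 e2 e3 e4 f1 f2 f3 f4 e0 : Bool}
    (hd : pw e1 D.p * (pw e2 D.q * (pw e3 D.A3 * (pw e4 D.A4 * (pw f1 D.R1 * (pw f2 D.R2 * (pw f3 D.R3 * (pw f4 D.R4 * (pw e0 2)))))))) ∈ Sel D.a D.b) :
    f1 = (f2 ^^ (f3 ^^ f4)) ∧ e1 = (e3 ^^ (f2 ^^ f3)) ∧ e2 = (e4 ^^ (f2 ^^ f3)) ∧ e0 = (e3 ^^ (e4 ^^ (f3 ^^ f4))) := by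
  obtain ⟨-, hdb, -, hpad⟩ := hd
  have r_p := D.rowE_p (hpad D.p)
  have r_q := D.rowE_q (hpad D.q)
  have r_A3 := D.rowE_A3 (hpad D.A3)
  have r_S2 := D.rowE_S2 hdb (hpad D.S2)
  have r_S3 := D.rowE_S3 hdb (hpad D.s3)
  have hc := D.cond
  clear hpad hdb
  have key : (e0 ^^ (e3 ^^ (e4 ^^ (f1 ^^ f2)))) = false ∧ (f1 ^^ (f2 ^^ (f3 ^^ f4))) = false ∧ (e1 ^^ (e2 ^^ (e3 ^^ e4))) = false ∧ (e1 ^^ (e3 ^^ (f2 ^^ f3))) = false := by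
    revert r_p r_q r_A3 r_S2 r_S3 hc
    generalize bt D.q D.p = u0
    generalize bt D.q 3 = u1
    generalize bt D.q 17 = u2
    generalize bt D.q 23 = u3
    generalize bt D.p 11 = u4
    generalize bt D.p 19 = u5
    generalize bt D.A3 7 = u6
    generalize bt D.A3 13 = u7
    generalize (e0 ^^ (e3 ^^ (e4 ^^ (f1 ^^ f2)))) = y0
    generalize (f1 ^^ (f2 ^^ (f3 ^^ f4))) = y1
    generalize (e1 ^^ (e2 ^^ (e3 ^^ e4))) = y2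
    generalize (e1 ^^ (e3 ^^ (f2 ^^ f3))) = y3
    revert u0 u1 u2 u3 u4 u5 u6 u7 y0 y1 y2 y3
    decide +kernel
  clear r_p r_q r_A3 r_S2 r_S3 hc
  revert e1 e2 e3 e4 f1 f2 f3 f4 e0
  decide +kernel

set_option synthInstance.maxSize 4096 in
theorem rel_D {e1 e2 e3 e4 f1 f2 f3 f4 e0 : Bool}
    (hd : pw e1 D.p * (pw e2 D.q * (pw e3 D.A3 * (pw e4 D.A4 * (pw f1 D.S1 * (pw f2 D.S2 * (pw f3 D.S3 * (pw f4 D.S4 * (pw e0 (-1))))))))) ∈ Sel (-2 * D.a) (D.a ^ 2 - 4 * D.b)) :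
    f1 = (f2 ^^ (f3 ^^ f4)) ∧ e0 = (e4 ^^ (f2 ^^ f3)) ∧ e2 = (e4 ^^ (f2 ^^ f3)) ∧ e1 = (e4 ^^ (f2 ^^ f4)) ∧ e3 = (e4 ^^ (f3 ^^ f4)) := by
  obtain ⟨-, hdb, -, hpad⟩ := hd
  have r_p := D.rowD_p (hpad D.p)
  have r_q := D.rowD_q (hpad D.q)
  have r_A3 := D.rowD_A3 (hpad D.A3)
  have r_A4 := D.rowD_A4 (hpad D.A4)
  have r_R4 := D.rowD_R4 hdb (hpad D.R4)
  have hc := D.cond
  clear hpad hdb
  have key : (e0 ^^ (e4 ^^ (f2 ^^ f3))) = false ∧ (e1 ^^ (e4 ^^ (f2 ^^ f4))) = false ∧ (e2 ^^ (e4 ^^ (f2 ^^ f3))) = false ∧ (e3 ^^ (e4 ^^ (f3 ^^ f4))) = false ∧ (f1 ^^ (f2 ^^ (f3 ^^ f4))) = false := by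
    revert r_p r_q r_A3 r_A4 r_R4 hc
    generalize bt D.q D.p = u0
    generalize bt D.q 3 = u1
    generalize bt D.q 17 = u2
    generalize bt D.q 23 = u3
    generalize bt D.p 11 = u4
    generalize bt D.p 19 = u5
    generalize bt D.A3 7 = u6
    generalize bt D.A3 13 = u7
    generalize (e0 ^^ (e4 ^^ (f2 ^^ f3))) = y0
    generalize (e1 ^^ (e4 ^^ (f2 ^^ f4))) = y1
    generalize (e2 ^^ (e4 ^^ (f2 ^^ f3))) = y2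
    generalize (e3 ^^ (e4 ^^ (f3 ^^ f4))) = y3
    generalize (f1 ^^ (f2 ^^ (f3 ^^ f4))) = y4
    revert u0 u1 u2 u3 u4 u5 u6 u7 y0 y1 y2 y3 y4
    decide +kernel
  clear r_p r_q r_A3 r_A4 r_R4 hc
  revert e1 e2 e3 e4 f1 f2 f3 f4 e0
  decide +kernel

theorem g1E : ((D.q : ℤ) * (D.A4 * (D.R1 * D.R4))) ∈ Glob D.a D.b := by
  have z : ∀ {n : ℕ}, n.Prime → Prime (n : ℤ) := fun h => Nat.prime_iff_prime_int.mp h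
  refine mem_glob_of (c := 4 * (D.p * D.A3 * D.R2 * D.R3))
    (N := 3579130 * D.p ^ 2 + 9141106 * D.p * D.w + 4368100 * D.w ^ 2) (M := 5) (e := 1)
    (by rw [b]; ring) (sq4 (z D.pq) (z D.pA4) (z D.pR1) (z D.pR4) (nd_prime D.pq D.pA4 D.ne_q_A4) (nd_prime D.pq D.pR1 D.ne_q_R1) (nd_prime D.pq D.pR4 D.ne_q_R4) (nd_prime D.pA4 D.pR1 D.ne_A4_R1) (nd_prime D.pA4 D.pR4 D.ne_A4_R4) (nd_prime D.pR1 D.pR4 D.ne_R1_R4)) one_ne_zero ?_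
  · rw [a, D.eq, D.eA3, D.eA4, D.eR1, D.eR2, D.eR3, D.eR4]
    ring

theorem g2E : ((D.p : ℤ) * (D.q * (D.R1 * D.R2))) ∈ Glob D.a D.b := by
  have z : ∀ {n : ℕ}, n.Prime → Prime (n : ℤ) := fun h => Nat.prime_iff_prime_int.mp h
  refine mem_glob_of (c := 4 * (D.A3 * D.A4 * D.R3 * D.R4))
    (N := 3101480 * D.p ^ 2 + 2957216 * D.p * D.w + 349448 * D.w ^ 2) (M := 30) (e := 1)
    (by rw [b]; ring) (sq4 (z D.pp) (z D.pq) (z D.pR1) (z D.pR2) (nd_prime D.pp D.pq D.ne_pq) (nd_prime D.pp D.pR1 D.ne_p_R1) (nd_prime D.pp D.pR2 D.ne_p_R2) (nd_prime D.pq D.pR1 D.ne_q_R1) (nd_prime D.pq D.pR2 D.ne_q_R2) (nd_prime D.pR1 D.pR2 D.ne_R1_R2)) one_ne_zero ?_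
  · rw [a, D.eq, D.eA3, D.eA4, D.eR1, D.eR2, D.eR3, D.eR4]
    ring

theorem g3E : ((D.p : ℤ) * (D.q * (D.R3 * D.R4))) ∈ Glob D.a D.b := by
  have z : ∀ {n : ℕ}, n.Prime → Prime (n : ℤ) := fun h => Nat.prime_iff_prime_int.mp h
  refine mem_glob_of (c := 4 * (D.A3 * D.A4 * D.R1 * D.R2))
    (N := 3205270 * D.p ^ 2 + 2353360 * D.p * D.w + 436810 * D.w ^ 2) (M := 8) (e := 1)
    (by rw [b]; ring) (sq4 (z D.pp) (z D.pq) (z D.pR3) (z D.pR4) (nd_prime D.pp D.pq D.ne_pq) (nd_prime D.pp D.pR3 D.ne_p_R3) (nd_prime D.pp D.pR4 D.ne_p_R4) (nd_prime D.pq D.pR3 D.ne_q_R3) (nd_prime D.pq D.pR4 D.ne_q_R4) (nd_prime D.pR3 D.pR4 D.ne_R3_R4)) one_ne_zero ?_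
  · rw [a, D.eq, D.eA3, D.eA4, D.eR1, D.eR2, D.eR3, D.eR4]
    ring

theorem g4E : ((D.p : ℤ) * (D.A3 * (D.R1 * D.R4))) ∈ Glob D.a D.b := by
  have z : ∀ {n : ℕ}, n.Prime → Prime (n : ℤ) := fun h => Nat.prime_iff_prime_int.mp h
  refine mem_glob_of (c := 4 * (D.q * D.A4 * D.R2 * D.R3))
    (N := 4290670 * D.p ^ 2 + 2543190 * D.p * D.w + 873620 * D.w ^ 2) (M := 92) (e := 1)
    (by rw [b]; ring) (sq4 (z D.pp) (z D.pA3) (z D.pR1) (z D.pR4) (nd_prime D.pp D.pA3 D.ne_p_A3) (nd_prime D.pp D.pR1 D.ne_p_R1) (nd_prime D.pp D.pR4 D.ne_p_R4) (nd_prime D.pA3 D.pR1 D.ne_A3_R1) (nd_prime D.pA3 D.pR4 D.ne_A3_R4) (nd_prime D.pR1 D.pR4 D.ne_R1_R4)) one_ne_zero ?_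
  · rw [a, D.eq, D.eA3, D.eA4, D.eR1, D.eR2, D.eR3, D.eR4]
    ring

theorem g5E : ((2 : ℤ) * (D.R1 * D.R4)) ∈ Glob D.a D.b := by
  have z : ∀ {n : ℕ}, n.Prime → Prime (n : ℤ) := fun h => Nat.prime_iff_prime_int.mp h
  refine mem_glob_of (c := 2 * (D.p * D.q * D.A3 * D.A4 * D.R2 * D.R3))
    (N := 116561155 * D.p ^ 3 + 264201036 * D.p ^ 2 * D.w + 178754565 * D.p * D.w ^ 2 + 36517316 * D.w ^ 3) (M := 415 * D.p + 209 * D.w) (e := 1)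
    (by rw [b]; ring) ?_ one_ne_zero ?_
  · exact sqf_cons Int.prime_two (sqf_cons (z D.pR1) (z D.pR4).irreducible.squarefree
      (nd_prime D.pR1 D.pR4 D.ne_R1_R4)) (nd_mul Nat.prime_two (nd_prime Nat.prime_two D.pR1 (by
        have := D.R1_lt; omega)) (nd_prime Nat.prime_two D.pR4 (by have := D.R4_lt; omega)))
  · rw [a, D.eq, D.eA3, D.eA4, D.eR1, D.eR2, D.eR3, D.eR4]
    ring

theorem g1D : (-((D.p : ℤ) * (D.q * (D.A3 * D.A4)))) ∈ Glob (-2 * D.a) (D.a ^ 2 - 4 * D.b) := by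
  have z : ∀ {n : ℕ}, n.Prime → Prime (n : ℤ) := fun h => Nat.prime_iff_prime_int.mp h
  refine mem_glob_of (c := 1 * (D.S1 * D.S2 * D.S3 * D.S4))
    (N := 16228720 * D.p ^ 2 - 3494480 * D.p * D.w - 3494480 * D.w ^ 2) (M := 9) (e := 1)
    (by rw [disc]; ring) (sqf_neg (sq4 (z D.pp) (z D.pq) (z D.pA3) (z D.pA4) (nd_prime D.pp D.pq D.ne_pq) (nd_prime D.pp D.pA3 D.ne_p_A3) (nd_prime D.pp D.pA4 D.ne_p_A4) (nd_prime D.pq D.pA3 D.ne_q_A3) (nd_prime D.pq D.pA4 D.ne_q_A4) (nd_prime D.pA3 D.pA4 D.ne_A3_A4))) one_ne_zero ?_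
  · rw [a, D.eq, D.eA3, D.eA4, D.eS1, D.eS2, S3, S4]
    ring

theorem g2D : (-((D.p : ℤ) * (D.q * (D.S1 * D.S2)))) ∈ Glob (-2 * D.a) (D.a ^ 2 - 4 * D.b) := by
  have z : ∀ {n : ℕ}, n.Prime → Prime (n : ℤ) := fun h => Nat.prime_iff_prime_int.mp h
  refine mem_glob_of (c := 1 * (D.A3 * D.A4 * D.S3 * D.S4))
    (N := 3193835 * D.p ^ 2 + 4359080 * D.p * D.w + 218405 * D.w ^ 2) (M := 24) (e := 1)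
    (by rw [disc]; ring) (sqf_neg (sq4 (z D.pp) (z D.pq) (z D.pS1) (z D.pS2) (nd_prime D.pp D.pq D.ne_pq) (nd_prime D.pp D.pS1 D.ne_p_S1) (nd_prime D.pp D.pS2 D.ne_p_S2) (nd_prime D.pq D.pS1 D.ne_q_S1) (nd_prime D.pq D.pS2 D.ne_q_S2) (nd_prime D.pS1 D.pS2 D.ne_S1_S2))) one_ne_zero ?_
  · rw [a, D.eq, D.eA3, D.eA4, D.eS1, D.eS2, S3, S4]
    ring

theorem g3D : (-((D.q : ℤ) * (D.A3 * (D.S1 * D.S3)))) ∈ Glob (-2 * D.a) (D.a ^ 2 - 4 * D.b) := by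
  have z : ∀ {n : ℕ}, n.Prime → Prime (n : ℤ) := fun h => Nat.prime_iff_prime_int.mp h
  refine mem_glob_of (c := 1 * (D.p * D.A4 * D.S2 * D.S4))
    (N := 1785328 * D.p ^ 2 + 1314544 * D.p * D.w + 48400 * D.w ^ 2) (M := 5) (e := 1)
    (by rw [disc]; ring) (sqf_neg (sq4 (z D.pq) (z D.pA3) (z D.pS1) D.prime_S3 (nd_prime D.pq D.pA3 D.ne_q_A3) (nd_prime D.pq D.pS1 D.ne_q_S1) (D.nS3 D.pq D.ne_q_s3) (nd_prime D.pA3 D.pS1 D.ne_A3_S1) (D.nS3 D.pA3 D.ne_A3_s3) (D.nS3 D.pS1 D.ne_S1_s3))) one_ne_zero ?_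
  · rw [a, D.eq, D.eA3, D.eA4, D.eS1, D.eS2, S3, S4]
    ring

theorem g4D : ((D.p : ℤ) * (D.A3 * (D.S1 * D.S4))) ∈ Glob (-2 * D.a) (D.a ^ 2 - 4 * D.b) := by
  have z : ∀ {n : ℕ}, n.Prime → Prime (n : ℤ) := fun h => Nat.prime_iff_prime_int.mp h
  refine mem_glob_of (c := -1 * (D.q * D.A4 * D.S2 * D.S3))
    (N := 842528 * D.p ^ 2 + 873620 * D.p * D.w + 87362 * D.w ^ 2) (M := 3) (e := 1)
    (by rw [disc]; ring) (sq4 (z D.pp) (z D.pA3) (z D.pS1) D.prime_S4 (nd_prime D.pp D.pA3 D.ne_p_A3) (nd_prime D.pp D.pS1 D.ne_p_S1) (D.nS4 D.pp D.ne_p_s4) (nd_prime D.pA3 D.pS1 D.ne_A3_S1) (D.nS4 D.pA3 D.ne_A3_s4) (D.nS4 D.pS1 D.ne_S1_s4)) one_ne_zero ?_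
  · rw [a, D.eq, D.eA3, D.eA4, D.eS1, D.eS2, S3, S4]
    ring

theorem low_E : 2 ^ 5 ≤ (Glob D.a D.b).ncard := by
  have z : ∀ {n : ℕ}, n.Prime → Prime (n : ℤ) := fun h => Nat.prime_iff_prime_int.mp h
  have t2 : ∀ {P : ℕ}, P.Prime → P ≠ 2 → ¬ ((2 : ℕ) : ℤ) ∣ (P : ℤ) := fun h h2 =>
    nd_prime Nat.prime_two h h2.symm
  have n2 : ∀ {P : ℕ}, P.Prime → P ≠ 2 → ¬ (P : ℤ) ∣ (2 : ℤ) := fun h h2 => by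
    have := nd_prime h Nat.prime_two h2
    exact_mod_cast this
  have o1 : D.R1 ≠ 2 := by have := D.R1_lt; omega
  have o2 : D.R2 ≠ 2 := by have := D.R2_lt; omega
  have o3 : D.R3 ≠ 2 := by have := D.R3_lt; omega
  obtain ⟨op, oq, oA3, oA4, oR4, -, -⟩ := D.ne2
  refine le_card_glob5 D.b_ne D.disc_ne (z D.pA4) (z D.pR2) (z D.pR3) (z D.pA3) Int.prime_two
    D.g1E D.g2E D.g3E D.g4E D.g5E
    ⟨D.q * D.R1 * D.R4, by ring⟩ ?_ ?_ ?_ ?_ ?_ ⟨D.p * D.q * D.R1, by ring⟩ ?_ ?_ ?_ ?_ ?_ ⟨D.p * D.q * D.R4, by ring⟩ ?_ ?_ ?_ ?_ ?_ ⟨D.p * D.R1 * D.R4, by ring⟩ ?_ ?_ ?_ ?_ ?_ ⟨D.R1 * D.R4, by ring⟩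
  · exact nm4 D.pR2 (nd_prime D.pR2 D.pq D.ne_q_R2.symm) (nd_prime D.pR2 D.pA4 D.ne_A4_R2.symm) (nd_prime D.pR2 D.pR1 D.ne_R1_R2.symm) (nd_prime D.pR2 D.pR4 D.ne_R2_R4)
  · exact nm4 D.pR3 (nd_prime D.pR3 D.pq D.ne_q_R3.symm) (nd_prime D.pR3 D.pA4 D.ne_A4_R3.symm) (nd_prime D.pR3 D.pR1 D.ne_R1_R3.symm) (nd_prime D.pR3 D.pR4 D.ne_R3_R4)
  · exact nm4 D.pA3 (nd_prime D.pA3 D.pq D.ne_q_A3.symm) (nd_prime D.pA3 D.pA4 D.ne_A3_A4) (nd_prime D.pA3 D.pR1 D.ne_A3_R1) (nd_prime D.pA3 D.pR4 D.ne_A3_R4)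
  · exact nm4 Nat.prime_two (t2 D.pq oq) (t2 D.pA4 oA4) (t2 D.pR1 o1) (t2 D.pR4 oR4)
  · exact nm4 D.pA4 (nd_prime D.pA4 D.pp D.ne_p_A4.symm) (nd_prime D.pA4 D.pq D.ne_q_A4.symm) (nd_prime D.pA4 D.pR1 D.ne_A4_R1) (nd_prime D.pA4 D.pR2 D.ne_A4_R2)
  · exact nm4 D.pR3 (nd_prime D.pR3 D.pp D.ne_p_R3.symm) (nd_prime D.pR3 D.pq D.ne_q_R3.symm) (nd_prime D.pR3 D.pR1 D.ne_R1_R3.symm) (nd_prime D.pR3 D.pR2 D.ne_R2_R3.symm)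
  · exact nm4 D.pA3 (nd_prime D.pA3 D.pp D.ne_p_A3.symm) (nd_prime D.pA3 D.pq D.ne_q_A3.symm) (nd_prime D.pA3 D.pR1 D.ne_A3_R1) (nd_prime D.pA3 D.pR2 D.ne_A3_R2)
  · exact nm4 Nat.prime_two (t2 D.pp op) (t2 D.pq oq) (t2 D.pR1 o1) (t2 D.pR2 o2)
  · exact nm4 D.pA4 (nd_prime D.pA4 D.pp D.ne_p_A4.symm) (nd_prime D.pA4 D.pq D.ne_q_A4.symm) (nd_prime D.pA4 D.pR3 D.ne_A4_R3) (nd_prime D.pA4 D.pR4 D.ne_A4_R4)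
  · exact nm4 D.pR2 (nd_prime D.pR2 D.pp D.ne_p_R2.symm) (nd_prime D.pR2 D.pq D.ne_q_R2.symm) (nd_prime D.pR2 D.pR3 D.ne_R2_R3) (nd_prime D.pR2 D.pR4 D.ne_R2_R4)
  · exact nm4 D.pA3 (nd_prime D.pA3 D.pp D.ne_p_A3.symm) (nd_prime D.pA3 D.pq D.ne_q_A3.symm) (nd_prime D.pA3 D.pR3 D.ne_A3_R3) (nd_prime D.pA3 D.pR4 D.ne_A3_R4)
  · exact nm4 Nat.prime_two (t2 D.pp op) (t2 D.pq oq) (t2 D.pR3 o3) (t2 D.pR4 oR4)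
  · exact nm4 D.pA4 (nd_prime D.pA4 D.pp D.ne_p_A4.symm) (nd_prime D.pA4 D.pA3 D.ne_A3_A4.symm) (nd_prime D.pA4 D.pR1 D.ne_A4_R1) (nd_prime D.pA4 D.pR4 D.ne_A4_R4)
  · exact nm4 D.pR2 (nd_prime D.pR2 D.pp D.ne_p_R2.symm) (nd_prime D.pR2 D.pA3 D.ne_A3_R2.symm) (nd_prime D.pR2 D.pR1 D.ne_R1_R2.symm) (nd_prime D.pR2 D.pR4 D.ne_R2_R4)
  · exact nm4 D.pR3 (nd_prime D.pR3 D.pp D.ne_p_R3.symm) (nd_prime D.pR3 D.pA3 D.ne_A3_R3.symm) (nd_prime D.pR3 D.pR1 D.ne_R1_R3.symm) (nd_prime D.pR3 D.pR4 D.ne_R3_R4)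
  · exact nm4 Nat.prime_two (t2 D.pp op) (t2 D.pA3 oA3) (t2 D.pR1 o1) (t2 D.pR4 oR4)
  · exact nd_mul D.pA4 (n2 D.pA4 oA4) (nd_mul D.pA4 (nd_prime D.pA4 D.pR1 D.ne_A4_R1) (nd_prime D.pA4 D.pR4 D.ne_A4_R4))
  · exact nd_mul D.pR2 (n2 D.pR2 o2) (nd_mul D.pR2 (nd_prime D.pR2 D.pR1 D.ne_R1_R2.symm) (nd_prime D.pR2 D.pR4 D.ne_R2_R4))
  · exact nd_mul D.pR3 (n2 D.pR3 o3) (nd_mul D.pR3 (nd_prime D.pR3 D.pR1 D.ne_R1_R3.symm) (nd_prime D.pR3 D.pR4 D.ne_R3_R4))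
  · exact nd_mul D.pA3 (n2 D.pA3 oA3) (nd_mul D.pA3 (nd_prime D.pA3 D.pR1 D.ne_A3_R1) (nd_prime D.pA3 D.pR4 D.ne_A3_R4))

theorem low_D : 2 ^ 4 ≤ (Glob (-2 * D.a) (D.a ^ 2 - 4 * D.b)).ncard := by
  have z : ∀ {n : ℕ}, n.Prime → Prime (n : ℤ) := fun h => Nat.prime_iff_prime_int.mp h
  have ds3 : (D.s3 : ℤ) ∣ D.S3 := by
    rcases D.es3 with h | h
    · rw [h]; exact dvd_rfl
    · rw [h, neg_dvd]; exact dvd_rfl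
  have ds4 : (D.s4 : ℤ) ∣ D.S4 := by
    rcases D.es4 with h | h
    · rw [h]; exact dvd_rfl
    · rw [h, neg_dvd]; exact dvd_rfl
  have hds : (-2 * D.a) ^ 2 - 4 * (D.a ^ 2 - 4 * D.b) ≠ 0 := by
    have : (-2 * D.a) ^ 2 - 4 * (D.a ^ 2 - 4 * D.b) = 16 * D.b := by ring
    rw [this]
    exact mul_ne_zero (by norm_num) D.b_ne
  refine le_card_glob4 D.disc_ne hds (z D.pA4) (z D.pS2) (z D.ps3) (z D.ps4)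
    D.g1D D.g2D D.g3D D.g4D
    ⟨-(D.p * D.q * D.A3), by ring⟩ ?_ ?_ ?_ ?_ ⟨-(D.p * D.q * D.S1), by ring⟩ ?_ ?_ ?_ ?_ ?_ ?_ ?_ ?_ ?_ ?_
  · exact nd_neg (nm4 D.pS2 (nd_prime D.pS2 D.pp D.ne_p_S2.symm) (nd_prime D.pS2 D.pq D.ne_q_S2.symm) (nd_prime D.pS2 D.pA3 D.ne_A3_S2.symm) (nd_prime D.pS2 D.pA4 D.ne_A4_S2.symm))
  · exact nd_neg (nm4 D.ps3 (nd_prime D.ps3 D.pp D.ne_p_s3.symm) (nd_prime D.ps3 D.pq D.ne_q_s3.symm) (nd_prime D.ps3 D.pA3 D.ne_A3_s3.symm) (nd_prime D.ps3 D.pA4 D.ne_A4_s3.symm))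
  · exact nd_neg (nm4 D.ps4 (nd_prime D.ps4 D.pp D.ne_p_s4.symm) (nd_prime D.ps4 D.pq D.ne_q_s4.symm) (nd_prime D.ps4 D.pA3 D.ne_A3_s4.symm) (nd_prime D.ps4 D.pA4 D.ne_A4_s4.symm))
  · exact nd_neg (nm4 D.pA4 (nd_prime D.pA4 D.pp D.ne_p_A4.symm) (nd_prime D.pA4 D.pq D.ne_q_A4.symm) (nd_prime D.pA4 D.pS1 D.ne_A4_S1) (nd_prime D.pA4 D.pS2 D.ne_A4_S2))
  · exact nd_neg (nm4 D.ps3 (nd_prime D.ps3 D.pp D.ne_p_s3.symm) (nd_prime D.ps3 D.pq D.ne_q_s3.symm) (nd_prime D.ps3 D.pS1 D.ne_S1_s3.symm) (nd_prime D.ps3 D.pS2 D.ne_S2_s3.symm))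
  · exact nd_neg (nm4 D.ps4 (nd_prime D.ps4 D.pp D.ne_p_s4.symm) (nd_prime D.ps4 D.pq D.ne_q_s4.symm) (nd_prime D.ps4 D.pS1 D.ne_S1_s4.symm) (nd_prime D.ps4 D.pS2 D.ne_S2_s4.symm))
  · exact nd_neg (nm4 D.pA4 (nd_prime D.pA4 D.pq D.ne_q_A4.symm) (nd_prime D.pA4 D.pA3 D.ne_A3_A4.symm) (nd_prime D.pA4 D.pS1 D.ne_A4_S1) (D.nS3 D.pA4 D.ne_A4_s3))
  · exact nd_neg (nm4 D.pS2 (nd_prime D.pS2 D.pq D.ne_q_S2.symm) (nd_prime D.pS2 D.pA3 D.ne_A3_S2.symm) (nd_prime D.pS2 D.pS1 D.ne_S1_S2.symm) (D.nS3 D.pS2 D.ne_S2_s3))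
  · rw [dvd_neg]
    exact ((ds3.mul_left _).mul_left _).mul_left _
  · exact nd_neg (nm4 D.ps4 (nd_prime D.ps4 D.pq D.ne_q_s4.symm) (nd_prime D.ps4 D.pA3 D.ne_A3_s4.symm) (nd_prime D.ps4 D.pS1 D.ne_S1_s4.symm) (D.nS3 D.ps4 D.ne_s3_s4.symm))
  · exact nm4 D.pA4 (nd_prime D.pA4 D.pp D.ne_p_A4.symm) (nd_prime D.pA4 D.pA3 D.ne_A3_A4.symm) (nd_prime D.pA4 D.pS1 D.ne_A4_S1) (D.nS4 D.pA4 D.ne_A4_s4)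
  · exact nm4 D.pS2 (nd_prime D.pS2 D.pp D.ne_p_S2.symm) (nd_prime D.pS2 D.pA3 D.ne_A3_S2.symm) (nd_prime D.pS2 D.pS1 D.ne_S1_S2.symm) (D.nS4 D.pS2 D.ne_S2_s4)
  · exact nm4 D.ps3 (nd_prime D.ps3 D.pp D.ne_p_s3.symm) (nd_prime D.ps3 D.pA3 D.ne_A3_s3.symm) (nd_prime D.ps3 D.pS1 D.ne_S1_s3.symm) (D.nS4 D.ps3 D.ne_s3_s4)
  · exact ((ds4.mul_left _).mul_left _).mul_left _

theorem up_E : (Sel D.a D.b).ncard ≤ 2 ^ 5 := by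
  apply card_le_of_range (α := Bool × Bool × Bool × Bool × Bool)
    (fun y => pw (y.1 ^^ (y.2.2.1 ^^ y.2.2.2.1)) D.p * (pw (y.2.1 ^^ (y.2.2.1 ^^ y.2.2.2.1)) D.q *
      (pw y.1 D.A3 * (pw y.2.1 D.A4 * (pw (y.2.2.1 ^^ (y.2.2.2.1 ^^ y.2.2.2.2)) D.R1 *
      (pw y.2.2.1 D.R2 * (pw y.2.2.2.1 D.R3 * (pw y.2.2.2.2 D.R4 *
      (pw (y.1 ^^ (y.2.1 ^^ (y.2.2.2.1 ^^ y.2.2.2.2))) 2))))))))) (by decide)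
  intro d hd
  obtain ⟨e1, e2, e3, e4, f1, f2, f3, f4, e0, rfl⟩ := D.form_E hd
  obtain ⟨h1, h2, h3, h4⟩ := D.rel_E hd
  subst h1; subst h2; subst h3; subst h4
  exact ⟨(e3, e4, f2, f3, f4), rfl⟩

theorem up_D : (Sel (-2 * D.a) (D.a ^ 2 - 4 * D.b)).ncard ≤ 2 ^ 4 := by
  apply card_le_of_range (α := Bool × Bool × Bool × Bool)
    (fun y => pw (y.1 ^^ (y.2.1 ^^ y.2.2.2)) D.p * (pw (y.1 ^^ (y.2.1 ^^ y.2.2.1)) D.q *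
      (pw (y.1 ^^ (y.2.2.1 ^^ y.2.2.2)) D.A3 * (pw y.1 D.A4 *
      (pw (y.2.1 ^^ (y.2.2.1 ^^ y.2.2.2)) D.S1 * (pw y.2.1 D.S2 *
      (pw y.2.2.1 D.S3 * (pw y.2.2.2 D.S4 * (pw (y.1 ^^ (y.2.1 ^^ y.2.2.1)) (-1))))))))))
      (by decide)
  intro d hd
  obtain ⟨e1, e2, e3, e4, f1, f2, f3, f4, e0, rfl⟩ := D.form_D hd
  obtain ⟨h1, h2, h3, h4, h5⟩ := D.rel_D hd
  subst h1; subst h2; subst h3; subst h4; subst h5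
  exact ⟨(e4, f2, f3, f4), rfl⟩

theorem main : mwRank D.a D.b = 7 ∧ (Sel D.a D.b).ncard = 2 ^ 5 ∧
    (Sel (-2 * D.a) (D.a ^ 2 - 4 * D.b)).ncard = 2 ^ 4 := by
  obtain ⟨h1, h2, h3⟩ := finish D.b_ne D.disc_ne D.low_E D.up_E D.low_D D.up_D
  exact ⟨by omega, h2, h3⟩

end Dat

end Pool.Agent.H23.Seven
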