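import Pool.Agent.H23.Symb

/-!
# Legendre symbols of the linear forms of the rank seven family
-/

namespace Pool.Agent.H23.Seven

theorem sym_p {P : ℕ} [Fact P.Prime] {τ p q w A3 A4 R1 R2 R3 R4 S1 S2 S3 S4 : ℤ}
    (hP : p = τ * P) (eq : q = p + 2 * w)
    (eA3 : A3 = 5 * p + w)
    (eA4 : A4 = 69347 * p + 43681 * w)
    (eR1 : R1 = 317 * p + 209 * w)
    (eR2 : R2 = 27763 * p + 5225 * w)
    (eR3 : R3 = 22565 * p + 418 * w)
    (eR4 : R4 = 989 * p + 1672 * w)
    (eS1 : S1 = 39415 * p + 15488 * w)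
    (eS2 : S2 = 2089 * p + 722 * w)
    (eS3 : S3 = 277 * p - 121 * w)
    (eS4 : S4 = 11323 * p - 9025 * w)
    {n t2 t5 t11 t19 v : Bool}
    (hn : legendreSym P (-1) = sg n)
    (ht2 : legendreSym P 2 = sg t2)
    (ht5 : legendreSym P 5 = sg t5)
    (ht11 : legendreSym P 11 = sg t11)
    (ht19 : legendreSym P 19 = sg t19)
    (hv : legendreSym P q = sg v) :
    legendreSym P A3 = sg ((t2) ^^ ((false) ^^ v)) ∧
    legendreSym P A4 = sg ((t2) ^^ ((false) ^^ v)) ∧
    legendreSym P R1 = sg ((t2) ^^ ((t11 ^^ t19) ^^ v)) ∧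
    legendreSym P R2 = sg ((t2) ^^ ((t11 ^^ t19) ^^ v)) ∧
    legendreSym P R3 = sg ((false) ^^ ((t11 ^^ t19) ^^ v)) ∧
    legendreSym P R4 = sg ((false) ^^ ((t11 ^^ t19) ^^ v)) ∧
    legendreSym P S1 = sg ((false) ^^ ((false) ^^ v)) ∧
    legendreSym P S2 = sg ((false) ^^ ((false) ^^ v)) ∧
    legendreSym P S3 = sg ((t2) ^^ ((n) ^^ v)) ∧
    legendreSym P S4 = sg ((t2) ^^ ((n) ^^ v)) := by
  have cm9025 : legendreSym P (-9025) = sg (n) := by
    have h : legendreSym P (-9025) = sg ((((n ^^ t5) ^^ t5) ^^ t19) ^^ t19) := by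
      rw [show (-9025 : ℤ) = (-1) * 5 * 5 * 19 * 19 by norm_num, legendreSym.mul, legendreSym.mul, legendreSym.mul, legendreSym.mul, hn, ht5, ht19, sg_mul, sg_mul, sg_mul, sg_mul]
    exact h.trans (congrArg sg (by cases n <;> cases t5 <;> cases t19 <;> rfl))
  have cm121 : legendreSym P (-121) = sg (n) := by
    have h : legendreSym P (-121) = sg ((n ^^ t11) ^^ t11) := by
      rw [show (-121 : ℤ) = (-1) * 11 * 11 by norm_num, legendreSym.mul, legendreSym.mul, hn, ht11, sg_mul, sg_mul]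
    exact h.trans (congrArg sg (by cases n <;> cases t11 <;> rfl))
  have c2 : legendreSym P 2 = sg (t2) := ht2
  have c209 : legendreSym P 209 = sg (t11 ^^ t19) := by
    have h : legendreSym P 209 = sg (t11 ^^ t19) := by
      rw [show (209 : ℤ) = 11 * 19 by norm_num, legendreSym.mul, ht11, ht19, sg_mul]
    exact h.trans (congrArg sg (by cases t11 <;> cases t19 <;> rfl))
  have c361 : legendreSym P 361 = sg (false) := by
    have h : legendreSym P 361 = sg (t19 ^^ t19) := by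
      rw [show (361 : ℤ) = 19 * 19 by norm_num, legendreSym.mul, ht19, sg_mul]
    exact h.trans (congrArg sg (by cases t19 <;> rfl))
  have c836 : legendreSym P 836 = sg (t11 ^^ t19) := by
    have h : legendreSym P 836 = sg (((t2 ^^ t2) ^^ t11) ^^ t19) := by
      rw [show (836 : ℤ) = 2 * 2 * 11 * 19 by norm_num, legendreSym.mul, legendreSym.mul, legendreSym.mul, ht2, ht11, ht19, sg_mul, sg_mul, sg_mul]
    exact h.trans (congrArg sg (by cases t2 <;> cases t11 <;> cases t19 <;> rfl))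
  have c5225 : legendreSym P 5225 = sg (t11 ^^ t19) := by
    have h : legendreSym P 5225 = sg (((t5 ^^ t5) ^^ t11) ^^ t19) := by
      rw [show (5225 : ℤ) = 5 * 5 * 11 * 19 by norm_num, legendreSym.mul, legendreSym.mul, legendreSym.mul, ht5, ht11, ht19, sg_mul, sg_mul, sg_mul]
    exact h.trans (congrArg sg (by cases t5 <;> cases t11 <;> cases t19 <;> rfl))
  have c7744 : legendreSym P 7744 = sg (false) := by
    have h : legendreSym P 7744 = sg (((((((t2 ^^ t2) ^^ t2) ^^ t2) ^^ t2) ^^ t2) ^^ t11) ^^ t11) := by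
      rw [show (7744 : ℤ) = 2 * 2 * 2 * 2 * 2 * 2 * 11 * 11 by norm_num, legendreSym.mul, legendreSym.mul, legendreSym.mul, legendreSym.mul, legendreSym.mul, legendreSym.mul, legendreSym.mul, ht2, ht11, sg_mul, sg_mul, sg_mul, sg_mul, sg_mul, sg_mul, sg_mul]
    exact h.trans (congrArg sg (by cases t2 <;> cases t11 <;> rfl))
  have c43681 : legendreSym P 43681 = sg (false) := by
    have h : legendreSym P 43681 = sg (((t11 ^^ t11) ^^ t19) ^^ t19) := by
      rw [show (43681 : ℤ) = 11 * 11 * 19 * 19 by norm_num, legendreSym.mul, legendreSym.mul, legendreSym.mul, ht11, ht19, sg_mul, sg_mul, sg_mul]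
    exact h.trans (congrArg sg (by cases t11 <;> cases t19 <;> rfl))
  exact ⟨chi_val (c := 2) (k := 1) (m := 9 * τ) (by linear_combination (2) * eA3 + (-1) * eq + (9) * hP) c2 chi_one hv,
    chi_val (c := 2) (k := 43681) (m := 95013 * τ) (by linear_combination (2) * eA4 + (-43681) * eq + (95013) * hP) c2 c43681 hv,
    chi_val (c := 2) (k := 209) (m := 425 * τ) (by linear_combination (2) * eR1 + (-209) * eq + (425) * hP) c2 c209 hv,
    chi_val (c := 2) (k := 5225) (m := 50301 * τ) (by linear_combination (2) * eR2 + (-5225) * eq + (50301) * hP) c2 c5225 hv,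
    chi_val (c := 1) (k := 209) (m := 22356 * τ) (by linear_combination (1) * eR3 + (-209) * eq + (22356) * hP) chi_one c209 hv,
    chi_val (c := 1) (k := 836) (m := 153 * τ) (by linear_combination (1) * eR4 + (-836) * eq + (153) * hP) chi_one c836 hv,
    chi_val (c := 1) (k := 7744) (m := 31671 * τ) (by linear_combination (1) * eS1 + (-7744) * eq + (31671) * hP) chi_one c7744 hv,
    chi_val (c := 1) (k := 361) (m := 1728 * τ) (by linear_combination (1) * eS2 + (-361) * eq + (1728) * hP) chi_one c361 hv,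
    chi_val (c := 2) (k := (-121)) (m := 675 * τ) (by linear_combination (2) * eS3 + (121) * eq + (675) * hP) c2 cm121 hv,
    chi_val (c := 2) (k := (-9025)) (m := 31671 * τ) (by linear_combination (2) * eS4 + (9025) * eq + (31671) * hP) c2 cm9025 hv⟩

theorem sym_q {P : ℕ} [Fact P.Prime] {τ p q w A3 A4 R1 R2 R3 R4 S1 S2 S3 S4 : ℤ}
    (hP : p + 2 * w = τ * P)
    (eA3 : A3 = 5 * p + w)
    (eA4 : A4 = 69347 * p + 43681 * w)
    (eR1 : R1 = 317 * p + 209 * w)
    (eR2 : R2 = 27763 * p + 5225 * w)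
    (eR3 : R3 = 22565 * p + 418 * w)
    (eR4 : R4 = 989 * p + 1672 * w)
    (eS1 : S1 = 39415 * p + 15488 * w)
    (eS2 : S2 = 2089 * p + 722 * w)
    (eS3 : S3 = 277 * p - 121 * w)
    (eS4 : S4 = 11323 * p - 9025 * w)
    {t2 t3 t5 t17 t23 v : Bool}
    (ht2 : legendreSym P 2 = sg t2)
    (ht3 : legendreSym P 3 = sg t3)
    (ht5 : legendreSym P 5 = sg t5)
    (ht17 : legendreSym P 17 = sg t17)
    (ht23 : legendreSym P 23 = sg t23)
    (hv : legendreSym P p = sg v) :
    legendreSym P A3 = sg ((t2) ^^ ((false) ^^ v)) ∧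
    legendreSym P A4 = sg ((t2) ^^ ((t3 ^^ t17 ^^ t23) ^^ v)) ∧
    legendreSym P R1 = sg ((t2) ^^ ((t17) ^^ v)) ∧
    legendreSym P R2 = sg ((t2) ^^ ((t3 ^^ t23) ^^ v)) ∧
    legendreSym P R3 = sg ((false) ^^ ((t3 ^^ t23) ^^ v)) ∧
    legendreSym P R4 = sg ((false) ^^ ((t17) ^^ v)) ∧
    legendreSym P S1 = sg ((false) ^^ ((t17 ^^ t23) ^^ v)) ∧
    legendreSym P S2 = sg ((false) ^^ ((t3) ^^ v)) ∧
    legendreSym P S3 = sg ((t2) ^^ ((t3) ^^ v)) ∧
    legendreSym P S4 = sg ((t2) ^^ ((t17 ^^ t23) ^^ v)) := by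
  have c2 : legendreSym P 2 = sg (t2) := ht2
  have c9 : legendreSym P 9 = sg (false) := by
    have h : legendreSym P 9 = sg (t3 ^^ t3) := by
      rw [show (9 : ℤ) = 3 * 3 by norm_num, legendreSym.mul, ht3, sg_mul]
    exact h.trans (congrArg sg (by cases t3 <;> rfl))
  have c153 : legendreSym P 153 = sg (t17) := by
    have h : legendreSym P 153 = sg ((t3 ^^ t3) ^^ t17) := by
      rw [show (153 : ℤ) = 3 * 3 * 17 by norm_num, legendreSym.mul, legendreSym.mul, ht3, ht17, sg_mul, sg_mul]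
    exact h.trans (congrArg sg (by cases t3 <;> cases t17 <;> rfl))
  have c425 : legendreSym P 425 = sg (t17) := by
    have h : legendreSym P 425 = sg ((t5 ^^ t5) ^^ t17) := by
      rw [show (425 : ℤ) = 5 * 5 * 17 by norm_num, legendreSym.mul, legendreSym.mul, ht5, ht17, sg_mul, sg_mul]
    exact h.trans (congrArg sg (by cases t5 <;> cases t17 <;> rfl))
  have c675 : legendreSym P 675 = sg (t3) := by
    have h : legendreSym P 675 = sg ((((t3 ^^ t3) ^^ t3) ^^ t5) ^^ t5) := by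
      rw [show (675 : ℤ) = 3 * 3 * 3 * 5 * 5 by norm_num, legendreSym.mul, legendreSym.mul, legendreSym.mul, legendreSym.mul, ht3, ht5, sg_mul, sg_mul, sg_mul, sg_mul]
    exact h.trans (congrArg sg (by cases t3 <;> cases t5 <;> rfl))
  have c1728 : legendreSym P 1728 = sg (t3) := by
    have h : legendreSym P 1728 = sg ((((((((t2 ^^ t2) ^^ t2) ^^ t2) ^^ t2) ^^ t2) ^^ t3) ^^ t3) ^^ t3) := by
      rw [show (1728 : ℤ) = 2 * 2 * 2 * 2 * 2 * 2 * 3 * 3 * 3 by norm_num, legendreSym.mul, legendreSym.mul, legendreSym.mul, legendreSym.mul, legendreSym.mul, legendreSym.mul, legendreSym.mul, legendreSym.mul, ht2, ht3, sg_mul, sg_mul, sg_mul, sg_mul, sg_mul, sg_mul, sg_mul, sg_mul]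
    exact h.trans (congrArg sg (by cases t2 <;> cases t3 <;> rfl))
  have c22356 : legendreSym P 22356 = sg (t3 ^^ t23) := by
    have h : legendreSym P 22356 = sg (((((((t2 ^^ t2) ^^ t3) ^^ t3) ^^ t3) ^^ t3) ^^ t3) ^^ t23) := by
      rw [show (22356 : ℤ) = 2 * 2 * 3 * 3 * 3 * 3 * 3 * 23 by norm_num, legendreSym.mul, legendreSym.mul, legendreSym.mul, legendreSym.mul, legendreSym.mul, legendreSym.mul, legendreSym.mul, ht2, ht3, ht23, sg_mul, sg_mul, sg_mul, sg_mul, sg_mul, sg_mul, sg_mul]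
    exact h.trans (congrArg sg (by cases t2 <;> cases t3 <;> cases t23 <;> rfl))
  have c31671 : legendreSym P 31671 = sg (t17 ^^ t23) := by
    have h : legendreSym P 31671 = sg (((((t3 ^^ t3) ^^ t3) ^^ t3) ^^ t17) ^^ t23) := by
      rw [show (31671 : ℤ) = 3 * 3 * 3 * 3 * 17 * 23 by norm_num, legendreSym.mul, legendreSym.mul, legendreSym.mul, legendreSym.mul, legendreSym.mul, ht3, ht17, ht23, sg_mul, sg_mul, sg_mul, sg_mul, sg_mul]
    exact h.trans (congrArg sg (by cases t3 <;> cases t17 <;> cases t23 <;> rfl))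
  have c50301 : legendreSym P 50301 = sg (t3 ^^ t23) := by
    have h : legendreSym P 50301 = sg (((((((t3 ^^ t3) ^^ t3) ^^ t3) ^^ t3) ^^ t3) ^^ t3) ^^ t23) := by
      rw [show (50301 : ℤ) = 3 * 3 * 3 * 3 * 3 * 3 * 3 * 23 by norm_num, legendreSym.mul, legendreSym.mul, legendreSym.mul, legendreSym.mul, legendreSym.mul, legendreSym.mul, legendreSym.mul, ht3, ht23, sg_mul, sg_mul, sg_mul, sg_mul, sg_mul, sg_mul, sg_mul]
    exact h.trans (congrArg sg (by cases t3 <;> cases t23 <;> rfl))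
  have c95013 : legendreSym P 95013 = sg (t3 ^^ t17 ^^ t23) := by
    have h : legendreSym P 95013 = sg ((((((t3 ^^ t3) ^^ t3) ^^ t3) ^^ t3) ^^ t17) ^^ t23) := by
      rw [show (95013 : ℤ) = 3 * 3 * 3 * 3 * 3 * 17 * 23 by norm_num, legendreSym.mul, legendreSym.mul, legendreSym.mul, legendreSym.mul, legendreSym.mul, legendreSym.mul, ht3, ht17, ht23, sg_mul, sg_mul, sg_mul, sg_mul, sg_mul, sg_mul]
    exact h.trans (congrArg sg (by cases t3 <;> cases t17 <;> cases t23 <;> rfl))
  exact ⟨chi_val (c := 2) (k := 9) (m := 1 * τ) (by linear_combination (2) * eA3 + (1) * hP) c2 c9 hv,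
    chi_val (c := 2) (k := 95013) (m := 43681 * τ) (by linear_combination (2) * eA4 + (43681) * hP) c2 c95013 hv,
    chi_val (c := 2) (k := 425) (m := 209 * τ) (by linear_combination (2) * eR1 + (209) * hP) c2 c425 hv,
    chi_val (c := 2) (k := 50301) (m := 5225 * τ) (by linear_combination (2) * eR2 + (5225) * hP) c2 c50301 hv,
    chi_val (c := 1) (k := 22356) (m := 209 * τ) (by linear_combination (1) * eR3 + (209) * hP) chi_one c22356 hv,
    chi_val (c := 1) (k := 153) (m := 836 * τ) (by linear_combination (1) * eR4 + (836) * hP) chi_one c153 hv,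
    chi_val (c := 1) (k := 31671) (m := 7744 * τ) (by linear_combination (1) * eS1 + (7744) * hP) chi_one c31671 hv,
    chi_val (c := 1) (k := 1728) (m := 361 * τ) (by linear_combination (1) * eS2 + (361) * hP) chi_one c1728 hv,
    chi_val (c := 2) (k := 675) (m := (-121) * τ) (by linear_combination (2) * eS3 + (-121) * hP) c2 c675 hv,
    chi_val (c := 2) (k := 31671) (m := (-9025) * τ) (by linear_combination (2) * eS4 + (-9025) * hP) c2 c31671 hv⟩

theorem sym_A3 {P : ℕ} [Fact P.Prime] {τ p q w A4 R1 R2 R3 R4 S1 S2 S3 S4 : ℤ}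
    (hP : 5 * p + w = τ * P) (eq : q = p + 2 * w)
    (eA4 : A4 = 69347 * p + 43681 * w)
    (eR1 : R1 = 317 * p + 209 * w)
    (eR2 : R2 = 27763 * p + 5225 * w)
    (eR3 : R3 = 22565 * p + 418 * w)
    (eR4 : R4 = 989 * p + 1672 * w)
    (eS1 : S1 = 39415 * p + 15488 * w)
    (eS2 : S2 = 2089 * p + 722 * w)
    (eS3 : S3 = 277 * p - 121 * w)
    (eS4 : S4 = 11323 * p - 9025 * w)
    {n t2 t3 t5 t7 t13 v : Bool}
    (hn : legendreSym P (-1) = sg n)
    (ht2 : legendreSym P 2 = sg t2)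
    (ht3 : legendreSym P 3 = sg t3)
    (ht5 : legendreSym P 5 = sg t5)
    (ht7 : legendreSym P 7 = sg t7)
    (ht13 : legendreSym P 13 = sg t13)
    (hv : legendreSym P q = sg v) :
    legendreSym P p = sg ((false) ^^ ((n) ^^ v)) ∧
    legendreSym P A4 = sg ((false) ^^ ((t2) ^^ v)) ∧
    legendreSym P R1 = sg ((false) ^^ ((t2 ^^ t7 ^^ t13) ^^ v)) ∧
    legendreSym P R2 = sg ((false) ^^ ((n ^^ t2 ^^ t7 ^^ t13) ^^ v)) ∧
    legendreSym P R3 = sg ((false) ^^ ((n ^^ t7 ^^ t13) ^^ v)) ∧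
    legendreSym P R4 = sg ((false) ^^ ((t7 ^^ t13) ^^ v)) ∧
    legendreSym P S1 = sg ((false) ^^ ((false) ^^ v)) ∧
    legendreSym P S2 = sg ((false) ^^ ((false) ^^ v)) ∧
    legendreSym P S3 = sg ((false) ^^ ((n ^^ t2) ^^ v)) ∧
    legendreSym P S4 = sg ((false) ^^ ((n ^^ t2) ^^ v)) := by
  have cm6272 : legendreSym P (-6272) = sg (n ^^ t2) := by
    have h : legendreSym P (-6272) = sg (((((((((n ^^ t2) ^^ t2) ^^ t2) ^^ t2) ^^ t2) ^^ t2) ^^ t2) ^^ t7) ^^ t7) := by
      rw [show (-6272 : ℤ) = (-1) * 2 * 2 * 2 * 2 * 2 * 2 * 2 * 7 * 7 by norm_num, legendreSym.mul, legendreSym.mul, legendreSym.mul, legendreSym.mul, legendreSym.mul, legendreSym.mul, legendreSym.mul, legendreSym.mul, legendreSym.mul, hn, ht2, ht7, sg_mul, sg_mul, sg_mul, sg_mul, sg_mul, sg_mul, sg_mul, sg_mul, sg_mul]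
    exact h.trans (congrArg sg (by cases n <;> cases t2 <;> cases t7 <;> rfl))
  have cm2275 : legendreSym P (-2275) = sg (n ^^ t7 ^^ t13) := by
    have h : legendreSym P (-2275) = sg ((((n ^^ t5) ^^ t5) ^^ t7) ^^ t13) := by
      rw [show (-2275 : ℤ) = (-1) * 5 * 5 * 7 * 13 by norm_num, legendreSym.mul, legendreSym.mul, legendreSym.mul, legendreSym.mul, hn, ht5, ht7, ht13, sg_mul, sg_mul, sg_mul, sg_mul]
    exact h.trans (congrArg sg (by cases n <;> cases t5 <;> cases t7 <;> cases t13 <;> rfl))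
  have cm182 : legendreSym P (-182) = sg (n ^^ t2 ^^ t7 ^^ t13) := by
    have h : legendreSym P (-182) = sg (((n ^^ t2) ^^ t7) ^^ t13) := by
      rw [show (-182 : ℤ) = (-1) * 2 * 7 * 13 by norm_num, legendreSym.mul, legendreSym.mul, legendreSym.mul, hn, ht2, ht7, ht13, sg_mul, sg_mul, sg_mul]
    exact h.trans (congrArg sg (by cases n <;> cases t2 <;> cases t7 <;> cases t13 <;> rfl))
  have cm98 : legendreSym P (-98) = sg (n ^^ t2) := by
    have h : legendreSym P (-98) = sg (((n ^^ t2) ^^ t7) ^^ t7) := by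
      rw [show (-98 : ℤ) = (-1) * 2 * 7 * 7 by norm_num, legendreSym.mul, legendreSym.mul, legendreSym.mul, hn, ht2, ht7, sg_mul, sg_mul, sg_mul]
    exact h.trans (congrArg sg (by cases n <;> cases t2 <;> cases t7 <;> rfl))
  have cm1 : legendreSym P (-1) = sg (n) := hn
  have c9 : legendreSym P 9 = sg (false) := by
    have h : legendreSym P 9 = sg (t3 ^^ t3) := by
      rw [show (9 : ℤ) = 3 * 3 by norm_num, legendreSym.mul, ht3, sg_mul]
    exact h.trans (congrArg sg (by cases t3 <;> rfl))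
  have c169 : legendreSym P 169 = sg (false) := by
    have h : legendreSym P 169 = sg (t13 ^^ t13) := by
      rw [show (169 : ℤ) = 13 * 13 by norm_num, legendreSym.mul, ht13, sg_mul]
    exact h.trans (congrArg sg (by cases t13 <;> rfl))
  have c728 : legendreSym P 728 = sg (t2 ^^ t7 ^^ t13) := by
    have h : legendreSym P 728 = sg ((((t2 ^^ t2) ^^ t2) ^^ t7) ^^ t13) := by
      rw [show (728 : ℤ) = 2 * 2 * 2 * 7 * 13 by norm_num, legendreSym.mul, legendreSym.mul, legendreSym.mul, legendreSym.mul, ht2, ht7, ht13, sg_mul, sg_mul, sg_mul, sg_mul]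
    exact h.trans (congrArg sg (by cases t2 <;> cases t7 <;> cases t13 <;> rfl))
  have c819 : legendreSym P 819 = sg (t7 ^^ t13) := by
    have h : legendreSym P 819 = sg (((t3 ^^ t3) ^^ t7) ^^ t13) := by
      rw [show (819 : ℤ) = 3 * 3 * 7 * 13 by norm_num, legendreSym.mul, legendreSym.mul, legendreSym.mul, ht3, ht7, ht13, sg_mul, sg_mul, sg_mul]
    exact h.trans (congrArg sg (by cases t3 <;> cases t7 <;> cases t13 <;> rfl))
  have c4225 : legendreSym P 4225 = sg (false) := by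
    have h : legendreSym P 4225 = sg (((t5 ^^ t5) ^^ t13) ^^ t13) := by
      rw [show (4225 : ℤ) = 5 * 5 * 13 * 13 by norm_num, legendreSym.mul, legendreSym.mul, legendreSym.mul, ht5, ht13, sg_mul, sg_mul, sg_mul]
    exact h.trans (congrArg sg (by cases t5 <;> cases t13 <;> rfl))
  have c16562 : legendreSym P 16562 = sg (t2) := by
    have h : legendreSym P 16562 = sg ((((t2 ^^ t7) ^^ t7) ^^ t13) ^^ t13) := by
      rw [show (16562 : ℤ) = 2 * 7 * 7 * 13 * 13 by norm_num, legendreSym.mul, legendreSym.mul, legendreSym.mul, legendreSym.mul, ht2, ht7, ht13, sg_mul, sg_mul, sg_mul, sg_mul]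
    exact h.trans (congrArg sg (by cases t2 <;> cases t7 <;> cases t13 <;> rfl))
  exact ⟨chi_val (c := 9) (k := (-1)) (m := 2 * τ) (by linear_combination (1) * eq + (2) * hP) c9 cm1 hv,
    chi_val (c := 1) (k := 16562) (m := 10557 * τ) (by linear_combination (1) * eA4 + (-16562) * eq + (10557) * hP) chi_one c16562 hv,
    chi_val (c := 9) (k := 728) (m := 425 * τ) (by linear_combination (9) * eR1 + (-728) * eq + (425) * hP) c9 c728 hv,
    chi_val (c := 1) (k := (-182)) (m := 5589 * τ) (by linear_combination (1) * eR2 + (182) * eq + (5589) * hP) chi_one cm182 hv,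
    chi_val (c := 1) (k := (-2275)) (m := 4968 * τ) (by linear_combination (1) * eR3 + (2275) * eq + (4968) * hP) chi_one cm2275 hv,
    chi_val (c := 1) (k := 819) (m := 34 * τ) (by linear_combination (1) * eR4 + (-819) * eq + (34) * hP) chi_one c819 hv,
    chi_val (c := 1) (k := 4225) (m := 7038 * τ) (by linear_combination (1) * eS1 + (-4225) * eq + (7038) * hP) chi_one c4225 hv,
    chi_val (c := 1) (k := 169) (m := 384 * τ) (by linear_combination (1) * eS2 + (-169) * eq + (384) * hP) chi_one c169 hv,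
    chi_val (c := 1) (k := (-98)) (m := 75 * τ) (by linear_combination (1) * eS3 + (98) * eq + (75) * hP) chi_one cm98 hv,
    chi_val (c := 1) (k := (-6272)) (m := 3519 * τ) (by linear_combination (1) * eS4 + (6272) * eq + (3519) * hP) chi_one cm6272 hv⟩

theorem sym_A4 {P : ℕ} [Fact P.Prime] {τ p q w A3 S1 S2 S3 S4 : ℤ}
    (hP : 69347 * p + 43681 * w = τ * P) (eq : q = p + 2 * w)
    (eA3 : A3 = 5 * p + w)
    (eS1 : S1 = 39415 * p + 15488 * w)
    (eS2 : S2 = 2089 * p + 722 * w)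
    (eS3 : S3 = 277 * p - 121 * w)
    (eS4 : S4 = 11323 * p - 9025 * w)
    {n t2 t3 t5 t7 t11 t13 t17 t19 t23 v : Bool}
    (hn : legendreSym P (-1) = sg n)
    (ht2 : legendreSym P 2 = sg t2)
    (ht3 : legendreSym P 3 = sg t3)
    (ht5 : legendreSym P 5 = sg t5)
    (ht7 : legendreSym P 7 = sg t7)
    (ht11 : legendreSym P 11 = sg t11)
    (ht13 : legendreSym P 13 = sg t13)
    (ht17 : legendreSym P 17 = sg t17)
    (ht19 : legendreSym P 19 = sg t19)
    (ht23 : legendreSym P 23 = sg t23)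
    (hv : legendreSym P q = sg v) :
    legendreSym P p = sg ((t3 ^^ t17 ^^ t23) ^^ ((n) ^^ v)) ∧
    legendreSym P A3 = sg ((t3 ^^ t17 ^^ t23) ^^ ((n ^^ t2) ^^ v)) ∧
    legendreSym P S1 = sg ((t3) ^^ ((n) ^^ v)) ∧
    legendreSym P S2 = sg ((t17 ^^ t23) ^^ ((n) ^^ v)) ∧
    legendreSym P S3 = sg ((t17 ^^ t23) ^^ ((n ^^ t2) ^^ v)) ∧
    legendreSym P S4 = sg ((t3) ^^ ((n ^^ t2) ^^ v)) := by
  have cm1525225 : legendreSym P (-1525225) = sg (n) := by
    have h : legendreSym P (-1525225) = sg ((((((n ^^ t5) ^^ t5) ^^ t13) ^^ t13) ^^ t19) ^^ t19) := by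
      rw [show (-1525225 : ℤ) = (-1) * 5 * 5 * 13 * 13 * 19 * 19 by norm_num, legendreSym.mul, legendreSym.mul, legendreSym.mul, legendreSym.mul, legendreSym.mul, legendreSym.mul, hn, ht5, ht13, ht19, sg_mul, sg_mul, sg_mul, sg_mul, sg_mul, sg_mul]
    exact h.trans (congrArg sg (by cases n <;> cases t5 <;> cases t13 <;> cases t19 <;> rfl))
  have cm758912 : legendreSym P (-758912) = sg (n ^^ t2) := by
    have h : legendreSym P (-758912) = sg (((((((((((n ^^ t2) ^^ t2) ^^ t2) ^^ t2) ^^ t2) ^^ t2) ^^ t2) ^^ t7) ^^ t7) ^^ t11) ^^ t11) := by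
      rw [show (-758912 : ℤ) = (-1) * 2 * 2 * 2 * 2 * 2 * 2 * 2 * 7 * 7 * 11 * 11 by norm_num, legendreSym.mul, legendreSym.mul, legendreSym.mul, legendreSym.mul, legendreSym.mul, legendreSym.mul, legendreSym.mul, legendreSym.mul, legendreSym.mul, legendreSym.mul, legendreSym.mul, hn, ht2, ht7, ht11, sg_mul, sg_mul, sg_mul, sg_mul, sg_mul, sg_mul, sg_mul, sg_mul, sg_mul, sg_mul, sg_mul]
    exact h.trans (congrArg sg (by cases n <;> cases t2 <;> cases t7 <;> cases t11 <;> rfl))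
  have cm43681 : legendreSym P (-43681) = sg (n) := by
    have h : legendreSym P (-43681) = sg ((((n ^^ t11) ^^ t11) ^^ t19) ^^ t19) := by
      rw [show (-43681 : ℤ) = (-1) * 11 * 11 * 19 * 19 by norm_num, legendreSym.mul, legendreSym.mul, legendreSym.mul, legendreSym.mul, hn, ht11, ht19, sg_mul, sg_mul, sg_mul, sg_mul]
    exact h.trans (congrArg sg (by cases n <;> cases t11 <;> cases t19 <;> rfl))
  have cm35378 : legendreSym P (-35378) = sg (n ^^ t2) := by
    have h : legendreSym P (-35378) = sg (((((n ^^ t2) ^^ t7) ^^ t7) ^^ t19) ^^ t19) := by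
      rw [show (-35378 : ℤ) = (-1) * 2 * 7 * 7 * 19 * 19 by norm_num, legendreSym.mul, legendreSym.mul, legendreSym.mul, legendreSym.mul, legendreSym.mul, hn, ht2, ht7, ht19, sg_mul, sg_mul, sg_mul, sg_mul, sg_mul]
    exact h.trans (congrArg sg (by cases n <;> cases t2 <;> cases t7 <;> cases t19 <;> rfl))
  have cm20449 : legendreSym P (-20449) = sg (n) := by
    have h : legendreSym P (-20449) = sg ((((n ^^ t11) ^^ t11) ^^ t13) ^^ t13) := by
      rw [show (-20449 : ℤ) = (-1) * 11 * 11 * 13 * 13 by norm_num, legendreSym.mul, legendreSym.mul, legendreSym.mul, legendreSym.mul, hn, ht11, ht13, sg_mul, sg_mul, sg_mul, sg_mul]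
    exact h.trans (congrArg sg (by cases n <;> cases t11 <;> cases t13 <;> rfl))
  have cm16562 : legendreSym P (-16562) = sg (n ^^ t2) := by
    have h : legendreSym P (-16562) = sg (((((n ^^ t2) ^^ t7) ^^ t7) ^^ t13) ^^ t13) := by
      rw [show (-16562 : ℤ) = (-1) * 2 * 7 * 7 * 13 * 13 by norm_num, legendreSym.mul, legendreSym.mul, legendreSym.mul, legendreSym.mul, legendreSym.mul, hn, ht2, ht7, ht13, sg_mul, sg_mul, sg_mul, sg_mul, sg_mul]
    exact h.trans (congrArg sg (by cases n <;> cases t2 <;> cases t7 <;> cases t13 <;> rfl))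
  have c3 : legendreSym P 3 = sg (t3) := ht3
  have c3519 : legendreSym P 3519 = sg (t17 ^^ t23) := by
    have h : legendreSym P 3519 = sg (((t3 ^^ t3) ^^ t17) ^^ t23) := by
      rw [show (3519 : ℤ) = 3 * 3 * 17 * 23 by norm_num, legendreSym.mul, legendreSym.mul, legendreSym.mul, ht3, ht17, ht23, sg_mul, sg_mul, sg_mul]
    exact h.trans (congrArg sg (by cases t3 <;> cases t17 <;> cases t23 <;> rfl))
  have c10557 : legendreSym P 10557 = sg (t3 ^^ t17 ^^ t23) := by
    have h : legendreSym P 10557 = sg ((((t3 ^^ t3) ^^ t3) ^^ t17) ^^ t23) := by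
      rw [show (10557 : ℤ) = 3 * 3 * 3 * 17 * 23 by norm_num, legendreSym.mul, legendreSym.mul, legendreSym.mul, legendreSym.mul, ht3, ht17, ht23, sg_mul, sg_mul, sg_mul, sg_mul]
    exact h.trans (congrArg sg (by cases t3 <;> cases t17 <;> cases t23 <;> rfl))
  have c95013 : legendreSym P 95013 = sg (t3 ^^ t17 ^^ t23) := by
    have h : legendreSym P 95013 = sg ((((((t3 ^^ t3) ^^ t3) ^^ t3) ^^ t3) ^^ t17) ^^ t23) := by
      rw [show (95013 : ℤ) = 3 * 3 * 3 * 3 * 3 * 17 * 23 by norm_num, legendreSym.mul, legendreSym.mul, legendreSym.mul, legendreSym.mul, legendreSym.mul, legendreSym.mul, ht3, ht17, ht23, sg_mul, sg_mul, sg_mul, sg_mul, sg_mul, sg_mul]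
    exact h.trans (congrArg sg (by cases t3 <;> cases t17 <;> cases t23 <;> rfl))
  exact ⟨chi_val (c := 95013) (k := (-43681)) (m := 2 * τ) (by linear_combination (43681) * eq + (2) * hP) c95013 cm43681 hv,
    chi_val (c := 10557) (k := (-16562)) (m := 1 * τ) (by linear_combination (10557) * eA3 + (16562) * eq + (1) * hP) c10557 cm16562 hv,
    chi_val (c := 3) (k := (-20449)) (m := 2 * τ) (by linear_combination (3) * eS1 + (20449) * eq + (2) * hP) c3 cm20449 hv,
    chi_val (c := 3519) (k := (-1525225)) (m := 128 * τ) (by linear_combination (3519) * eS2 + (1525225) * eq + (128) * hP) c3519 cm1525225 hv,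
    chi_val (c := 3519) (k := (-758912)) (m := 25 * τ) (by linear_combination (3519) * eS3 + (758912) * eq + (25) * hP) c3519 cm758912 hv,
    chi_val (c := 3) (k := (-35378)) (m := 1 * τ) (by linear_combination (3) * eS4 + (35378) * eq + (1) * hP) c3 cm35378 hv⟩

theorem sym_R4 {P : ℕ} [Fact P.Prime] {τ p q w A3 A4 S1 S2 S3 S4 : ℤ}
    (hP : 989 * p + 1672 * w = τ * P) (eq : q = p + 2 * w)
    (eA3 : A3 = 5 * p + w)
    (eA4 : A4 = 69347 * p + 43681 * w)
    (eS1 : S1 = 39415 * p + 15488 * w)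
    (eS2 : S2 = 2089 * p + 722 * w)
    (eS3 : S3 = 277 * p - 121 * w)
    (eS4 : S4 = 11323 * p - 9025 * w)
    {n t2 t3 t5 t7 t11 t13 t17 t19 t29 t37 v : Bool}
    (hn : legendreSym P (-1) = sg n)
    (ht2 : legendreSym P 2 = sg t2)
    (ht3 : legendreSym P 3 = sg t3)
    (ht5 : legendreSym P 5 = sg t5)
    (ht7 : legendreSym P 7 = sg t7)
    (ht11 : legendreSym P 11 = sg t11)
    (ht13 : legendreSym P 13 = sg t13)
    (ht17 : legendreSym P 17 = sg t17)
    (ht19 : legendreSym P 19 = sg t19)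
    (ht29 : legendreSym P 29 = sg t29)
    (ht37 : legendreSym P 37 = sg t37)
    (hv : legendreSym P q = sg v) :
    legendreSym P p = sg ((t17) ^^ ((n ^^ t11 ^^ t19) ^^ v)) ∧
    legendreSym P A3 = sg ((t2 ^^ t17) ^^ ((n ^^ t7 ^^ t13) ^^ v)) ∧
    legendreSym P A4 = sg ((t2) ^^ ((n ^^ t7 ^^ t11 ^^ t13 ^^ t19) ^^ v)) ∧
    legendreSym P S1 = sg ((false) ^^ ((n ^^ t11 ^^ t13) ^^ v)) ∧
    legendreSym P S2 = sg ((t17) ^^ ((n ^^ t13 ^^ t19) ^^ v)) ∧
    legendreSym P S3 = sg ((t2 ^^ t17) ^^ ((n ^^ t7 ^^ t11) ^^ v)) ∧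
    legendreSym P S4 = sg ((t2) ^^ ((n ^^ t7 ^^ t19) ^^ v)) := by
  have cm475475 : legendreSym P (-475475) = sg (n ^^ t7 ^^ t11 ^^ t13 ^^ t19) := by
    have h : legendreSym P (-475475) = sg ((((((n ^^ t5) ^^ t5) ^^ t7) ^^ t11) ^^ t13) ^^ t19) := by
      rw [show (-475475 : ℤ) = (-1) * 5 * 5 * 7 * 11 * 13 * 19 by norm_num, legendreSym.mul, legendreSym.mul, legendreSym.mul, legendreSym.mul, legendreSym.mul, legendreSym.mul, hn, ht5, ht7, ht11, ht13, ht19, sg_mul, sg_mul, sg_mul, sg_mul, sg_mul, sg_mul]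
    exact h.trans (congrArg sg (by cases n <;> cases t5 <;> cases t7 <;> cases t11 <;> cases t13 <;> cases t19 <;> rfl))
  have cm182077 : legendreSym P (-182077) = sg (n ^^ t7 ^^ t19) := by
    have h : legendreSym P (-182077) = sg ((((n ^^ t7) ^^ t19) ^^ t37) ^^ t37) := by
      rw [show (-182077 : ℤ) = (-1) * 7 * 19 * 37 * 37 by norm_num, legendreSym.mul, legendreSym.mul, legendreSym.mul, legendreSym.mul, hn, ht7, ht19, ht37, sg_mul, sg_mul, sg_mul, sg_mul]
    exact h.trans (congrArg sg (by cases n <;> cases t7 <;> cases t19 <;> cases t37 <;> rfl))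
  have cm165308 : legendreSym P (-165308) = sg (n ^^ t11 ^^ t13) := by
    have h : legendreSym P (-165308) = sg ((((((n ^^ t2) ^^ t2) ^^ t11) ^^ t13) ^^ t17) ^^ t17) := by
      rw [show (-165308 : ℤ) = (-1) * 2 * 2 * 11 * 13 * 17 * 17 by norm_num, legendreSym.mul, legendreSym.mul, legendreSym.mul, legendreSym.mul, legendreSym.mul, legendreSym.mul, hn, ht2, ht11, ht13, ht17, sg_mul, sg_mul, sg_mul, sg_mul, sg_mul, sg_mul]
    exact h.trans (congrArg sg (by cases n <;> cases t2 <;> cases t11 <;> cases t13 <;> cases t17 <;> rfl))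
  have cm154375 : legendreSym P (-154375) = sg (n ^^ t13 ^^ t19) := by
    have h : legendreSym P (-154375) = sg ((((((n ^^ t5) ^^ t5) ^^ t5) ^^ t5) ^^ t13) ^^ t19) := by
      rw [show (-154375 : ℤ) = (-1) * 5 * 5 * 5 * 5 * 13 * 19 by norm_num, legendreSym.mul, legendreSym.mul, legendreSym.mul, legendreSym.mul, legendreSym.mul, legendreSym.mul, hn, ht5, ht13, ht19, sg_mul, sg_mul, sg_mul, sg_mul, sg_mul, sg_mul]
    exact h.trans (congrArg sg (by cases n <;> cases t5 <;> cases t13 <;> cases t19 <;> rfl))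
  have cm64757 : legendreSym P (-64757) = sg (n ^^ t7 ^^ t11) := by
    have h : legendreSym P (-64757) = sg ((((n ^^ t7) ^^ t11) ^^ t29) ^^ t29) := by
      rw [show (-64757 : ℤ) = (-1) * 7 * 11 * 29 * 29 by norm_num, legendreSym.mul, legendreSym.mul, legendreSym.mul, legendreSym.mul, hn, ht7, ht11, ht29, sg_mul, sg_mul, sg_mul, sg_mul]
    exact h.trans (congrArg sg (by cases n <;> cases t7 <;> cases t11 <;> cases t29 <;> rfl))
  have cm836 : legendreSym P (-836) = sg (n ^^ t11 ^^ t19) := by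
    have h : legendreSym P (-836) = sg ((((n ^^ t2) ^^ t2) ^^ t11) ^^ t19) := by
      rw [show (-836 : ℤ) = (-1) * 2 * 2 * 11 * 19 by norm_num, legendreSym.mul, legendreSym.mul, legendreSym.mul, legendreSym.mul, hn, ht2, ht11, ht19, sg_mul, sg_mul, sg_mul, sg_mul]
    exact h.trans (congrArg sg (by cases n <;> cases t2 <;> cases t11 <;> cases t19 <;> rfl))
  have cm819 : legendreSym P (-819) = sg (n ^^ t7 ^^ t13) := by
    have h : legendreSym P (-819) = sg ((((n ^^ t3) ^^ t3) ^^ t7) ^^ t13) := by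
      rw [show (-819 : ℤ) = (-1) * 3 * 3 * 7 * 13 by norm_num, legendreSym.mul, legendreSym.mul, legendreSym.mul, legendreSym.mul, hn, ht3, ht7, ht13, sg_mul, sg_mul, sg_mul, sg_mul]
    exact h.trans (congrArg sg (by cases n <;> cases t3 <;> cases t7 <;> cases t13 <;> rfl))
  have c2 : legendreSym P 2 = sg (t2) := ht2
  have c17 : legendreSym P 17 = sg (t17) := ht17
  have c34 : legendreSym P 34 = sg (t2 ^^ t17) := by
    have h : legendreSym P 34 = sg (t2 ^^ t17) := by
      rw [show (34 : ℤ) = 2 * 17 by norm_num, legendreSym.mul, ht2, ht17, sg_mul]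
    exact h.trans (congrArg sg (by cases t2 <;> cases t17 <;> rfl))
  have c153 : legendreSym P 153 = sg (t17) := by
    have h : legendreSym P 153 = sg ((t3 ^^ t3) ^^ t17) := by
      rw [show (153 : ℤ) = 3 * 3 * 17 by norm_num, legendreSym.mul, legendreSym.mul, ht3, ht17, sg_mul, sg_mul]
    exact h.trans (congrArg sg (by cases t3 <;> cases t17 <;> rfl))
  exact ⟨chi_val (c := 153) (k := (-836)) (m := 1 * τ) (by linear_combination (836) * eq + (1) * hP) c153 cm836 hv,
    chi_val (c := 34) (k := (-819)) (m := 1 * τ) (by linear_combination (34) * eA3 + (819) * eq + (1) * hP) c34 cm819 hv,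
    chi_val (c := 2) (k := (-475475)) (m := 621 * τ) (by linear_combination (2) * eA4 + (475475) * eq + (621) * hP) c2 cm475475 hv,
    chi_val (c := 1) (k := (-165308)) (m := 207 * τ) (by linear_combination (1) * eS1 + (165308) * eq + (207) * hP) chi_one cm165308 hv,
    chi_val (c := 17) (k := (-154375)) (m := 192 * τ) (by linear_combination (17) * eS2 + (154375) * eq + (192) * hP) c17 cm154375 hv,
    chi_val (c := 34) (k := (-64757)) (m := 75 * τ) (by linear_combination (34) * eS3 + (64757) * eq + (75) * hP) c34 cm64757 hv,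
    chi_val (c := 2) (k := (-182077)) (m := 207 * τ) (by linear_combination (2) * eS4 + (182077) * eq + (207) * hP) c2 cm182077 hv⟩

theorem sym_S2 {P : ℕ} [Fact P.Prime] {τ p q w A3 A4 R1 R2 R3 R4 : ℤ}
    (hP : 2089 * p + 722 * w = τ * P) (eq : q = p + 2 * w)
    (eA3 : A3 = 5 * p + w)
    (eA4 : A4 = 69347 * p + 43681 * w)
    (eR1 : R1 = 317 * p + 209 * w)
    (eR2 : R2 = 27763 * p + 5225 * w)
    (eR3 : R3 = 22565 * p + 418 * w)
    (eR4 : R4 = 989 * p + 1672 * w)
    {n t2 t3 t5 t13 t17 t19 t29 t37 v : Bool}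
    (hn : legendreSym P (-1) = sg n)
    (ht2 : legendreSym P 2 = sg t2)
    (ht3 : legendreSym P 3 = sg t3)
    (ht5 : legendreSym P 5 = sg t5)
    (ht13 : legendreSym P 13 = sg t13)
    (ht17 : legendreSym P 17 = sg t17)
    (ht19 : legendreSym P 19 = sg t19)
    (ht29 : legendreSym P 29 = sg t29)
    (ht37 : legendreSym P 37 = sg t37)
    (hv : legendreSym P q = sg v) :
    legendreSym P p = sg ((t3) ^^ ((n) ^^ v)) ∧
    legendreSym P A3 = sg ((t2 ^^ t3) ^^ ((n) ^^ v)) ∧
    legendreSym P A4 = sg ((t2) ^^ ((false) ^^ v)) ∧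
    legendreSym P R1 = sg ((t2 ^^ t3) ^^ ((t13 ^^ t19) ^^ v)) ∧
    legendreSym P R2 = sg ((t2) ^^ ((n ^^ t13 ^^ t19) ^^ v)) ∧
    legendreSym P R3 = sg ((false) ^^ ((n ^^ t13 ^^ t19) ^^ v)) ∧
    legendreSym P R4 = sg ((t3) ^^ ((t13 ^^ t19) ^^ v)) := by
  have cm338143 : legendreSym P (-338143) = sg (n ^^ t13 ^^ t19) := by
    have h : legendreSym P (-338143) = sg ((((n ^^ t13) ^^ t19) ^^ t37) ^^ t37) := by
      rw [show (-338143 : ℤ) = (-1) * 13 * 19 * 37 * 37 by norm_num, legendreSym.mul, legendreSym.mul, legendreSym.mul, legendreSym.mul, hn, ht13, ht19, ht37, sg_mul, sg_mul, sg_mul, sg_mul]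
    exact h.trans (congrArg sg (by cases n <;> cases t13 <;> cases t19 <;> cases t37 <;> rfl))
  have cm71383 : legendreSym P (-71383) = sg (n ^^ t13 ^^ t19) := by
    have h : legendreSym P (-71383) = sg ((((n ^^ t13) ^^ t17) ^^ t17) ^^ t19) := by
      rw [show (-71383 : ℤ) = (-1) * 13 * 17 * 17 * 19 by norm_num, legendreSym.mul, legendreSym.mul, legendreSym.mul, legendreSym.mul, hn, ht13, ht17, ht19, sg_mul, sg_mul, sg_mul, sg_mul]
    exact h.trans (congrArg sg (by cases n <;> cases t13 <;> cases t17 <;> cases t19 <;> rfl))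
  have cm361 : legendreSym P (-361) = sg (n) := by
    have h : legendreSym P (-361) = sg ((n ^^ t19) ^^ t19) := by
      rw [show (-361 : ℤ) = (-1) * 19 * 19 by norm_num, legendreSym.mul, legendreSym.mul, hn, ht19, sg_mul, sg_mul]
    exact h.trans (congrArg sg (by cases n <;> cases t19 <;> rfl))
  have cm169 : legendreSym P (-169) = sg (n) := by
    have h : legendreSym P (-169) = sg ((n ^^ t13) ^^ t13) := by
      rw [show (-169 : ℤ) = (-1) * 13 * 13 by norm_num, legendreSym.mul, legendreSym.mul, hn, ht13, sg_mul, sg_mul]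
    exact h.trans (congrArg sg (by cases n <;> cases t13 <;> rfl))
  have c16 : legendreSym P 16 = sg (false) := by
    have h : legendreSym P 16 = sg (((t2 ^^ t2) ^^ t2) ^^ t2) := by
      rw [show (16 : ℤ) = 2 * 2 * 2 * 2 by norm_num, legendreSym.mul, legendreSym.mul, legendreSym.mul, ht2, sg_mul, sg_mul, sg_mul]
    exact h.trans (congrArg sg (by cases t2 <;> rfl))
  have c128 : legendreSym P 128 = sg (t2) := by
    have h : legendreSym P 128 = sg ((((((t2 ^^ t2) ^^ t2) ^^ t2) ^^ t2) ^^ t2) ^^ t2) := by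
      rw [show (128 : ℤ) = 2 * 2 * 2 * 2 * 2 * 2 * 2 by norm_num, legendreSym.mul, legendreSym.mul, legendreSym.mul, legendreSym.mul, legendreSym.mul, legendreSym.mul, ht2, sg_mul, sg_mul, sg_mul, sg_mul, sg_mul, sg_mul]
    exact h.trans (congrArg sg (by cases t2 <;> rfl))
  have c192 : legendreSym P 192 = sg (t3) := by
    have h : legendreSym P 192 = sg ((((((t2 ^^ t2) ^^ t2) ^^ t2) ^^ t2) ^^ t2) ^^ t3) := by
      rw [show (192 : ℤ) = 2 * 2 * 2 * 2 * 2 * 2 * 3 by norm_num, legendreSym.mul, legendreSym.mul, legendreSym.mul, legendreSym.mul, legendreSym.mul, legendreSym.mul, ht2, ht3, sg_mul, sg_mul, sg_mul, sg_mul, sg_mul, sg_mul]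
    exact h.trans (congrArg sg (by cases t2 <;> cases t3 <;> rfl))
  have c384 : legendreSym P 384 = sg (t2 ^^ t3) := by
    have h : legendreSym P 384 = sg (((((((t2 ^^ t2) ^^ t2) ^^ t2) ^^ t2) ^^ t2) ^^ t2) ^^ t3) := by
      rw [show (384 : ℤ) = 2 * 2 * 2 * 2 * 2 * 2 * 2 * 3 by norm_num, legendreSym.mul, legendreSym.mul, legendreSym.mul, legendreSym.mul, legendreSym.mul, legendreSym.mul, legendreSym.mul, ht2, ht3, sg_mul, sg_mul, sg_mul, sg_mul, sg_mul, sg_mul, sg_mul]
    exact h.trans (congrArg sg (by cases t2 <;> cases t3 <;> rfl))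
  have c1728 : legendreSym P 1728 = sg (t3) := by
    have h : legendreSym P 1728 = sg ((((((((t2 ^^ t2) ^^ t2) ^^ t2) ^^ t2) ^^ t2) ^^ t3) ^^ t3) ^^ t3) := by
      rw [show (1728 : ℤ) = 2 * 2 * 2 * 2 * 2 * 2 * 3 * 3 * 3 by norm_num, legendreSym.mul, legendreSym.mul, legendreSym.mul, legendreSym.mul, legendreSym.mul, legendreSym.mul, legendreSym.mul, legendreSym.mul, ht2, ht3, sg_mul, sg_mul, sg_mul, sg_mul, sg_mul, sg_mul, sg_mul, sg_mul]
    exact h.trans (congrArg sg (by cases t2 <;> cases t3 <;> rfl))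
  have c3456 : legendreSym P 3456 = sg (t2 ^^ t3) := by
    have h : legendreSym P 3456 = sg (((((((((t2 ^^ t2) ^^ t2) ^^ t2) ^^ t2) ^^ t2) ^^ t2) ^^ t3) ^^ t3) ^^ t3) := by
      rw [show (3456 : ℤ) = 2 * 2 * 2 * 2 * 2 * 2 * 2 * 3 * 3 * 3 by norm_num, legendreSym.mul, legendreSym.mul, legendreSym.mul, legendreSym.mul, legendreSym.mul, legendreSym.mul, legendreSym.mul, legendreSym.mul, legendreSym.mul, ht2, ht3, sg_mul, sg_mul, sg_mul, sg_mul, sg_mul, sg_mul, sg_mul, sg_mul, sg_mul]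
    exact h.trans (congrArg sg (by cases t2 <;> cases t3 <;> rfl))
  have c154375 : legendreSym P 154375 = sg (t13 ^^ t19) := by
    have h : legendreSym P 154375 = sg (((((t5 ^^ t5) ^^ t5) ^^ t5) ^^ t13) ^^ t19) := by
      rw [show (154375 : ℤ) = 5 * 5 * 5 * 5 * 13 * 19 by norm_num, legendreSym.mul, legendreSym.mul, legendreSym.mul, legendreSym.mul, legendreSym.mul, ht5, ht13, ht19, sg_mul, sg_mul, sg_mul, sg_mul, sg_mul]
    exact h.trans (congrArg sg (by cases t5 <;> cases t13 <;> cases t19 <;> rfl))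
  have c207727 : legendreSym P 207727 = sg (t13 ^^ t19) := by
    have h : legendreSym P 207727 = sg (((t13 ^^ t19) ^^ t29) ^^ t29) := by
      rw [show (207727 : ℤ) = 13 * 19 * 29 * 29 by norm_num, legendreSym.mul, legendreSym.mul, legendreSym.mul, ht13, ht19, ht29, sg_mul, sg_mul, sg_mul]
    exact h.trans (congrArg sg (by cases t13 <;> cases t19 <;> cases t29 <;> rfl))
  have c1525225 : legendreSym P 1525225 = sg (false) := by
    have h : legendreSym P 1525225 = sg (((((t5 ^^ t5) ^^ t13) ^^ t13) ^^ t19) ^^ t19) := by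
      rw [show (1525225 : ℤ) = 5 * 5 * 13 * 13 * 19 * 19 by norm_num, legendreSym.mul, legendreSym.mul, legendreSym.mul, legendreSym.mul, legendreSym.mul, ht5, ht13, ht19, sg_mul, sg_mul, sg_mul, sg_mul, sg_mul]
    exact h.trans (congrArg sg (by cases t5 <;> cases t13 <;> cases t19 <;> rfl))
  exact ⟨chi_val (c := 1728) (k := (-361)) (m := 1 * τ) (by linear_combination (361) * eq + (1) * hP) c1728 cm361 hv,
    chi_val (c := 384) (k := (-169)) (m := 1 * τ) (by linear_combination (384) * eA3 + (169) * eq + (1) * hP) c384 cm169 hv,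
    chi_val (c := 128) (k := 1525225) (m := 3519 * τ) (by linear_combination (128) * eA4 + (-1525225) * eq + (3519) * hP) c128 c1525225 hv,
    chi_val (c := 3456) (k := 207727) (m := 425 * τ) (by linear_combination (3456) * eR1 + (-207727) * eq + (425) * hP) c3456 c207727 hv,
    chi_val (c := 128) (k := (-338143)) (m := 1863 * τ) (by linear_combination (128) * eR2 + (338143) * eq + (1863) * hP) c128 cm338143 hv,
    chi_val (c := 16) (k := (-71383)) (m := 207 * τ) (by linear_combination (16) * eR3 + (71383) * eq + (207) * hP) c16 cm71383 hv,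
    chi_val (c := 192) (k := 154375) (m := 17 * τ) (by linear_combination (192) * eR4 + (-154375) * eq + (17) * hP) c192 c154375 hv⟩

theorem sym_S3 {P : ℕ} [Fact P.Prime] {τ p q w A3 A4 R1 R2 R3 R4 : ℤ}
    (hP : 277 * p - 121 * w = τ * P) (eq : q = p + 2 * w)
    (eA3 : A3 = 5 * p + w)
    (eA4 : A4 = 69347 * p + 43681 * w)
    (eR1 : R1 = 317 * p + 209 * w)
    (eR2 : R2 = 27763 * p + 5225 * w)
    (eR3 : R3 = 22565 * p + 418 * w)
    (eR4 : R4 = 989 * p + 1672 * w)
    {t2 t3 t5 t7 t11 t17 t29 t37 v : Bool}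
    (ht2 : legendreSym P 2 = sg t2)
    (ht3 : legendreSym P 3 = sg t3)
    (ht5 : legendreSym P 5 = sg t5)
    (ht7 : legendreSym P 7 = sg t7)
    (ht11 : legendreSym P 11 = sg t11)
    (ht17 : legendreSym P 17 = sg t17)
    (ht29 : legendreSym P 29 = sg t29)
    (ht37 : legendreSym P 37 = sg t37)
    (hv : legendreSym P q = sg v) :
    legendreSym P p = sg ((t3) ^^ ((false) ^^ v)) ∧
    legendreSym P A3 = sg ((t3) ^^ ((t2) ^^ v)) ∧
    legendreSym P A4 = sg ((false) ^^ ((t2) ^^ v)) ∧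
    legendreSym P R1 = sg ((t3) ^^ ((t2 ^^ t7 ^^ t11) ^^ v)) ∧
    legendreSym P R2 = sg ((false) ^^ ((t2 ^^ t7 ^^ t11) ^^ v)) ∧
    legendreSym P R3 = sg ((false) ^^ ((t7 ^^ t11) ^^ v)) ∧
    legendreSym P R4 = sg ((t3) ^^ ((t7 ^^ t11) ^^ v)) := by
  have c25 : legendreSym P 25 = sg (false) := by
    have h : legendreSym P 25 = sg (t5 ^^ t5) := by
      rw [show (25 : ℤ) = 5 * 5 by norm_num, legendreSym.mul, ht5, sg_mul]
    exact h.trans (congrArg sg (by cases t5 <;> rfl))
  have c27 : legendreSym P 27 = sg (t3) := by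
    have h : legendreSym P 27 = sg ((t3 ^^ t3) ^^ t3) := by
      rw [show (27 : ℤ) = 3 * 3 * 3 by norm_num, legendreSym.mul, legendreSym.mul, ht3, sg_mul, sg_mul]
    exact h.trans (congrArg sg (by cases t3 <;> rfl))
  have c75 : legendreSym P 75 = sg (t3) := by
    have h : legendreSym P 75 = sg ((t3 ^^ t5) ^^ t5) := by
      rw [show (75 : ℤ) = 3 * 5 * 5 by norm_num, legendreSym.mul, legendreSym.mul, ht3, ht5, sg_mul, sg_mul]
    exact h.trans (congrArg sg (by cases t3 <;> cases t5 <;> rfl))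
  have c98 : legendreSym P 98 = sg (t2) := by
    have h : legendreSym P 98 = sg ((t2 ^^ t7) ^^ t7) := by
      rw [show (98 : ℤ) = 2 * 7 * 7 by norm_num, legendreSym.mul, legendreSym.mul, ht2, ht7, sg_mul, sg_mul]
    exact h.trans (congrArg sg (by cases t2 <;> cases t7 <;> rfl))
  have c121 : legendreSym P 121 = sg (false) := by
    have h : legendreSym P 121 = sg (t11 ^^ t11) := by
      rw [show (121 : ℤ) = 11 * 11 by norm_num, legendreSym.mul, ht11, sg_mul]
    exact h.trans (congrArg sg (by cases t11 <;> rfl))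
  have c675 : legendreSym P 675 = sg (t3) := by
    have h : legendreSym P 675 = sg ((((t3 ^^ t3) ^^ t3) ^^ t5) ^^ t5) := by
      rw [show (675 : ℤ) = 3 * 3 * 3 * 5 * 5 by norm_num, legendreSym.mul, legendreSym.mul, legendreSym.mul, legendreSym.mul, ht3, ht5, sg_mul, sg_mul, sg_mul, sg_mul]
    exact h.trans (congrArg sg (by cases t3 <;> cases t5 <;> rfl))
  have c3850 : legendreSym P 3850 = sg (t2 ^^ t7 ^^ t11) := by
    have h : legendreSym P 3850 = sg ((((t2 ^^ t5) ^^ t5) ^^ t7) ^^ t11) := by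
      rw [show (3850 : ℤ) = 2 * 5 * 5 * 7 * 11 by norm_num, legendreSym.mul, legendreSym.mul, legendreSym.mul, legendreSym.mul, ht2, ht5, ht7, ht11, sg_mul, sg_mul, sg_mul, sg_mul]
    exact h.trans (congrArg sg (by cases t2 <;> cases t5 <;> cases t7 <;> cases t11 <;> rfl))
  have c64757 : legendreSym P 64757 = sg (t7 ^^ t11) := by
    have h : legendreSym P 64757 = sg (((t7 ^^ t11) ^^ t29) ^^ t29) := by
      rw [show (64757 : ℤ) = 7 * 11 * 29 * 29 by norm_num, legendreSym.mul, legendreSym.mul, legendreSym.mul, ht7, ht11, ht29, sg_mul, sg_mul, sg_mul]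
    exact h.trans (congrArg sg (by cases t7 <;> cases t11 <;> cases t29 <;> rfl))
  have c105413 : legendreSym P 105413 = sg (t7 ^^ t11) := by
    have h : legendreSym P 105413 = sg (((t7 ^^ t11) ^^ t37) ^^ t37) := by
      rw [show (105413 : ℤ) = 7 * 11 * 37 * 37 by norm_num, legendreSym.mul, legendreSym.mul, legendreSym.mul, ht7, ht11, ht37, sg_mul, sg_mul, sg_mul]
    exact h.trans (congrArg sg (by cases t7 <;> cases t11 <;> cases t37 <;> rfl))
  have c178024 : legendreSym P 178024 = sg (t2 ^^ t7 ^^ t11) := by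
    have h : legendreSym P 178024 = sg ((((((t2 ^^ t2) ^^ t2) ^^ t7) ^^ t11) ^^ t17) ^^ t17) := by
      rw [show (178024 : ℤ) = 2 * 2 * 2 * 7 * 11 * 17 * 17 by norm_num, legendreSym.mul, legendreSym.mul, legendreSym.mul, legendreSym.mul, legendreSym.mul, legendreSym.mul, ht2, ht7, ht11, ht17, sg_mul, sg_mul, sg_mul, sg_mul, sg_mul, sg_mul]
    exact h.trans (congrArg sg (by cases t2 <;> cases t7 <;> cases t11 <;> cases t17 <;> rfl))
  have c758912 : legendreSym P 758912 = sg (t2) := by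
    have h : legendreSym P 758912 = sg ((((((((((t2 ^^ t2) ^^ t2) ^^ t2) ^^ t2) ^^ t2) ^^ t2) ^^ t7) ^^ t7) ^^ t11) ^^ t11) := by
      rw [show (758912 : ℤ) = 2 * 2 * 2 * 2 * 2 * 2 * 2 * 7 * 7 * 11 * 11 by norm_num, legendreSym.mul, legendreSym.mul, legendreSym.mul, legendreSym.mul, legendreSym.mul, legendreSym.mul, legendreSym.mul, legendreSym.mul, legendreSym.mul, legendreSym.mul, ht2, ht7, ht11, sg_mul, sg_mul, sg_mul, sg_mul, sg_mul, sg_mul, sg_mul, sg_mul, sg_mul, sg_mul]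
    exact h.trans (congrArg sg (by cases t2 <;> cases t7 <;> cases t11 <;> rfl))
  exact ⟨chi_val (c := 675) (k := 121) (m := 2 * τ) (by linear_combination (-121) * eq + (2) * hP) c675 c121 hv,
    chi_val (c := 75) (k := 98) (m := 1 * τ) (by linear_combination (75) * eA3 + (-98) * eq + (1) * hP) c75 c98 hv,
    chi_val (c := 25) (k := 758912) (m := 3519 * τ) (by linear_combination (25) * eA4 + (-758912) * eq + (3519) * hP) c25 c758912 hv,
    chi_val (c := 27) (k := 3850) (m := 17 * τ) (by linear_combination (27) * eR1 + (-3850) * eq + (17) * hP) c27 c3850 hv,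
    chi_val (c := 25) (k := 178024) (m := 1863 * τ) (by linear_combination (25) * eR2 + (-178024) * eq + (1863) * hP) c25 c178024 hv,
    chi_val (c := 25) (k := 105413) (m := 1656 * τ) (by linear_combination (25) * eR3 + (-105413) * eq + (1656) * hP) c25 c105413 hv,
    chi_val (c := 75) (k := 64757) (m := 34 * τ) (by linear_combination (75) * eR4 + (-64757) * eq + (34) * hP) c75 c64757 hv⟩

end Pool.Agent.H23.Seven
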