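import Pool.Agent.H23.SixD

/-!
# The rank six family: independent points
-/

namespace Pool.Agent.H23

theorem mem_glob_of {a b d c : ℤ} (hb : b = d * c) (hd : Squarefree d) {N M e : ℤ} (he : e ≠ 0)
    (h : N ^ 2 = d * M ^ 4 + a * M ^ 2 * e ^ 2 + c * e ^ 4) : d ∈ Glob a b := by
  refine ⟨hd, ⟨c, hb⟩, (N : ℚ), (M : ℚ), (e : ℚ), Or.inr (by exact_mod_cast he), ?_⟩
  rw [hb, Int.mul_ediv_cancel_left _ hd.ne_zero]
  exact_mod_cast h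

theorem le_card_glob4 {a b : ℤ} (hb : b ≠ 0) (hd : a ^ 2 - 4 * b ≠ 0) {P1 P2 P3 P4 : ℤ}
    (hP1 : Prime P1) (hP2 : Prime P2) (hP3 : Prime P3) (hP4 : Prime P4) {D1 D2 D3 D4 : ℤ}
    (hD1 : D1 ∈ Glob a b) (hD2 : D2 ∈ Glob a b) (hD3 : D3 ∈ Glob a b) (hD4 : D4 ∈ Glob a b)
    (h11 : P1 ∣ D1) (h21 : ¬ P2 ∣ D1) (h31 : ¬ P3 ∣ D1) (h41 : ¬ P4 ∣ D1)
    (h12 : ¬ P1 ∣ D2) (h22 : P2 ∣ D2) (h32 : ¬ P3 ∣ D2) (h42 : ¬ P4 ∣ D2)
    (h13 : ¬ P1 ∣ D3) (h23 : ¬ P2 ∣ D3) (h33 : P3 ∣ D3) (h43 : ¬ P4 ∣ D3)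
    (h14 : ¬ P1 ∣ D4) (h24 : ¬ P2 ∣ D4) (h34 : ¬ P3 ∣ D4) (h44 : P4 ∣ D4) :
    2 ^ 4 ≤ (Glob a b).ncard := by
  apply le_card_glob hb hd ![P1, P2, P3, P4] _ ![D1, D2, D3, D4]
  · intro i; fin_cases i <;> assumption
  · intro i j
    fin_cases i <;> fin_cases j <;> simp <;> assumption
  · intro i; fin_cases i <;> assumption

theorem sqf_cons {g n : ℤ} (hg : Prime g) (hn : Squarefree n) (h : ¬ g ∣ n) :
    Squarefree (g * n) := by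
  rw [squarefree_mul_iff]
  exact ⟨((Prime.coprime_iff_not_dvd hg).mpr h).isRelPrime, hg.irreducible.squarefree, hn⟩

theorem sqf_neg {n : ℤ} (hn : Squarefree n) : Squarefree (-n) := by
  rw [← Int.squarefree_natAbs, Int.natAbs_neg, Int.squarefree_natAbs]; exact hn

end Pool.Agent.H23

namespace Pool.Agent.H23.Six.Dat

variable (D : Dat)

theorem b_ne : D.b ≠ 0 := D.b_pos.ne'

theorem disc_ne : D.a ^ 2 - 4 * D.b ≠ 0 := by
  rw [disc]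
  have h1 := D.A_pos
  have h2 := D.pS1.pos
  have h3 := D.pS2.pos
  have h4 := D.S3_ne
  have h5 := D.S4_ne
  exact neg_ne_zero.mpr (mul_ne_zero h1.ne' (mul_ne_zero (mul_ne_zero (mul_ne_zero
    (by positivity) (by positivity)) h4) h5))

theorem low_E : 2 ^ 4 ≤ (Glob D.a D.b).ncard := by
  have z : ∀ {n : ℕ}, n.Prime → Prime (n : ℤ) := fun h => Nat.prime_iff_prime_int.mp h
  obtain ⟨⟨l1, l2, l3, l4, l5, l6⟩, ⟨l7, l8, l9, l10, l11, l12, l13⟩,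
    ⟨l14, l15, l16, l17, l18⟩⟩ := D.distinct_lt
  obtain ⟨n12, n13⟩ := D.ne_s34
  have hnpq := D.ne_pq
  have p7 := D.p_ge
  have q7 := D.q_ge
  have eP := D.zP2
  have nd : ∀ {P Q : ℕ}, P.Prime → Q.Prime → P ≠ Q → ¬ (P : ℤ) ∣ (Q : ℤ) :=
    fun h1 h2 h3 => nd_prime h1 h2 h3
  have g1 : ((D.p : ℤ) * (D.q * (D.A3 * D.A4))) ∈ Glob D.a D.b := by
    refine mem_glob_of (c := 8 * (D.R1 * D.P2 * D.R3 * D.R4))
      (N := 3888 * D.p ^ 2 + 5544 * D.p * D.q + 1078 * D.q ^ 2) (M := 1) (e := 1)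
      (by rw [b]; ring) ?_ one_ne_zero ?_
    · exact sqf_cons (z D.pp) (sqf_cons (z D.pq) (sqf_cons (z D.pA3) (z D.pA4).irreducible.squarefree
        (nd D.pA3 D.pA4 (by omega))) (nd_mul D.pq (nd D.pq D.pA3 (by omega))
        (nd D.pq D.pA4 (by omega)))) (nd_mul D.pp (nd D.pp D.pq (by omega))
        (nd_mul D.pp (nd D.pp D.pA3 (by omega)) (nd D.pp D.pA4 (by omega))))
    · rw [a, D.zA3, D.zA4, D.zR1, D.zR3, D.zR4]
      linear_combination (4 * ((72 * (D.p : ℤ) + 77 * D.q) * (54 * D.p + 11 * D.q) *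
        (36 * D.p + 49 * D.q))) * eP
  have g2 : ((2 : ℤ) * (D.p * (D.q * (D.R1 * D.P2)))) ∈ Glob D.a D.b := by
    refine mem_glob_of (c := 4 * (D.A3 * D.A4 * D.R3 * D.R4))
      (N := 3888 * D.p ^ 2 + 4473 * D.p * D.q + 1078 * D.q ^ 2) (M := 3) (e := 1)
      (by rw [b]; ring) ?_ one_ne_zero ?_
    · exact sqf_cons Int.prime_two (sqf_cons (z D.pp) (sqf_cons (z D.pq) (sqf_cons (z D.pR1)
        (z D.pP2).irreducible.squarefree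
        (nd D.pR1 D.pP2 (by omega))) (nd_mul D.pq (nd D.pq D.pR1 (by omega))
        (nd D.pq D.pP2 (by omega)))) (nd_mul D.pp (nd D.pp D.pq (by omega))
        (nd_mul D.pp (nd D.pp D.pR1 (by omega)) (nd D.pp D.pP2 (by omega)))))
        (nd_mul Nat.prime_two (nd Nat.prime_two D.pp (by omega)) (nd_mul Nat.prime_two
        (nd Nat.prime_two D.pq (by omega)) (nd_mul Nat.prime_two (nd Nat.prime_two D.pR1 (by omega))
        (nd Nat.prime_two D.pP2 (by omega)))))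
    · rw [a, D.zA3, D.zA4, D.zR1, D.zR3, D.zR4]
      linear_combination (81 * ((D.p : ℤ) * D.q * (72 * (D.p : ℤ) + 77 * D.q))) * eP
  have g3 : ((D.p : ℤ) * (D.A3 * (D.R1 * D.R4))) ∈ Glob D.a D.b := by
    refine mem_glob_of (c := 8 * (D.q * D.A4 * D.P2 * D.R3))
      (N := 216 * D.p ^ 2 + 300 * D.p * D.q + 154 * D.q ^ 2) (M := 1) (e := 1)
      (by rw [b]; ring) ?_ one_ne_zero ?_
    · exact sqf_cons (z D.pp) (sqf_cons (z D.pA3) (sqf_cons (z D.pR1) (z D.pR4).irreducible.squarefree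
        (nd D.pR1 D.pR4 (by omega))) (nd_mul D.pA3 (nd D.pA3 D.pR1 (by omega))
        (nd D.pA3 D.pR4 (by omega)))) (nd_mul D.pp (nd D.pp D.pA3 (by omega))
        (nd_mul D.pp (nd D.pp D.pR1 (by omega)) (nd D.pp D.pR4 (by omega))))
    · rw [a, D.zA3, D.zA4, D.zR1, D.zR3, D.zR4]
      linear_combination (4 * ((D.q : ℤ) * (108 * D.p + 77 * D.q) * (54 * D.p + 11 * D.q))) * eP
  have g4 : ((D.q : ℤ) * (D.A3 * (D.R1 * D.R3))) ∈ Glob D.a D.b := by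
    refine mem_glob_of (c := 8 * (D.p * D.A4 * D.P2 * D.R4))
      (N := 648 * D.p ^ 2 - 330 * D.p * D.q - 308 * D.q ^ 2) (M := 2) (e := 1)
      (by rw [b]; ring) ?_ one_ne_zero ?_
    · exact sqf_cons (z D.pq) (sqf_cons (z D.pA3) (sqf_cons (z D.pR1) (z D.pR3).irreducible.squarefree
        (nd D.pR1 D.pR3 (by omega))) (nd_mul D.pA3 (nd D.pA3 D.pR1 (by omega))
        (nd D.pA3 D.pR3 (by omega)))) (nd_mul D.pq (nd D.pq D.pA3 (by omega))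
        (nd_mul D.pq (nd D.pq D.pR1 (by omega)) (nd D.pq D.pR3 (by omega))))
    · rw [a, D.zA3, D.zA4, D.zR1, D.zR3, D.zR4]
      linear_combination (4 * ((D.p : ℤ) * (108 * D.p + 77 * D.q) * (36 * D.p + 49 * D.q))) * eP
  have nm4 : ∀ {P Q1 Q2 Q3 Q4 : ℕ}, P.Prime → Q1.Prime → Q2.Prime → Q3.Prime → Q4.Prime →
      P ≠ Q1 → P ≠ Q2 → P ≠ Q3 → P ≠ Q4 → ¬ (P : ℤ) ∣ (Q1 : ℤ) * (Q2 * (Q3 * Q4)) :=
    fun h h1 h2 h3 h4 m1 m2 m3 m4 => nd_mul h (nd h h1 m1) (nd_mul h (nd h h2 m2)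
      (nd_mul h (nd h h3 m3) (nd h h4 m4)))
  have n2 : ∀ {P : ℕ}, P.Prime → P ≠ 2 → ¬ (P : ℤ) ∣ (2 : ℤ) := fun h h2 => by
    have := nd h Nat.prime_two h2
    exact_mod_cast this
  refine le_card_glob4 D.b_ne D.disc_ne (z D.pA4) (z D.pP2) (z D.pR4) (z D.pR3) g1 g2 g3 g4
    ⟨D.p * (D.q * D.A3), by ring⟩ ?_ ?_ ?_ ?_ ⟨2 * (D.p * (D.q * D.R1)), by ring⟩ ?_ ?_ ?_ ?_
    ⟨D.p * (D.A3 * D.R1), by ring⟩ ?_ ?_ ?_ ?_ ⟨D.q * (D.A3 * D.R1), by ring⟩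
  · exact nm4 D.pP2 D.pp D.pq D.pA3 D.pA4 (by omega) (by omega) (by omega) (by omega)
  · exact nm4 D.pR4 D.pp D.pq D.pA3 D.pA4 (by omega) (by omega) (by omega) (by omega)
  · exact nm4 D.pR3 D.pp D.pq D.pA3 D.pA4 (by omega) (by omega) (by omega) (by omega)
  · exact nd_mul D.pA4 (n2 D.pA4 (by omega)) (nm4 D.pA4 D.pp D.pq D.pR1 D.pP2 (by omega) (by omega)
      (by omega) (by omega))
  · exact nd_mul D.pR4 (n2 D.pR4 (by omega)) (nm4 D.pR4 D.pp D.pq D.pR1 D.pP2 (by omega) (by omega)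
      (by omega) (by omega))
  · exact nd_mul D.pR3 (n2 D.pR3 (by omega)) (nm4 D.pR3 D.pp D.pq D.pR1 D.pP2 (by omega) (by omega)
      (by omega) (by omega))
  · exact nm4 D.pA4 D.pp D.pA3 D.pR1 D.pR4 (by omega) (by omega) (by omega) (by omega)
  · exact nm4 D.pP2 D.pp D.pA3 D.pR1 D.pR4 (by omega) (by omega) (by omega) (by omega)
  · exact nm4 D.pR3 D.pp D.pA3 D.pR1 D.pR4 (by omega) (by omega) (by omega) n13
  · exact nm4 D.pA4 D.pq D.pA3 D.pR1 D.pR3 (by omega) (by omega) (by omega) (by omega)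
  · exact nm4 D.pP2 D.pq D.pA3 D.pR1 D.pR3 (by omega) (by omega) (by omega) (by omega)
  · exact nm4 D.pR4 D.pq D.pA3 D.pR1 D.pR3 (by omega) (by omega) (by omega) (fun h => n13 h.symm)

end Pool.Agent.H23.Six.Dat
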