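import Pool.Agent.H23.SevBase
import Pool.Agent.H23.SixLow

/-!
# The rank seven family: coefficients and the symbols of `q`
-/

namespace Pool.Agent.H23.Seven

theorem mult_row {P : ℕ} [hP : Fact P.Prime] {a b d X : ℤ} (hX : a ^ 2 - 4 * b = P * X)
    (hp2 : P ≠ 2) (hdb : d ∣ b) (hnX : ¬ (P : ℤ) ∣ X) (hnb : ¬ (P : ℤ) ∣ b)
    (h : QSol ℚ_[P] a b d) : legendreSym P d = 1 := by
  apply legendre_mult hp2 hdb ⟨X, hX⟩ _ hnb h
  rw [hX, pow_two]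
  intro h
  exact hnX ((mul_dvd_mul_iff_left (by exact_mod_cast hP.1.ne_zero)).mp h)

theorem chi_four {P : ℕ} [hP : Fact P.Prime] {c : Bool} (h : legendreSym P 2 = sg c) :
    legendreSym P 4 = sg false := by
  rw [show (4 : ℤ) = 2 * 2 by norm_num, legendreSym.mul, h, sg_mul]
  exact congrArg sg (by cases c <;> rfl)

theorem pw_two_dvd (e : Bool) : pw e 2 ∣ 4 := by cases e <;> decide

theorem pw_neg_dvd (e : Bool) : pw e (-1) ∣ -1 := by cases e <;> decide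

theorem nd_two_pow {P : ℕ} (hP : P.Prime) (h2 : P ≠ 2) (n : ℕ) : ¬ (P : ℤ) ∣ 2 ^ n := by
  intro h1
  have h2' : P ∣ 2 ^ n := by exact_mod_cast h1
  have h3 : P ∣ 2 := hP.dvd_of_dvd_pow h2'
  exact h2 ((Nat.prime_dvd_prime_iff_eq hP Nat.prime_two).mp h3)

theorem nd_four {P : ℕ} (hP : P.Prime) (h2 : P ≠ 2) : ¬ (P : ℤ) ∣ 4 := by
  have := nd_two_pow hP h2 2
  norm_num at this
  exact this

theorem nd_64 {P : ℕ} (hP : P.Prime) (h2 : P ≠ 2) : ¬ (P : ℤ) ∣ 64 := by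
  have := nd_two_pow hP h2 6
  norm_num at this
  exact this

theorem nd_neg_one {P : ℕ} (hP : P.Prime) : ¬ (P : ℤ) ∣ -1 := by
  intro h
  rw [dvd_neg] at h
  exact (Nat.prime_iff_prime_int.mp hP).not_isUnit (isUnit_of_dvd_one h)

namespace Dat

variable (D : Dat)

/-- The signed third form. -/
def S3 : ℤ := 277 * D.p - 121 * D.w
/-- The signed fourth form. -/
def S4 : ℤ := 11323 * D.p - 9025 * D.w
/-- The coefficient `a`. -/
def a : ℤ := -91205 * (D.p * D.q * D.A3 * D.A4)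
/-- The coefficient `b`. -/
def b : ℤ := 4 * (D.p * D.q * D.A3 * D.A4 * (D.R1 * D.R2 * D.R3 * D.R4))

theorem disc : D.a ^ 2 - 4 * D.b = -(D.p * D.q * D.A3 * D.A4 * (D.S1 * D.S2 * D.S3 * D.S4)) := by
  rw [a, b, D.eq, D.eA3, D.eA4, D.eR1, D.eR2, D.eR3, D.eR4, D.eS1, D.eS2, S3, S4]
  ring

theorem A_pos : (0 : ℤ) < D.p * D.q * D.A3 * D.A4 := by
  have h1 := D.pp.pos; have h2 := D.pq.pos; have h3 := D.pA3.pos; have h4 := D.pA4.pos
  positivity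

theorem b_pos : 0 < D.b := by
  have h0 := D.A_pos
  have h1 := D.pR1.pos; have h2 := D.pR2.pos; have h3 := D.pR3.pos; have h4 := D.pR4.pos
  rw [b]; positivity

theorem a_neg : D.a ≤ 0 := by
  have h0 := D.A_pos
  rw [a]; linarith

theorem S3_ne : D.S3 ≠ 0 := by
  have h := D.es3
  have h2 := D.ps3.pos
  rw [S3]; omega

theorem S4_ne : D.S4 ≠ 0 := by
  have h := D.es4
  have h2 := D.ps4.pos
  rw [S4]; omega

theorem nS3 {P : ℕ} (hP : P.Prime) (h : P ≠ D.s3) : ¬ (P : ℤ) ∣ D.S3 :=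
  nd_prime' hP D.ps3 h (by have := D.es3; rw [S3]; exact this)

theorem nS4 {P : ℕ} (hP : P.Prime) (h : P ≠ D.s4) : ¬ (P : ℤ) ∣ D.S4 :=
  nd_prime' hP D.ps4 h (by have := D.es4; rw [S4]; exact this)

theorem prime_S3 : Prime D.S3 := by
  rw [Int.prime_iff_natAbs_prime]
  have h : D.S3.natAbs = D.s3 := by have := D.es3; rw [S3]; omega
  rw [h]; exact D.ps3

theorem prime_S4 : Prime D.S4 := by
  rw [Int.prime_iff_natAbs_prime]
  have h : D.S4.natAbs = D.s4 := by have := D.es4; rw [S4]; omega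
  rw [h]; exact D.ps4

theorem ne2 : D.p ≠ 2 ∧ D.q ≠ 2 ∧ D.A3 ≠ 2 ∧ D.A4 ≠ 2 ∧ D.R4 ≠ 2 ∧ D.S2 ≠ 2 ∧ D.s3 ≠ 2 := by
  have h1 := D.p8; have h2 := D.q8; have h3 := D.A38; have h4 := D.A48; have h5 := D.R48
  have h6 := D.S28; have h7 := D.s3odd
  refine ⟨?_, ?_, ?_, ?_, ?_, ?_, ?_⟩ <;> omega

theorem v_q : legendreSym D.q D.p = sg (bt D.q D.p) := chi_of_prime D.pp D.ne_pq.symm

theorem v_p : legendreSym D.p D.q = sg (!bt D.q D.p) := by
  rw [rec_v D.v_q (rec_three D.q4 D.p4)]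
  cases bt D.q D.p <;> rfl

theorem symq :
    legendreSym D.q D.A3 = sg ((true) ^^ ((false) ^^ bt D.q D.p)) ∧
    legendreSym D.q D.A4 = sg ((true) ^^ ((bt D.q 3 ^^ bt D.q 17 ^^ bt D.q 23) ^^ bt D.q D.p)) ∧
    legendreSym D.q D.R1 = sg ((true) ^^ ((bt D.q 17) ^^ bt D.q D.p)) ∧
    legendreSym D.q D.R2 = sg ((true) ^^ ((bt D.q 3 ^^ bt D.q 23) ^^ bt D.q D.p)) ∧
    legendreSym D.q D.R3 = sg ((false) ^^ ((bt D.q 3 ^^ bt D.q 23) ^^ bt D.q D.p)) ∧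
    legendreSym D.q D.R4 = sg ((false) ^^ ((bt D.q 17) ^^ bt D.q D.p)) ∧
    legendreSym D.q D.S1 = sg ((false) ^^ ((bt D.q 17 ^^ bt D.q 23) ^^ bt D.q D.p)) ∧
    legendreSym D.q D.S2 = sg ((false) ^^ ((bt D.q 3) ^^ bt D.q D.p)) ∧
    legendreSym D.q D.S3 = sg ((true) ^^ ((bt D.q 3) ^^ bt D.q D.p)) ∧
    legendreSym D.q D.S4 = sg ((true) ^^ ((bt D.q 17 ^^ bt D.q 23) ^^ bt D.q D.p)) := by
  exact sym_q (P := D.q) (τ := 1) (p := D.p) (q := D.q) (w := D.w)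
      (by rw [D.eq]; ring) D.eA3 D.eA4 D.eR1 D.eR2 D.eR3 D.eR4 D.eS1 D.eS2 (show D.S3 = _ from rfl) (show D.S4 = _ from rfl) D.t_q_2 D.t_q_3 D.t_q_5 D.t_q_17 D.t_q_23 D.v_q

theorem v_A3 : legendreSym D.A3 D.q = sg (bt D.q D.p) := by
  obtain ⟨h, -⟩ := D.symq
  rw [rec_v h (rec_three D.q4 D.A34)]
  congr 1
  generalize bt D.q D.p = u0
  revert u0
  decide

theorem v_A4 : legendreSym D.A4 D.q = sg (!bt D.q D.p ^^ (bt D.q 3 ^^ (bt D.q 17 ^^ bt D.q 23))) := by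
  obtain ⟨-, h, -⟩ := D.symq
  rw [rec_v h (rec_one' (by have := D.q4; omega) D.A44)]
  congr 1
  generalize bt D.q D.p = u0
  generalize bt D.q 3 = u1
  generalize bt D.q 17 = u2
  generalize bt D.q 23 = u3
  revert u0 u1 u2 u3
  decide

theorem v_R4 : legendreSym D.R4 D.q = sg (bt D.q D.p ^^ !bt D.q 17) := by
  obtain ⟨-, -, -, -, -, h, -⟩ := D.symq
  rw [rec_v h (rec_three D.q4 D.R44)]
  congr 1
  generalize bt D.q D.p = u0
  generalize bt D.q 17 = u1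
  revert u0 u1
  decide

theorem v_S2 : legendreSym D.S2 D.q = sg (bt D.q D.p ^^ !bt D.q 3) := by
  obtain ⟨-, -, -, -, -, -, -, h, -⟩ := D.symq
  rw [rec_v h (rec_three D.q4 D.S24)]
  congr 1
  generalize bt D.q D.p = u0
  generalize bt D.q 3 = u1
  revert u0 u1
  decide

theorem v_s3 : legendreSym D.s3 D.q = sg (bt D.q D.p ^^ bt D.q 3) := by
  obtain ⟨-, -, -, -, -, -, -, -, h, -⟩ := D.symq
  rcases D.s38 with ⟨h3, h4⟩ | ⟨h3, h4⟩
  · have e : D.S3 = D.s3 := h3.symm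
    rw [e] at h
    rw [rec_v h (rec_three D.q4 (by omega))]
    congr 1
    generalize bt D.q D.p = u0
    generalize bt D.q 3 = u1
    revert u0 u1
    decide
  · have e : ((D.s3 : ℕ) : ℤ) = -1 * D.S3 := by rw [h3, S3]; ring
    have h' : legendreSym D.q D.s3 = sg (true ^^ ((true) ^^ ((bt D.q 3) ^^ bt D.q D.p))) := by
      rw [e, legendreSym.mul, D.t_q_n, h, sg_mul]
    rw [rec_v h' (rec_one' (by have := D.q4; omega) (by omega))]
    congr 1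
    generalize bt D.q D.p = u0
    generalize bt D.q 3 = u1
    revert u0 u1
    decide

end Dat

end Pool.Agent.H23.Seven
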