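import Pool.Agent.H23.SixData

/-!
# The rank six family: symbols of small primes
-/

namespace Pool.Agent.H23.Six.Dat

variable (D : Dat)

theorem h8 : (D.k = false ∧ D.p % 8 = 3 ∧ D.q % 8 = 3) ∨ (D.k = true ∧ D.p % 8 = 7 ∧ D.q % 8 = 7) := by
  rcases D.c24 with ⟨hk, h1, h2⟩ | ⟨hk, h1, h2⟩
  · exact Or.inl ⟨hk, by omega, by omega⟩
  · exact Or.inr ⟨hk, by omega, by omega⟩

theorem h3 : (D.k = false ∧ D.p % 3 = 2 ∧ D.q % 3 = 2) ∨ (D.k = true ∧ D.p % 3 = 1 ∧ D.q % 3 = 1) := by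
  rcases D.c24 with ⟨hk, h1, h2⟩ | ⟨hk, h1, h2⟩
  · exact Or.inl ⟨hk, by omega, by omega⟩
  · exact Or.inr ⟨hk, by omega, by omega⟩

theorem m8_q : (D.k = false ∧ D.q % 8 = 3) ∨ (D.k = true ∧ D.q % 8 = 7) := by
  rcases D.h8 with ⟨hk, h1, h2⟩ | ⟨hk, h1, h2⟩
  · exact Or.inl ⟨hk, h2⟩
  · exact Or.inr ⟨hk, h2⟩

theorem m3_q : (D.k = false ∧ D.q % 3 = 2) ∨ (D.k = true ∧ D.q % 3 = 1) := by
  rcases D.h3 with ⟨hk, h1, h2⟩ | ⟨hk, h1, h2⟩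
  · exact Or.inl ⟨hk, h2⟩
  · exact Or.inr ⟨hk, h2⟩

theorem m8_A3 : (D.k = false ∧ D.A3 % 8 = 3) ∨ (D.k = true ∧ D.A3 % 8 = 7) := by
  have h5 := D.eA3
  rcases D.h8 with ⟨hk, h1, h2⟩ | ⟨hk, h1, h2⟩
  · exact Or.inl ⟨hk, by omega⟩
  · exact Or.inr ⟨hk, by omega⟩

theorem m3_A3 : (D.k = false ∧ D.A3 % 3 = 2) ∨ (D.k = true ∧ D.A3 % 3 = 1) := by
  have h5 := D.eA3
  rcases D.h3 with ⟨hk, h1, h2⟩ | ⟨hk, h1, h2⟩
  · exact Or.inl ⟨hk, by omega⟩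
  · exact Or.inr ⟨hk, by omega⟩

theorem m8_A4 : (D.k = false ∧ D.A4 % 8 = 3) ∨ (D.k = true ∧ D.A4 % 8 = 7) := by
  have h5 := D.eA4
  rcases D.h8 with ⟨hk, h1, h2⟩ | ⟨hk, h1, h2⟩
  · exact Or.inl ⟨hk, by omega⟩
  · exact Or.inr ⟨hk, by omega⟩

theorem m3_A4 : (D.k = false ∧ D.A4 % 3 = 1) ∨ (D.k = true ∧ D.A4 % 3 = 2) := by
  have h5 := D.eA4
  rcases D.h3 with ⟨hk, h1, h2⟩ | ⟨hk, h1, h2⟩
  · exact Or.inl ⟨hk, by omega⟩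
  · exact Or.inr ⟨hk, by omega⟩

theorem m8_P2 : (D.k = false ∧ D.P2 % 4 = 3) ∨ (D.k = true ∧ D.P2 % 4 = 3) := by
  have h5 := D.eP2
  rcases D.h8 with ⟨hk, h1, h2⟩ | ⟨hk, h1, h2⟩
  · exact Or.inl ⟨hk, by omega⟩
  · exact Or.inr ⟨hk, by omega⟩

theorem m3_P2 : (D.k = false ∧ D.P2 % 3 = 1) ∨ (D.k = true ∧ D.P2 % 3 = 2) := by
  have h5 := D.eP2
  rcases D.h3 with ⟨hk, h1, h2⟩ | ⟨hk, h1, h2⟩
  · exact Or.inl ⟨hk, by omega⟩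
  · exact Or.inr ⟨hk, by omega⟩

theorem m8_R4 : (D.k = false ∧ D.R4 % 8 = 7) ∨ (D.k = true ∧ D.R4 % 8 = 3) := by
  have h5 := D.eR4
  rcases D.h8 with ⟨hk, h1, h2⟩ | ⟨hk, h1, h2⟩
  · exact Or.inl ⟨hk, by omega⟩
  · exact Or.inr ⟨hk, by omega⟩

theorem m3_R4 : (D.k = false ∧ D.R4 % 3 = 2) ∨ (D.k = true ∧ D.R4 % 3 = 1) := by
  have h5 := D.eR4
  rcases D.h3 with ⟨hk, h1, h2⟩ | ⟨hk, h1, h2⟩
  · exact Or.inl ⟨hk, by omega⟩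
  · exact Or.inr ⟨hk, by omega⟩

theorem m8_S1 : (D.k = false ∧ D.S1 % 8 = 7) ∨ (D.k = true ∧ D.S1 % 8 = 3) := by
  have h5 := D.eS1
  rcases D.h8 with ⟨hk, h1, h2⟩ | ⟨hk, h1, h2⟩
  · exact Or.inl ⟨hk, by omega⟩
  · exact Or.inr ⟨hk, by omega⟩

theorem m3_S1 : (D.k = false ∧ D.S1 % 3 = 2) ∨ (D.k = true ∧ D.S1 % 3 = 1) := by
  have h5 := D.eS1
  rcases D.h3 with ⟨hk, h1, h2⟩ | ⟨hk, h1, h2⟩
  · exact Or.inl ⟨hk, by omega⟩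
  · exact Or.inr ⟨hk, by omega⟩

theorem m8_S2 : (D.k = false ∧ D.S2 % 8 = 1) ∨ (D.k = true ∧ D.S2 % 8 = 5) := by
  have h5 := D.eS2
  rcases D.h8 with ⟨hk, h1, h2⟩ | ⟨hk, h1, h2⟩
  · exact Or.inl ⟨hk, by omega⟩
  · exact Or.inr ⟨hk, by omega⟩

theorem m3_S2 : (D.k = false ∧ D.S2 % 3 = 2) ∨ (D.k = true ∧ D.S2 % 3 = 1) := by
  have h5 := D.eS2
  rcases D.h3 with ⟨hk, h1, h2⟩ | ⟨hk, h1, h2⟩
  · exact Or.inl ⟨hk, by omega⟩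
  · exact Or.inr ⟨hk, by omega⟩

theorem m8_s4 : (D.k = false ∧ (D.s4 % 8 = 1 ∨ D.s4 % 8 = 7)) ∨ (D.k = true ∧ (D.s4 % 8 = 5 ∨ D.s4 % 8 = 3)) := by
  have h5 := D.es4
  rcases D.h8 with ⟨hk, h1, h2⟩ | ⟨hk, h1, h2⟩
  · exact Or.inl ⟨hk, by omega⟩
  · exact Or.inr ⟨hk, by omega⟩

theorem m12_s4 : (D.k = false ∧ (D.s4 % 12 = 1 ∨ D.s4 % 12 = 11)) ∨ (D.k = true ∧ (D.s4 % 12 = 5 ∨ D.s4 % 12 = 7)) := by
  have h5 := D.es4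
  have h6 : D.q % 12 = 11 ∧ D.k = false ∨ D.q % 12 = 7 ∧ D.k = true := by
    clear h5
    rcases D.c24 with ⟨hk, h1, h2⟩ | ⟨hk, h1, h2⟩
    · exact Or.inl ⟨by omega, hk⟩
    · exact Or.inr ⟨by omega, hk⟩
  rcases h6 with ⟨h2, hk⟩ | ⟨h2, hk⟩
  · exact Or.inl ⟨hk, by omega⟩
  · exact Or.inr ⟨hk, by omega⟩

theorem m5_A3 : (D.k = false ∧ (D.A3 % 5 = 2 ∨ D.A3 % 5 = 3)) ∨ (D.k = true ∧ (D.A3 % 5 = 1 ∨ D.A3 % 5 = 4)) := by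
  have h5 := D.eA3
  rcases D.c5 with ⟨hk, h1⟩ | ⟨hk, h1⟩
  · refine Or.inl ⟨hk, ?_⟩
    rcases h1 with h1 | h1 | h1 | h1 <;> obtain ⟨h1, h2⟩ := h1 <;> omega
  · refine Or.inr ⟨hk, ?_⟩
    rcases h1 with h1 | h1 | h1 | h1 <;> obtain ⟨h1, h2⟩ := h1 <;> omega

theorem m7_A3 : (D.k = false ∧ (D.A3 % 7 = 3 ∨ D.A3 % 7 = 5 ∨ D.A3 % 7 = 6)) ∨ (D.k = true ∧ (D.A3 % 7 = 1 ∨ D.A3 % 7 = 2 ∨ D.A3 % 7 = 4)) := by
  have h5 := D.eA3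
  rcases D.c7 with ⟨hk, h1⟩ | ⟨hk, h1⟩
  · refine Or.inl ⟨hk, ?_⟩
    rcases h1 with h1 | h1 | h1 <;> omega
  · refine Or.inr ⟨hk, ?_⟩
    rcases h1 with h1 | h1 | h1 <;> omega

theorem m5_A4 : (D.k = false ∧ (D.A4 % 5 = 2 ∨ D.A4 % 5 = 3)) ∨ (D.k = true ∧ (D.A4 % 5 = 1 ∨ D.A4 % 5 = 4)) := by
  have h5 := D.eA4
  rcases D.c5 with ⟨hk, h1⟩ | ⟨hk, h1⟩
  · refine Or.inl ⟨hk, ?_⟩
    rcases h1 with h1 | h1 | h1 | h1 <;> obtain ⟨h1, h2⟩ := h1 <;> omega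
  · refine Or.inr ⟨hk, ?_⟩
    rcases h1 with h1 | h1 | h1 | h1 <;> obtain ⟨h1, h2⟩ := h1 <;> omega

theorem m7_A4 : (D.k = false ∧ (D.A4 % 7 = 1 ∨ D.A4 % 7 = 2 ∨ D.A4 % 7 = 4)) ∨ (D.k = true ∧ (D.A4 % 7 = 3 ∨ D.A4 % 7 = 5 ∨ D.A4 % 7 = 6)) := by
  have h5 := D.eA4
  rcases D.c7 with ⟨hk, h1⟩ | ⟨hk, h1⟩
  · refine Or.inl ⟨hk, ?_⟩
    rcases h1 with h1 | h1 | h1 <;> omega
  · refine Or.inr ⟨hk, ?_⟩
    rcases h1 with h1 | h1 | h1 <;> omega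

theorem m5_P2 : (D.k = false ∧ (D.P2 % 5 = 2 ∨ D.P2 % 5 = 3)) ∨ (D.k = true ∧ (D.P2 % 5 = 1 ∨ D.P2 % 5 = 4)) := by
  have h5 := D.eP2
  rcases D.c5 with ⟨hk, h1⟩ | ⟨hk, h1⟩
  · refine Or.inl ⟨hk, ?_⟩
    rcases h1 with h1 | h1 | h1 | h1 <;> obtain ⟨h1, h2⟩ := h1 <;> omega
  · refine Or.inr ⟨hk, ?_⟩
    rcases h1 with h1 | h1 | h1 | h1 <;> obtain ⟨h1, h2⟩ := h1 <;> omega

theorem m7_P2 : (D.k = false ∧ (D.P2 % 7 = 1 ∨ D.P2 % 7 = 2 ∨ D.P2 % 7 = 4)) ∨ (D.k = true ∧ (D.P2 % 7 = 3 ∨ D.P2 % 7 = 5 ∨ D.P2 % 7 = 6)) := by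
  have h5 := D.eP2
  rcases D.c7 with ⟨hk, h1⟩ | ⟨hk, h1⟩
  · refine Or.inl ⟨hk, ?_⟩
    rcases h1 with h1 | h1 | h1 <;> omega
  · refine Or.inr ⟨hk, ?_⟩
    rcases h1 with h1 | h1 | h1 <;> omega

theorem m5_R4 : (D.k = false ∧ (D.R4 % 5 = 1 ∨ D.R4 % 5 = 4)) ∨ (D.k = true ∧ (D.R4 % 5 = 2 ∨ D.R4 % 5 = 3)) := by
  have h5 := D.eR4
  rcases D.c5 with ⟨hk, h1⟩ | ⟨hk, h1⟩
  · refine Or.inl ⟨hk, ?_⟩
    rcases h1 with h1 | h1 | h1 | h1 <;> obtain ⟨h1, h2⟩ := h1 <;> omega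
  · refine Or.inr ⟨hk, ?_⟩
    rcases h1 with h1 | h1 | h1 | h1 <;> obtain ⟨h1, h2⟩ := h1 <;> omega

theorem m7_R4 : (D.k = false ∧ (D.R4 % 7 = 3 ∨ D.R4 % 7 = 5 ∨ D.R4 % 7 = 6)) ∨ (D.k = true ∧ (D.R4 % 7 = 1 ∨ D.R4 % 7 = 2 ∨ D.R4 % 7 = 4)) := by
  have h5 := D.eR4
  rcases D.c7 with ⟨hk, h1⟩ | ⟨hk, h1⟩
  · refine Or.inl ⟨hk, ?_⟩
    rcases h1 with h1 | h1 | h1 <;> omega
  · refine Or.inr ⟨hk, ?_⟩
    rcases h1 with h1 | h1 | h1 <;> omega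

theorem m5_S1 : (D.k = false ∧ (D.S1 % 5 = 2 ∨ D.S1 % 5 = 3)) ∨ (D.k = true ∧ (D.S1 % 5 = 1 ∨ D.S1 % 5 = 4)) := by
  have h5 := D.eS1
  rcases D.c5 with ⟨hk, h1⟩ | ⟨hk, h1⟩
  · refine Or.inl ⟨hk, ?_⟩
    rcases h1 with h1 | h1 | h1 | h1 <;> obtain ⟨h1, h2⟩ := h1 <;> omega
  · refine Or.inr ⟨hk, ?_⟩
    rcases h1 with h1 | h1 | h1 | h1 <;> obtain ⟨h1, h2⟩ := h1 <;> omega

theorem m7_S1 : (D.k = false ∧ (D.S1 % 7 = 3 ∨ D.S1 % 7 = 5 ∨ D.S1 % 7 = 6)) ∨ (D.k = true ∧ (D.S1 % 7 = 1 ∨ D.S1 % 7 = 2 ∨ D.S1 % 7 = 4)) := by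
  have h5 := D.eS1
  rcases D.c7 with ⟨hk, h1⟩ | ⟨hk, h1⟩
  · refine Or.inl ⟨hk, ?_⟩
    rcases h1 with h1 | h1 | h1 <;> omega
  · refine Or.inr ⟨hk, ?_⟩
    rcases h1 with h1 | h1 | h1 <;> omega

theorem m5_S2 : (D.k = false ∧ (D.S2 % 5 = 2 ∨ D.S2 % 5 = 3)) ∨ (D.k = true ∧ (D.S2 % 5 = 1 ∨ D.S2 % 5 = 4)) := by
  have h5 := D.eS2
  rcases D.c5 with ⟨hk, h1⟩ | ⟨hk, h1⟩
  · refine Or.inl ⟨hk, ?_⟩
    rcases h1 with h1 | h1 | h1 | h1 <;> obtain ⟨h1, h2⟩ := h1 <;> omega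
  · refine Or.inr ⟨hk, ?_⟩
    rcases h1 with h1 | h1 | h1 | h1 <;> obtain ⟨h1, h2⟩ := h1 <;> omega

theorem m7_S2 : (D.k = false ∧ (D.S2 % 7 = 1 ∨ D.S2 % 7 = 2 ∨ D.S2 % 7 = 4)) ∨ (D.k = true ∧ (D.S2 % 7 = 3 ∨ D.S2 % 7 = 5 ∨ D.S2 % 7 = 6)) := by
  have h5 := D.eS2
  rcases D.c7 with ⟨hk, h1⟩ | ⟨hk, h1⟩
  · refine Or.inl ⟨hk, ?_⟩
    rcases h1 with h1 | h1 | h1 <;> omega
  · refine Or.inr ⟨hk, ?_⟩
    rcases h1 with h1 | h1 | h1 <;> omega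

theorem m5_s4 : (D.k = false ∧ (D.s4 % 5 = 2 ∨ D.s4 % 5 = 3)) ∨ (D.k = true ∧ (D.s4 % 5 = 1 ∨ D.s4 % 5 = 4)) := by
  have h5 := D.es4
  rcases D.c5 with ⟨hk, h1⟩ | ⟨hk, h1⟩
  · refine Or.inl ⟨hk, ?_⟩
    rcases h1 with h1 | h1 | h1 | h1 <;> obtain ⟨h1, h2⟩ := h1 <;> omega
  · refine Or.inr ⟨hk, ?_⟩
    rcases h1 with h1 | h1 | h1 | h1 <;> obtain ⟨h1, h2⟩ := h1 <;> omega

theorem base_q_n [Fact D.q.Prime] : legendreSym D.q (-1) = sg (true) := by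
  rcases D.m8_q with ⟨hk, h1⟩ | ⟨hk, h1⟩
  · exact chi_neg_one_neg (by omega)
  · exact chi_neg_one_neg (by omega)

theorem base_q_t2 [Fact D.q.Prime] : legendreSym D.q 2 = sg (!D.k) := by
  rcases D.m8_q with ⟨hk, h1⟩ | ⟨hk, h1⟩
  · rw [hk]; exact chi_two_neg (by omega)
  · rw [hk]; exact chi_two_pos (by omega)

theorem base_q_t3 [Fact D.q.Prime] : legendreSym D.q 3 = sg (D.k) := by
  have h2 := D.m8_q
  rcases D.m3_q with ⟨hk, h1⟩ | ⟨hk, h1⟩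
  · rw [hk]; exact chi_three_pos (by simp only [hk] at h2; omega)
  · rw [hk]; exact chi_three_neg (by simp only [hk] at h2; omega)

theorem base_A3_n [Fact D.A3.Prime] : legendreSym D.A3 (-1) = sg (true) := by
  rcases D.m8_A3 with ⟨hk, h1⟩ | ⟨hk, h1⟩
  · exact chi_neg_one_neg (by omega)
  · exact chi_neg_one_neg (by omega)

theorem base_A3_t2 [Fact D.A3.Prime] : legendreSym D.A3 2 = sg (!D.k) := by
  rcases D.m8_A3 with ⟨hk, h1⟩ | ⟨hk, h1⟩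
  · rw [hk]; exact chi_two_neg (by omega)
  · rw [hk]; exact chi_two_pos (by omega)

theorem base_A3_t3 [Fact D.A3.Prime] : legendreSym D.A3 3 = sg (D.k) := by
  have h2 := D.m8_A3
  rcases D.m3_A3 with ⟨hk, h1⟩ | ⟨hk, h1⟩
  · rw [hk]; exact chi_three_pos (by simp only [hk] at h2; omega)
  · rw [hk]; exact chi_three_neg (by simp only [hk] at h2; omega)

theorem base_A3_t5 [Fact D.A3.Prime] : legendreSym D.A3 5 = sg (!D.k) := by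
  have h2 := D.m8_A3
  have hodd : D.A3 % 2 = 1 := by omega
  rcases D.m5_A3 with ⟨hk, h1⟩ | ⟨hk, h1⟩
  · rw [hk]; exact chi_five_neg hodd h1
  · rw [hk]; exact chi_five_pos hodd h1

theorem base_A3_t7 [Fact D.A3.Prime] : legendreSym D.A3 7 = sg (D.k) := by
  have h2 := D.m8_A3
  rcases D.m7_A3 with ⟨hk, h1⟩ | ⟨hk, h1⟩
  · rw [hk]; exact chi_seven_pos (by simp only [hk] at h2; rcases h1 with h1 | h1 | h1 <;> omega)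
  · rw [hk]; exact chi_seven_neg (by simp only [hk] at h2; rcases h1 with h1 | h1 | h1 <;> omega)

theorem base_A4_n [Fact D.A4.Prime] : legendreSym D.A4 (-1) = sg (true) := by
  rcases D.m8_A4 with ⟨hk, h1⟩ | ⟨hk, h1⟩
  · exact chi_neg_one_neg (by omega)
  · exact chi_neg_one_neg (by omega)

theorem base_A4_t2 [Fact D.A4.Prime] : legendreSym D.A4 2 = sg (!D.k) := by
  rcases D.m8_A4 with ⟨hk, h1⟩ | ⟨hk, h1⟩
  · rw [hk]; exact chi_two_neg (by omega)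
  · rw [hk]; exact chi_two_pos (by omega)

theorem base_A4_t3 [Fact D.A4.Prime] : legendreSym D.A4 3 = sg (!D.k) := by
  have h2 := D.m8_A4
  rcases D.m3_A4 with ⟨hk, h1⟩ | ⟨hk, h1⟩
  · rw [hk]; exact chi_three_neg (by simp only [hk] at h2; omega)
  · rw [hk]; exact chi_three_pos (by simp only [hk] at h2; omega)

theorem base_A4_t5 [Fact D.A4.Prime] : legendreSym D.A4 5 = sg (!D.k) := by
  have h2 := D.m8_A4
  have hodd : D.A4 % 2 = 1 := by omega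
  rcases D.m5_A4 with ⟨hk, h1⟩ | ⟨hk, h1⟩
  · rw [hk]; exact chi_five_neg hodd h1
  · rw [hk]; exact chi_five_pos hodd h1

theorem base_A4_t7 [Fact D.A4.Prime] : legendreSym D.A4 7 = sg (!D.k) := by
  have h2 := D.m8_A4
  rcases D.m7_A4 with ⟨hk, h1⟩ | ⟨hk, h1⟩
  · rw [hk]; exact chi_seven_neg (by simp only [hk] at h2; rcases h1 with h1 | h1 | h1 <;> omega)
  · rw [hk]; exact chi_seven_pos (by simp only [hk] at h2; rcases h1 with h1 | h1 | h1 <;> omega)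

theorem base_P2_n [Fact D.P2.Prime] : legendreSym D.P2 (-1) = sg (true) := by
  rcases D.m8_P2 with ⟨hk, h1⟩ | ⟨hk, h1⟩
  · exact chi_neg_one_neg (by omega)
  · exact chi_neg_one_neg (by omega)

theorem base_P2_t3 [Fact D.P2.Prime] : legendreSym D.P2 3 = sg (!D.k) := by
  have h2 := D.m8_P2
  rcases D.m3_P2 with ⟨hk, h1⟩ | ⟨hk, h1⟩
  · rw [hk]; exact chi_three_neg (by simp only [hk] at h2; omega)
  · rw [hk]; exact chi_three_pos (by simp only [hk] at h2; omega)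

theorem base_P2_t5 [Fact D.P2.Prime] : legendreSym D.P2 5 = sg (!D.k) := by
  have h2 := D.m8_P2
  have hodd : D.P2 % 2 = 1 := by omega
  rcases D.m5_P2 with ⟨hk, h1⟩ | ⟨hk, h1⟩
  · rw [hk]; exact chi_five_neg hodd h1
  · rw [hk]; exact chi_five_pos hodd h1

theorem base_P2_t7 [Fact D.P2.Prime] : legendreSym D.P2 7 = sg (!D.k) := by
  have h2 := D.m8_P2
  rcases D.m7_P2 with ⟨hk, h1⟩ | ⟨hk, h1⟩
  · rw [hk]; exact chi_seven_neg (by simp only [hk] at h2; rcases h1 with h1 | h1 | h1 <;> omega)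
  · rw [hk]; exact chi_seven_pos (by simp only [hk] at h2; rcases h1 with h1 | h1 | h1 <;> omega)

theorem base_R4_n [Fact D.R4.Prime] : legendreSym D.R4 (-1) = sg (true) := by
  rcases D.m8_R4 with ⟨hk, h1⟩ | ⟨hk, h1⟩
  · exact chi_neg_one_neg (by omega)
  · exact chi_neg_one_neg (by omega)

theorem base_R4_t2 [Fact D.R4.Prime] : legendreSym D.R4 2 = sg (D.k) := by
  rcases D.m8_R4 with ⟨hk, h1⟩ | ⟨hk, h1⟩
  · rw [hk]; exact chi_two_pos (by omega)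
  · rw [hk]; exact chi_two_neg (by omega)

theorem base_R4_t3 [Fact D.R4.Prime] : legendreSym D.R4 3 = sg (D.k) := by
  have h2 := D.m8_R4
  rcases D.m3_R4 with ⟨hk, h1⟩ | ⟨hk, h1⟩
  · rw [hk]; exact chi_three_pos (by simp only [hk] at h2; omega)
  · rw [hk]; exact chi_three_neg (by simp only [hk] at h2; omega)

theorem base_R4_t5 [Fact D.R4.Prime] : legendreSym D.R4 5 = sg (D.k) := by
  have h2 := D.m8_R4
  have hodd : D.R4 % 2 = 1 := by omega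
  rcases D.m5_R4 with ⟨hk, h1⟩ | ⟨hk, h1⟩
  · rw [hk]; exact chi_five_pos hodd h1
  · rw [hk]; exact chi_five_neg hodd h1

theorem base_R4_t7 [Fact D.R4.Prime] : legendreSym D.R4 7 = sg (D.k) := by
  have h2 := D.m8_R4
  rcases D.m7_R4 with ⟨hk, h1⟩ | ⟨hk, h1⟩
  · rw [hk]; exact chi_seven_pos (by simp only [hk] at h2; rcases h1 with h1 | h1 | h1 <;> omega)
  · rw [hk]; exact chi_seven_neg (by simp only [hk] at h2; rcases h1 with h1 | h1 | h1 <;> omega)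

theorem base_S1_n [Fact D.S1.Prime] : legendreSym D.S1 (-1) = sg (true) := by
  rcases D.m8_S1 with ⟨hk, h1⟩ | ⟨hk, h1⟩
  · exact chi_neg_one_neg (by omega)
  · exact chi_neg_one_neg (by omega)

theorem base_S1_t2 [Fact D.S1.Prime] : legendreSym D.S1 2 = sg (D.k) := by
  rcases D.m8_S1 with ⟨hk, h1⟩ | ⟨hk, h1⟩
  · rw [hk]; exact chi_two_pos (by omega)
  · rw [hk]; exact chi_two_neg (by omega)

theorem base_S1_t3 [Fact D.S1.Prime] : legendreSym D.S1 3 = sg (D.k) := by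
  have h2 := D.m8_S1
  rcases D.m3_S1 with ⟨hk, h1⟩ | ⟨hk, h1⟩
  · rw [hk]; exact chi_three_pos (by simp only [hk] at h2; omega)
  · rw [hk]; exact chi_three_neg (by simp only [hk] at h2; omega)

theorem base_S1_t5 [Fact D.S1.Prime] : legendreSym D.S1 5 = sg (!D.k) := by
  have h2 := D.m8_S1
  have hodd : D.S1 % 2 = 1 := by omega
  rcases D.m5_S1 with ⟨hk, h1⟩ | ⟨hk, h1⟩
  · rw [hk]; exact chi_five_neg hodd h1
  · rw [hk]; exact chi_five_pos hodd h1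

theorem base_S1_t7 [Fact D.S1.Prime] : legendreSym D.S1 7 = sg (D.k) := by
  have h2 := D.m8_S1
  rcases D.m7_S1 with ⟨hk, h1⟩ | ⟨hk, h1⟩
  · rw [hk]; exact chi_seven_pos (by simp only [hk] at h2; rcases h1 with h1 | h1 | h1 <;> omega)
  · rw [hk]; exact chi_seven_neg (by simp only [hk] at h2; rcases h1 with h1 | h1 | h1 <;> omega)

theorem base_S2_n [Fact D.S2.Prime] : legendreSym D.S2 (-1) = sg (false) := by
  rcases D.m8_S2 with ⟨hk, h1⟩ | ⟨hk, h1⟩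
  · exact chi_neg_one_pos (by omega)
  · exact chi_neg_one_pos (by omega)

theorem base_S2_t2 [Fact D.S2.Prime] : legendreSym D.S2 2 = sg (D.k) := by
  rcases D.m8_S2 with ⟨hk, h1⟩ | ⟨hk, h1⟩
  · rw [hk]; exact chi_two_pos (by omega)
  · rw [hk]; exact chi_two_neg (by omega)

theorem base_S2_t3 [Fact D.S2.Prime] : legendreSym D.S2 3 = sg (!D.k) := by
  have h2 := D.m8_S2
  rcases D.m3_S2 with ⟨hk, h1⟩ | ⟨hk, h1⟩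
  · rw [hk]; exact chi_three_neg (by simp only [hk] at h2; omega)
  · rw [hk]; exact chi_three_pos (by simp only [hk] at h2; omega)

theorem base_S2_t5 [Fact D.S2.Prime] : legendreSym D.S2 5 = sg (!D.k) := by
  have h2 := D.m8_S2
  have hodd : D.S2 % 2 = 1 := by omega
  rcases D.m5_S2 with ⟨hk, h1⟩ | ⟨hk, h1⟩
  · rw [hk]; exact chi_five_neg hodd h1
  · rw [hk]; exact chi_five_pos hodd h1

theorem base_S2_t7 [Fact D.S2.Prime] : legendreSym D.S2 7 = sg (D.k) := by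
  have h2 := D.m8_S2
  rcases D.m7_S2 with ⟨hk, h1⟩ | ⟨hk, h1⟩
  · rw [hk]; exact chi_seven_pos (by simp only [hk] at h2; rcases h1 with h1 | h1 | h1 <;> omega)
  · rw [hk]; exact chi_seven_neg (by simp only [hk] at h2; rcases h1 with h1 | h1 | h1 <;> omega)

theorem base_s4_t2 [Fact D.s4.Prime] : legendreSym D.s4 2 = sg (D.k) := by
  rcases D.m8_s4 with ⟨hk, h1⟩ | ⟨hk, h1⟩
  · rw [hk]; exact chi_two_pos (by omega)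
  · rw [hk]; exact chi_two_neg (by omega)

theorem base_s4_t3 [Fact D.s4.Prime] : legendreSym D.s4 3 = sg (D.k) := by
  rcases D.m12_s4 with ⟨hk, h1⟩ | ⟨hk, h1⟩
  · rw [hk]; exact chi_three_pos (by omega)
  · rw [hk]; exact chi_three_neg (by omega)

theorem base_s4_t5 [Fact D.s4.Prime] : legendreSym D.s4 5 = sg (!D.k) := by
  have h2 := D.m8_s4
  have hodd : D.s4 % 2 = 1 := by omega
  rcases D.m5_s4 with ⟨hk, h1⟩ | ⟨hk, h1⟩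
  · rw [hk]; exact chi_five_neg hodd h1
  · rw [hk]; exact chi_five_pos hodd h1

theorem base_s4_t7 [Fact D.s4.Prime] : legendreSym D.s4 7 = sg (!D.k) := by
  have h4 : D.q % 4 = 3 := by
    rcases D.h8 with ⟨_, _, h2⟩ | ⟨_, _, h2⟩ <;> omega
  have h5 := D.es4
  rcases D.c7 with ⟨hk, h1⟩ | ⟨hk, h1⟩
  · rw [hk]; exact chi_seven_neg (by rcases h1 with h1 | h1 | h1 <;> rcases h5 with h5 | h5 <;> omega)
  · rw [hk]; exact chi_seven_pos (by rcases h1 with h1 | h1 | h1 <;> rcases h5 with h5 | h5 <;> omega)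

end Pool.Agent.H23.Six.Dat
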