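import Pool.Agent.H23.SixE

/-!
# The rank six family: the Selmer group of the isogenous curve
-/

namespace Pool.Agent.H23.Six.Dat

variable (D : Dat)

theorem prime_S3 : Prime D.S3 := by
  rw [Int.prime_iff_natAbs_prime]
  have h : D.S3.natAbs = D.s3 := by have := D.es3; rw [S3]; omega
  rw [h]; exact D.ps3

theorem prime_S4 : Prime D.S4 := by
  rw [Int.prime_iff_natAbs_prime]
  have h : D.S4.natAbs = D.s4 := by have := D.es4; rw [S4]; omega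
  rw [h]; exact D.ps4

theorem form_D {d : ℤ} (hd : d ∈ Sel (-2 * D.a) (D.a ^ 2 - 4 * D.b)) :
    ∃ e1 e2 e3 e4 f1 f2 f3 f4 e0 : Bool,
      d = pw e1 D.p * (pw e2 D.q * (pw e3 D.A3 * (pw e4 D.A4 * (pw f1 D.S1 * (pw f2 D.S2 *
        (pw f3 D.S3 * (pw f4 D.S4 * pw e0 (-1)))))))) := by
  obtain ⟨hsq, hdb, -⟩ := hd
  have hb : D.a ^ 2 - 4 * D.b
      = D.p * (D.q * (D.A3 * (D.A4 * (D.S1 * (D.S2 * (D.S3 * (D.S4 * (-1)))))))) := by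
    rw [disc]; ring
  rw [hb] at hdb
  have z : ∀ {n : ℕ}, n.Prime → Prime (n : ℤ) := fun h => Nat.prime_iff_prime_int.mp h
  obtain ⟨e1, d1, rfl, h1, q1⟩ := peel hsq (z D.pp) hdb
  obtain ⟨e2, d2, rfl, h2, q2⟩ := peel q1 (z D.pq) h1
  obtain ⟨e3, d3, rfl, h3, q3⟩ := peel q2 (z D.pA3) h2
  obtain ⟨e4, d4, rfl, h4, q4⟩ := peel q3 (z D.pA4) h3
  obtain ⟨f1, d5, rfl, h5, q5⟩ := peel q4 (z D.pS1) h4
  obtain ⟨f2, d6, rfl, h6, q6⟩ := peel q5 (z D.pS2) h5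
  obtain ⟨f3, d7, rfl, h7, q7⟩ := peel q6 D.prime_S3 h6
  obtain ⟨f4, d8, rfl, h8, q8⟩ := peel q7 D.prime_S4 h7
  obtain ⟨e0, rfl⟩ := unit_neg (h8.trans (by decide : (-1 : ℤ) ∣ 1))
  exact ⟨e1, e2, e3, e4, f1, f2, f3, f4, e0, rfl⟩

theorem pw_neg_dvd (e : Bool) : pw e (-1) ∣ -1 := by cases e <;> decide

theorem nd128 {P : ℕ} (hP : P.Prime) (h2 : P ≠ 2) : ¬ (P : ℤ) ∣ 128 := by
  intro h1
  have h2' : P ∣ 128 := by exact_mod_cast h1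
  have h3 : P ∣ 2 := hP.dvd_of_dvd_pow (n := 7) (by simpa using h2')
  exact h2 ((Nat.prime_dvd_prime_iff_eq hP Nat.prime_two).mp h3)

theorem rel_D {e1 e2 e3 e4 f1 f2 f3 f4 e0 : Bool}
    (hd : pw e1 D.p * (pw e2 D.q * (pw e3 D.A3 * (pw e4 D.A4 * (pw f1 D.S1 * (pw f2 D.S2 *
        (pw f3 D.S3 * (pw f4 D.S4 * pw e0 (-1)))))))) ∈ Sel (-2 * D.a) (D.a ^ 2 - 4 * D.b)) :
    e0 = (e4 ^^ f2 ^^ f3) ∧ f1 = (f2 ^^ f3 ^^ f4) ∧ e1 = (e4 ^^ f1 ^^ f3) ∧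
      e2 = (e4 ^^ f1 ^^ f4) ∧ e3 = (e1 ^^ e2 ^^ e4) := by
  obtain ⟨-, hdb, -, hpad⟩ := hd
  have i1 : Fact D.q.Prime := ⟨D.pq⟩
  have i2 : Fact D.A3.Prime := ⟨D.pA3⟩
  have i3 : Fact D.R4.Prime := ⟨D.pR4⟩
  have i4 : Fact D.P2.Prime := ⟨D.pP2⟩
  have i5 : Fact D.A4.Prime := ⟨D.pA4⟩
  obtain ⟨x, hx⟩ := chi_exists (P := D.q) (nd_prime D.pq D.pp D.ne_pq.symm)
  obtain ⟨⟨l1, l2, l3, l4, l5, l6⟩, ⟨l7, l8, l9, l10, l11, l12, l13⟩,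
    ⟨l14, l15, l16, l17, l18⟩⟩ := D.distinct_lt
  obtain ⟨l19, l20⟩ := D.s_lt
  obtain ⟨n1, n2, n3, n4, n5⟩ := D.ne_s4
  obtain ⟨n6, n7, n8, n9, n10, n11⟩ := D.ne_s3
  obtain ⟨n12, n13⟩ := D.ne_s34
  have p7 := D.p_ge
  have q7 := D.q_ge
  have hnpq := D.ne_pq
  have h_q := D.base_q_n
  have hbE : D.a ^ 2 - 4 * D.b
      = D.p * (D.q * (D.A3 * (D.A4 * (D.S1 * (D.S2 * (D.S3 * (D.S4 * (-1)))))))) := by
    rw [disc]; ring
  have nd1 : ∀ {P : ℕ}, P.Prime → ¬ (P : ℤ) ∣ -1 := by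
    intro P hP h
    rw [dvd_neg] at h
    exact (Nat.prime_iff_prime_int.mp hP).not_isUnit (isUnit_of_dvd_one h)
  -- row at q
  have r1 := by
    obtain ⟨c3, c4, -, -, -, -, k1, k2, k3, k4⟩ := D.symq hx
    refine sg_inj ((chi8 (e1 := e1) (e2 := e3) (e3 := e4) (e4 := f1) (e5 := f2) (e6 := f3)
      (e7 := f4) (e8 := e0) hx c3 c4 k1 k2 k3 k4 h_q).symm.trans
      (row_typeIII (a := -2 * D.a) (e := e2) ⟨650 * (D.p * D.A3 * D.A4), by rw [a]; ring⟩ ?_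
        (dvd8 e1 e3 e4 f1 f2 f3 f4 e0 (pw_neg_dvd e0))
        (qsol_cast (hpad D.q) (by rw [hbE]; ring) (by ring))
        (chim8 hx c3 c4 k1 k2 k3 k4 h_q)))
    exact nd8 D.pq (nd_prime D.pq D.pp hnpq.symm) (nd_prime D.pq D.pA3 (by omega))
      (nd_prime D.pq D.pA4 (by omega)) (nd_prime D.pq D.pS1 (by omega))
      (nd_prime D.pq D.pS2 (by omega)) (D.nS3 D.pq (fun h => n7 h.symm))
      (D.nS4 D.pq (fun h => n2 h.symm)) (nd1 D.pq)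
  have r2 := by
    obtain ⟨c1, c4, -, -, -, -, k1, k2, k3, k4⟩ := sym_A3 (P := D.A3) (τ := 1) (p := D.p)
      (q := D.q) (by rw [D.zA3]; ring) D.zA4 D.zR1 D.zP2 D.zR3 D.zR4
      D.zS1 D.zS2 (show D.S3 = _ from rfl) (show D.S4 = _ from rfl) D.base_A3_n D.base_A3_t2
      D.base_A3_t3 D.base_A3_t5 D.base_A3_t7 (D.v_A3 hx)
    refine sg_inj ((chi8 (e1 := e1) (e2 := e2) (e3 := e4) (e4 := f1) (e5 := f2) (e6 := f3)
      (e7 := f4) (e8 := e0) c1 (D.v_A3 hx) c4 k1 k2 k3 k4 D.base_A3_n).symm.trans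
      (row_typeIII (a := -2 * D.a) (e := e3) ⟨650 * (D.p * D.q * D.A4), by rw [a]; ring⟩ ?_
        (dvd8 e1 e2 e4 f1 f2 f3 f4 e0 (pw_neg_dvd e0))
        (qsol_cast (hpad D.A3) (by rw [hbE]; ring) (by ring))
        (chim8 c1 (D.v_A3 hx) c4 k1 k2 k3 k4 D.base_A3_n)))
    exact nd8 D.pA3 (nd_prime D.pA3 D.pp (by omega)) (nd_prime D.pA3 D.pq (by omega))
      (nd_prime D.pA3 D.pA4 (by omega)) (nd_prime D.pA3 D.pS1 (by omega))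
      (nd_prime D.pA3 D.pS2 (by omega)) (D.nS3 D.pA3 (fun h => n8 h.symm))
      (D.nS4 D.pA3 (fun h => n3 h.symm)) (nd1 D.pA3)
  obtain ⟨t, ht⟩ := chi_exists (P := D.A4) (n := 11) (nd_small (by norm_num) (by omega))
  have r3 := by
    obtain ⟨c1, c3, k1, k2, k3, k4⟩ := sym_A4 (P := D.A4) (τ := 1) (p := D.p)
      (q := D.q) (by rw [D.zA4]; ring) D.zA3
      D.zS1 D.zS2 (show D.S3 = _ from rfl) (show D.S4 = _ from rfl) D.base_A4_n D.base_A4_t2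
      D.base_A4_t3 D.base_A4_t5 D.base_A4_t7 ht (D.v_A4 hx)
    refine sg_inj ((chi8 (e1 := e1) (e2 := e2) (e3 := e3) (e4 := f1) (e5 := f2) (e6 := f3)
      (e7 := f4) (e8 := e0) c1 (D.v_A4 hx) c3 k1 k2 k3 k4 D.base_A4_n).symm.trans
      (row_typeIII (a := -2 * D.a) (e := e4) ⟨650 * (D.p * D.q * D.A3), by rw [a]; ring⟩ ?_
        (dvd8 e1 e2 e3 f1 f2 f3 f4 e0 (pw_neg_dvd e0))
        (qsol_cast (hpad D.A4) (by rw [hbE]; ring) (by ring))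
        (chim8 c1 (D.v_A4 hx) c3 k1 k2 k3 k4 D.base_A4_n)))
    exact nd8 D.pA4 (nd_prime D.pA4 D.pp (by omega)) (nd_prime D.pA4 D.pq (by omega))
      (nd_prime D.pA4 D.pA3 (by omega)) (nd_prime D.pA4 D.pS1 (by omega))
      (nd_prime D.pA4 D.pS2 (by omega)) (D.nS3 D.pA4 (by omega))
      (D.nS4 D.pA4 (by omega)) (nd1 D.pA4)
  obtain ⟨t', ht'⟩ := chi_exists (P := D.R4) (n := 13) (nd_small (by norm_num) (by
    have := D.eR4; omega))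
  have r4 := by
    obtain ⟨c1, c3, c4, k1, k2, k3, k4⟩ := sym_R4 (P := D.R4) (τ := 1) (p := D.p) (q := D.q)
      (by rw [D.zR4]; ring) D.zA3 D.zA4 D.zS1 D.zS2 (show D.S3 = _ from rfl)
      (show D.S4 = _ from rfl)
      D.base_R4_n D.base_R4_t2 D.base_R4_t3 D.base_R4_t5 D.base_R4_t7 ht' (D.v_R4 hx)
    refine sg_one ((chi9 (e1 := e1) (e2 := e2) (e3 := e3) (e4 := e4) (e5 := f1) (e6 := f2)
      (e7 := f3) (e8 := f4) (e9 := e0) c1 (D.v_R4 hx) c3 c4 k1 k2 k3 k4 D.base_R4_n).symm.trans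
      (mult_row (X := 128 * (D.p * (D.q * (D.A3 * (D.A4 * (D.R1 * (D.P2 * D.R3)))))))
        (by rw [b]; ring) (by omega) hdb ?_ ?_ (hpad D.R4)))
    · exact nd8 D.pR4 (nd128 D.pR4 (by omega)) (nd_prime D.pR4 D.pp (by omega))
        (nd_prime D.pR4 D.pq (by omega))
        (nd_prime D.pR4 D.pA3 (by omega)) (nd_prime D.pR4 D.pA4 (by omega))
        (nd_prime D.pR4 D.pR1 (by omega)) (nd_prime D.pR4 D.pP2 (by omega))
        (nd_prime D.pR4 D.pR3 (fun h => n13 h.symm))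
    · rw [hbE]
      exact nd9 D.pR4 (nd_prime D.pR4 D.pp (by omega)) (nd_prime D.pR4 D.pq (by omega))
        (nd_prime D.pR4 D.pA3 (by omega)) (nd_prime D.pR4 D.pA4 (by omega))
        (nd_prime D.pR4 D.pS1 (by omega)) (nd_prime D.pR4 D.pS2 (by omega))
        (D.nS3 D.pR4 (fun h => n11 h.symm)) (D.nS4 D.pR4 (by omega))
        (nd1 D.pR4)
  clear ht'
  obtain ⟨t', ht'⟩ := chi_exists (P := D.P2) (n := 13) (nd_small (by norm_num) (by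
    have := D.eP2; omega))
  have r5 := by
    obtain ⟨c1, c3, c4, k1, k2, k3, k4⟩ := sym_P2 (P := D.P2) (τ := 2) (p := D.p) (q := D.q)
      D.zP2 D.zA3 D.zA4 D.zS1 D.zS2 (show D.S3 = _ from rfl)
      (show D.S4 = _ from rfl)
      D.base_P2_n D.base_P2_t3 D.base_P2_t5 D.base_P2_t7 ht' (D.v_P2 hx)
    refine sg_one ((chi9 (e1 := e1) (e2 := e2) (e3 := e3) (e4 := e4) (e5 := f1) (e6 := f2)
      (e7 := f3) (e8 := f4) (e9 := e0) c1 (D.v_P2 hx) c3 c4 k1 k2 k3 k4 D.base_P2_n).symm.trans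
      (mult_row (X := 128 * (D.p * (D.q * (D.A3 * (D.A4 * (D.R1 * (D.R3 * D.R4)))))))
        (by rw [b]; ring) (by omega) hdb ?_ ?_ (hpad D.P2)))
    · exact nd8 D.pP2 (nd128 D.pP2 (by omega)) (nd_prime D.pP2 D.pp (by omega))
        (nd_prime D.pP2 D.pq (by omega))
        (nd_prime D.pP2 D.pA3 (by omega)) (nd_prime D.pP2 D.pA4 (by omega))
        (nd_prime D.pP2 D.pR1 (by omega)) (nd_prime D.pP2 D.pR3 (by omega))
        (nd_prime D.pP2 D.pR4 (by omega))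
    · rw [hbE]
      exact nd9 D.pP2 (nd_prime D.pP2 D.pp (by omega)) (nd_prime D.pP2 D.pq (by omega))
        (nd_prime D.pP2 D.pA3 (by omega)) (nd_prime D.pP2 D.pA4 (by omega))
        (nd_prime D.pP2 D.pS1 (by omega)) (nd_prime D.pP2 D.pS2 (by omega))
        (D.nS3 D.pP2 (fun h => n9 h.symm)) (D.nS4 D.pP2 (fun h => n4 h.symm))
        (nd1 D.pP2)
  clear hpad hdb hbE ht ht' h_q
  revert r1 r2 r3 r4 r5
  generalize D.k = k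
  clear hx
  revert k x t e1 e2 e3 e4 f1 f2 f3 f4 e0
  decide +kernel

end Pool.Agent.H23.Six.Dat
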