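import Pool.Agent.H23.SixSym

/-!
# The rank six family: data and base facts
-/

namespace Pool.Agent.H23.Six

/-- Numbers attached to a member of the rank six family. -/
structure Dat where
  p : ℕ
  q : ℕ
  A3 : ℕ
  A4 : ℕ
  R1 : ℕ
  P2 : ℕ
  R3 : ℕ
  R4 : ℕ
  S1 : ℕ
  S2 : ℕ
  s3 : ℕ
  s4 : ℕ
  k : Bool
  pp : p.Prime
  pq : q.Prime
  pA3 : A3.Prime
  pA4 : A4.Prime
  pR1 : R1.Prime
  pP2 : P2.Prime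
  pR3 : R3.Prime
  pR4 : R4.Prime
  pS1 : S1.Prime
  pS2 : S2.Prime
  ps3 : s3.Prime
  ps4 : s4.Prime
  eA3 : A3 = 18 * p + 7 * q
  eA4 : A4 = 108 * p + 77 * q
  eR1 : R1 = 72 * p + 77 * q
  eP2 : 27 * p + 7 * q = 2 * P2
  eR3 : R3 = 54 * p + 11 * q
  eR4 : R4 = 36 * p + 49 * q
  eS1 : S1 = 128 * p + 77 * q
  eS2 : S2 = 243 * p + 112 * q
  es3 : (s3 : ℤ) = 54 * p - 11 * q ∨ (s3 : ℤ) = -(54 * p - 11 * q)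
  es4 : (s4 : ℤ) = 36 * p - 49 * q ∨ (s4 : ℤ) = -(36 * p - 49 * q)
  c24 : (k = false ∧ p % 24 = 11 ∧ q % 24 = 11) ∨ (k = true ∧ p % 24 = 7 ∧ q % 24 = 7)
  c5 : (k = false ∧ ((p % 5 = 1 ∧ q % 5 = 2) ∨ (p % 5 = 2 ∧ q % 5 = 1) ∨ (p % 5 = 3 ∧ q % 5 = 4) ∨
      (p % 5 = 4 ∧ q % 5 = 3))) ∨
    (k = true ∧ ((p % 5 = 1 ∧ q % 5 = 3) ∨ (p % 5 = 2 ∧ q % 5 = 4) ∨ (p % 5 = 3 ∧ q % 5 = 1) ∨
      (p % 5 = 4 ∧ q % 5 = 2)))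
  c7 : (k = false ∧ (p % 7 = 3 ∨ p % 7 = 5 ∨ p % 7 = 6)) ∨
    (k = true ∧ (p % 7 = 1 ∨ p % 7 = 2 ∨ p % 7 = 4))

namespace Dat

variable (D : Dat)

theorem ne_pq : D.p ≠ D.q := by
  intro h
  have h1 := D.eA3
  have h2 : D.A3 = 25 * D.q := by rw [h1, h]; ring
  have h3 := D.pA3
  rw [h2] at h3
  exact Nat.not_prime_mul (by norm_num) D.pq.ne_one h3

theorem p_ge : 7 ≤ D.p := by have := D.c24; omega
theorem q_ge : 7 ≤ D.q := by have := D.c24; omega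

/-- Distinctness of the primes. -/
theorem distinct_lt :
    (D.p < D.A3 ∧ D.q < D.A3 ∧ D.A3 < D.A4 ∧ D.A3 < D.R1 ∧ D.A3 < D.R3 ∧ D.A3 < D.R4) ∧
    (D.p < D.P2 ∧ D.q < D.P2 ∧ D.P2 < D.A3 ∧ D.P2 < D.R4 ∧ D.P2 < D.R3 ∧ D.P2 < D.R1 ∧
      D.P2 < D.A4) ∧
    (D.R4 < D.R1 ∧ D.R3 < D.R1 ∧ D.R1 < D.A4 ∧ D.A4 < D.S1 ∧ D.S1 < D.S2) := by
  have h1 := D.eA3; have h2 := D.eA4; have h3 := D.eR1; have h4 := D.eP2; have h5 := D.eR3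
  have h6 := D.eR4; have h7 := D.eS1; have h8 := D.eS2; have hp := D.pp.pos; have hq := D.pq.pos
  refine ⟨⟨?_, ?_, ?_, ?_, ?_, ?_⟩, ⟨?_, ?_, ?_, ?_, ?_, ?_, ?_⟩, ⟨?_, ?_, ?_, ?_, ?_⟩⟩
  · clear h2 h3 h4 h5 h6 h7 h8; omega
  · clear h2 h3 h4 h5 h6 h7 h8; omega
  · clear h3 h4 h5 h6 h7 h8; omega
  · clear h2 h4 h5 h6 h7 h8; omega
  · clear h2 h3 h4 h6 h7 h8; omega
  · clear h2 h3 h4 h5 h7 h8; omega
  · clear h1 h2 h3 h5 h6 h7 h8; omega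
  · clear h1 h2 h3 h5 h6 h7 h8; omega
  · clear h2 h3 h5 h6 h7 h8; omega
  · clear h1 h2 h3 h5 h7 h8; omega
  · clear h1 h2 h3 h6 h7 h8; omega
  · clear h1 h2 h5 h6 h7 h8; omega
  · clear h1 h3 h5 h6 h7 h8; omega
  · clear h1 h2 h4 h5 h7 h8; omega
  · clear h1 h2 h4 h6 h7 h8; omega
  · clear h1 h4 h5 h6 h7 h8; omega
  · clear h1 h3 h4 h5 h6 h8; omega
  · clear h1 h2 h3 h4 h5 h6; omega

theorem s_lt : D.s3 < D.A4 ∧ D.s4 < D.R4 := by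
  have h2 := D.eA4; have h6 := D.eR4; have h9 := D.es3; have h10 := D.es4
  have hp := D.pp.pos; have hq := D.pq.pos
  refine ⟨?_, ?_⟩
  · clear h6 h10; omega
  · clear h2 h9; omega

theorem exists_t : ∃ t : ℤ, (D.p : ℤ) = D.q + 24 * t ∧ (D.q : ℤ) % 2 = 1 ∧ (D.q : ℤ) % 3 ≠ 0 := by
  rcases D.c24 with ⟨_, h1, h2⟩ | ⟨_, h1, h2⟩
  · exact ⟨((D.p : ℤ) - D.q) / 24, by omega, by omega, by omega⟩
  · exact ⟨((D.p : ℤ) - D.q) / 24, by omega, by omega, by omega⟩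

theorem q_mod_five : (D.q : ℤ) % 5 ≠ 0 := by
  have := D.c5
  omega

theorem ar4 {p q t : ℤ} (h : p = q + 24 * t) (ho : q % 2 = 1) (h3 : q % 3 ≠ 0) (hp : 0 < p)
    (s : ℤ) (hs : s = 36 * p - 49 * q ∨ s = -(36 * p - 49 * q)) :
    s ≠ p ∧ s ≠ q ∧ s ≠ 18 * p + 7 * q ∧ 2 * s ≠ 27 * p + 7 * q ∧ s ≠ 54 * p + 11 * q := by
  rcases hs with rfl | rfl <;> refine ⟨?_, ?_, ?_, ?_, ?_⟩ <;> subst h <;> omega

theorem ar3 {p q t : ℤ} (h : p = q + 24 * t) (ho : q % 2 = 1) (h3 : q % 3 ≠ 0)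
    (h5 : q % 5 ≠ 0) (hp : 0 < p) (hq : 0 < q)
    (s : ℤ) (hs : s = 54 * p - 11 * q ∨ s = -(54 * p - 11 * q)) :
    s ≠ p ∧ s ≠ q ∧ s ≠ 18 * p + 7 * q ∧ 2 * s ≠ 27 * p + 7 * q ∧ s ≠ 54 * p + 11 * q ∧
      s ≠ 36 * p + 49 * q := by
  rcases hs with rfl | rfl <;> refine ⟨?_, ?_, ?_, ?_, ?_, ?_⟩ <;> subst h <;> omega

theorem ar34 {p q t : ℤ} (h : p = q + 24 * t) (ho : q % 2 = 1) (hp : 0 < p) (hq : 0 < q)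
    (s u : ℤ) (hs : s = 54 * p - 11 * q ∨ s = -(54 * p - 11 * q))
    (hu : u = 36 * p - 49 * q ∨ u = -(36 * p - 49 * q)) :
    s ≠ u ∧ 54 * p + 11 * q ≠ 36 * p + 49 * q := by
  rcases hs with rfl | rfl <;> rcases hu with rfl | rfl <;> refine ⟨?_, ?_⟩ <;> subst h <;> omega

theorem ne_s4 : D.s4 ≠ D.p ∧ D.s4 ≠ D.q ∧ D.s4 ≠ D.A3 ∧ D.s4 ≠ D.P2 ∧ D.s4 ≠ D.R3 := by
  obtain ⟨t, h, ho, h3⟩ := D.exists_t
  have hp : (0 : ℤ) < D.p := by exact_mod_cast D.pp.pos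
  obtain ⟨h1, h2, h4, h5, h6⟩ := ar4 h ho h3 hp _ D.es4
  have e1 := D.eA3; have e2 := D.eP2; have e3 := D.eR3
  clear h ho h3 hp
  refine ⟨fun h => h1 (by rw [h]), fun h => h2 (by rw [h]), fun h => h4 ?_, fun h => h5 ?_,
    fun h => h6 ?_⟩
  · rw [h, e1]; push_cast; ring
  · rw [h]; exact_mod_cast e2.symm
  · rw [h, e3]; push_cast; ring

theorem ne_s3 : D.s3 ≠ D.p ∧ D.s3 ≠ D.q ∧ D.s3 ≠ D.A3 ∧ D.s3 ≠ D.P2 ∧ D.s3 ≠ D.R3 ∧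
    D.s3 ≠ D.R4 := by
  obtain ⟨t, h, ho, h3⟩ := D.exists_t
  have hp : (0 : ℤ) < D.p := by exact_mod_cast D.pp.pos
  have hq : (0 : ℤ) < D.q := by exact_mod_cast D.pq.pos
  obtain ⟨h1, h2, h4, h5, h6, h7⟩ := ar3 h ho h3 D.q_mod_five hp hq _ D.es3
  have e1 := D.eA3; have e2 := D.eP2; have e3 := D.eR3; have e4 := D.eR4
  clear h ho h3 hp
  refine ⟨fun h => h1 (by rw [h]), fun h => h2 (by rw [h]), fun h => h4 ?_, fun h => h5 ?_,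
    fun h => h6 ?_, fun h => h7 ?_⟩
  · rw [h, e1]; push_cast; ring
  · rw [h]; exact_mod_cast e2.symm
  · rw [h, e3]; push_cast; ring
  · rw [h, e4]; push_cast; ring

theorem ne_s34 : D.s3 ≠ D.s4 ∧ D.R3 ≠ D.R4 := by
  obtain ⟨t, h, ho, h3⟩ := D.exists_t
  have hp : (0 : ℤ) < D.p := by exact_mod_cast D.pp.pos
  have hq : (0 : ℤ) < D.q := by exact_mod_cast D.pq.pos
  obtain ⟨h1, h2⟩ := ar34 h ho hp hq _ _ D.es3 D.es4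
  have e3 := D.eR3; have e4 := D.eR4
  clear h ho h3 hp
  refine ⟨fun h => h1 (by rw [h]), fun h => h2 ?_⟩
  have : (D.R3 : ℤ) = D.R4 := by rw [h]
  rw [e3, e4] at this
  push_cast at this
  exact this

end Dat

end Pool.Agent.H23.Six
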