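import Pool.Agent.H23.SixV

/-!
# The rank six family: the Selmer group of `E`
-/

namespace Pool.Agent.H23.Six.Dat

variable (D : Dat)

/-- The coefficient `a`. -/
def a : ℤ := -325 * (D.p * D.q * D.A3 * D.A4)
/-- The coefficient `b`. -/
def b : ℤ := 8 * (D.p * D.q * D.A3 * D.A4 * (D.R1 * D.P2 * D.R3 * D.R4))

theorem disc : D.a ^ 2 - 4 * D.b = -(D.p * D.q * D.A3 * D.A4 * (D.S1 * D.S2 * D.S3 * D.S4)) := by
  have key : 105625 * ((D.p : ℤ) * D.q * D.A3 * D.A4) + D.S1 * D.S2 * D.S3 * D.S4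
      = 32 * (D.R1 * D.P2 * D.R3 * D.R4) := by
    have h : 32 * ((D.R1 : ℤ) * D.P2 * D.R3 * D.R4) = 16 * (D.R1 * (2 * D.P2) * D.R3 * D.R4) := by
      ring
    rw [h, ← D.zP2, D.zA3, D.zA4, D.zR1, D.zR3, D.zR4, D.zS1, D.zS2, S3, S4]
    ring
  rw [a, b]
  linear_combination (-((D.p : ℤ) * D.q * D.A3 * D.A4)) * (-key)

theorem A_pos : (0 : ℤ) < D.p * D.q * D.A3 * D.A4 := by
  have h1 := D.pp.pos; have h2 := D.pq.pos; have h3 := D.pA3.pos; have h4 := D.pA4.pos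
  positivity

theorem b_pos : 0 < D.b := by
  have h0 := D.A_pos
  have h1 := D.pR1.pos; have h2 := D.pP2.pos; have h3 := D.pR3.pos; have h4 := D.pR4.pos
  rw [b]; positivity

theorem a_neg : D.a ≤ 0 := by
  have h0 := D.A_pos
  rw [a]; linarith

theorem S3_ne : D.S3 ≠ 0 := by
  have h := D.es3
  have h2 := D.ps3.pos
  rw [S3]; omega

theorem S4_ne : D.S4 ≠ 0 := by
  have h := D.es4
  have h2 := D.ps4.pos
  rw [S4]; omega

theorem nS3 {P : ℕ} (hP : P.Prime) (h : P ≠ D.s3) : ¬ (P : ℤ) ∣ D.S3 :=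
  nd_prime' hP D.ps3 h (by have := D.es3; rw [S3]; exact this)

theorem nS4 {P : ℕ} (hP : P.Prime) (h : P ≠ D.s4) : ¬ (P : ℤ) ∣ D.S4 :=
  nd_prime' hP D.ps4 h (by have := D.es4; rw [S4]; exact this)

theorem q8 : ¬ (D.q : ℤ) ∣ 8 := by
  have h := D.m4_q
  intro h1
  have h2 : D.q ∣ 8 := by exact_mod_cast h1
  have h3 : D.q ∣ 2 := D.pq.dvd_of_dvd_pow (n := 3) (by simpa using h2)
  have h4 := Nat.le_of_dvd (by norm_num) h3
  omega

theorem s4_m2 : D.s4 % 2 = 1 := by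
  rcases D.m8_s4 with ⟨_, h⟩ | ⟨_, h⟩ <;> omega

theorem s4_odd : D.s4 ≠ 2 := by have := D.s4_m2; omega

theorem s48 : ¬ (D.s4 : ℤ) ∣ 8 := by
  have h := D.s4_m2
  intro h1
  have h2 : D.s4 ∣ 8 := by exact_mod_cast h1
  have h3 : D.s4 ∣ 2 := D.ps4.dvd_of_dvd_pow (n := 3) (by simpa using h2)
  have h4 := Nat.le_of_dvd (by norm_num) h3
  have h5 := D.ps4.two_le
  omega

theorem s4_ne : D.s4 ≠ 13 := by
  intro h
  have h1 := D.es4
  have h2 := D.eR3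
  rw [h] at h1
  have h3 : 13 ∣ D.R3 := by
    have h4 : (13 : ℤ) ∣ 2 * D.R3 := by
      rcases h1 with h1 | h1
      · exact ⟨3 + 13 * D.q, by rw [h2]; push_cast; push_cast at h1; linarith⟩
      · exact ⟨-3 + 13 * D.q, by rw [h2]; push_cast; push_cast at h1; linarith⟩
    omega
  have h5 := (Nat.prime_dvd_prime_iff_eq (by norm_num) D.pR3).mp h3
  have h6 := D.p_ge
  omega

/-- A prime not dividing the second factor and exactly dividing `X`. -/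
theorem mult_row {P : ℕ} [hP : Fact P.Prime] {a b d X : ℤ} (hX : a ^ 2 - 4 * b = P * X)
    (hp2 : P ≠ 2) (hdb : d ∣ b) (hnX : ¬ (P : ℤ) ∣ X) (hnb : ¬ (P : ℤ) ∣ b)
    (h : QSol ℚ_[P] a b d) : legendreSym P d = 1 := by
  apply legendre_mult hp2 hdb ⟨X, hX⟩ _ hnb h
  rw [hX, pow_two]
  intro h
  exact hnX ((mul_dvd_mul_iff_left (by exact_mod_cast hP.1.ne_zero)).mp h)

theorem form_E {d : ℤ} (hd : d ∈ Sel D.a D.b) :
    ∃ e1 e2 e3 e4 f1 f2 f3 f4 e0 : Bool,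
      d = pw e1 D.p * (pw e2 D.q * (pw e3 D.A3 * (pw e4 D.A4 * (pw f1 D.R1 * (pw f2 D.P2 *
        (pw f3 D.R3 * (pw f4 D.R4 * pw e0 2))))))) := by
  have hpos := sel_pos D.a_neg D.b_pos hd
  obtain ⟨hsq, hdb, -⟩ := hd
  have hb : D.b = D.p * (D.q * (D.A3 * (D.A4 * (D.R1 * (D.P2 * (D.R3 * (D.R4 * 8))))))) := by
    rw [b]; ring
  rw [hb] at hdb
  have z : ∀ {n : ℕ}, n.Prime → Prime (n : ℤ) := fun h => Nat.prime_iff_prime_int.mp h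
  have z' : ∀ {n : ℕ}, n.Prime → (0 : ℤ) < n := fun h => by exact_mod_cast h.pos
  obtain ⟨e1, d1, rfl, h1, q1⟩ := peel hsq (z D.pp) hdb
  obtain ⟨e2, d2, rfl, h2, q2⟩ := peel q1 (z D.pq) h1
  obtain ⟨e3, d3, rfl, h3, q3⟩ := peel q2 (z D.pA3) h2
  obtain ⟨e4, d4, rfl, h4, q4⟩ := peel q3 (z D.pA4) h3
  obtain ⟨f1, d5, rfl, h5, q5⟩ := peel q4 (z D.pR1) h4
  obtain ⟨f2, d6, rfl, h6, q6⟩ := peel q5 (z D.pP2) h5
  obtain ⟨f3, d7, rfl, h7, q7⟩ := peel q6 (z D.pR3) h6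
  obtain ⟨f4, d8, rfl, h8, q8⟩ := peel q7 (z D.pR4) h7
  have g1 := pos_of_pw_mul (z' D.pp) hpos
  have g2 := pos_of_pw_mul (z' D.pq) g1
  have g3 := pos_of_pw_mul (z' D.pA3) g2
  have g4 := pos_of_pw_mul (z' D.pA4) g3
  have g5 := pos_of_pw_mul (z' D.pR1) g4
  have g6 := pos_of_pw_mul (z' D.pP2) g5
  have g7 := pos_of_pw_mul (z' D.pR3) g6
  have g8 := pos_of_pw_mul (z' D.pR4) g7
  obtain ⟨e0, rfl⟩ := unit_two q8 h8 g8
  exact ⟨e1, e2, e3, e4, f1, f2, f3, f4, e0, rfl⟩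

theorem rel_E {e1 e2 e3 e4 f1 f2 f3 f4 e0 : Bool}
    (hd : pw e1 D.p * (pw e2 D.q * (pw e3 D.A3 * (pw e4 D.A4 * (pw f1 D.R1 * (pw f2 D.P2 *
        (pw f3 D.R3 * (pw f4 D.R4 * pw e0 2))))))) ∈ Sel D.a D.b) :
    e0 = f2 ∧ f1 = (f2 ^^ f3 ^^ f4) ∧ e1 = (e4 ^^ f1 ^^ f3) ∧ e2 = (e4 ^^ f1 ^^ f4) ∧
      e3 = (e1 ^^ e2 ^^ e4) := by
  obtain ⟨-, hdb, -, hpad⟩ := hd
  have i1 : Fact D.q.Prime := ⟨D.pq⟩
  have i2 : Fact D.A3.Prime := ⟨D.pA3⟩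
  have i3 : Fact D.S1.Prime := ⟨D.pS1⟩
  have i4 : Fact D.S2.Prime := ⟨D.pS2⟩
  have i5 : Fact D.s4.Prime := ⟨D.ps4⟩
  obtain ⟨x, hx⟩ := chi_exists (P := D.q) (nd_prime D.pq D.pp D.ne_pq.symm)
  obtain ⟨⟨l1, l2, l3, l4, l5, l6⟩, ⟨l7, l8, l9, l10, l11, l12, l13⟩,
    ⟨l14, l15, l16, l17, l18⟩⟩ := D.distinct_lt
  obtain ⟨l19, l20⟩ := D.s_lt
  obtain ⟨n1, n2, n3, n4, n5⟩ := D.ne_s4
  obtain ⟨n6, n7, n8, n9, n10, n11⟩ := D.ne_s3
  obtain ⟨n12, n13⟩ := D.ne_s34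
  have p7 := D.p_ge
  have q7 := D.q_ge
  have hnpq := D.ne_pq
  have h_q := D.base_q_t2
  -- row at q
  have r1 := by
    obtain ⟨c3, c4, k1, k2, k3, k4, -⟩ := D.symq hx
    refine sg_inj ((chi8 (e1 := e1) (e2 := e3) (e3 := e4) (e4 := f1) (e5 := f2) (e6 := f3)
      (e7 := f4) (e8 := e0) hx c3 c4 k1 k2 k3 k4 h_q).symm.trans
      (row_typeIII (a := D.a) (e := e2) ⟨-325 * (D.p * D.A3 * D.A4), by rw [a]; ring⟩ ?_
        (dvd8 e1 e3 e4 f1 f2 f3 f4 e0 (pw_two_dvd e0))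
        (qsol_cast (hpad D.q) (by rw [b]; ring) (by ring))
        (chim8 hx c3 c4 k1 k2 k3 k4 (chi_eight h_q))))
    exact nd8 D.pq (nd_prime D.pq D.pp hnpq.symm) (nd_prime D.pq D.pA3 (by omega))
      (nd_prime D.pq D.pA4 (by omega)) (nd_prime D.pq D.pR1 (by omega))
      (nd_prime D.pq D.pP2 (by omega)) (nd_prime D.pq D.pR3 (by omega))
      (nd_prime D.pq D.pR4 (by omega)) D.q8
  have r2 := by
    obtain ⟨c1, c4, k1, k2, k3, k4, -⟩ := sym_A3 (P := D.A3) (τ := 1) (p := D.p) (q := D.q)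
      (by rw [D.zA3]; ring) D.zA4 D.zR1 D.zP2 D.zR3 D.zR4
      D.zS1 D.zS2 (show D.S3 = _ from rfl) (show D.S4 = _ from rfl) D.base_A3_n D.base_A3_t2
      D.base_A3_t3 D.base_A3_t5 D.base_A3_t7 (D.v_A3 hx)
    refine sg_inj ((chi8 (e1 := e1) (e2 := e2) (e3 := e4) (e4 := f1) (e5 := f2) (e6 := f3)
      (e7 := f4) (e8 := e0) c1 (D.v_A3 hx) c4 k1 k2 k3 k4 D.base_A3_t2).symm.trans
      (row_typeIII (a := D.a) (e := e3) ⟨-325 * (D.p * D.q * D.A4), by rw [a]; ring⟩ ?_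
        (dvd8 e1 e2 e4 f1 f2 f3 f4 e0 (pw_two_dvd e0))
        (qsol_cast (hpad D.A3) (by rw [b]; ring) (by ring))
        (chim8 c1 (D.v_A3 hx) c4 k1 k2 k3 k4 (chi_eight D.base_A3_t2))))
    exact nd8 D.pA3 (nd_prime D.pA3 D.pp (by omega)) (nd_prime D.pA3 D.pq (by omega))
      (nd_prime D.pA3 D.pA4 (by omega)) (nd_prime D.pA3 D.pR1 (by omega))
      (nd_prime D.pA3 D.pP2 (by omega)) (nd_prime D.pA3 D.pR3 (by omega))
      (nd_prime D.pA3 D.pR4 (by omega)) (nd_small (by norm_num) (by omega))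
  have hbE : D.b = D.p * (D.q * (D.A3 * (D.A4 * (D.R1 * (D.P2 * (D.R3 * (D.R4 * 8))))))) := by
    rw [b]; ring
  obtain ⟨t, ht⟩ := chi_exists (P := D.S1) (n := 11) (nd_small (by norm_num) (by omega))
  obtain ⟨t', ht'⟩ := chi_exists (P := D.S1) (n := 13) (nd_small (by norm_num) (by omega))
  have r3 := by
    obtain ⟨c1, c3, c4, k1, k2, k3, k4⟩ := sym_S1 (P := D.S1) (τ := 1) (p := D.p) (q := D.q)
      (by rw [D.zS1]; ring) D.zA3 D.zA4 D.zR1 D.zP2 D.zR3 D.zR4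
      D.base_S1_n D.base_S1_t2 D.base_S1_t5 D.base_S1_t7 ht ht' (D.v_S1 hx)
    refine sg_one ((chi9 (e1 := e1) (e2 := e2) (e3 := e3) (e4 := e4) (e5 := f1) (e6 := f2)
      (e7 := f3) (e8 := f4) (e9 := e0) c1 (D.v_S1 hx) c3 c4 k1 k2 k3 k4 D.base_S1_t2).symm.trans
      (mult_row (X := -(D.p * (D.q * (D.A3 * (D.A4 * (D.S2 * (D.S3 * D.S4)))))))
        (by rw [D.disc]; ring) (by omega) hdb ?_ ?_ (hpad D.S1)))
    · exact nd_neg (nd7 D.pS1 (nd_prime D.pS1 D.pp (by omega)) (nd_prime D.pS1 D.pq (by omega))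
        (nd_prime D.pS1 D.pA3 (by omega)) (nd_prime D.pS1 D.pA4 (by omega))
        (nd_prime D.pS1 D.pS2 (by omega)) (D.nS3 D.pS1 (by omega)) (D.nS4 D.pS1 (by omega)))
    · rw [hbE]
      exact nd9 D.pS1 (nd_prime D.pS1 D.pp (by omega)) (nd_prime D.pS1 D.pq (by omega))
        (nd_prime D.pS1 D.pA3 (by omega)) (nd_prime D.pS1 D.pA4 (by omega))
        (nd_prime D.pS1 D.pR1 (by omega)) (nd_prime D.pS1 D.pP2 (by omega))
        (nd_prime D.pS1 D.pR3 (by omega)) (nd_prime D.pS1 D.pR4 (by omega))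
        (nd_small (by norm_num) (by omega))
  clear ht'
  obtain ⟨t', ht'⟩ := chi_exists (P := D.S2) (n := 13) (nd_small (by norm_num) (by omega))
  have r4 := by
    obtain ⟨c1, c3, c4, k1, k2, k3, k4⟩ := sym_S2 (P := D.S2) (τ := 1) (p := D.p) (q := D.q)
      (by rw [D.zS2]; ring) D.zA3 D.zA4 D.zR1 D.zP2 D.zR3 D.zR4
      D.base_S2_n D.base_S2_t2 D.base_S2_t3 D.base_S2_t5 D.base_S2_t7 ht' (D.v_S2 hx)
    refine sg_one ((chi9 (e1 := e1) (e2 := e2) (e3 := e3) (e4 := e4) (e5 := f1) (e6 := f2)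
      (e7 := f3) (e8 := f4) (e9 := e0) c1 (D.v_S2 hx) c3 c4 k1 k2 k3 k4 D.base_S2_t2).symm.trans
      (mult_row (X := -(D.p * (D.q * (D.A3 * (D.A4 * (D.S1 * (D.S3 * D.S4)))))))
        (by rw [D.disc]; ring) (by omega) hdb ?_ ?_ (hpad D.S2)))
    · exact nd_neg (nd7 D.pS2 (nd_prime D.pS2 D.pp (by omega)) (nd_prime D.pS2 D.pq (by omega))
        (nd_prime D.pS2 D.pA3 (by omega)) (nd_prime D.pS2 D.pA4 (by omega))
        (nd_prime D.pS2 D.pS1 (by omega)) (D.nS3 D.pS2 (by omega)) (D.nS4 D.pS2 (by omega)))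
    · rw [hbE]
      exact nd9 D.pS2 (nd_prime D.pS2 D.pp (by omega)) (nd_prime D.pS2 D.pq (by omega))
        (nd_prime D.pS2 D.pA3 (by omega)) (nd_prime D.pS2 D.pA4 (by omega))
        (nd_prime D.pS2 D.pR1 (by omega)) (nd_prime D.pS2 D.pP2 (by omega))
        (nd_prime D.pS2 D.pR3 (by omega)) (nd_prime D.pS2 D.pR4 (by omega))
        (nd_small (by norm_num) (by omega))
  clear ht'
  obtain ⟨t', ht'⟩ := chi_exists (P := D.s4) (n := 13) (by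
    have h := nd_prime D.ps4 (by norm_num : Nat.Prime 13) D.s4_ne
    exact_mod_cast h)
  obtain ⟨τ, hτ⟩ : ∃ τ : ℤ, 36 * (D.p : ℤ) - 49 * D.q = τ * D.s4 := by
    rcases D.es4 with h | h
    · exact ⟨1, by rw [h]; ring⟩
    · exact ⟨-1, by rw [h]; ring⟩
  have r5 := by
    obtain ⟨c1, c3, c4, k1, k2, k3, k4⟩ := sym_S4 (P := D.s4) (τ := τ) (p := D.p) (q := D.q)
      hτ D.zA3 D.zA4 D.zR1 D.zP2 D.zR3 D.zR4
      D.base_s4_t2 D.base_s4_t3 D.base_s4_t5 D.base_s4_t7 ht' (D.v_s4 hx)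
    refine sg_one ((chi9 (e1 := e1) (e2 := e2) (e3 := e3) (e4 := e4) (e5 := f1) (e6 := f2)
      (e7 := f3) (e8 := f4) (e9 := e0) c1 (D.v_s4 hx) c3 c4 k1 k2 k3 k4 D.base_s4_t2).symm.trans
      (mult_row (X := -(τ * (D.p * (D.q * (D.A3 * (D.A4 * (D.S1 * (D.S2 * D.S3))))))))
        (by rw [D.disc, show D.S4 = τ * D.s4 from hτ]; ring) D.s4_odd hdb ?_ ?_ (hpad D.s4)))
    · refine nd_neg (nd8 D.ps4 ?_ (nd_prime D.ps4 D.pp n1) (nd_prime D.ps4 D.pq n2)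
        (nd_prime D.ps4 D.pA3 n3) (nd_prime D.ps4 D.pA4 (by omega))
        (nd_prime D.ps4 D.pS1 (by omega)) (nd_prime D.ps4 D.pS2 (by omega))
        (D.nS3 D.ps4 (fun h => n12 h.symm)))
      intro h
      have h1 : ((D.s4 : ℤ)) ^ 2 ∣ D.S4 := by
        rw [show D.S4 = τ * D.s4 from hτ, pow_two]
        exact mul_dvd_mul_right h _
      have h2 := D.es4
      have h3 : (D.s4 : ℤ) ^ 2 ∣ D.s4 := by
        rcases h2 with h2 | h2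
        · rw [S4, ← h2] at h1; exact h1
        · rw [S4, ← neg_neg (36 * (D.p : ℤ) - 49 * D.q), ← h2, dvd_neg] at h1; exact h1
      have h4 := Int.le_of_dvd (by have := D.ps4.pos; positivity) h3
      have h5 := D.ps4.two_le
      nlinarith
    · rw [hbE]
      exact nd9 D.ps4 (nd_prime D.ps4 D.pp n1) (nd_prime D.ps4 D.pq n2)
        (nd_prime D.ps4 D.pA3 n3) (nd_prime D.ps4 D.pA4 (by omega))
        (nd_prime D.ps4 D.pR1 (by omega)) (nd_prime D.ps4 D.pP2 n4)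
        (nd_prime D.ps4 D.pR3 n5) (nd_prime D.ps4 D.pR4 (by omega))
        D.s48
  clear hpad hdb hbE ht ht' h_q hτ
  revert r1 r2 r3 r4 r5
  generalize D.k = k
  clear hx
  revert k x t e1 e2 e3 e4 f1 f2 f3 f4 e0
  decide +kernel

end Pool.Agent.H23.Six.Dat
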