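import Pool.Agent.H23.SixLow

/-!
# The rank six family: conclusion
-/

namespace Pool.Agent.H23.Six.Dat

variable (D : Dat)

theorem low_D : 2 ^ 4 ≤ (Glob (-2 * D.a) (D.a ^ 2 - 4 * D.b)).ncard := by
  have z : ∀ {n : ℕ}, n.Prime → Prime (n : ℤ) := fun h => Nat.prime_iff_prime_int.mp h
  obtain ⟨⟨l1, l2, l3, l4, l5, l6⟩, ⟨l7, l8, l9, l10, l11, l12, l13⟩,
    ⟨l14, l15, l16, l17, l18⟩⟩ := D.distinct_lt
  obtain ⟨l19, l20⟩ := D.s_lt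
  obtain ⟨n1, n2, n3, n4, n5⟩ := D.ne_s4
  obtain ⟨n6, n7, n8, n9, n10, n11⟩ := D.ne_s3
  obtain ⟨n12, n13⟩ := D.ne_s34
  have hnpq := D.ne_pq
  have p7 := D.p_ge
  have q7 := D.q_ge
  have hds : D.a ^ 2 - 4 * D.b ≠ 0 := D.disc_ne
  have hb' : D.a ^ 2 - 4 * D.b
      = -(D.p * D.q * D.A3 * D.A4 * (D.S1 * D.S2 * D.S3 * D.S4)) := D.disc
  have nd : ∀ {P Q : ℕ}, P.Prime → Q.Prime → P ≠ Q → ¬ (P : ℤ) ∣ (Q : ℤ) :=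
    fun h1 h2 h3 => nd_prime h1 h2 h3
  have m3 : ∀ {P : ℕ}, P.Prime → P ≠ D.s3 → ¬ (P : ℤ) ∣ D.S3 := fun h h' => D.nS3 h h'
  have m4 : ∀ {P : ℕ}, P.Prime → P ≠ D.s4 → ¬ (P : ℤ) ∣ D.S4 := fun h h' => D.nS4 h h'
  have g1 : (-((D.p : ℤ) * (D.q * (D.A3 * D.A4)))) ∈ Glob (-2 * D.a) (D.a ^ 2 - 4 * D.b) := by
    refine mem_glob_of (c := D.S1 * D.S2 * D.S3 * D.S4)
      (N := 7776 * D.p ^ 2 - 2156 * D.q ^ 2) (M := 5) (e := 1)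
      (by rw [hb']; ring) (sqf_neg ?_) one_ne_zero ?_
    · exact sqf_cons (z D.pp) (sqf_cons (z D.pq) (sqf_cons (z D.pA3) (z D.pA4).irreducible.squarefree
        (nd D.pA3 D.pA4 (by omega))) (nd_mul D.pq (nd D.pq D.pA3 (by omega))
        (nd D.pq D.pA4 (by omega)))) (nd_mul D.pp (nd D.pp D.pq (by omega))
        (nd_mul D.pp (nd D.pp D.pA3 (by omega)) (nd D.pp D.pA4 (by omega))))
    · rw [a, D.zA3, D.zA4, D.zS1, D.zS2, S3, S4]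
      ring
  have g2 : (-((D.p : ℤ) * (D.q * (D.S1 * D.S2)))) ∈ Glob (-2 * D.a) (D.a ^ 2 - 4 * D.b) := by
    refine mem_glob_of (c := D.A3 * D.A4 * D.S3 * D.S4)
      (N := 1944 * D.p ^ 2 + 1827 * D.p * D.q + 539 * D.q ^ 2) (M := 3) (e := 1)
      (by rw [hb']; ring) (sqf_neg ?_) one_ne_zero ?_
    · exact sqf_cons (z D.pp) (sqf_cons (z D.pq) (sqf_cons (z D.pS1) (z D.pS2).irreducible.squarefree
        (nd D.pS1 D.pS2 (by omega))) (nd_mul D.pq (nd D.pq D.pS1 (by omega))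
        (nd D.pq D.pS2 (by omega)))) (nd_mul D.pp (nd D.pp D.pq (by omega))
        (nd_mul D.pp (nd D.pp D.pS1 (by omega)) (nd D.pp D.pS2 (by omega))))
    · rw [a, D.zA3, D.zA4, D.zS1, D.zS2, S3, S4]
      ring
  have g3 : (-((D.q : ℤ) * (D.A3 * (D.S1 * D.S3)))) ∈ Glob (-2 * D.a) (D.a ^ 2 - 4 * D.b) := by
    refine mem_glob_of (c := D.p * D.A4 * D.S2 * D.S4)
      (N := 972 * D.p ^ 2 + 495 * D.p * D.q - 77 * D.q ^ 2) (M := 1) (e := 1)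
      (by rw [hb']; ring) (sqf_neg ?_) one_ne_zero ?_
    · exact sqf_cons (z D.pq) (sqf_cons (z D.pA3) (sqf_cons (z D.pS1)
        D.prime_S3.irreducible.squarefree
        (m3 D.pS1 (by omega))) (nd_mul D.pA3 (nd D.pA3 D.pS1 (by omega))
        (m3 D.pA3 (fun h => n8 h.symm)))) (nd_mul D.pq (nd D.pq D.pA3 (by omega))
        (nd_mul D.pq (nd D.pq D.pS1 (by omega)) (m3 D.pq (fun h => n7 h.symm))))
    · rw [a, D.zA3, D.zA4, D.zS1, D.zS2, S3, S4]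
      ring
  have g4 : ((D.p : ℤ) * (D.A3 * (D.S1 * D.S4))) ∈ Glob (-2 * D.a) (D.a ^ 2 - 4 * D.b) := by
    refine mem_glob_of (c := -(D.q * D.A4 * D.S2 * D.S3))
      (N := 288 * D.p ^ 2 - 320 * D.p * D.q - 308 * D.q ^ 2) (M := 1) (e := 1)
      (by rw [hb']; ring) ?_ one_ne_zero ?_
    · exact sqf_cons (z D.pp) (sqf_cons (z D.pA3) (sqf_cons (z D.pS1)
        D.prime_S4.irreducible.squarefree
        (m4 D.pS1 (by omega))) (nd_mul D.pA3 (nd D.pA3 D.pS1 (by omega))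
        (m4 D.pA3 (fun h => n3 h.symm)))) (nd_mul D.pp (nd D.pp D.pA3 (by omega))
        (nd_mul D.pp (nd D.pp D.pS1 (by omega)) (m4 D.pp (fun h => n1 h.symm))))
    · rw [a, D.zA3, D.zA4, D.zS1, D.zS2, S3, S4]
      ring
  have nm3 : ∀ {P Q1 Q2 Q3 : ℕ} {g : ℤ}, P.Prime → Q1.Prime → Q2.Prime → Q3.Prime →
      P ≠ Q1 → P ≠ Q2 → P ≠ Q3 → ¬ (P : ℤ) ∣ g → ¬ (P : ℤ) ∣ (Q1 : ℤ) * (Q2 * (Q3 * g)) :=
    fun h h1 h2 h3 m1 m2 m3 m4 => nd_mul h (nd h h1 m1) (nd_mul h (nd h h2 m2)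
      (nd_mul h (nd h h3 m3) m4))
  -- pivots: A4, S2, s3, s4
  have ds3 : (D.s3 : ℤ) ∣ D.S3 := by
    rcases D.es3 with h | h
    · rw [h]; exact dvd_rfl
    · rw [h, neg_dvd]; exact dvd_rfl
  have ds4 : (D.s4 : ℤ) ∣ D.S4 := by
    rcases D.es4 with h | h
    · rw [h]; exact dvd_rfl
    · rw [h, neg_dvd]; exact dvd_rfl
  refine le_card_glob4 hds ?_ (z D.pA4) (z D.pS2) (z D.ps3) (z D.ps4) g1 g2 g3 g4
    ⟨-(D.p * (D.q * D.A3)), by ring⟩ ?_ ?_ ?_ ?_ ⟨-(D.p * (D.q * D.S1)), by ring⟩ ?_ ?_ ?_ ?_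
    ?_ ?_ ?_ ?_ ?_ ?_
  · have : (-2 * D.a) ^ 2 - 4 * (D.a ^ 2 - 4 * D.b) = 16 * D.b := by ring
    rw [this]
    exact mul_ne_zero (by norm_num) D.b_ne
  · exact nd_neg (nm3 D.pS2 D.pp D.pq D.pA3 (by omega) (by omega) (by omega)
      (nd D.pS2 D.pA4 (by omega)))
  · exact nd_neg (nm3 D.ps3 D.pp D.pq D.pA3 n6 n7 n8 (nd D.ps3 D.pA4 (by omega)))
  · exact nd_neg (nm3 D.ps4 D.pp D.pq D.pA3 n1 n2 n3 (nd D.ps4 D.pA4 (by omega)))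
  · exact nd_neg (nm3 D.pA4 D.pp D.pq D.pS1 (by omega) (by omega) (by omega)
      (nd D.pA4 D.pS2 (by omega)))
  · exact nd_neg (nm3 D.ps3 D.pp D.pq D.pS1 n6 n7 (by omega) (nd D.ps3 D.pS2 (by omega)))
  · exact nd_neg (nm3 D.ps4 D.pp D.pq D.pS1 n1 n2 (by omega) (nd D.ps4 D.pS2 (by omega)))
  · exact nd_neg (nm3 D.pA4 D.pq D.pA3 D.pS1 (by omega) (by omega) (by omega)
      (m3 D.pA4 (by omega)))
  · exact nd_neg (nm3 D.pS2 D.pq D.pA3 D.pS1 (by omega) (by omega) (by omega)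
      (m3 D.pS2 (by omega)))
  · rw [dvd_neg]
    exact ((ds3.mul_left _).mul_left _).mul_left _
  · exact nd_neg (nm3 D.ps4 D.pq D.pA3 D.pS1 n2 n3 (by omega) (m3 D.ps4 (fun h => n12 h.symm)))
  · exact nm3 D.pA4 D.pp D.pA3 D.pS1 (by omega) (by omega) (by omega)
      (m4 D.pA4 (by omega))
  · exact nm3 D.pS2 D.pp D.pA3 D.pS1 (by omega) (by omega) (by omega)
      (m4 D.pS2 (by omega))
  · exact nm3 D.ps3 D.pp D.pA3 D.pS1 n6 n8 (by omega) (m4 D.ps3 n12)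
  · exact ((ds4.mul_left _).mul_left _).mul_left _

theorem up_E : (Sel D.a D.b).ncard ≤ 2 ^ 4 := by
  apply card_le_of_range (α := Bool × Bool × Bool × Bool)
    (fun y => pw (y.1 ^^ (y.2.1 ^^ y.2.2.1 ^^ y.2.2.2) ^^ y.2.2.1) D.p *
      (pw (y.1 ^^ (y.2.1 ^^ y.2.2.1 ^^ y.2.2.2) ^^ y.2.2.2) D.q *
      (pw ((y.1 ^^ (y.2.1 ^^ y.2.2.1 ^^ y.2.2.2) ^^ y.2.2.1) ^^
        (y.1 ^^ (y.2.1 ^^ y.2.2.1 ^^ y.2.2.2) ^^ y.2.2.2) ^^ y.1) D.A3 *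
      (pw y.1 D.A4 * (pw (y.2.1 ^^ y.2.2.1 ^^ y.2.2.2) D.R1 * (pw y.2.1 D.P2 *
      (pw y.2.2.1 D.R3 * (pw y.2.2.2 D.R4 * pw y.2.1 2)))))))) (by decide)
  intro d hd
  obtain ⟨e1, e2, e3, e4, f1, f2, f3, f4, e0, rfl⟩ := D.form_E hd
  obtain ⟨h1, h2, h3, h4, h5⟩ := D.rel_E hd
  subst h1; subst h2; subst h3; subst h4; subst h5
  exact ⟨(e4, e0, f3, f4), rfl⟩

theorem up_D : (Sel (-2 * D.a) (D.a ^ 2 - 4 * D.b)).ncard ≤ 2 ^ 4 := by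
  apply card_le_of_range (α := Bool × Bool × Bool × Bool)
    (fun y => pw (y.1 ^^ (y.2.1 ^^ y.2.2.1 ^^ y.2.2.2) ^^ y.2.2.1) D.p *
      (pw (y.1 ^^ (y.2.1 ^^ y.2.2.1 ^^ y.2.2.2) ^^ y.2.2.2) D.q *
      (pw ((y.1 ^^ (y.2.1 ^^ y.2.2.1 ^^ y.2.2.2) ^^ y.2.2.1) ^^
        (y.1 ^^ (y.2.1 ^^ y.2.2.1 ^^ y.2.2.2) ^^ y.2.2.2) ^^ y.1) D.A3 *
      (pw y.1 D.A4 * (pw (y.2.1 ^^ y.2.2.1 ^^ y.2.2.2) D.S1 * (pw y.2.1 D.S2 *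
      (pw y.2.2.1 D.S3 * (pw y.2.2.2 D.S4 * pw (y.1 ^^ y.2.1 ^^ y.2.2.1) (-1)))))))))
      (by decide)
  intro d hd
  obtain ⟨e1, e2, e3, e4, f1, f2, f3, f4, e0, rfl⟩ := D.form_D hd
  obtain ⟨h1, h2, h3, h4, h5⟩ := D.rel_D hd
  subst h1; subst h2; subst h3; subst h4; subst h5
  exact ⟨(e4, f2, f3, f4), rfl⟩

theorem main : mwRank D.a D.b = 6 ∧ (Sel D.a D.b).ncard = 2 ^ 4 ∧
    (Sel (-2 * D.a) (D.a ^ 2 - 4 * D.b)).ncard = 2 ^ 4 := by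
  obtain ⟨h1, h2, h3⟩ := finish D.b_ne D.disc_ne D.low_E D.up_E D.low_D D.up_D
  exact ⟨by omega, h2, h3⟩

end Pool.Agent.H23.Six.Dat
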