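import Pool.Agent.H23.Symb

/-!
# Legendre symbols of the linear forms of the rank six family
-/

namespace Pool.Agent.H23.Six


theorem sym_q {P : ℕ} [Fact P.Prime] {τ p q A3 A4 R1 P2 R3 R4 S1 S2 S3 S4 : ℤ}
    (hP : 1 * q = τ * P)
    (eA3 : A3 = 18 * p + 7 * q)
    (eA4 : A4 = 108 * p + 77 * q)
    (eR1 : R1 = 72 * p + 77 * q)
    (eP2 : 27 * p + 7 * q = 2 * P2)
    (eR3 : R3 = 54 * p + 11 * q)
    (eR4 : R4 = 36 * p + 49 * q)
    (eS1 : S1 = 128 * p + 77 * q)
    (eS2 : S2 = 243 * p + 112 * q)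
    (eS3 : S3 = 54 * p - 11 * q)
    (eS4 : S4 = 36 * p - 49 * q)
    {t2 t3 v : Bool}
    (h2 : legendreSym P 2 = sg t2)
    (h3 : legendreSym P 3 = sg t3)
    (hv : legendreSym P p = sg v) :
    legendreSym P A3 = sg ((false) ^^ ((t2) ^^ v)) ∧
    legendreSym P A4 = sg ((false) ^^ ((t3) ^^ v)) ∧
    legendreSym P R1 = sg ((false) ^^ ((t2) ^^ v)) ∧
    legendreSym P P2 = sg ((t2) ^^ ((t3) ^^ v)) ∧
    legendreSym P R3 = sg ((false) ^^ ((t2 ^^ t3) ^^ v)) ∧
    legendreSym P R4 = sg ((false) ^^ ((false) ^^ v)) ∧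
    legendreSym P S1 = sg ((false) ^^ ((t2) ^^ v)) ∧
    legendreSym P S2 = sg ((false) ^^ ((t3) ^^ v)) ∧
    legendreSym P S3 = sg ((false) ^^ ((t2 ^^ t3) ^^ v)) ∧
    legendreSym P S4 = sg ((false) ^^ ((false) ^^ v)) := by
  have c2 : legendreSym P 2 = sg (t2) := h2
  have c18 : legendreSym P 18 = sg (t2) := by
    have h : legendreSym P 18 = sg ((t2 ^^ t3) ^^ t3) := by
      rw [show (18 : ℤ) = 2 * 3 * 3 by norm_num, legendreSym.mul, legendreSym.mul, h2, h3, sg_mul, sg_mul]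
    exact h.trans (congrArg sg (by cases t2 <;> cases t3 <;> rfl))
  have c27 : legendreSym P 27 = sg (t3) := by
    have h : legendreSym P 27 = sg ((t3 ^^ t3) ^^ t3) := by
      rw [show (27 : ℤ) = 3 * 3 * 3 by norm_num, legendreSym.mul, legendreSym.mul, h3, sg_mul, sg_mul]
    exact h.trans (congrArg sg (by cases t3 <;> rfl))
  have c36 : legendreSym P 36 = sg (false) := by
    have h : legendreSym P 36 = sg (((t2 ^^ t2) ^^ t3) ^^ t3) := by
      rw [show (36 : ℤ) = 2 * 2 * 3 * 3 by norm_num, legendreSym.mul, legendreSym.mul, legendreSym.mul, h2, h3, sg_mul, sg_mul, sg_mul]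
    exact h.trans (congrArg sg (by cases t2 <;> cases t3 <;> rfl))
  have c54 : legendreSym P 54 = sg (t2 ^^ t3) := by
    have h : legendreSym P 54 = sg (((t2 ^^ t3) ^^ t3) ^^ t3) := by
      rw [show (54 : ℤ) = 2 * 3 * 3 * 3 by norm_num, legendreSym.mul, legendreSym.mul, legendreSym.mul, h2, h3, sg_mul, sg_mul, sg_mul]
    exact h.trans (congrArg sg (by cases t2 <;> cases t3 <;> rfl))
  have c72 : legendreSym P 72 = sg (t2) := by
    have h : legendreSym P 72 = sg ((((t2 ^^ t2) ^^ t2) ^^ t3) ^^ t3) := by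
      rw [show (72 : ℤ) = 2 * 2 * 2 * 3 * 3 by norm_num, legendreSym.mul, legendreSym.mul, legendreSym.mul, legendreSym.mul, h2, h3, sg_mul, sg_mul, sg_mul, sg_mul]
    exact h.trans (congrArg sg (by cases t2 <;> cases t3 <;> rfl))
  have c108 : legendreSym P 108 = sg (t3) := by
    have h : legendreSym P 108 = sg ((((t2 ^^ t2) ^^ t3) ^^ t3) ^^ t3) := by
      rw [show (108 : ℤ) = 2 * 2 * 3 * 3 * 3 by norm_num, legendreSym.mul, legendreSym.mul, legendreSym.mul, legendreSym.mul, h2, h3, sg_mul, sg_mul, sg_mul, sg_mul]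
    exact h.trans (congrArg sg (by cases t2 <;> cases t3 <;> rfl))
  have c128 : legendreSym P 128 = sg (t2) := by
    have h : legendreSym P 128 = sg ((((((t2 ^^ t2) ^^ t2) ^^ t2) ^^ t2) ^^ t2) ^^ t2) := by
      rw [show (128 : ℤ) = 2 * 2 * 2 * 2 * 2 * 2 * 2 by norm_num, legendreSym.mul, legendreSym.mul, legendreSym.mul, legendreSym.mul, legendreSym.mul, legendreSym.mul, h2, sg_mul, sg_mul, sg_mul, sg_mul, sg_mul, sg_mul]
    exact h.trans (congrArg sg (by cases t2 <;> rfl))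
  have c243 : legendreSym P 243 = sg (t3) := by
    have h : legendreSym P 243 = sg ((((t3 ^^ t3) ^^ t3) ^^ t3) ^^ t3) := by
      rw [show (243 : ℤ) = 3 * 3 * 3 * 3 * 3 by norm_num, legendreSym.mul, legendreSym.mul, legendreSym.mul, legendreSym.mul, h3, sg_mul, sg_mul, sg_mul, sg_mul]
    exact h.trans (congrArg sg (by cases t3 <;> rfl))
  exact ⟨chi_val (c := 1) (k := 18) (m := 7 * τ) (by linear_combination (1) * eA3 + (7) * hP) chi_one c18 hv,
    chi_val (c := 1) (k := 108) (m := 77 * τ) (by linear_combination (1) * eA4 + (77) * hP) chi_one c108 hv,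
    chi_val (c := 1) (k := 72) (m := 77 * τ) (by linear_combination (1) * eR1 + (77) * hP) chi_one c72 hv,
    chi_val (c := 2) (k := 27) (m := 7 * τ) (by linear_combination (-1) * eP2 + (7) * hP) c2 c27 hv,
    chi_val (c := 1) (k := 54) (m := 11 * τ) (by linear_combination (1) * eR3 + (11) * hP) chi_one c54 hv,
    chi_val (c := 1) (k := 36) (m := 49 * τ) (by linear_combination (1) * eR4 + (49) * hP) chi_one c36 hv,
    chi_val (c := 1) (k := 128) (m := 77 * τ) (by linear_combination (1) * eS1 + (77) * hP) chi_one c128 hv,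
    chi_val (c := 1) (k := 243) (m := 112 * τ) (by linear_combination (1) * eS2 + (112) * hP) chi_one c243 hv,
    chi_val (c := 1) (k := 54) (m := (-11) * τ) (by linear_combination (1) * eS3 + (-11) * hP) chi_one c54 hv,
    chi_val (c := 1) (k := 36) (m := (-49) * τ) (by linear_combination (1) * eS4 + (-49) * hP) chi_one c36 hv⟩

theorem sym_A3 {P : ℕ} [Fact P.Prime] {τ p q A4 R1 P2 R3 R4 S1 S2 S3 S4 : ℤ}
    (hP : 18 * p + 7 * q = τ * P)
    (eA4 : A4 = 108 * p + 77 * q)
    (eR1 : R1 = 72 * p + 77 * q)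
    (eP2 : 27 * p + 7 * q = 2 * P2)
    (eR3 : R3 = 54 * p + 11 * q)
    (eR4 : R4 = 36 * p + 49 * q)
    (eS1 : S1 = 128 * p + 77 * q)
    (eS2 : S2 = 243 * p + 112 * q)
    (eS3 : S3 = 54 * p - 11 * q)
    (eS4 : S4 = 36 * p - 49 * q)
    {n t2 t3 t5 t7 v : Bool}
    (hn : legendreSym P (-1) = sg n)
    (h2 : legendreSym P 2 = sg t2)
    (h3 : legendreSym P 3 = sg t3)
    (h5 : legendreSym P 5 = sg t5)
    (h7 : legendreSym P 7 = sg t7)
    (hv : legendreSym P q = sg v) :
    legendreSym P p = sg ((t2) ^^ ((n ^^ t7) ^^ v)) ∧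
    legendreSym P A4 = sg ((false) ^^ ((t5 ^^ t7) ^^ v)) ∧
    legendreSym P R1 = sg ((false) ^^ ((false) ^^ v)) ∧
    legendreSym P P2 = sg ((false) ^^ ((n ^^ t7) ^^ v)) ∧
    legendreSym P R3 = sg ((false) ^^ ((n ^^ t2 ^^ t5) ^^ v)) ∧
    legendreSym P R4 = sg ((false) ^^ ((t5 ^^ t7) ^^ v)) ∧
    legendreSym P S1 = sg ((false) ^^ ((t5) ^^ v)) ∧
    legendreSym P S2 = sg ((t2) ^^ ((t5 ^^ t7) ^^ v)) ∧
    legendreSym P S3 = sg ((false) ^^ ((n ^^ t2) ^^ v)) ∧
    legendreSym P S4 = sg ((false) ^^ ((n ^^ t7) ^^ v)) := by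
  have cm63 : legendreSym P (-63) = sg (n ^^ t7) := by
    have h : legendreSym P (-63) = sg (((n ^^ t3) ^^ t3) ^^ t7) := by
      rw [show (-63 : ℤ) = (-1) * 3 * 3 * 7 by norm_num, legendreSym.mul, legendreSym.mul, legendreSym.mul, hn, h3, h7, sg_mul, sg_mul, sg_mul]
    exact h.trans (congrArg sg (by cases n <;> cases t3 <;> cases t7 <;> rfl))
  have cm32 : legendreSym P (-32) = sg (n ^^ t2) := by
    have h : legendreSym P (-32) = sg (((((n ^^ t2) ^^ t2) ^^ t2) ^^ t2) ^^ t2) := by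
      rw [show (-32 : ℤ) = (-1) * 2 * 2 * 2 * 2 * 2 by norm_num, legendreSym.mul, legendreSym.mul, legendreSym.mul, legendreSym.mul, legendreSym.mul, hn, h2, sg_mul, sg_mul, sg_mul, sg_mul, sg_mul]
    exact h.trans (congrArg sg (by cases n <;> cases t2 <;> rfl))
  have cm10 : legendreSym P (-10) = sg (n ^^ t2 ^^ t5) := by
    have h : legendreSym P (-10) = sg ((n ^^ t2) ^^ t5) := by
      rw [show (-10 : ℤ) = (-1) * 2 * 5 by norm_num, legendreSym.mul, legendreSym.mul, hn, h2, h5, sg_mul, sg_mul]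
    exact h.trans (congrArg sg (by cases n <;> cases t2 <;> cases t5 <;> rfl))
  have cm7 : legendreSym P (-7) = sg (n ^^ t7) := by
    have h : legendreSym P (-7) = sg (n ^^ t7) := by
      rw [show (-7 : ℤ) = (-1) * 7 by norm_num, legendreSym.mul, hn, h7, sg_mul]
    exact h.trans (congrArg sg (by cases n <;> cases t7 <;> rfl))
  have c2 : legendreSym P 2 = sg (t2) := h2
  have c4 : legendreSym P 4 = sg (false) := by
    have h : legendreSym P 4 = sg (t2 ^^ t2) := by
      rw [show (4 : ℤ) = 2 * 2 by norm_num, legendreSym.mul, h2, sg_mul]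
    exact h.trans (congrArg sg (by cases t2 <;> rfl))
  have c9 : legendreSym P 9 = sg (false) := by
    have h : legendreSym P 9 = sg (t3 ^^ t3) := by
      rw [show (9 : ℤ) = 3 * 3 by norm_num, legendreSym.mul, h3, sg_mul]
    exact h.trans (congrArg sg (by cases t3 <;> rfl))
  have c18 : legendreSym P 18 = sg (t2) := by
    have h : legendreSym P 18 = sg ((t2 ^^ t3) ^^ t3) := by
      rw [show (18 : ℤ) = 2 * 3 * 3 by norm_num, legendreSym.mul, legendreSym.mul, h2, h3, sg_mul, sg_mul]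
    exact h.trans (congrArg sg (by cases t2 <;> cases t3 <;> rfl))
  have c35 : legendreSym P 35 = sg (t5 ^^ t7) := by
    have h : legendreSym P 35 = sg (t5 ^^ t7) := by
      rw [show (35 : ℤ) = 5 * 7 by norm_num, legendreSym.mul, h5, h7, sg_mul]
    exact h.trans (congrArg sg (by cases t5 <;> cases t7 <;> rfl))
  have c49 : legendreSym P 49 = sg (false) := by
    have h : legendreSym P 49 = sg (t7 ^^ t7) := by
      rw [show (49 : ℤ) = 7 * 7 by norm_num, legendreSym.mul, h7, sg_mul]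
    exact h.trans (congrArg sg (by cases t7 <;> rfl))
  have c245 : legendreSym P 245 = sg (t5) := by
    have h : legendreSym P 245 = sg ((t5 ^^ t7) ^^ t7) := by
      rw [show (245 : ℤ) = 5 * 7 * 7 by norm_num, legendreSym.mul, legendreSym.mul, h5, h7, sg_mul, sg_mul]
    exact h.trans (congrArg sg (by cases t5 <;> cases t7 <;> rfl))
  exact ⟨chi_val (c := 18) (k := (-7)) (m := 1 * τ) (by linear_combination (1) * hP) c18 cm7 hv,
    chi_val (c := 1) (k := 35) (m := 6 * τ) (by linear_combination (1) * eA4 + (6) * hP) chi_one c35 hv,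
    chi_val (c := 1) (k := 49) (m := 4 * τ) (by linear_combination (1) * eR1 + (4) * hP) chi_one c49 hv,
    chi_val (c := 4) (k := (-7)) (m := 3 * τ) (by linear_combination (-2) * eP2 + (3) * hP) c4 cm7 hv,
    chi_val (c := 1) (k := (-10)) (m := 3 * τ) (by linear_combination (1) * eR3 + (3) * hP) chi_one cm10 hv,
    chi_val (c := 1) (k := 35) (m := 2 * τ) (by linear_combination (1) * eR4 + (2) * hP) chi_one c35 hv,
    chi_val (c := 9) (k := 245) (m := 64 * τ) (by linear_combination (9) * eS1 + (64) * hP) c9 c245 hv,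
    chi_val (c := 2) (k := 35) (m := 27 * τ) (by linear_combination (2) * eS2 + (27) * hP) c2 c35 hv,
    chi_val (c := 1) (k := (-32)) (m := 3 * τ) (by linear_combination (1) * eS3 + (3) * hP) chi_one cm32 hv,
    chi_val (c := 1) (k := (-63)) (m := 2 * τ) (by linear_combination (1) * eS4 + (2) * hP) chi_one cm63 hv⟩

theorem sym_S1 {P : ℕ} [Fact P.Prime] {τ p q A3 A4 R1 P2 R3 R4 : ℤ}
    (hP : 128 * p + 77 * q = τ * P)
    (eA3 : A3 = 18 * p + 7 * q)
    (eA4 : A4 = 108 * p + 77 * q)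
    (eR1 : R1 = 72 * p + 77 * q)
    (eP2 : 27 * p + 7 * q = 2 * P2)
    (eR3 : R3 = 54 * p + 11 * q)
    (eR4 : R4 = 36 * p + 49 * q)
    {n t2 t5 t7 t11 t13 v : Bool}
    (hn : legendreSym P (-1) = sg n)
    (h2 : legendreSym P 2 = sg t2)
    (h5 : legendreSym P 5 = sg t5)
    (h7 : legendreSym P 7 = sg t7)
    (h11 : legendreSym P 11 = sg t11)
    (h13 : legendreSym P 13 = sg t13)
    (hv : legendreSym P q = sg v) :
    legendreSym P p = sg ((t2) ^^ ((n ^^ t7 ^^ t11) ^^ v)) ∧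
    legendreSym P A3 = sg ((false) ^^ ((n ^^ t5) ^^ v)) ∧
    legendreSym P A4 = sg ((t2) ^^ ((t5 ^^ t7 ^^ t11) ^^ v)) ∧
    legendreSym P R1 = sg ((false) ^^ ((t11) ^^ v)) ∧
    legendreSym P P2 = sg ((false) ^^ ((n ^^ t7) ^^ v)) ∧
    legendreSym P R3 = sg ((false) ^^ ((n ^^ t5 ^^ t11) ^^ v)) ∧
    legendreSym P R4 = sg ((t2) ^^ ((t5 ^^ t7) ^^ v)) := by
  have cm1375 : legendreSym P (-1375) = sg (n ^^ t5 ^^ t11) := by
    have h : legendreSym P (-1375) = sg ((((n ^^ t5) ^^ t5) ^^ t5) ^^ t11) := by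
      rw [show (-1375 : ℤ) = (-1) * 5 * 5 * 5 * 11 by norm_num, legendreSym.mul, legendreSym.mul, legendreSym.mul, legendreSym.mul, hn, h5, h11, sg_mul, sg_mul, sg_mul, sg_mul]
    exact h.trans (congrArg sg (by cases n <;> cases t5 <;> cases t11 <;> rfl))
  have cm1183 : legendreSym P (-1183) = sg (n ^^ t7) := by
    have h : legendreSym P (-1183) = sg (((n ^^ t7) ^^ t13) ^^ t13) := by
      rw [show (-1183 : ℤ) = (-1) * 7 * 13 * 13 by norm_num, legendreSym.mul, legendreSym.mul, legendreSym.mul, hn, h7, h13, sg_mul, sg_mul, sg_mul]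
    exact h.trans (congrArg sg (by cases n <;> cases t7 <;> cases t13 <;> rfl))
  have cm245 : legendreSym P (-245) = sg (n ^^ t5) := by
    have h : legendreSym P (-245) = sg (((n ^^ t5) ^^ t7) ^^ t7) := by
      rw [show (-245 : ℤ) = (-1) * 5 * 7 * 7 by norm_num, legendreSym.mul, legendreSym.mul, legendreSym.mul, hn, h5, h7, sg_mul, sg_mul, sg_mul]
    exact h.trans (congrArg sg (by cases n <;> cases t5 <;> cases t7 <;> rfl))
  have cm77 : legendreSym P (-77) = sg (n ^^ t7 ^^ t11) := by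
    have h : legendreSym P (-77) = sg ((n ^^ t7) ^^ t11) := by
      rw [show (-77 : ℤ) = (-1) * 7 * 11 by norm_num, legendreSym.mul, legendreSym.mul, hn, h7, h11, sg_mul, sg_mul]
    exact h.trans (congrArg sg (by cases n <;> cases t7 <;> cases t11 <;> rfl))
  have c16 : legendreSym P 16 = sg (false) := by
    have h : legendreSym P 16 = sg (((t2 ^^ t2) ^^ t2) ^^ t2) := by
      rw [show (16 : ℤ) = 2 * 2 * 2 * 2 by norm_num, legendreSym.mul, legendreSym.mul, legendreSym.mul, h2, sg_mul, sg_mul, sg_mul]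
    exact h.trans (congrArg sg (by cases t2 <;> rfl))
  have c32 : legendreSym P 32 = sg (t2) := by
    have h : legendreSym P 32 = sg ((((t2 ^^ t2) ^^ t2) ^^ t2) ^^ t2) := by
      rw [show (32 : ℤ) = 2 * 2 * 2 * 2 * 2 by norm_num, legendreSym.mul, legendreSym.mul, legendreSym.mul, legendreSym.mul, h2, sg_mul, sg_mul, sg_mul, sg_mul]
    exact h.trans (congrArg sg (by cases t2 <;> rfl))
  have c64 : legendreSym P 64 = sg (false) := by
    have h : legendreSym P 64 = sg (((((t2 ^^ t2) ^^ t2) ^^ t2) ^^ t2) ^^ t2) := by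
      rw [show (64 : ℤ) = 2 * 2 * 2 * 2 * 2 * 2 by norm_num, legendreSym.mul, legendreSym.mul, legendreSym.mul, legendreSym.mul, legendreSym.mul, h2, sg_mul, sg_mul, sg_mul, sg_mul, sg_mul]
    exact h.trans (congrArg sg (by cases t2 <;> rfl))
  have c128 : legendreSym P 128 = sg (t2) := by
    have h : legendreSym P 128 = sg ((((((t2 ^^ t2) ^^ t2) ^^ t2) ^^ t2) ^^ t2) ^^ t2) := by
      rw [show (128 : ℤ) = 2 * 2 * 2 * 2 * 2 * 2 * 2 by norm_num, legendreSym.mul, legendreSym.mul, legendreSym.mul, legendreSym.mul, legendreSym.mul, legendreSym.mul, h2, sg_mul, sg_mul, sg_mul, sg_mul, sg_mul, sg_mul]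
    exact h.trans (congrArg sg (by cases t2 <;> rfl))
  have c256 : legendreSym P 256 = sg (false) := by
    have h : legendreSym P 256 = sg (((((((t2 ^^ t2) ^^ t2) ^^ t2) ^^ t2) ^^ t2) ^^ t2) ^^ t2) := by
      rw [show (256 : ℤ) = 2 * 2 * 2 * 2 * 2 * 2 * 2 * 2 by norm_num, legendreSym.mul, legendreSym.mul, legendreSym.mul, legendreSym.mul, legendreSym.mul, legendreSym.mul, legendreSym.mul, h2, sg_mul, sg_mul, sg_mul, sg_mul, sg_mul, sg_mul, sg_mul]
    exact h.trans (congrArg sg (by cases t2 <;> rfl))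
  have c385 : legendreSym P 385 = sg (t5 ^^ t7 ^^ t11) := by
    have h : legendreSym P 385 = sg ((t5 ^^ t7) ^^ t11) := by
      rw [show (385 : ℤ) = 5 * 7 * 11 by norm_num, legendreSym.mul, legendreSym.mul, h5, h7, h11, sg_mul, sg_mul]
    exact h.trans (congrArg sg (by cases t5 <;> cases t7 <;> cases t11 <;> rfl))
  have c539 : legendreSym P 539 = sg (t11) := by
    have h : legendreSym P 539 = sg ((t7 ^^ t7) ^^ t11) := by
      rw [show (539 : ℤ) = 7 * 7 * 11 by norm_num, legendreSym.mul, legendreSym.mul, h7, h11, sg_mul, sg_mul]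
    exact h.trans (congrArg sg (by cases t7 <;> cases t11 <;> rfl))
  have c875 : legendreSym P 875 = sg (t5 ^^ t7) := by
    have h : legendreSym P 875 = sg (((t5 ^^ t5) ^^ t5) ^^ t7) := by
      rw [show (875 : ℤ) = 5 * 5 * 5 * 7 by norm_num, legendreSym.mul, legendreSym.mul, legendreSym.mul, h5, h7, sg_mul, sg_mul, sg_mul]
    exact h.trans (congrArg sg (by cases t5 <;> cases t7 <;> rfl))
  exact ⟨chi_val (c := 128) (k := (-77)) (m := 1 * τ) (by linear_combination (1) * hP) c128 cm77 hv,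
    chi_val (c := 64) (k := (-245)) (m := 9 * τ) (by linear_combination (64) * eA3 + (9) * hP) c64 cm245 hv,
    chi_val (c := 32) (k := 385) (m := 27 * τ) (by linear_combination (32) * eA4 + (27) * hP) c32 c385 hv,
    chi_val (c := 16) (k := 539) (m := 9 * τ) (by linear_combination (16) * eR1 + (9) * hP) c16 c539 hv,
    chi_val (c := 256) (k := (-1183)) (m := 27 * τ) (by linear_combination (-128) * eP2 + (27) * hP) c256 cm1183 hv,
    chi_val (c := 64) (k := (-1375)) (m := 27 * τ) (by linear_combination (64) * eR3 + (27) * hP) c64 cm1375 hv,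
    chi_val (c := 32) (k := 875) (m := 9 * τ) (by linear_combination (32) * eR4 + (9) * hP) c32 c875 hv⟩

theorem sym_S2 {P : ℕ} [Fact P.Prime] {τ p q A3 A4 R1 P2 R3 R4 : ℤ}
    (hP : 243 * p + 112 * q = τ * P)
    (eA3 : A3 = 18 * p + 7 * q)
    (eA4 : A4 = 108 * p + 77 * q)
    (eR1 : R1 = 72 * p + 77 * q)
    (eP2 : 27 * p + 7 * q = 2 * P2)
    (eR3 : R3 = 54 * p + 11 * q)
    (eR4 : R4 = 36 * p + 49 * q)
    {n t2 t3 t5 t7 t13 v : Bool}
    (hn : legendreSym P (-1) = sg n)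
    (h2 : legendreSym P 2 = sg t2)
    (h3 : legendreSym P 3 = sg t3)
    (h5 : legendreSym P 5 = sg t5)
    (h7 : legendreSym P 7 = sg t7)
    (h13 : legendreSym P 13 = sg t13)
    (hv : legendreSym P q = sg v) :
    legendreSym P p = sg ((t3) ^^ ((n ^^ t7) ^^ v)) ∧
    legendreSym P A3 = sg ((t3) ^^ ((n ^^ t5 ^^ t7) ^^ v)) ∧
    legendreSym P A4 = sg ((false) ^^ ((t5) ^^ v)) ∧
    legendreSym P R1 = sg ((t3) ^^ ((t7) ^^ v)) ∧
    legendreSym P P2 = sg ((t2) ^^ ((n) ^^ v)) ∧
    legendreSym P R3 = sg ((false) ^^ ((n ^^ t5) ^^ v)) ∧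
    legendreSym P R4 = sg ((t3) ^^ ((t5 ^^ t7) ^^ v)) := by
  have cm125 : legendreSym P (-125) = sg (n ^^ t5) := by
    have h : legendreSym P (-125) = sg (((n ^^ t5) ^^ t5) ^^ t5) := by
      rw [show (-125 : ℤ) = (-1) * 5 * 5 * 5 by norm_num, legendreSym.mul, legendreSym.mul, legendreSym.mul, hn, h5, sg_mul, sg_mul, sg_mul]
    exact h.trans (congrArg sg (by cases n <;> cases t5 <;> rfl))
  have cm112 : legendreSym P (-112) = sg (n ^^ t7) := by
    have h : legendreSym P (-112) = sg (((((n ^^ t2) ^^ t2) ^^ t2) ^^ t2) ^^ t7) := by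
      rw [show (-112 : ℤ) = (-1) * 2 * 2 * 2 * 2 * 7 by norm_num, legendreSym.mul, legendreSym.mul, legendreSym.mul, legendreSym.mul, legendreSym.mul, hn, h2, h7, sg_mul, sg_mul, sg_mul, sg_mul, sg_mul]
    exact h.trans (congrArg sg (by cases n <;> cases t2 <;> cases t7 <;> rfl))
  have cm49 : legendreSym P (-49) = sg (n) := by
    have h : legendreSym P (-49) = sg ((n ^^ t7) ^^ t7) := by
      rw [show (-49 : ℤ) = (-1) * 7 * 7 by norm_num, legendreSym.mul, legendreSym.mul, hn, h7, sg_mul, sg_mul]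
    exact h.trans (congrArg sg (by cases n <;> cases t7 <;> rfl))
  have cm35 : legendreSym P (-35) = sg (n ^^ t5 ^^ t7) := by
    have h : legendreSym P (-35) = sg ((n ^^ t5) ^^ t7) := by
      rw [show (-35 : ℤ) = (-1) * 5 * 7 by norm_num, legendreSym.mul, legendreSym.mul, hn, h5, h7, sg_mul, sg_mul]
    exact h.trans (congrArg sg (by cases n <;> cases t5 <;> cases t7 <;> rfl))
  have c9 : legendreSym P 9 = sg (false) := by
    have h : legendreSym P 9 = sg (t3 ^^ t3) := by
      rw [show (9 : ℤ) = 3 * 3 by norm_num, legendreSym.mul, h3, sg_mul]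
    exact h.trans (congrArg sg (by cases t3 <;> rfl))
  have c18 : legendreSym P 18 = sg (t2) := by
    have h : legendreSym P 18 = sg ((t2 ^^ t3) ^^ t3) := by
      rw [show (18 : ℤ) = 2 * 3 * 3 by norm_num, legendreSym.mul, legendreSym.mul, h2, h3, sg_mul, sg_mul]
    exact h.trans (congrArg sg (by cases t2 <;> cases t3 <;> rfl))
  have c27 : legendreSym P 27 = sg (t3) := by
    have h : legendreSym P 27 = sg ((t3 ^^ t3) ^^ t3) := by
      rw [show (27 : ℤ) = 3 * 3 * 3 by norm_num, legendreSym.mul, legendreSym.mul, h3, sg_mul, sg_mul]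
    exact h.trans (congrArg sg (by cases t3 <;> rfl))
  have c243 : legendreSym P 243 = sg (t3) := by
    have h : legendreSym P 243 = sg ((((t3 ^^ t3) ^^ t3) ^^ t3) ^^ t3) := by
      rw [show (243 : ℤ) = 3 * 3 * 3 * 3 * 3 by norm_num, legendreSym.mul, legendreSym.mul, legendreSym.mul, legendreSym.mul, h3, sg_mul, sg_mul, sg_mul, sg_mul]
    exact h.trans (congrArg sg (by cases t3 <;> rfl))
  have c245 : legendreSym P 245 = sg (t5) := by
    have h : legendreSym P 245 = sg ((t5 ^^ t7) ^^ t7) := by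
      rw [show (245 : ℤ) = 5 * 7 * 7 by norm_num, legendreSym.mul, legendreSym.mul, h5, h7, sg_mul, sg_mul]
    exact h.trans (congrArg sg (by cases t5 <;> cases t7 <;> rfl))
  have c875 : legendreSym P 875 = sg (t5 ^^ t7) := by
    have h : legendreSym P 875 = sg (((t5 ^^ t5) ^^ t5) ^^ t7) := by
      rw [show (875 : ℤ) = 5 * 5 * 5 * 7 by norm_num, legendreSym.mul, legendreSym.mul, legendreSym.mul, h5, h7, sg_mul, sg_mul, sg_mul]
    exact h.trans (congrArg sg (by cases t5 <;> cases t7 <;> rfl))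
  have c1183 : legendreSym P 1183 = sg (t7) := by
    have h : legendreSym P 1183 = sg ((t7 ^^ t13) ^^ t13) := by
      rw [show (1183 : ℤ) = 7 * 13 * 13 by norm_num, legendreSym.mul, legendreSym.mul, h7, h13, sg_mul, sg_mul]
    exact h.trans (congrArg sg (by cases t7 <;> cases t13 <;> rfl))
  exact ⟨chi_val (c := 243) (k := (-112)) (m := 1 * τ) (by linear_combination (1) * hP) c243 cm112 hv,
    chi_val (c := 27) (k := (-35)) (m := 2 * τ) (by linear_combination (27) * eA3 + (2) * hP) c27 cm35 hv,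
    chi_val (c := 9) (k := 245) (m := 4 * τ) (by linear_combination (9) * eA4 + (4) * hP) c9 c245 hv,
    chi_val (c := 27) (k := 1183) (m := 8 * τ) (by linear_combination (27) * eR1 + (8) * hP) c27 c1183 hv,
    chi_val (c := 18) (k := (-49)) (m := 1 * τ) (by linear_combination (-9) * eP2 + (1) * hP) c18 cm49 hv,
    chi_val (c := 9) (k := (-125)) (m := 2 * τ) (by linear_combination (9) * eR3 + (2) * hP) c9 cm125 hv,
    chi_val (c := 27) (k := 875) (m := 4 * τ) (by linear_combination (27) * eR4 + (4) * hP) c27 c875 hv⟩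

theorem sym_S4 {P : ℕ} [Fact P.Prime] {τ p q A3 A4 R1 P2 R3 R4 : ℤ}
    (hP : 36 * p - 49 * q = τ * P)
    (eA3 : A3 = 18 * p + 7 * q)
    (eA4 : A4 = 108 * p + 77 * q)
    (eR1 : R1 = 72 * p + 77 * q)
    (eP2 : 27 * p + 7 * q = 2 * P2)
    (eR3 : R3 = 54 * p + 11 * q)
    (eR4 : R4 = 36 * p + 49 * q)
    {t2 t3 t5 t7 t13 v : Bool}
    (h2 : legendreSym P 2 = sg t2)
    (h3 : legendreSym P 3 = sg t3)
    (h5 : legendreSym P 5 = sg t5)
    (h7 : legendreSym P 7 = sg t7)
    (h13 : legendreSym P 13 = sg t13)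
    (hv : legendreSym P q = sg v) :
    legendreSym P p = sg ((false) ^^ ((false) ^^ v)) ∧
    legendreSym P A3 = sg ((t2) ^^ ((t7) ^^ v)) ∧
    legendreSym P A4 = sg ((false) ^^ ((t2 ^^ t7) ^^ v)) ∧
    legendreSym P R1 = sg ((false) ^^ ((t7) ^^ v)) ∧
    legendreSym P P2 = sg ((t2) ^^ ((t7) ^^ v)) ∧
    legendreSym P R3 = sg ((t2) ^^ ((false) ^^ v)) ∧
    legendreSym P R4 = sg ((false) ^^ ((t2) ^^ v)) := by
  have c2 : legendreSym P 2 = sg (t2) := h2
  have c8 : legendreSym P 8 = sg (t2) := by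
    have h : legendreSym P 8 = sg ((t2 ^^ t2) ^^ t2) := by
      rw [show (8 : ℤ) = 2 * 2 * 2 by norm_num, legendreSym.mul, legendreSym.mul, h2, sg_mul, sg_mul]
    exact h.trans (congrArg sg (by cases t2 <;> rfl))
  have c36 : legendreSym P 36 = sg (false) := by
    have h : legendreSym P 36 = sg (((t2 ^^ t2) ^^ t3) ^^ t3) := by
      rw [show (36 : ℤ) = 2 * 2 * 3 * 3 by norm_num, legendreSym.mul, legendreSym.mul, legendreSym.mul, h2, h3, sg_mul, sg_mul, sg_mul]
    exact h.trans (congrArg sg (by cases t2 <;> cases t3 <;> rfl))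
  have c49 : legendreSym P 49 = sg (false) := by
    have h : legendreSym P 49 = sg (t7 ^^ t7) := by
      rw [show (49 : ℤ) = 7 * 7 by norm_num, legendreSym.mul, h7, sg_mul]
    exact h.trans (congrArg sg (by cases t7 <;> rfl))
  have c63 : legendreSym P 63 = sg (t7) := by
    have h : legendreSym P 63 = sg ((t3 ^^ t3) ^^ t7) := by
      rw [show (63 : ℤ) = 3 * 3 * 7 by norm_num, legendreSym.mul, legendreSym.mul, h3, h7, sg_mul, sg_mul]
    exact h.trans (congrArg sg (by cases t3 <;> cases t7 <;> rfl))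
  have c98 : legendreSym P 98 = sg (t2) := by
    have h : legendreSym P 98 = sg ((t2 ^^ t7) ^^ t7) := by
      rw [show (98 : ℤ) = 2 * 7 * 7 by norm_num, legendreSym.mul, legendreSym.mul, h2, h7, sg_mul, sg_mul]
    exact h.trans (congrArg sg (by cases t2 <;> cases t7 <;> rfl))
  have c169 : legendreSym P 169 = sg (false) := by
    have h : legendreSym P 169 = sg (t13 ^^ t13) := by
      rw [show (169 : ℤ) = 13 * 13 by norm_num, legendreSym.mul, h13, sg_mul]
    exact h.trans (congrArg sg (by cases t13 <;> rfl))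
  have c175 : legendreSym P 175 = sg (t7) := by
    have h : legendreSym P 175 = sg ((t5 ^^ t5) ^^ t7) := by
      rw [show (175 : ℤ) = 5 * 5 * 7 by norm_num, legendreSym.mul, legendreSym.mul, h5, h7, sg_mul, sg_mul]
    exact h.trans (congrArg sg (by cases t5 <;> cases t7 <;> rfl))
  have c224 : legendreSym P 224 = sg (t2 ^^ t7) := by
    have h : legendreSym P 224 = sg (((((t2 ^^ t2) ^^ t2) ^^ t2) ^^ t2) ^^ t7) := by
      rw [show (224 : ℤ) = 2 * 2 * 2 * 2 * 2 * 7 by norm_num, legendreSym.mul, legendreSym.mul, legendreSym.mul, legendreSym.mul, legendreSym.mul, h2, h7, sg_mul, sg_mul, sg_mul, sg_mul, sg_mul]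
    exact h.trans (congrArg sg (by cases t2 <;> cases t7 <;> rfl))
  exact ⟨chi_val (c := 36) (k := 49) (m := 1 * τ) (by linear_combination (1) * hP) c36 c49 hv,
    chi_val (c := 2) (k := 63) (m := 1 * τ) (by linear_combination (2) * eA3 + (1) * hP) c2 c63 hv,
    chi_val (c := 1) (k := 224) (m := 3 * τ) (by linear_combination (1) * eA4 + (3) * hP) chi_one c224 hv,
    chi_val (c := 1) (k := 175) (m := 2 * τ) (by linear_combination (1) * eR1 + (2) * hP) chi_one c175 hv,
    chi_val (c := 8) (k := 175) (m := 3 * τ) (by linear_combination (-4) * eP2 + (3) * hP) c8 c175 hv,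
    chi_val (c := 2) (k := 169) (m := 3 * τ) (by linear_combination (2) * eR3 + (3) * hP) c2 c169 hv,
    chi_val (c := 1) (k := 98) (m := 1 * τ) (by linear_combination (1) * eR4 + (1) * hP) chi_one c98 hv⟩

theorem sym_R4 {P : ℕ} [Fact P.Prime] {τ p q A3 A4 S1 S2 S3 S4 : ℤ}
    (hP : 36 * p + 49 * q = τ * P)
    (eA3 : A3 = 18 * p + 7 * q)
    (eA4 : A4 = 108 * p + 77 * q)
    (eS1 : S1 = 128 * p + 77 * q)
    (eS2 : S2 = 243 * p + 112 * q)
    (eS3 : S3 = 54 * p - 11 * q)
    (eS4 : S4 = 36 * p - 49 * q)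
    {n t2 t3 t5 t7 t13 v : Bool}
    (hn : legendreSym P (-1) = sg n)
    (h2 : legendreSym P 2 = sg t2)
    (h3 : legendreSym P 3 = sg t3)
    (h5 : legendreSym P 5 = sg t5)
    (h7 : legendreSym P 7 = sg t7)
    (h13 : legendreSym P 13 = sg t13)
    (hv : legendreSym P q = sg v) :
    legendreSym P p = sg ((false) ^^ ((n) ^^ v)) ∧
    legendreSym P A3 = sg ((t2) ^^ ((n ^^ t5 ^^ t7) ^^ v)) ∧
    legendreSym P A4 = sg ((false) ^^ ((n ^^ t2 ^^ t5 ^^ t7) ^^ v)) ∧
    legendreSym P S1 = sg ((false) ^^ ((n ^^ t5 ^^ t7) ^^ v)) ∧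
    legendreSym P S2 = sg ((false) ^^ ((n ^^ t5 ^^ t7) ^^ v)) ∧
    legendreSym P S3 = sg ((t2) ^^ ((n) ^^ v)) ∧
    legendreSym P S4 = sg ((false) ^^ ((n ^^ t2) ^^ v)) := by
  have cm875 : legendreSym P (-875) = sg (n ^^ t5 ^^ t7) := by
    have h : legendreSym P (-875) = sg ((((n ^^ t5) ^^ t5) ^^ t5) ^^ t7) := by
      rw [show (-875 : ℤ) = (-1) * 5 * 5 * 5 * 7 by norm_num, legendreSym.mul, legendreSym.mul, legendreSym.mul, legendreSym.mul, hn, h5, h7, sg_mul, sg_mul, sg_mul, sg_mul]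
    exact h.trans (congrArg sg (by cases n <;> cases t5 <;> cases t7 <;> rfl))
  have cm169 : legendreSym P (-169) = sg (n) := by
    have h : legendreSym P (-169) = sg ((n ^^ t13) ^^ t13) := by
      rw [show (-169 : ℤ) = (-1) * 13 * 13 by norm_num, legendreSym.mul, legendreSym.mul, hn, h13, sg_mul, sg_mul]
    exact h.trans (congrArg sg (by cases n <;> cases t13 <;> rfl))
  have cm98 : legendreSym P (-98) = sg (n ^^ t2) := by
    have h : legendreSym P (-98) = sg (((n ^^ t2) ^^ t7) ^^ t7) := by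
      rw [show (-98 : ℤ) = (-1) * 2 * 7 * 7 by norm_num, legendreSym.mul, legendreSym.mul, legendreSym.mul, hn, h2, h7, sg_mul, sg_mul, sg_mul]
    exact h.trans (congrArg sg (by cases n <;> cases t2 <;> cases t7 <;> rfl))
  have cm70 : legendreSym P (-70) = sg (n ^^ t2 ^^ t5 ^^ t7) := by
    have h : legendreSym P (-70) = sg (((n ^^ t2) ^^ t5) ^^ t7) := by
      rw [show (-70 : ℤ) = (-1) * 2 * 5 * 7 by norm_num, legendreSym.mul, legendreSym.mul, legendreSym.mul, hn, h2, h5, h7, sg_mul, sg_mul, sg_mul]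
    exact h.trans (congrArg sg (by cases n <;> cases t2 <;> cases t5 <;> cases t7 <;> rfl))
  have cm49 : legendreSym P (-49) = sg (n) := by
    have h : legendreSym P (-49) = sg ((n ^^ t7) ^^ t7) := by
      rw [show (-49 : ℤ) = (-1) * 7 * 7 by norm_num, legendreSym.mul, legendreSym.mul, hn, h7, sg_mul, sg_mul]
    exact h.trans (congrArg sg (by cases n <;> cases t7 <;> rfl))
  have cm35 : legendreSym P (-35) = sg (n ^^ t5 ^^ t7) := by
    have h : legendreSym P (-35) = sg ((n ^^ t5) ^^ t7) := by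
      rw [show (-35 : ℤ) = (-1) * 5 * 7 by norm_num, legendreSym.mul, legendreSym.mul, hn, h5, h7, sg_mul, sg_mul]
    exact h.trans (congrArg sg (by cases n <;> cases t5 <;> cases t7 <;> rfl))
  have c2 : legendreSym P 2 = sg (t2) := h2
  have c4 : legendreSym P 4 = sg (false) := by
    have h : legendreSym P 4 = sg (t2 ^^ t2) := by
      rw [show (4 : ℤ) = 2 * 2 by norm_num, legendreSym.mul, h2, sg_mul]
    exact h.trans (congrArg sg (by cases t2 <;> rfl))
  have c9 : legendreSym P 9 = sg (false) := by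
    have h : legendreSym P 9 = sg (t3 ^^ t3) := by
      rw [show (9 : ℤ) = 3 * 3 by norm_num, legendreSym.mul, h3, sg_mul]
    exact h.trans (congrArg sg (by cases t3 <;> rfl))
  have c36 : legendreSym P 36 = sg (false) := by
    have h : legendreSym P 36 = sg (((t2 ^^ t2) ^^ t3) ^^ t3) := by
      rw [show (36 : ℤ) = 2 * 2 * 3 * 3 by norm_num, legendreSym.mul, legendreSym.mul, legendreSym.mul, h2, h3, sg_mul, sg_mul, sg_mul]
    exact h.trans (congrArg sg (by cases t2 <;> cases t3 <;> rfl))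
  exact ⟨chi_val (c := 36) (k := (-49)) (m := 1 * τ) (by linear_combination (1) * hP) c36 cm49 hv,
    chi_val (c := 2) (k := (-35)) (m := 1 * τ) (by linear_combination (2) * eA3 + (1) * hP) c2 cm35 hv,
    chi_val (c := 1) (k := (-70)) (m := 3 * τ) (by linear_combination (1) * eA4 + (3) * hP) chi_one cm70 hv,
    chi_val (c := 9) (k := (-875)) (m := 32 * τ) (by linear_combination (9) * eS1 + (32) * hP) c9 cm875 hv,
    chi_val (c := 4) (k := (-875)) (m := 27 * τ) (by linear_combination (4) * eS2 + (27) * hP) c4 cm875 hv,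
    chi_val (c := 2) (k := (-169)) (m := 3 * τ) (by linear_combination (2) * eS3 + (3) * hP) c2 cm169 hv,
    chi_val (c := 1) (k := (-98)) (m := 1 * τ) (by linear_combination (1) * eS4 + (1) * hP) chi_one cm98 hv⟩

theorem sym_P2 {P : ℕ} [Fact P.Prime] {τ p q A3 A4 S1 S2 S3 S4 : ℤ}
    (hP : 27 * p + 7 * q = τ * P)
    (eA3 : A3 = 18 * p + 7 * q)
    (eA4 : A4 = 108 * p + 77 * q)
    (eS1 : S1 = 128 * p + 77 * q)
    (eS2 : S2 = 243 * p + 112 * q)
    (eS3 : S3 = 54 * p - 11 * q)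
    (eS4 : S4 = 36 * p - 49 * q)
    {n t3 t5 t7 t13 v : Bool}
    (hn : legendreSym P (-1) = sg n)
    (h3 : legendreSym P 3 = sg t3)
    (h5 : legendreSym P 5 = sg t5)
    (h7 : legendreSym P 7 = sg t7)
    (h13 : legendreSym P 13 = sg t13)
    (hv : legendreSym P q = sg v) :
    legendreSym P p = sg ((t3) ^^ ((n ^^ t7) ^^ v)) ∧
    legendreSym P A3 = sg ((t3) ^^ ((t7) ^^ v)) ∧
    legendreSym P A4 = sg ((false) ^^ ((false) ^^ v)) ∧
    legendreSym P S1 = sg ((t3) ^^ ((t7) ^^ v)) ∧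
    legendreSym P S2 = sg ((false) ^^ ((false) ^^ v)) ∧
    legendreSym P S3 = sg ((false) ^^ ((n) ^^ v)) ∧
    legendreSym P S4 = sg ((t3) ^^ ((n ^^ t7) ^^ v)) := by
  have cm175 : legendreSym P (-175) = sg (n ^^ t7) := by
    have h : legendreSym P (-175) = sg (((n ^^ t5) ^^ t5) ^^ t7) := by
      rw [show (-175 : ℤ) = (-1) * 5 * 5 * 7 by norm_num, legendreSym.mul, legendreSym.mul, legendreSym.mul, hn, h5, h7, sg_mul, sg_mul, sg_mul]
    exact h.trans (congrArg sg (by cases n <;> cases t5 <;> cases t7 <;> rfl))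
  have cm25 : legendreSym P (-25) = sg (n) := by
    have h : legendreSym P (-25) = sg ((n ^^ t5) ^^ t5) := by
      rw [show (-25 : ℤ) = (-1) * 5 * 5 by norm_num, legendreSym.mul, legendreSym.mul, hn, h5, sg_mul, sg_mul]
    exact h.trans (congrArg sg (by cases n <;> cases t5 <;> rfl))
  have cm7 : legendreSym P (-7) = sg (n ^^ t7) := by
    have h : legendreSym P (-7) = sg (n ^^ t7) := by
      rw [show (-7 : ℤ) = (-1) * 7 by norm_num, legendreSym.mul, hn, h7, sg_mul]
    exact h.trans (congrArg sg (by cases n <;> cases t7 <;> rfl))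
  have c3 : legendreSym P 3 = sg (t3) := h3
  have c7 : legendreSym P 7 = sg (t7) := h7
  have c27 : legendreSym P 27 = sg (t3) := by
    have h : legendreSym P 27 = sg ((t3 ^^ t3) ^^ t3) := by
      rw [show (27 : ℤ) = 3 * 3 * 3 by norm_num, legendreSym.mul, legendreSym.mul, h3, sg_mul, sg_mul]
    exact h.trans (congrArg sg (by cases t3 <;> rfl))
  have c49 : legendreSym P 49 = sg (false) := by
    have h : legendreSym P 49 = sg (t7 ^^ t7) := by
      rw [show (49 : ℤ) = 7 * 7 by norm_num, legendreSym.mul, h7, sg_mul]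
    exact h.trans (congrArg sg (by cases t7 <;> rfl))
  have c1183 : legendreSym P 1183 = sg (t7) := by
    have h : legendreSym P 1183 = sg ((t7 ^^ t13) ^^ t13) := by
      rw [show (1183 : ℤ) = 7 * 13 * 13 by norm_num, legendreSym.mul, legendreSym.mul, h7, h13, sg_mul, sg_mul]
    exact h.trans (congrArg sg (by cases t7 <;> cases t13 <;> rfl))
  exact ⟨chi_val (c := 27) (k := (-7)) (m := 1 * τ) (by linear_combination (1) * hP) c27 cm7 hv,
    chi_val (c := 3) (k := 7) (m := 2 * τ) (by linear_combination (3) * eA3 + (2) * hP) c3 c7 hv,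
    chi_val (c := 1) (k := 49) (m := 4 * τ) (by linear_combination (1) * eA4 + (4) * hP) chi_one c49 hv,
    chi_val (c := 27) (k := 1183) (m := 128 * τ) (by linear_combination (27) * eS1 + (128) * hP) c27 c1183 hv,
    chi_val (c := 1) (k := 49) (m := 9 * τ) (by linear_combination (1) * eS2 + (9) * hP) chi_one c49 hv,
    chi_val (c := 1) (k := (-25)) (m := 2 * τ) (by linear_combination (1) * eS3 + (2) * hP) chi_one cm25 hv,
    chi_val (c := 3) (k := (-175)) (m := 4 * τ) (by linear_combination (3) * eS4 + (4) * hP) c3 cm175 hv⟩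

theorem sym_A4 {P : ℕ} [Fact P.Prime] {τ p q A3 S1 S2 S3 S4 : ℤ}
    (hP : 108 * p + 77 * q = τ * P)
    (eA3 : A3 = 18 * p + 7 * q)
    (eS1 : S1 = 128 * p + 77 * q)
    (eS2 : S2 = 243 * p + 112 * q)
    (eS3 : S3 = 54 * p - 11 * q)
    (eS4 : S4 = 36 * p - 49 * q)
    {n t2 t3 t5 t7 t11 v : Bool}
    (hn : legendreSym P (-1) = sg n)
    (h2 : legendreSym P 2 = sg t2)
    (h3 : legendreSym P 3 = sg t3)
    (h5 : legendreSym P 5 = sg t5)
    (h7 : legendreSym P 7 = sg t7)
    (h11 : legendreSym P 11 = sg t11)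
    (hv : legendreSym P q = sg v) :
    legendreSym P p = sg ((t3) ^^ ((n ^^ t7 ^^ t11) ^^ v)) ∧
    legendreSym P A3 = sg ((t2 ^^ t3) ^^ ((n ^^ t5 ^^ t7) ^^ v)) ∧
    legendreSym P S1 = sg ((t3) ^^ ((n ^^ t5 ^^ t7 ^^ t11) ^^ v)) ∧
    legendreSym P S2 = sg ((false) ^^ ((n ^^ t5) ^^ v)) ∧
    legendreSym P S3 = sg ((t2) ^^ ((n ^^ t11) ^^ v)) ∧
    legendreSym P S4 = sg ((t3) ^^ ((n ^^ t2 ^^ t7) ^^ v)) := by
  have cm385 : legendreSym P (-385) = sg (n ^^ t5 ^^ t7 ^^ t11) := by
    have h : legendreSym P (-385) = sg (((n ^^ t5) ^^ t7) ^^ t11) := by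
      rw [show (-385 : ℤ) = (-1) * 5 * 7 * 11 by norm_num, legendreSym.mul, legendreSym.mul, legendreSym.mul, hn, h5, h7, h11, sg_mul, sg_mul, sg_mul]
    exact h.trans (congrArg sg (by cases n <;> cases t5 <;> cases t7 <;> cases t11 <;> rfl))
  have cm245 : legendreSym P (-245) = sg (n ^^ t5) := by
    have h : legendreSym P (-245) = sg (((n ^^ t5) ^^ t7) ^^ t7) := by
      rw [show (-245 : ℤ) = (-1) * 5 * 7 * 7 by norm_num, legendreSym.mul, legendreSym.mul, legendreSym.mul, hn, h5, h7, sg_mul, sg_mul, sg_mul]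
    exact h.trans (congrArg sg (by cases n <;> cases t5 <;> cases t7 <;> rfl))
  have cm224 : legendreSym P (-224) = sg (n ^^ t2 ^^ t7) := by
    have h : legendreSym P (-224) = sg ((((((n ^^ t2) ^^ t2) ^^ t2) ^^ t2) ^^ t2) ^^ t7) := by
      rw [show (-224 : ℤ) = (-1) * 2 * 2 * 2 * 2 * 2 * 7 by norm_num, legendreSym.mul, legendreSym.mul, legendreSym.mul, legendreSym.mul, legendreSym.mul, legendreSym.mul, hn, h2, h7, sg_mul, sg_mul, sg_mul, sg_mul, sg_mul, sg_mul]
    exact h.trans (congrArg sg (by cases n <;> cases t2 <;> cases t7 <;> rfl))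
  have cm99 : legendreSym P (-99) = sg (n ^^ t11) := by
    have h : legendreSym P (-99) = sg (((n ^^ t3) ^^ t3) ^^ t11) := by
      rw [show (-99 : ℤ) = (-1) * 3 * 3 * 11 by norm_num, legendreSym.mul, legendreSym.mul, legendreSym.mul, hn, h3, h11, sg_mul, sg_mul, sg_mul]
    exact h.trans (congrArg sg (by cases n <;> cases t3 <;> cases t11 <;> rfl))
  have cm77 : legendreSym P (-77) = sg (n ^^ t7 ^^ t11) := by
    have h : legendreSym P (-77) = sg ((n ^^ t7) ^^ t11) := by
      rw [show (-77 : ℤ) = (-1) * 7 * 11 by norm_num, legendreSym.mul, legendreSym.mul, hn, h7, h11, sg_mul, sg_mul]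
    exact h.trans (congrArg sg (by cases n <;> cases t7 <;> cases t11 <;> rfl))
  have cm35 : legendreSym P (-35) = sg (n ^^ t5 ^^ t7) := by
    have h : legendreSym P (-35) = sg ((n ^^ t5) ^^ t7) := by
      rw [show (-35 : ℤ) = (-1) * 5 * 7 by norm_num, legendreSym.mul, legendreSym.mul, hn, h5, h7, sg_mul, sg_mul]
    exact h.trans (congrArg sg (by cases n <;> cases t5 <;> cases t7 <;> rfl))
  have c2 : legendreSym P 2 = sg (t2) := h2
  have c3 : legendreSym P 3 = sg (t3) := h3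
  have c4 : legendreSym P 4 = sg (false) := by
    have h : legendreSym P 4 = sg (t2 ^^ t2) := by
      rw [show (4 : ℤ) = 2 * 2 by norm_num, legendreSym.mul, h2, sg_mul]
    exact h.trans (congrArg sg (by cases t2 <;> rfl))
  have c6 : legendreSym P 6 = sg (t2 ^^ t3) := by
    have h : legendreSym P 6 = sg (t2 ^^ t3) := by
      rw [show (6 : ℤ) = 2 * 3 by norm_num, legendreSym.mul, h2, h3, sg_mul]
    exact h.trans (congrArg sg (by cases t2 <;> cases t3 <;> rfl))
  have c27 : legendreSym P 27 = sg (t3) := by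
    have h : legendreSym P 27 = sg ((t3 ^^ t3) ^^ t3) := by
      rw [show (27 : ℤ) = 3 * 3 * 3 by norm_num, legendreSym.mul, legendreSym.mul, h3, sg_mul, sg_mul]
    exact h.trans (congrArg sg (by cases t3 <;> rfl))
  have c108 : legendreSym P 108 = sg (t3) := by
    have h : legendreSym P 108 = sg ((((t2 ^^ t2) ^^ t3) ^^ t3) ^^ t3) := by
      rw [show (108 : ℤ) = 2 * 2 * 3 * 3 * 3 by norm_num, legendreSym.mul, legendreSym.mul, legendreSym.mul, legendreSym.mul, h2, h3, sg_mul, sg_mul, sg_mul, sg_mul]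
    exact h.trans (congrArg sg (by cases t2 <;> cases t3 <;> rfl))
  exact ⟨chi_val (c := 108) (k := (-77)) (m := 1 * τ) (by linear_combination (1) * hP) c108 cm77 hv,
    chi_val (c := 6) (k := (-35)) (m := 1 * τ) (by linear_combination (6) * eA3 + (1) * hP) c6 cm35 hv,
    chi_val (c := 27) (k := (-385)) (m := 32 * τ) (by linear_combination (27) * eS1 + (32) * hP) c27 cm385 hv,
    chi_val (c := 4) (k := (-245)) (m := 9 * τ) (by linear_combination (4) * eS2 + (9) * hP) c4 cm245 hv,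
    chi_val (c := 2) (k := (-99)) (m := 1 * τ) (by linear_combination (2) * eS3 + (1) * hP) c2 cm99 hv,
    chi_val (c := 3) (k := (-224)) (m := 1 * τ) (by linear_combination (3) * eS4 + (1) * hP) c3 cm224 hv⟩

end Pool.Agent.H23.Six
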